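import Mathlib

/-!
# An algebraic estimate (job ALG1 of MP_8465a2_an)
-/

set_option autoImplicit false

open Finset

namespace Pool.Agent.Helper688.Crit.ALG1

/-- exchange of summations -/
theorem swap4 (n : ℕ) (F : Fin n → Fin n → Fin n → Fin n → ℝ) :
    ∑ i, ∑ j, ∑ a, ∑ b, F i j a b = ∑ a, ∑ b, ∑ i, ∑ j, F i j a b := by
  calc ∑ i, ∑ j, ∑ a, ∑ b, F i j a b = ∑ i, ∑ a, ∑ j, ∑ b, F i j a b :=
        Finset.sum_congr rfl fun i _ => Finset.sum_comm
    _ = ∑ a, ∑ i, ∑ j, ∑ b, F i j a b := Finset.sum_comm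
    _ = ∑ a, ∑ i, ∑ b, ∑ j, F i j a b :=
        Finset.sum_congr rfl fun a _ => Finset.sum_congr rfl fun i _ => Finset.sum_comm
    _ = ∑ a, ∑ b, ∑ i, ∑ j, F i j a b := Finset.sum_congr rfl fun a _ => Finset.sum_comm

/-- the double sum of a product of sums -/
theorem expand (n : ℕ) (P W : Fin n → Fin n → ℝ) :
    (∑ i, ∑ a, P i a * W a i) ^ 2 - ∑ i, ∑ j, (∑ a, P i a * W a j) * (∑ b, P j b * W b i) =
      ∑ a, ∑ b, ∑ i, ∑ j, P i a * P j b * (W a i * W b j - W a j * W b i) := by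
  have e1 : (∑ i, ∑ a, P i a * W a i) ^ 2 =
      ∑ a, ∑ b, ∑ i, ∑ j, P i a * P j b * (W a i * W b j) := by
    rw [pow_two, Finset.sum_comm, Finset.sum_mul_sum]
    refine Finset.sum_congr rfl fun a _ => Finset.sum_congr rfl fun b _ => ?_
    rw [Finset.sum_mul_sum]
    refine Finset.sum_congr rfl fun i _ => Finset.sum_congr rfl fun j _ => ?_
    ring
  have e2 : ∑ i, ∑ j, (∑ a, P i a * W a j) * (∑ b, P j b * W b i) =
      ∑ a, ∑ b, ∑ i, ∑ j, P i a * P j b * (W a j * W b i) := by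
    have h1 : ∀ i j, (∑ a, P i a * W a j) * (∑ b, P j b * W b i) =
        ∑ a, ∑ b, P i a * P j b * (W a j * W b i) := by
      intro i j
      rw [Finset.sum_mul_sum]
      refine Finset.sum_congr rfl fun a _ => Finset.sum_congr rfl fun b _ => ?_
      ring
    simp_rw [h1]
    exact swap4 n _
  rw [e1, e2, ← Finset.sum_sub_distrib]
  refine Finset.sum_congr rfl fun a _ => ?_
  rw [← Finset.sum_sub_distrib]
  refine Finset.sum_congr rfl fun b _ => ?_
  rw [← Finset.sum_sub_distrib]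
  refine Finset.sum_congr rfl fun i _ => ?_
  rw [← Finset.sum_sub_distrib]
  refine Finset.sum_congr rfl fun j _ => ?_
  ring

/-- TARGET -/
theorem alg1 (n : ℕ) (M : Fin n → Fin n → ℝ) (hs : ∀ i j, M i j = M j i) (ht : ∑ i, M i i = 0)
    (v : Fin n → ℝ) (c : Fin n) (hc : v c ≠ 0) :
    |2 * ∑ j, (∑ i, v i * M i j) ^ 2 - (∑ i, v i ^ 2) * ∑ i, ∑ j, M i j ^ 2| ≤
      (∑ i, v i ^ 2) ^ 2 * ∑ a, ∑ b, ∑ i, ∑ j,
        |(v c * M a i - v a * M c i) / v c ^ 2 * ((v c * M b j - v b * M c j) / v c ^ 2) -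
         (v c * M a j - v a * M c j) / v c ^ 2 * ((v c * M b i - v b * M c i) / v c ^ 2)| := by
  set G := ∑ i, v i ^ 2 with hG
  set u : Fin n → ℝ := fun j => ∑ i, v i * M i j with hu
  set W : Fin n → Fin n → ℝ := fun a i => (v c * M a i - v a * M c i) / v c ^ 2 with hW
  have hvG : ∀ i, v i ^ 2 ≤ G := fun i =>
    Finset.single_le_sum (f := fun i => v i ^ 2) (fun i _ => sq_nonneg _) (Finset.mem_univ i)
  have hGpos : 0 < G := lt_of_lt_of_le (by positivity) (hvG c)
  set P : Fin n → Fin n → ℝ := fun i j => (if i = j then 1 else 0) - v i * v j / G with hP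
  have hP1 : ∀ i j, |P i j| ≤ 1 := by
    intro i j
    have h1 := hvG i
    have h2 := hvG j
    rw [abs_le]
    by_cases hij : i = j
    · subst hij
      simp only [hP, if_true]
      have h3 : v i * v i / G ≤ 1 := by rw [div_le_one hGpos]; nlinarith
      have h4 : 0 ≤ v i * v i / G := div_nonneg (mul_self_nonneg _) hGpos.le
      constructor <;> linarith
    · simp only [hP, if_neg hij]
      have h3 : v i * v j / G ≤ 1 := by
        rw [div_le_one hGpos]; nlinarith [sq_nonneg (v i - v j)]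
      have h4 : -1 ≤ v i * v j / G := by
        rw [le_div_iff₀ hGpos]; nlinarith [sq_nonneg (v i + v j)]
      constructor <;> linarith
  -- the matrix P M
  have hPM : ∀ i j, ∑ a, P i a * M a j = M i j - v i * u j / G := by
    intro i j
    simp only [hP, sub_mul, Finset.sum_sub_distrib, ite_mul, one_mul, zero_mul,
      Finset.sum_ite_eq, Finset.mem_univ, if_true]
    congr 1
    rw [hu, Finset.mul_sum, Finset.sum_div]
    refine Finset.sum_congr rfl fun a _ => ?_
    ring
  have hPv : ∀ i, ∑ a, P i a * v a = 0 := by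
    intro i
    simp only [hP, sub_mul, Finset.sum_sub_distrib, ite_mul, one_mul, zero_mul,
      Finset.sum_ite_eq, Finset.mem_univ, if_true]
    have h1 : ∑ x, v i * v x / G * v x = v i := by
      have : ∑ x, v i * v x / G * v x = v i / G * G := by
        conv_rhs => rw [hG, Finset.mul_sum]
        refine Finset.sum_congr rfl fun x _ => ?_
        ring
      rw [this, div_mul_cancel₀ _ hGpos.ne']
    rw [h1, sub_self]
  have hPW : ∀ i j, v c * ∑ a, P i a * W a j = M i j - v i * u j / G := by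
    intro i j
    rw [← hPM i j]
    have h1 : v c * ∑ a, P i a * W a j = ∑ a, P i a * M a j - M c j / v c * ∑ a, P i a * v a := by
      rw [Finset.mul_sum, Finset.mul_sum, ← Finset.sum_sub_distrib]
      refine Finset.sum_congr rfl fun a _ => ?_
      simp only [hW]
      field_simp
    rw [h1, hPv, mul_zero, sub_zero]
  -- traces
  have htr : ∑ i, (M i i - v i * u i / G) = - (∑ i, v i * u i) / G := by
    rw [Finset.sum_sub_distrib, ht, ← Finset.sum_div]
    ring
  have hu2 : ∀ i, ∑ j, M i j * v j = u i := by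
    intro i
    rw [hu]
    refine Finset.sum_congr rfl fun j _ => ?_
    rw [hs i j]; ring
  have htr2 : ∑ i, ∑ j, (M i j - v i * u j / G) * (M j i - v j * u i / G) =
      ∑ i, ∑ j, M i j ^ 2 - 2 * (∑ i, u i ^ 2) / G + (∑ i, v i * u i) ^ 2 / G ^ 2 := by
    have h1 : ∀ i j, (M i j - v i * u j / G) * (M j i - v j * u i / G) =
        M i j ^ 2 - u i / G * (M i j * v j) - u j / G * (M j i * v i) +
          (v i * u i) * (v j * u j) / G ^ 2 := by
      intro i j
      rw [hs j i]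
      field_simp
      ring
    simp_rw [h1, Finset.sum_add_distrib, Finset.sum_sub_distrib]
    have h2 : ∑ i, ∑ j, u i / G * (M i j * v j) = (∑ i, u i ^ 2) / G := by
      rw [Finset.sum_div]
      refine Finset.sum_congr rfl fun i _ => ?_
      rw [← Finset.mul_sum, hu2]
      ring
    have h3 : ∑ i, ∑ j, u j / G * (M j i * v i) = (∑ i, u i ^ 2) / G := by
      rw [Finset.sum_comm]; exact h2
    have h4 : ∑ i, ∑ j, (v i * u i) * (v j * u j) / G ^ 2 = (∑ i, v i * u i) ^ 2 / G ^ 2 := by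
      rw [pow_two (∑ i, v i * u i), Finset.sum_mul_sum, Finset.sum_div]
      refine Finset.sum_congr rfl fun i _ => ?_
      rw [Finset.sum_div]
    rw [h2, h3, h4]
    ring
  -- the identity
  have key : 2 * ∑ j, u j ^ 2 - G * ∑ i, ∑ j, M i j ^ 2 = G * v c ^ 2 *
      ∑ a, ∑ b, ∑ i, ∑ j, P i a * P j b * (W a i * W b j - W a j * W b i) := by
    rw [← expand]
    have h1 : G * v c ^ 2 * ((∑ i, ∑ a, P i a * W a i) ^ 2 -
        ∑ i, ∑ j, (∑ a, P i a * W a j) * (∑ b, P j b * W b i)) =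
        G * ((∑ i, v c * ∑ a, P i a * W a i) ^ 2 -
        ∑ i, ∑ j, (v c * ∑ a, P i a * W a j) * (v c * ∑ b, P j b * W b i)) := by
      rw [← Finset.mul_sum]
      have h2 : ∑ i, ∑ j, (v c * ∑ a, P i a * W a j) * (v c * ∑ b, P j b * W b i) =
          v c ^ 2 * ∑ i, ∑ j, (∑ a, P i a * W a j) * (∑ b, P j b * W b i) := by
        rw [Finset.mul_sum]
        refine Finset.sum_congr rfl fun i _ => ?_
        rw [Finset.mul_sum]
        refine Finset.sum_congr rfl fun j _ => ?_
        ring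
      rw [h2]
      ring
    rw [h1]
    simp_rw [hPW]
    rw [htr, htr2]
    field_simp
    ring
  rw [key]
  have hvc : v c ^ 2 ≤ G := hvG c
  have hsum0 : 0 ≤ ∑ a, ∑ b, ∑ i, ∑ j, |W a i * W b j - W a j * W b i| :=
    Finset.sum_nonneg fun a _ => Finset.sum_nonneg fun b _ => Finset.sum_nonneg fun i _ =>
      Finset.sum_nonneg fun j _ => abs_nonneg _
  have hbd : |∑ a, ∑ b, ∑ i, ∑ j, P i a * P j b * (W a i * W b j - W a j * W b i)| ≤
      ∑ a, ∑ b, ∑ i, ∑ j, |W a i * W b j - W a j * W b i| := by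
    refine (Finset.abs_sum_le_sum_abs _ _).trans (Finset.sum_le_sum fun a _ => ?_)
    refine (Finset.abs_sum_le_sum_abs _ _).trans (Finset.sum_le_sum fun b _ => ?_)
    refine (Finset.abs_sum_le_sum_abs _ _).trans (Finset.sum_le_sum fun i _ => ?_)
    refine (Finset.abs_sum_le_sum_abs _ _).trans (Finset.sum_le_sum fun j _ => ?_)
    rw [abs_mul, abs_mul]
    have h1 : |P i a| * |P j b| ≤ 1 := by
      have := mul_le_mul (hP1 i a) (hP1 j b) (abs_nonneg _) zero_le_one
      linarith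
    have := mul_le_mul_of_nonneg_right h1 (abs_nonneg (W a i * W b j - W a j * W b i))
    linarith
  rw [abs_mul, abs_mul, abs_of_pos hGpos, abs_of_nonneg (sq_nonneg (v c))]
  have h5 : G * v c ^ 2 ≤ G ^ 2 := by nlinarith
  calc G * v c ^ 2 * |∑ a, ∑ b, ∑ i, ∑ j, P i a * P j b * (W a i * W b j - W a j * W b i)|
      ≤ G ^ 2 * |∑ a, ∑ b, ∑ i, ∑ j, P i a * P j b * (W a i * W b j - W a j * W b i)| :=
        mul_le_mul_of_nonneg_right h5 (abs_nonneg _)
    _ ≤ G ^ 2 * ∑ a, ∑ b, ∑ i, ∑ j, |W a i * W b j - W a j * W b i| :=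
        mul_le_mul_of_nonneg_left hbd (by positivity)

end Pool.Agent.Helper688.Crit.ALG1
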