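import Pool.Agent.Helper688_Crit.Defs

/-!
# An inequality for the `3 × 3` minors of a symmetric matrix of trace zero
-/

set_option autoImplicit false

open Finset

namespace Pool.Agent.Helper688.Crit.ALG2

open Pool.Agent.Helper688.Crit

variable {n : ℕ}

/-- scalar product -/
def dot (f g : Fin n → ℝ) : ℝ := ∑ i, f i * g i

/-- the bilinear form of a matrix -/
def q (M : Fin n → Fin n → ℝ) (f g : Fin n → ℝ) : ℝ := ∑ i, ∑ j, f i * M i j * g j

theorem dot_comm (f g : Fin n → ℝ) : dot f g = dot g f := by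
  unfold dot; exact sum_congr rfl fun i _ => mul_comm _ _

theorem dot_lin (f g h : Fin n → ℝ) (t : ℝ) :
    dot (fun i => f i - t * g i) h = dot f h - t * dot g h := by
  unfold dot
  rw [mul_sum, ← sum_sub_distrib]
  exact sum_congr rfl fun i _ => by ring

theorem q_symm {M : Fin n → Fin n → ℝ} (hs : ∀ i j, M i j = M j i) (f g : Fin n → ℝ) :
    q M f g = q M g f := by
  unfold q
  rw [sum_comm]
  exact sum_congr rfl fun i _ => sum_congr rfl fun j _ => by rw [hs j i]; ring

theorem q_lin (M : Fin n → Fin n → ℝ) (f g h : Fin n → ℝ) (t : ℝ) :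
    q M (fun i => f i - t * g i) h = q M f h - t * q M g h := by
  unfold q
  rw [mul_sum, ← sum_sub_distrib]
  refine sum_congr rfl fun i _ => ?_
  rw [mul_sum, ← sum_sub_distrib]
  exact sum_congr rfl fun j _ => by ring

theorem q_eq (M : Fin n → Fin n → ℝ) (f g : Fin n → ℝ) :
    q M f g = dot (fun j => ∑ i, f i * M i j) g := by
  unfold q dot
  rw [sum_comm]
  exact sum_congr rfl fun j _ => by rw [sum_mul]

theorem dot_self_nonneg (f : Fin n → ℝ) : 0 ≤ dot f f :=
  sum_nonneg fun _ _ => mul_self_nonneg _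

theorem dot_self_zero {f : Fin n → ℝ} (h : dot f f = 0) : ∀ i, f i = 0 := by
  unfold dot at h
  rw [sum_eq_zero_iff_of_nonneg fun _ _ => mul_self_nonneg _] at h
  intro i
  have := h i (mem_univ i)
  simpa using this

theorem expand (M : Fin n → Fin n → ℝ) (v b : Fin n → ℝ) (x y z : ℝ) :
    ∑ i, ∑ j, (M i j - x * (v i * v j) - y * (b i * v j + v i * b j) - z * (b i * b j)) ^ 2 =
      ∑ i, ∑ j, M i j ^ 2 - 2 * (x * q M v v + y * q M b v + y * q M v b + z * q M b b) +
      x ^ 2 * (dot v v * dot v v) +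
      y ^ 2 * (2 * (dot b b * dot v v) + 2 * (dot b v * dot b v)) + z ^ 2 * (dot b b * dot b b) +
      4 * x * y * (dot v v * dot b v) + 2 * x * z * (dot b v * dot b v) +
      4 * y * z * (dot b b * dot b v) := by
  have e1 : ∑ i, ∑ j, (b i * b i) * (v j * v j) = ∑ i, ∑ j, (v i * v i) * (b j * b j) := by
    rw [← sum_mul_sum, ← sum_mul_sum, mul_comm]
  have e2 : ∑ i, ∑ j, (v i * v i) * (b j * v j) = ∑ i, ∑ j, (b i * v i) * (v j * v j) := by
    rw [← sum_mul_sum, ← sum_mul_sum, mul_comm]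
  have e3 : ∑ i, ∑ j, (b i * b i) * (b j * v j) = ∑ i, ∑ j, (b i * v i) * (b j * b j) := by
    rw [← sum_mul_sum, ← sum_mul_sum, mul_comm]
  have h1 : dot b b * dot v v = ∑ i, ∑ j, (b i * b i) * (v j * v j) := sum_mul_sum _ _ _ _
  have h2 : dot v v * dot b v = ∑ i, ∑ j, (v i * v i) * (b j * v j) := sum_mul_sum _ _ _ _
  have h3 : dot b b * dot b v = ∑ i, ∑ j, (b i * b i) * (b j * v j) := sum_mul_sum _ _ _ _
  have h4 : dot v v * dot v v = ∑ i, ∑ j, (v i * v i) * (v j * v j) := sum_mul_sum _ _ _ _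
  have h5 : dot b b * dot b b = ∑ i, ∑ j, (b i * b i) * (b j * b j) := sum_mul_sum _ _ _ _
  have h6 : dot b v * dot b v = ∑ i, ∑ j, (b i * v i) * (b j * v j) := sum_mul_sum _ _ _ _
  have h7 : 2 * (dot b b * dot v v) = ∑ i, ∑ j, ((b i * b i) * (v j * v j) +
      (v i * v i) * (b j * b j)) := by
    simp only [sum_add_distrib]
    rw [← e1, h1]; ring
  have h8 : 4 * x * y * (dot v v * dot b v) = ∑ i, ∑ j, (2 * x * y) * ((v i * v i) * (b j * v j) +
      (b i * v i) * (v j * v j)) := by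
    have e : ∑ i, ∑ j, (2 * x * y) * ((v i * v i) * (b j * v j) + (b i * v i) * (v j * v j)) =
        (2 * x * y) * (∑ i, ∑ j, (v i * v i) * (b j * v j) +
          ∑ i, ∑ j, (b i * v i) * (v j * v j)) := by
      simp only [mul_sum, ← sum_add_distrib, mul_add]
    rw [e, ← e2, h2]; ring
  have h9 : 4 * y * z * (dot b b * dot b v) = ∑ i, ∑ j, (2 * y * z) * ((b i * b i) * (b j * v j) +
      (b i * v i) * (b j * b j)) := by
    have e : ∑ i, ∑ j, (2 * y * z) * ((b i * b i) * (b j * v j) + (b i * v i) * (b j * b j)) =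
        (2 * y * z) * (∑ i, ∑ j, (b i * b i) * (b j * v j) +
          ∑ i, ∑ j, (b i * v i) * (b j * b j)) := by
      simp only [mul_sum, ← sum_add_distrib, mul_add]
    rw [e, ← e3, h3]; ring
  rw [h7, h8, h9, h4, h5, h6]
  unfold q
  simp only [mul_sum, ← sum_add_distrib, ← sum_sub_distrib]
  exact sum_congr rfl fun i _ => sum_congr rfl fun j _ => by ring

/-- the inequality for the quadratic forms -/
theorem main {M : Fin n → Fin n → ℝ} (hs : ∀ i j, M i j = M j i) (v w : Fin n → ℝ)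
    (hw : w = fun j => ∑ i, v i * M i j) (hG : 0 < dot v v)
    (hD : 0 < 2 * dot w w - dot v v * ∑ i, ∑ j, M i j ^ 2) :
    (2 * dot w w - dot v v * ∑ i, ∑ j, M i j ^ 2) ^ 3 ≤
      4 * dot v v * (q M w w - (∑ i, ∑ j, M i j ^ 2) * dot w v / 2) ^ 2 := by
  set G := dot v v with hGd
  set m2 := ∑ i, ∑ j, M i j ^ 2 with hm2
  set a := dot w v with ha
  set W := dot w w with hW
  set γ := q M w w with hγ
  have qvf : ∀ f, q M v f = dot w f := fun f => by rw [q_eq, hw]
  have qfv : ∀ f, q M f v = dot w f := fun f => by rw [q_symm hs, qvf]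
  -- the vector b
  set b : Fin n → ℝ := fun i => w i - a / G * v i with hb
  have hbv : dot b v = 0 := by
    rw [hb, dot_lin, ← ha, ← hGd]; field_simp; ring
  have hwb : dot w b = W - a ^ 2 / G := by
    rw [dot_comm, hb, dot_lin, ← hW, dot_comm v w, ← ha]; ring
  have hbb : dot b b = W - a ^ 2 / G := by
    have : dot b b = dot w b - a / G * dot v b := by
      conv_lhs => rw [hb]
      rw [dot_lin]
    rw [this, dot_comm v b, hbv, hwb]; ring
  set B := W - a ^ 2 / G with hB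
  have hqbb : q M b b = γ - 2 * (a / G) * W + a ^ 3 / G ^ 2 := by
    have e1 : q M b b = q M w b - a / G * q M v b := by
      conv_lhs => rw [hb]
      rw [q_lin]
    have e2 : q M w b = γ - a / G * W := by
      rw [q_symm hs, hb, q_lin, ← hγ, qvf, ← hW]
    rw [e1, e2, qvf, hwb, hB]
    field_simp; ring
  set β := q M b b with hβ
  have hB0 : 0 ≤ B := by rw [← hbb]; exact dot_self_nonneg _
  have hexp : ∀ z : ℝ, 0 ≤ m2 - 2 * (a ^ 2 / G ^ 2 + 2 * B / G + z * β) + a ^ 2 / G ^ 2 +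
      2 * B / G + z ^ 2 * B ^ 2 := by
    intro z
    have h := expand M v b (a / G ^ 2) (1 / G) z
    rw [qvf, qvf, qfv, hwb, ← ha, ← hβ, ← hm2, hbb, hbv, ← hGd] at h
    have h0 : 0 ≤ ∑ i, ∑ j, (M i j - a / G ^ 2 * (v i * v j) - 1 / G * (b i * v j + v i * b j) -
        z * (b i * b j)) ^ 2 := sum_nonneg fun i _ => sum_nonneg fun j _ => sq_nonneg _
    rw [h] at h0
    refine h0.trans (le_of_eq ?_)
    field_simp
    ring
  have hm : a ^ 2 / G ^ 2 + 2 * B / G ≤ m2 := by
    have := hexp 0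
    linarith
  have hDe : 2 * W - G * m2 = 2 * B + 2 * a ^ 2 / G - G * m2 := by
    rw [hB]; ring
  have hDa : 2 * W - G * m2 ≤ a ^ 2 / G := by
    have h1 := mul_le_mul_of_nonneg_left hm hG.le
    have h2 : G * (a ^ 2 / G ^ 2 + 2 * B / G) = a ^ 2 / G + 2 * B := by field_simp
    rw [h2] at h1
    rw [hDe]
    have h3 : 2 * a ^ 2 / G = 2 * (a ^ 2 / G) := by ring
    rw [h3]
    linarith
  have hβa : β ^ 2 ≤ (a / G * B) ^ 2 := by
    rcases hB0.eq_or_lt with h0 | hpos
    · have hb0 := dot_self_zero (hbb.trans h0.symm)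
      have : β = 0 := by
        rw [hβ]; unfold q
        refine sum_eq_zero fun i _ => sum_eq_zero fun j _ => ?_
        rw [hb0 i]; ring
      rw [this, ← h0]; simp
    · have h1 := hexp (β / B ^ 2)
      have h2 : (β / B ^ 2) ^ 2 * B ^ 2 = β ^ 2 / B ^ 2 := by field_simp
      have h3 : β / B ^ 2 * β = β ^ 2 / B ^ 2 := by ring
      rw [h2, h3] at h1
      have h4 : a ^ 2 / G ^ 2 + 2 * B / G + β ^ 2 / B ^ 2 ≤ m2 := by linarith
      have h5 := mul_le_mul_of_nonneg_left h4 hG.le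
      have h6 : G * (a ^ 2 / G ^ 2 + 2 * B / G + β ^ 2 / B ^ 2) =
        a ^ 2 / G + 2 * B + G * (β ^ 2 / B ^ 2) := by field_simp
      rw [h6] at h5
      have h7 : G * (β ^ 2 / B ^ 2) ≤ a ^ 2 / G := by
        have h8 : 2 * a ^ 2 / G = 2 * (a ^ 2 / G) := by ring
        rw [hDe, h8] at hD
        linarith
      have h9 : G * (β ^ 2 / B ^ 2) * (B ^ 2 / G) ≤ a ^ 2 / G * (B ^ 2 / G) :=
        mul_le_mul_of_nonneg_right h7 (by positivity)
      have h10 : G * (β ^ 2 / B ^ 2) * (B ^ 2 / G) = β ^ 2 := by field_simp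
      have h11 : a ^ 2 / G * (B ^ 2 / G) = (a / G * B) ^ 2 := by ring
      rw [h10, h11] at h9
      exact h9
  set D := 2 * W - G * m2 with hDd
  have hD3 : γ - m2 * a / 2 = β + a / G * B + a * D / (2 * G) := by
    rw [hqbb, hDd, hB]
    field_simp
    ring
  rw [hD3]
  have key : (a * D / (2 * G)) ^ 2 ≤ (β + a / G * B + a * D / (2 * G)) ^ 2 := by
    have h1 := sq_le_sq.1 hβa
    rcases le_total 0 a with h | h
    · have h2 : 0 ≤ a / G * B := by positivity
      have h3 : 0 ≤ a * D / (2 * G) := by positivity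
      rw [abs_of_nonneg h2] at h1
      have h4 := neg_abs_le β
      exact pow_le_pow_left₀ h3 (by linarith) 2
    · have h2 : a / G * B ≤ 0 := mul_nonpos_of_nonpos_of_nonneg (div_nonpos_of_nonpos_of_nonneg h hG.le) hB0
      have h3 : a * D / (2 * G) ≤ 0 :=
        div_nonpos_of_nonpos_of_nonneg (mul_nonpos_of_nonpos_of_nonneg h hD.le) (by linarith)
      rw [abs_of_nonpos h2] at h1
      have h4 := le_abs_self β
      rw [← neg_sq (a * D / (2 * G)), ← neg_sq (β + a / G * B + a * D / (2 * G))]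
      exact pow_le_pow_left₀ (by linarith) (by linarith) 2
  have h5 : 4 * G * (a * D / (2 * G)) ^ 2 ≤ 4 * G * (β + a / G * B + a * D / (2 * G)) ^ 2 :=
    mul_le_mul_of_nonneg_left key (by positivity)
  refine le_trans ?_ h5
  have h6 : 4 * G * (a * D / (2 * G)) ^ 2 = a ^ 2 / G * D ^ 2 := by field_simp; ring
  rw [h6]
  calc D ^ 3 = D * D ^ 2 := by ring
    _ ≤ a ^ 2 / G * D ^ 2 := mul_le_mul_of_nonneg_right hDa (sq_nonneg _)

/-- sum of the minors -/
theorem minors {M : Fin n → Fin n → ℝ} (hs : ∀ i j, M i j = M j i) (ht : ∑ i, M i i = 0)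
    (v w : Fin n → ℝ) (hw : w = fun j => ∑ i, v i * M i j) :
    ∑ p, ∑ q, (v p * v q) * ∑ i, ∑ j,
      det3 (M p q) (M p i) (M p j) (M i q) (M i i) (M i j) (M j q) (M j i) (M j j) =
      2 * (q M w w - (∑ i, ∑ j, M i j ^ 2) * dot w v / 2) := by
  have key : ∀ p r, ∑ i, ∑ j,
      det3 (M p r) (M p i) (M p j) (M i r) (M i i) (M i j) (M j r) (M j i) (M j j) =
      2 * ∑ i, ∑ j, M p i * M i j * M j r - (∑ i, ∑ j, M i j ^ 2) * M p r := by
    intro p r
    have e4 : ∑ i, (∑ j, M p j * M j i) * M i r = ∑ i, ∑ j, M p i * M i j * M j r := by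
      simp only [sum_mul]
      rw [sum_comm]
    have h : ∀ i j, det3 (M p r) (M p i) (M p j) (M i r) (M i i) (M i j) (M j r) (M j i) (M j j) =
        M p r * (M i i * M j j) - M p r * M i j ^ 2 - (M p i * M i r) * M j j +
          M p i * M i j * M j r + M p j * M j i * M i r - M i i * (M p j * M j r) := by
      intro i j
      unfold det3
      rw [hs j i]
      ring
    simp only [h, sum_add_distrib, sum_sub_distrib, ← mul_sum, ht, mul_zero, sum_const_zero,
      ← sum_mul, zero_mul]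
    rw [e4]
    ring
  have h1 : ∀ p r, (v p * v r) * ∑ i, ∑ j,
      det3 (M p r) (M p i) (M p j) (M i r) (M i i) (M i j) (M j r) (M j i) (M j j) =
      2 * ∑ i, ∑ j, (v p * M p i) * M i j * (v r * M r j) -
        (∑ i, ∑ j, M i j ^ 2) * (v p * M p r * v r) := by
    intro p r
    rw [key, mul_sub]
    congr 1
    · rw [mul_left_comm, mul_sum]
      congr 1
      refine sum_congr rfl fun i _ => ?_
      rw [mul_sum]
      refine sum_congr rfl fun j _ => ?_
      rw [hs r j]; ring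
    · ring
  simp only [h1, sum_sub_distrib, ← mul_sum]
  have e5 : ∑ p, ∑ r, v p * M p r * v r = dot w v := by
    rw [hw, ← q_eq]; rfl
  have e6 : ∑ p, ∑ r, ∑ i, ∑ j, (v p * M p i) * M i j * (v r * M r j) = q M w w := by
    have e7 : ∀ i j, w i * M i j * w j = ∑ p, ∑ r, (v p * M p i) * M i j * (v r * M r j) := by
      intro i j
      have : w i * M i j * w j = (∑ p, v p * M p i * M i j) * ∑ r, v r * M r j := by
        rw [hw]; simp only; rw [sum_mul]
      rw [this, sum_mul_sum]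
    unfold q
    simp only [e7]
    rw [sum_congr rfl fun p _ => sum_comm]
    rw [sum_comm]
    refine sum_congr rfl fun i _ => ?_
    rw [sum_congr rfl fun p _ => sum_comm]
    rw [sum_comm]
  rw [e5, e6]
  ring

/-- TARGET -/
theorem alg2 (n : ℕ) (M : Fin n → Fin n → ℝ) (hs : ∀ i j, M i j = M j i) (ht : ∑ i, M i i = 0)
    (v : Fin n → ℝ)
    (hD : 0 ≤ 2 * ∑ j, (∑ i, v i * M i j) ^ 2 - (∑ i, v i ^ 2) * ∑ i, ∑ j, M i j ^ 2) :
    (2 * ∑ j, (∑ i, v i * M i j) ^ 2 - (∑ i, v i ^ 2) * ∑ i, ∑ j, M i j ^ 2) ^ 3 ≤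
      (∑ i, v i ^ 2) ^ 3 * (∑ p, ∑ q, ∑ i, ∑ j,
        |det3 (M p q) (M p i) (M p j) (M i q) (M i i) (M i j) (M j q) (M j i) (M j j)|) ^ 2 := by
  have hv : ∑ i, v i ^ 2 = dot v v := sum_congr rfl fun i _ => by ring
  have hW : ∑ j, (∑ i, v i * M i j) ^ 2 = dot (fun j => ∑ i, v i * M i j)
      (fun j => ∑ i, v i * M i j) := sum_congr rfl fun j _ => by ring
  rw [hv, hW] at hD ⊢
  set w : Fin n → ℝ := fun j => ∑ i, v i * M i j with hw
  have hJ0 : 0 ≤ ∑ p, ∑ q, ∑ i, ∑ j,
      |det3 (M p q) (M p i) (M p j) (M i q) (M i i) (M i j) (M j q) (M j i) (M j j)| :=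
    sum_nonneg fun p _ => sum_nonneg fun q _ => sum_nonneg fun i _ => sum_nonneg fun j _ =>
      abs_nonneg _
  have hG0 : 0 ≤ dot v v := dot_self_nonneg v
  rcases hD.eq_or_lt with h0 | hpos
  · rw [← h0, zero_pow three_ne_zero]
    exact mul_nonneg (pow_nonneg hG0 3) (sq_nonneg _)
  · have hG : 0 < dot v v := by
      refine lt_of_le_of_ne hG0 fun h => ?_
      have h1 := dot_self_zero h.symm
      have h2 : dot w w = 0 := by
        refine sum_eq_zero fun j _ => ?_
        have : w j = 0 := by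
          rw [hw]
          exact sum_eq_zero fun i _ => by rw [h1 i, zero_mul]
        rw [this, zero_mul]
      rw [h2, ← h] at hpos
      simp at hpos
    have h1 := main hs v w hw hG hpos
    have h2 := minors hs ht v w hw
    set D3 := ALG2.q M w w - (∑ i, ∑ j, M i j ^ 2) * dot w v / 2 with hD3
    have hvv : ∀ p r, |v p * v r| ≤ dot v v := by
      intro p r
      have hp : ∀ p, v p ^ 2 ≤ dot v v := by
        intro p
        rw [← hv]
        exact single_le_sum (f := fun i => v i ^ 2) (fun i _ => sq_nonneg _) (mem_univ p)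
      rw [abs_mul]
      have e1 := hp p
      have e2 := hp r
      rw [← sq_abs] at e1 e2
      nlinarith [sq_nonneg (|v p| - |v r|)]
    have h3 : |2 * D3| ≤ dot v v * ∑ p, ∑ q, ∑ i, ∑ j,
        |det3 (M p q) (M p i) (M p j) (M i q) (M i i) (M i j) (M j q) (M j i) (M j j)| := by
      rw [← h2, mul_sum]
      refine (abs_sum_le_sum_abs _ _).trans (sum_le_sum fun p _ => ?_)
      rw [mul_sum]
      refine (abs_sum_le_sum_abs _ _).trans (sum_le_sum fun r _ => ?_)
      rw [abs_mul]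
      refine mul_le_mul (hvv p r) ?_ (abs_nonneg _) hG0
      refine (abs_sum_le_sum_abs _ _).trans (sum_le_sum fun i _ => ?_)
      exact abs_sum_le_sum_abs _ _
    have h4 : (2 * D3) ^ 2 ≤ (dot v v * ∑ p, ∑ q, ∑ i, ∑ j,
        |det3 (M p q) (M p i) (M p j) (M i q) (M i i) (M i j) (M j q) (M j i) (M j j)|) ^ 2 := by
      rw [← sq_abs (2 * D3)]
      exact pow_le_pow_left₀ (abs_nonneg _) h3 2
    refine h1.trans ?_
    have h5 : 4 * dot v v * D3 ^ 2 = dot v v * (2 * D3) ^ 2 := by ring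
    rw [h5]
    refine (mul_le_mul_of_nonneg_left h4 hG0).trans (le_of_eq ?_)
    ring

end Pool.Agent.Helper688.Crit.ALG2
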