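import Mathlib

/-!
JOB POW (MP_8465a2_an): power series of a real analytic function with factorial bounds.
-/

set_option autoImplicit false

open MeasureTheory Metric Set Filter Topology
open scoped ContDiff ENNReal NNReal

namespace Pool.Agent.Helper688.Crit.POW

/-- the derivative of a polynomial function -/
theorem hasFDerivAt_eval {n : ℕ} (P : MvPolynomial (Fin n) ℝ) (y : EuclideanSpace ℝ (Fin n)) :
    HasFDerivAt (fun y : EuclideanSpace ℝ (Fin n) => MvPolynomial.eval (fun i => y i) P)
      (∑ l, MvPolynomial.eval (fun i => y i) (MvPolynomial.pderiv l P) •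
        (EuclideanSpace.proj l : EuclideanSpace ℝ (Fin n) →L[ℝ] ℝ)) y := by
  induction P using MvPolynomial.induction_on with
  | C a =>
    simp only [MvPolynomial.eval_C, MvPolynomial.pderiv_C, map_zero, zero_smul,
      Finset.sum_const_zero]
    exact hasFDerivAt_const a y
  | add P Q hP hQ =>
    simp only [map_add, add_smul, Finset.sum_add_distrib]
    exact hP.add hQ
  | mul_X P i hP =>
    have h1 : HasFDerivAt (fun y : EuclideanSpace ℝ (Fin n) => y i)
        (EuclideanSpace.proj i : EuclideanSpace ℝ (Fin n) →L[ℝ] ℝ) y :=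
      (EuclideanSpace.proj i : EuclideanSpace ℝ (Fin n) →L[ℝ] ℝ).hasFDerivAt
    have h2 := hP.mul h1
    have e1 : (fun y : EuclideanSpace ℝ (Fin n) =>
        MvPolynomial.eval (fun i => y i) (P * MvPolynomial.X i)) =
        fun y : EuclideanSpace ℝ (Fin n) => MvPolynomial.eval (fun i => y i) P * y i := by
      funext y
      rw [map_mul, MvPolynomial.eval_X]
    rw [e1]
    refine h2.congr_fderiv ?_
    ext v
    simp only [Derivation.leibniz, MvPolynomial.pderiv_X, smul_eq_mul, map_add, map_mul,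
      MvPolynomial.eval_X, add_smul, Finset.sum_add_distrib, add_apply, smul_apply, sum_apply]
    congr 1
    · rw [Finset.sum_eq_single i]
      · simp
      · intro b _ hb
        rw [Pi.single_eq_of_ne (Ne.symm hb)]
        simp
      · intro h; exact absurd (Finset.mem_univ _) h
    · rw [Finset.mul_sum]
      refine Finset.sum_congr rfl fun j _ => ?_
      ring

theorem fderiv_single {n : ℕ} (P : MvPolynomial (Fin n) ℝ) (y : EuclideanSpace ℝ (Fin n))
    (l : Fin n) :
    (∑ l, MvPolynomial.eval (fun i => y i) (MvPolynomial.pderiv l P) •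
        (EuclideanSpace.proj l : EuclideanSpace ℝ (Fin n) →L[ℝ] ℝ))
      (EuclideanSpace.single l 1) = MvPolynomial.eval (fun i => y i) (MvPolynomial.pderiv l P) := by
  rw [sum_apply, Finset.sum_eq_single l]
  · simp
  · intro b _ hb
    simp [hb]
  · intro h; exact absurd (Finset.mem_univ _) h

/-- the polynomial of a multilinear map -/
noncomputable def pol {n : ℕ} (k : ℕ)
    (p : ContinuousMultilinearMap ℝ (fun _ : Fin k => EuclideanSpace ℝ (Fin n)) ℝ) :
    MvPolynomial (Fin n) ℝ :=
  ∑ a : Fin k → Fin n, MvPolynomial.C (p fun j => EuclideanSpace.single (a j) (1 : ℝ)) *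
    ∏ j, MvPolynomial.X (a j)

theorem pol_hom {n : ℕ} (k : ℕ)
    (p : ContinuousMultilinearMap ℝ (fun _ : Fin k => EuclideanSpace ℝ (Fin n)) ℝ) :
    (pol k p).IsHomogeneous k := by
  unfold pol
  refine MvPolynomial.IsHomogeneous.sum _ _ _ fun a _ => ?_
  have h1 := MvPolynomial.isHomogeneous_C (Fin n) (p fun j => EuclideanSpace.single (a j) (1 : ℝ))
  have h2 : (∏ j : Fin k, (MvPolynomial.X (a j) : MvPolynomial (Fin n) ℝ)).IsHomogeneous k := by
    have := MvPolynomial.IsHomogeneous.prod (Finset.univ : Finset (Fin k))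
      (fun j => (MvPolynomial.X (a j) : MvPolynomial (Fin n) ℝ)) (fun _ => 1)
      (fun j _ => MvPolynomial.isHomogeneous_X ℝ (a j))
    simpa using this
  have := h1.mul h2
  rwa [zero_add] at this

theorem pol_eval {n : ℕ} (k : ℕ)
    (p : ContinuousMultilinearMap ℝ (fun _ : Fin k => EuclideanSpace ℝ (Fin n)) ℝ)
    (y : EuclideanSpace ℝ (Fin n)) :
    MvPolynomial.eval (fun i => y i) (pol k p) = p fun _ => y := by
  have hy : y = ∑ i, y i • EuclideanSpace.single i (1 : ℝ) := by
    ext j
    simp [Pi.single_apply]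
  have h1 : (p fun _ => y) = p fun _ : Fin k => ∑ i, y i • EuclideanSpace.single i (1 : ℝ) := by
    rw [← hy]
  rw [h1, p.map_sum]
  unfold pol
  rw [map_sum]
  refine Finset.sum_congr rfl fun a _ => ?_
  rw [map_mul, MvPolynomial.eval_C, map_prod]
  simp only [MvPolynomial.eval_X]
  rw [p.map_smul_univ (fun j => y (a j)) (fun j => EuclideanSpace.single (a j) (1 : ℝ)), smul_eq_mul,
    mul_comm]

/-- the derivative on the diagonal -/
noncomputable def dd {n : ℕ} (k : ℕ)
    (p : ContinuousMultilinearMap ℝ (fun _ : Fin k => EuclideanSpace ℝ (Fin n)) ℝ)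
    (y : EuclideanSpace ℝ (Fin n)) : EuclideanSpace ℝ (Fin n) →L[ℝ] ℝ :=
  (p.linearDeriv fun _ => y).comp
    (ContinuousLinearMap.pi fun _ => ContinuousLinearMap.id ℝ (EuclideanSpace ℝ (Fin n)))

theorem hasFDerivAt_dd {n : ℕ} (k : ℕ)
    (p : ContinuousMultilinearMap ℝ (fun _ : Fin k => EuclideanSpace ℝ (Fin n)) ℝ)
    (y : EuclideanSpace ℝ (Fin n)) :
    HasFDerivAt (fun y => MvPolynomial.eval (fun i => y i) (pol k p)) (dd k p y) y := by
  have e : (fun y : EuclideanSpace ℝ (Fin n) => MvPolynomial.eval (fun i => y i) (pol k p)) =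
      fun y => p fun _ => y := funext (pol_eval k p)
  rw [e]
  have h1 : HasFDerivAt (fun y : EuclideanSpace ℝ (Fin n) => (fun _ : Fin k => y))
      (ContinuousLinearMap.pi fun _ => ContinuousLinearMap.id ℝ (EuclideanSpace ℝ (Fin n))) y :=
    (ContinuousLinearMap.pi fun _ : Fin k =>
      ContinuousLinearMap.id ℝ (EuclideanSpace ℝ (Fin n))).hasFDerivAt
  exact (ContinuousMultilinearMap.hasFDerivAt p (fun _ => y)).comp y h1

theorem dd_apply {n : ℕ} (k : ℕ)
    (p : ContinuousMultilinearMap ℝ (fun _ : Fin k => EuclideanSpace ℝ (Fin n)) ℝ)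
    (y v : EuclideanSpace ℝ (Fin n)) :
    dd k p y v = ∑ j, p (Function.update (fun _ => y) j v) := by
  unfold dd
  rw [ContinuousLinearMap.comp_apply, ContinuousMultilinearMap.linearDeriv_apply]
  rfl

theorem dd_le {n : ℕ} (k : ℕ)
    (p : ContinuousMultilinearMap ℝ (fun _ : Fin k => EuclideanSpace ℝ (Fin n)) ℝ)
    (y v : EuclideanSpace ℝ (Fin n)) {B : ℝ} (hB : ‖p‖ ≤ B) :
    ‖dd k p y v‖ ≤ k * B * ‖y‖ ^ (k - 1) * ‖v‖ := by
  have hB0 : 0 ≤ B := (norm_nonneg _).trans hB
  rw [dd_apply]
  have h1 : ∀ j : Fin k, ‖p (Function.update (fun _ => y) j v)‖ ≤ B * ‖y‖ ^ (k - 1) * ‖v‖ := by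
    intro j
    refine (p.le_opNorm _).trans ?_
    have h2 : ∏ i, ‖Function.update (fun _ : Fin k => y) j v i‖ = ‖y‖ ^ (k - 1) * ‖v‖ := by
      rw [← Finset.mul_prod_erase _ _ (Finset.mem_univ j), Function.update_self, mul_comm]
      congr 1
      rw [Finset.prod_congr rfl (g := fun _ => ‖y‖)]
      · rw [Finset.prod_const, Finset.card_erase_of_mem (Finset.mem_univ j), Finset.card_univ,
          Fintype.card_fin]
      · intro i hi
        rw [Function.update_of_ne (Finset.ne_of_mem_erase hi)]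
    rw [h2, mul_assoc]
    exact mul_le_mul_of_nonneg_right hB (by positivity)
  calc ‖∑ j, p (Function.update (fun _ => y) j v)‖ ≤
        ∑ j : Fin k, ‖p (Function.update (fun _ => y) j v)‖ := norm_sum_le _ _
    _ ≤ ∑ _j : Fin k, B * ‖y‖ ^ (k - 1) * ‖v‖ := Finset.sum_le_sum fun j _ => h1 j
    _ = k * B * ‖y‖ ^ (k - 1) * ‖v‖ := by
      rw [Finset.sum_const, Finset.card_univ, Fintype.card_fin, nsmul_eq_mul]
      ring

/-- Taylor formula with remainder for a sequence of derivatives -/
theorem taylor_seq (k : ℕ) : ∀ (H : ℕ → ℝ → ℝ) (B : ℝ),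
    (∀ i ≤ k, ∀ s ∈ Icc (0 : ℝ) 1, HasDerivAt (H i) (H (i + 1) s) s) →
    (∀ s ∈ Icc (0 : ℝ) 1, |H (k + 1) s| ≤ B) →
    ∀ s ∈ Icc (0 : ℝ) 1, |H 0 s - ∑ j ∈ Finset.range (k + 1), H j 0 * s ^ j / j.factorial| ≤
      B * s ^ (k + 1) / (k + 1).factorial := by
  induction k with
  | zero =>
    intro H B hH hB s hs
    have key := image_norm_le_of_norm_deriv_right_le_deriv_boundary (a := 0) (b := 1)
      (f := fun s => H 0 s - H 0 0) (f' := fun s => H 1 s)
      (B := fun s => B * s) (B' := fun _ => B)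
      (fun x hx => ((hH 0 le_rfl x hx).sub_const _).continuousAt.continuousWithinAt)
      (fun x hx => ((hH 0 le_rfl x ⟨hx.1, hx.2.le⟩).sub_const _).hasDerivWithinAt)
      (by simp)
      (fun x => by simpa using (hasDerivAt_id x).const_mul B)
      (fun x hx => hB x ⟨hx.1, hx.2.le⟩)
    have := key hs
    simpa using this
  | succ k ih =>
    intro H B hH hB s hs
    have ih' := ih (fun i => H (i + 1)) B (fun i hi s hs => hH (i + 1) (by omega) s hs) hB
    set D : ℝ → ℝ := fun s => H 0 s - ∑ j ∈ Finset.range (k + 2), H j 0 * s ^ j / j.factorial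
      with hD
    have hDd : ∀ x ∈ Icc (0 : ℝ) 1, HasDerivAt D
        (H 1 x - ∑ j ∈ Finset.range (k + 1), H (j + 1) 0 * x ^ j / j.factorial) x := by
      intro x hx
      refine (hH 0 (by omega) x hx).sub ?_
      have h1 : (fun s : ℝ => ∑ j ∈ Finset.range (k + 2), H j 0 * s ^ j / j.factorial) =
          fun s : ℝ => (∑ j ∈ Finset.range (k + 1), H (j + 1) 0 * s ^ (j + 1) /
            (j + 1).factorial) + H 0 0 := by
        funext s
        rw [Finset.sum_range_succ']
        simp
      rw [h1]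
      refine HasDerivAt.add_const _ (HasDerivAt.fun_sum fun j _ => ?_)
      have h2 := (((hasDerivAt_id x).pow (j + 1)).const_mul (H (j + 1) 0)).div_const
        ((j + 1).factorial : ℝ)
      refine h2.congr_deriv ?_
      have h3 : ((j + 1).factorial : ℝ) = (j + 1) * j.factorial := by
        rw [Nat.factorial_succ]; push_cast; ring
      have h4 : (j.factorial : ℝ) ≠ 0 := by exact_mod_cast j.factorial_ne_zero
      have h5 : (j : ℝ) + 1 ≠ 0 := by positivity
      rw [h3]
      simp only [id, Nat.add_sub_cancel, mul_one]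
      push_cast
      field_simp
    have hBd : ∀ x : ℝ, HasDerivAt (fun s => B * s ^ (k + 2) / (k + 2).factorial)
        (B * x ^ (k + 1) / (k + 1).factorial) x := by
      intro x
      have h2 := (((hasDerivAt_id x).pow (k + 2)).const_mul B).div_const
        ((k + 2).factorial : ℝ)
      refine h2.congr_deriv ?_
      have h3 : ((k + 2).factorial : ℝ) = (k + 2) * (k + 1).factorial := by
        rw [Nat.factorial_succ]; push_cast; ring
      have h4 : ((k + 1).factorial : ℝ) ≠ 0 := by exact_mod_cast (k + 1).factorial_ne_zero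
      have h5 : (k : ℝ) + 2 ≠ 0 := by positivity
      rw [h3]
      simp only [id, mul_one]
      rw [show k + 2 - 1 = k + 1 by omega]
      push_cast
      field_simp
    have key := image_norm_le_of_norm_deriv_right_le_deriv_boundary (a := 0) (b := 1)
      (f := D) (f' := fun x => H 1 x - ∑ j ∈ Finset.range (k + 1), H (j + 1) 0 * x ^ j / j.factorial)
      (B := fun s => B * s ^ (k + 2) / (k + 2).factorial)
      (B' := fun x => B * x ^ (k + 1) / (k + 1).factorial)
      (fun x hx => (hDd x hx).continuousAt.continuousWithinAt)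
      (fun x hx => (hDd x ⟨hx.1, hx.2.le⟩).hasDerivWithinAt)
      (by
        rw [hD]
        simp only
        rw [Finset.sum_range_succ']
        simp)
      hBd
      (fun x hx => ih' x ⟨hx.1, hx.2.le⟩)
    exact key hs

/-- TARGET -/
theorem powser (n : ℕ) (f : EuclideanSpace ℝ (Fin n) → ℝ) (z : EuclideanSpace ℝ (Fin n))
    (A r : ℝ) (hA : 1 ≤ A) (hr : 0 < r) (hf : ContDiffOn ℝ ∞ f (ball z r))
    (hb : ∀ k : ℕ, ∀ x ∈ ball z r, ‖iteratedFDeriv ℝ k f x‖ ≤ A ^ k * k.factorial) :
    ∃ q : ℕ → MvPolynomial (Fin n) ℝ,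
      (∀ k, (q k).IsHomogeneous k) ∧
      (∀ (k : ℕ) (y : EuclideanSpace ℝ (Fin n)),
        |MvPolynomial.eval (fun i => y i) (q k)| ≤ (A * ‖y‖) ^ k) ∧
      (∀ (k : ℕ) (l : Fin n) (y : EuclideanSpace ℝ (Fin n)),
        |MvPolynomial.eval (fun i => y i) (MvPolynomial.pderiv l (q k))|
          ≤ k * A ^ k * ‖y‖ ^ (k - 1)) ∧
      ∀ y : EuclideanSpace ℝ (Fin n), ‖y‖ < r → A * ‖y‖ < 1 →
        HasSum (fun k => MvPolynomial.eval (fun i => y i) (q k)) (f (z + y)) ∧
        ∀ l : Fin n, HasSum
          (fun k => MvPolynomial.eval (fun i => y i) (MvPolynomial.pderiv l (q k)))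
          (fderiv ℝ f (z + y) (EuclideanSpace.single l 1)) := by
  have hA0 : 0 < A := by linarith
  have hzz : z ∈ ball z r := mem_ball_self hr
  obtain ⟨p, hp⟩ : ∃ p : ∀ k : ℕ,
      ContinuousMultilinearMap ℝ (fun _ : Fin k => EuclideanSpace ℝ (Fin n)) ℝ,
      p = fun k => ((k.factorial : ℝ)⁻¹) • iteratedFDeriv ℝ k f z := ⟨_, rfl⟩
  have hpn : ∀ k, ‖p k‖ ≤ A ^ k := by
    intro k
    have h1 := hb k z hzz
    have h2 : (0 : ℝ) < k.factorial := by exact_mod_cast k.factorial_pos
    rw [hp]
    simp only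
    rw [norm_smul, norm_inv, Real.norm_eq_abs, abs_of_pos h2, inv_mul_le_iff₀ h2]
    linarith
  have hqev : ∀ k (y : EuclideanSpace ℝ (Fin n)),
      |MvPolynomial.eval (fun i => y i) (pol k (p k))| ≤ (A * ‖y‖) ^ k := by
    intro k y
    rw [pol_eval, mul_pow]
    have h1 := (p k).le_opNorm (fun _ => y)
    rw [Finset.prod_const, Finset.card_univ, Fintype.card_fin, Real.norm_eq_abs] at h1
    exact h1.trans (mul_le_mul_of_nonneg_right (hpn k) (by positivity))
  have hpd : ∀ k (l : Fin n) (y : EuclideanSpace ℝ (Fin n)),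
      MvPolynomial.eval (fun i => y i) (MvPolynomial.pderiv l (pol k (p k))) =
        dd k (p k) y (EuclideanSpace.single l 1) := by
    intro k l y
    rw [← fderiv_single, (hasFDerivAt_eval (pol k (p k)) y).unique (hasFDerivAt_dd k (p k) y)]
  refine ⟨fun k => pol k (p k), fun k => pol_hom k _, hqev, ?_, ?_⟩
  · intro k l y
    rw [hpd]
    have := dd_le k (p k) y (EuclideanSpace.single l 1) (hpn k)
    simpa using this
  intro y hyr hyA
  -- derivatives along the segment
  have hfd : ∀ k, ∀ x ∈ ball z r, DifferentiableAt ℝ (iteratedFDeriv ℝ k f) x := by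
    intro k x hx
    have h1 : ContDiffAt ℝ ∞ f x := hf.contDiffAt (isOpen_ball.mem_nhds hx)
    have h2 : ContDiffAt ℝ 1 (iteratedFDeriv ℝ k f) x :=
      h1.iteratedFDeriv_right (by exact_mod_cast le_top)
    exact h2.differentiableAt (by norm_num)
  have main : ∀ w : EuclideanSpace ℝ (Fin n), ‖w‖ < r → A * ‖w‖ < 1 →
      HasSum (fun k => MvPolynomial.eval (fun i => w i) (pol k (p k))) (f (z + w)) := by
    intro w hwr hwA
    have hM0 : 0 ≤ A * ‖w‖ := by positivity
    have hsum : Summable fun k => MvPolynomial.eval (fun i => w i) (pol k (p k)) := by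
      refine Summable.of_norm_bounded (summable_geometric_of_lt_one hM0 hwA) fun k => ?_
      rw [Real.norm_eq_abs]
      exact hqev k w
    rw [hsum.hasSum_iff_tendsto_nat]
    have hseg : ∀ s ∈ Icc (0 : ℝ) 1, z + s • w ∈ ball z r := by
      intro s hs
      rw [mem_ball, dist_eq_norm, add_sub_cancel_left, norm_smul, Real.norm_eq_abs,
        abs_of_nonneg hs.1]
      have : s * ‖w‖ ≤ 1 * ‖w‖ := mul_le_mul_of_nonneg_right hs.2 (norm_nonneg _)
      linarith
    have hH : ∀ i, ∀ s ∈ Icc (0 : ℝ) 1,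
        HasDerivAt (fun s => iteratedFDeriv ℝ i f (z + s • w) (fun _ => w))
          (iteratedFDeriv ℝ (i + 1) f (z + s • w) (fun _ => w)) s := by
      intro i s hs
      have h1 := (hfd i _ (hseg s hs)).hasFDerivAt
      have h2 : HasDerivAt (fun s : ℝ => z + s • w) w s := by
        have := ((hasDerivAt_id s).smul_const w).const_add z
        simpa using this
      have h3 := h1.comp_hasDerivAt s h2
      have h4 := (ContinuousMultilinearMap.apply ℝ (fun _ : Fin i => EuclideanSpace ℝ (Fin n)) ℝ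
        (fun _ => w)).hasFDerivAt.comp_hasDerivAt s h3
      exact h4
    have hrem : ∀ k : ℕ, |f (z + w) - ∑ j ∈ Finset.range (k + 1),
        MvPolynomial.eval (fun i => w i) (pol j (p j))| ≤ (A * ‖w‖) ^ (k + 1) := by
      intro k
      have hfac : ((k + 1).factorial : ℝ) ≠ 0 := by exact_mod_cast (k + 1).factorial_ne_zero
      have h1 := taylor_seq k (fun i s => iteratedFDeriv ℝ i f (z + s • w) (fun _ => w))
        ((A * ‖w‖) ^ (k + 1) * (k + 1).factorial) (fun i _ => hH i)
        (fun s hs => by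
          have h2 := (iteratedFDeriv ℝ (k + 1) f (z + s • w)).le_opNorm (fun _ => w)
          rw [Finset.prod_const, Finset.card_univ, Fintype.card_fin, Real.norm_eq_abs] at h2
          refine h2.trans ?_
          have h3 := hb (k + 1) _ (hseg s hs)
          calc _ ≤ A ^ (k + 1) * (k + 1).factorial * ‖w‖ ^ (k + 1) :=
                mul_le_mul_of_nonneg_right h3 (by positivity)
            _ = _ := by rw [mul_pow]; ring) 1 ⟨zero_le_one, le_rfl⟩
      simp only [one_pow, mul_one, zero_smul, add_zero, one_smul, iteratedFDeriv_zero_apply] at h1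
      rw [mul_div_assoc, div_self hfac, mul_one] at h1
      refine le_trans (le_of_eq ?_) h1
      congr 2
      refine Finset.sum_congr rfl fun j _ => ?_
      rw [pol_eval, hp]
      simp only [smul_apply, smul_eq_mul]
      rw [inv_mul_eq_div]
    rw [← tendsto_add_atTop_iff_nat 1, tendsto_iff_norm_sub_tendsto_zero]
    have h5 : Tendsto (fun k : ℕ => (A * ‖w‖) ^ (k + 1)) atTop (𝓝 0) :=
      (tendsto_pow_atTop_nhds_zero_of_lt_one hM0 hwA).comp (tendsto_add_atTop_nat 1)
    refine squeeze_zero (fun _ => norm_nonneg _) (fun k => ?_) h5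
    rw [norm_sub_rev, Real.norm_eq_abs]
    exact hrem k
  refine ⟨main y hyr hyA, fun l => ?_⟩
  -- termwise differentiation
  obtain ⟨t, ht1, ht2⟩ : ∃ t, ‖y‖ < t ∧ t < min r (1 / A) := by
    apply exists_between
    refine lt_min hyr ?_
    rw [lt_div_iff₀ hA0]
    linarith
  have htr : t < r := lt_of_lt_of_le ht2 (min_le_left _ _)
  have ht0 : 0 < t := lt_of_le_of_lt (norm_nonneg _) ht1
  have htA : A * t < 1 := by
    have := lt_of_lt_of_le ht2 (min_le_right _ _)
    rw [lt_div_iff₀ hA0] at this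
    linarith
  have hu : Summable (fun k : ℕ => (k : ℝ) * (A * t) ^ k / t) := by
    have h1 := summable_pow_mul_geometric_of_norm_lt_one 1 (r := A * t) (by
      rw [Real.norm_eq_abs, abs_of_pos (by positivity)]; exact htA)
    simpa using h1.div_const t
  have hbound : ∀ k, ∀ x ∈ ball (0 : EuclideanSpace ℝ (Fin n)) t,
      ‖dd k (p k) x‖ ≤ (k : ℝ) * (A * t) ^ k / t := by
    intro k x hx
    rw [mem_ball_zero_iff] at hx
    refine ContinuousLinearMap.opNorm_le_bound _ (by positivity) fun v => ?_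
    refine (dd_le k (p k) x v (hpn k)).trans ?_
    apply mul_le_mul_of_nonneg_right _ (norm_nonneg _)
    rcases k with _ | k
    · simp
    · rw [Nat.add_sub_cancel]
      have h1 : ‖x‖ ^ k ≤ t ^ k := pow_le_pow_left₀ (norm_nonneg _) hx.le _
      calc ((k + 1 : ℕ) : ℝ) * A ^ (k + 1) * ‖x‖ ^ k ≤ ((k + 1 : ℕ) : ℝ) * A ^ (k + 1) * t ^ k := by
            gcongr
        _ = ((k + 1 : ℕ) : ℝ) * (A * t) ^ (k + 1) / t := by
            rw [mul_pow, pow_succ t k]
            field_simp
  have hyb : y ∈ ball (0 : EuclideanSpace ℝ (Fin n)) t := by rwa [mem_ball_zero_iff]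
  have hts := hasFDerivAt_tsum_of_isPreconnected (𝕜 := ℝ) hu isOpen_ball
    (convex_ball (0 : EuclideanSpace ℝ (Fin n)) t).isPreconnected
    (f := fun k (x : EuclideanSpace ℝ (Fin n)) => MvPolynomial.eval (fun i => x i) (pol k (p k)))
    (f' := fun k x => dd k (p k) x)
    (fun k x _ => hasFDerivAt_dd k (p k) x) hbound hyb (main y hyr hyA).summable hyb
  have heq : (fun x : EuclideanSpace ℝ (Fin n) =>
      ∑' k, MvPolynomial.eval (fun i => x i) (pol k (p k))) =ᶠ[𝓝 y] fun x => f (z + x) := by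
    filter_upwards [isOpen_ball.mem_nhds hyb] with x hx
    rw [mem_ball_zero_iff] at hx
    apply (main x (by linarith) _).tsum_eq
    have : A * ‖x‖ ≤ A * t := mul_le_mul_of_nonneg_left hx.le hA0.le
    linarith
  have hfin : HasFDerivAt (fun x => f (z + x)) (∑' k, dd k (p k) y) y := hts.congr_of_eventuallyEq heq.symm
  have hfe : fderiv ℝ f (z + y) = ∑' k, dd k (p k) y := by
    rw [← fderiv_comp_add_left z]
    exact hfin.fderiv
  have hsd : HasSum (fun k => dd k (p k) y) (∑' k, dd k (p k) y) :=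
    (Summable.of_norm_bounded hu fun k => hbound k y hyb).hasSum
  have hsl := hsd.mapL (ContinuousLinearMap.apply ℝ ℝ (EuclideanSpace.single l (1 : ℝ)))
  rw [hfe]
  simp only [hpd]
  exact hsl

end Pool.Agent.Helper688.Crit.POW
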