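import Pool.Agent.Helper688_Crit.Defs
import Pool.Agent.Helper688_Crit.POW

/-!
# Approximating polynomials
-/

set_option autoImplicit false

open MeasureTheory Metric Set Filter Topology
open scoped ContDiff ENNReal NNReal

namespace Pool.Agent.Helper688.Crit.APX

open Pool.Agent.Helper688.Crit

theorem tail_bd (a : ℕ → ℝ) (k : ℕ) (v : ℝ) (hs : HasSum a v) (K : ℝ)
    (hb : ∀ j, k < j → |a j| ≤ K * (1 / 4) ^ j) (hK : 0 ≤ K) :
    |v - ∑ j ∈ Finset.range (k + 1), a j| ≤ K * (1 / 2) ^ k := by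
  have h1 : HasSum (fun j => a (j + (k + 1))) (v - ∑ j ∈ Finset.range (k + 1), a j) :=
    (hasSum_nat_add_iff' (k + 1)).2 hs
  have h2 : ∀ j, ‖a (j + (k + 1))‖ ≤ K * (1 / 4) ^ (k + 1) * (1 / 4) ^ j := by
    intro j
    have := hb (j + (k + 1)) (by omega)
    rw [Real.norm_eq_abs]
    refine this.trans (le_of_eq ?_)
    rw [pow_add]; ring
  have h3 : HasSum (fun j : ℕ => K * (1 / 4 : ℝ) ^ (k + 1) * (1 / 4) ^ j)
      (K * (1 / 4 : ℝ) ^ (k + 1) * (1 - 1 / 4)⁻¹) :=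
    (hasSum_geometric_of_lt_one (by norm_num) (by norm_num)).mul_left _
  have h4 := tsum_of_norm_bounded h3 h2
  rw [h1.tsum_eq, Real.norm_eq_abs] at h4
  refine h4.trans ?_
  have h5 : ((1 : ℝ) / 4) ^ k ≤ (1 / 2) ^ k := pow_le_pow_left₀ (by norm_num) (by norm_num) k
  have h6 : (0 : ℝ) ≤ (1 / 4) ^ k := by positivity
  rw [pow_succ]
  have : K * ((1 / 4 : ℝ) ^ k * (1 / 4)) * (1 - 1 / 4)⁻¹ = K * ((1 / 4) ^ k * (1 / 3)) := by
    norm_num; ring
  rw [this]
  refine mul_le_mul_of_nonneg_left ?_ hK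
  nlinarith

theorem apx (n : ℕ) (f : E n → ℝ) (A : ℝ) (hA : 1 ≤ A) (hf : ContDiffOn ℝ ∞ f (ball 0 1))
    (hb : ∀ k : ℕ, ∀ x ∈ ball (0 : E n) 1, ‖iteratedFDeriv ℝ k f x‖ ≤ A ^ k * k.factorial) :
    ∃ Tp : ℕ → MvPolynomial (Fin n) ℝ, (∀ k, (Tp k).totalDegree ≤ k) ∧
      ∀ (k : ℕ) (y : E n), ‖y‖ ≤ 1 / (8 * A) →
        |f y - MvPolynomial.eval (fun i => y i) (Tp k)| ≤ (1 / 2) ^ k ∧
        ∀ l : Fin n, |pd l f y -
          MvPolynomial.eval (fun i => y i) (MvPolynomial.pderiv l (Tp k))| ≤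
            (4 * A) * (1 / 2) ^ k := by
  obtain ⟨q, hq1, hq2, hq3, hq4⟩ := POW.powser n f 0 A 1 hA one_pos hf hb
  refine ⟨fun k => ∑ j ∈ Finset.range (k + 1), q j, fun k => ?_, fun k y hy => ?_⟩
  · refine (MvPolynomial.totalDegree_finset_sum _ _).trans ?_
    refine Finset.sup_le fun j hj => ?_
    exact ((hq1 j).totalDegree_le).trans (by simpa [Nat.lt_succ_iff] using hj)
  · have hA0 : 0 < A := by linarith
    have h8 : A * ‖y‖ ≤ 1 / 8 := by
      have := mul_le_mul_of_nonneg_left hy hA0.le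
      refine this.trans (le_of_eq ?_)
      field_simp
    have hy1 : ‖y‖ < 1 := by
      have h9 : ‖y‖ ≤ A * ‖y‖ := by nlinarith [norm_nonneg y]
      linarith
    obtain ⟨h1, h2⟩ := hq4 y hy1 (by linarith)
    rw [zero_add] at h1 h2
    have hAy : 0 ≤ A * ‖y‖ := by positivity
    constructor
    · have := tail_bd _ k _ h1 1 (fun j _ => ?_) zero_le_one
      · rw [map_sum]
        simpa using this
      · refine (hq2 j y).trans ?_
        rw [one_mul]
        exact pow_le_pow_left₀ hAy (by linarith) j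
    · intro l
      have := tail_bd _ k _ (h2 l) (4 * A) (fun j hj => ?_) (by positivity)
      · rw [map_sum, map_sum]
        exact this
      · refine (hq3 j l y).trans ?_
        have hj1 : 1 ≤ j := by omega
        obtain ⟨i, rfl⟩ : ∃ i, j = i + 1 := ⟨j - 1, by omega⟩
        simp only [Nat.add_sub_cancel]
        have e1 : ((i + 1 : ℕ) : ℝ) * A ^ (i + 1) * ‖y‖ ^ i = A * ((i + 1 : ℕ) * (A * ‖y‖) ^ i) := by
          rw [mul_pow]; ring
        rw [e1]
        have h3 : (A * ‖y‖) ^ i ≤ (1 / 8) ^ i := pow_le_pow_left₀ hAy h8 i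
        have h4 : ((i + 1 : ℕ) : ℝ) ≤ 2 ^ i := by
          exact_mod_cast Nat.lt_two_pow_self (n := i)
        have h5 : ((i + 1 : ℕ) : ℝ) * (A * ‖y‖) ^ i ≤ 2 ^ i * (1 / 8) ^ i :=
          mul_le_mul h4 h3 (by positivity) (by positivity)
        have h6 : (2 : ℝ) ^ i * (1 / 8) ^ i = (1 / 4) ^ i := by
          rw [← mul_pow]; norm_num
        rw [h6] at h5
        have h7 : 4 * A * (1 / 4) ^ (i + 1) = A * (1 / 4) ^ i := by
          rw [pow_succ]; ring
        rw [h7]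
        exact mul_le_mul_of_nonneg_left h5 hA0.le

end Pool.Agent.Helper688.Crit.APX
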