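import Mathlib

set_option autoImplicit false

open MeasureTheory Metric Set Filter Topology
open scoped ContDiff ENNReal NNReal

namespace Pool.Agent.Helper688.Crit.AREA

theorem exists_nhd (n : ℕ) (G : (Fin n → ℝ) → (Fin n → ℝ)) (U : Set (Fin n → ℝ)) (hU : IsOpen U)
    (hG : ContDiffOn ℝ 1 G U) (x : Fin n → ℝ) (hx : x ∈ U) (hd : (fderiv ℝ G x).det ≠ 0) :
    ∃ O : Set (Fin n → ℝ), IsOpen O ∧ x ∈ O ∧ O ⊆ {x | x ∈ U ∧ (fderiv ℝ G x).det ≠ 0} ∧
      InjOn G O := by
  have hGx : ContDiffAt ℝ 1 G x := hG.contDiffAt (hU.mem_nhds hx)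
  have hstrict : HasStrictFDerivAt G (fderiv ℝ G x) x := hGx.hasStrictFDerivAt (by norm_num)
  obtain ⟨A, hA⟩ : ∃ A : (Fin n → ℝ) ≃L[ℝ] (Fin n → ℝ), (A : (Fin n → ℝ) →L[ℝ] (Fin n → ℝ)) =
      fderiv ℝ G x := ⟨(fderiv ℝ G x).toContinuousLinearEquivOfDetNeZero hd, by ext; rfl⟩
  rw [← hA] at hstrict
  have hcont : ContinuousOn (fun y => (fderiv ℝ G y).det) U :=
    ContinuousLinearMap.continuous_det.comp_continuousOn
      (hG.continuousOn_fderiv_of_isOpen hU (by norm_num))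
  have hW : IsOpen {y | y ∈ U ∧ (fderiv ℝ G y).det ≠ 0} :=
    hcont.isOpen_inter_preimage hU isOpen_ne
  let e := hstrict.toOpenPartialHomeomorph G
  refine ⟨e.source ∩ {y | y ∈ U ∧ (fderiv ℝ G y).det ≠ 0}, e.open_source.inter hW,
    ⟨hstrict.mem_toOpenPartialHomeomorph_source, hx, hd⟩, inter_subset_right, ?_⟩
  have h1 : InjOn e e.source := e.injOn
  exact (h1.mono inter_subset_left)

/-- TARGET -/
theorem area_le (n m : ℕ) (G : (Fin n → ℝ) → (Fin n → ℝ)) (U : Set (Fin n → ℝ)) (hU : IsOpen U)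
    (hG : ContDiffOn ℝ 1 G U)
    (hm : ∀ (b : Fin n → ℝ) (F : Finset (Fin n → ℝ)),
      (∀ x ∈ F, x ∈ U ∧ G x = b ∧ (fderiv ℝ G x).det ≠ 0) → F.card ≤ m)
    (Om : Set (Fin n → ℝ)) (hOm : MeasurableSet Om) (hOU : Om ⊆ U)
    (Bx : Set (Fin n → ℝ)) (hBx : MeasurableSet Bx) (hmaps : ∀ x ∈ Om, G x ∈ Bx) :
    ∫⁻ x in Om, ENNReal.ofReal |(fderiv ℝ G x).det| ≤ m * volume Bx := by
  classical
  obtain ⟨W, hW⟩ : ∃ W : Set (Fin n → ℝ), W = {y | y ∈ U ∧ (fderiv ℝ G y).det ≠ 0} := ⟨_, rfl⟩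
  have hcont : ContinuousOn (fun y => (fderiv ℝ G y).det) U :=
    ContinuousLinearMap.continuous_det.comp_continuousOn
      (hG.continuousOn_fderiv_of_isOpen hU (by norm_num))
  have hWo : IsOpen W := by
    rw [hW]
    exact hcont.isOpen_inter_preimage hU isOpen_ne
  -- a countable cover
  obtain ⟨O, hO1, hO2, hO3⟩ : ∃ O : ℕ → Set (Fin n → ℝ), (∀ j, IsOpen (O j)) ∧
      (∀ j, O j ⊆ W ∧ InjOn G (O j)) ∧ W ⊆ ⋃ j, O j := by
    have h1 : ∀ x : Fin n → ℝ, ∃ O : Set (Fin n → ℝ), IsOpen O ∧ (x ∈ W → x ∈ O) ∧ O ⊆ W ∧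
        InjOn G O := by
      intro x
      by_cases hx : x ∈ W
      · rw [hW] at hx
        obtain ⟨O, h1, h2, h3, h4⟩ := exists_nhd n G U hU hG x hx.1 hx.2
        exact ⟨O, h1, fun _ => h2, by rw [hW]; exact h3, h4⟩
      · exact ⟨∅, isOpen_empty, fun h => absurd h hx, empty_subset _, injOn_empty _⟩
    choose O hO1 hO2 hO3 hO4 using h1
    obtain ⟨t, _, htc, htW⟩ := TopologicalSpace.countable_cover_nhdsWithin (s := W) (f := O)
      fun x hx => mem_nhdsWithin_of_mem_nhds ((hO1 x).mem_nhds (hO2 x hx))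
    rcases t.eq_empty_or_nonempty with rfl | hne
    · refine ⟨fun _ => ∅, fun _ => isOpen_empty, fun _ => ⟨empty_subset _, injOn_empty _⟩, ?_⟩
      intro x hx
      have := htW hx
      simp at this
    · obtain ⟨f, rfl⟩ := htc.exists_eq_range hne
      refine ⟨fun j => O (f j), fun j => hO1 _, fun j => ⟨hO3 _, hO4 _⟩, ?_⟩
      intro x hx
      have := htW hx
      simpa using this
  obtain ⟨A, hA⟩ : ∃ A : ℕ → Set (Fin n → ℝ), A = disjointed O := ⟨_, rfl⟩
  have hAm : ∀ j, MeasurableSet (A j) := by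
    rw [hA]
    exact MeasurableSet.disjointed fun j => (hO1 j).measurableSet
  have hAO : ∀ j, A j ⊆ O j := by
    rw [hA]
    exact disjointed_subset O
  have hAd : Pairwise (Function.onFun Disjoint A) := by
    rw [hA]
    exact disjoint_disjointed O
  have hAU : ⋃ j, A j = W := by
    rw [hA, iUnion_disjointed]
    exact subset_antisymm (iUnion_subset fun j => (hO2 j).1) hO3
  -- the sets
  obtain ⟨S, hS⟩ : ∃ S : ℕ → Set (Fin n → ℝ), S = fun j => Om ∩ A j := ⟨_, rfl⟩
  have hSm : ∀ j, MeasurableSet (S j) := fun j => by rw [hS]; exact hOm.inter (hAm j)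
  have hSd : Pairwise (Function.onFun Disjoint S) := by
    intro i j hij
    rw [hS]
    exact (hAd hij).mono inter_subset_right inter_subset_right
  have hSW : ∀ j, S j ⊆ W := fun j => by
    rw [hS]
    exact inter_subset_right.trans ((hAO j).trans (hO2 j).1)
  have hSinj : ∀ j, InjOn G (S j) := fun j => by
    rw [hS]
    exact (hO2 j).2.mono (inter_subset_right.trans (hAO j))
  have hder : ∀ j, ∀ x ∈ S j, HasFDerivWithinAt G (fderiv ℝ G x) (S j) x := by
    intro j x hx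
    have h1 := hSW j hx
    rw [hW] at h1
    exact ((hG.contDiffAt (hU.mem_nhds h1.1)).differentiableAt
      (by norm_num)).hasFDerivAt.hasFDerivWithinAt
  have himm : ∀ j, MeasurableSet (G '' S j) := fun j =>
    measurable_image_of_fderivWithin (hSm j) (hder j) (hSinj j)
  have h1 : ∫⁻ x in Om, ENNReal.ofReal |(fderiv ℝ G x).det| =
      ∫⁻ x in Om ∩ W, ENNReal.ofReal |(fderiv ℝ G x).det| := by
    rw [← lintegral_inter_add_sdiff _ Om hWo.measurableSet]
    have h2 : ∫⁻ x in Om \ W, ENNReal.ofReal |(fderiv ℝ G x).det| = 0 := by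
      rw [setLIntegral_congr_fun (g := fun _ => 0) (hOm.diff hWo.measurableSet), lintegral_zero]
      intro x hx
      have h3 : (fderiv ℝ G x).det = 0 := by
        by_contra hc
        exact hx.2 (by rw [hW]; exact ⟨hOU hx.1, hc⟩)
      simp only [h3, abs_zero, ENNReal.ofReal_zero]
    rw [h2, add_zero]
  have h2 : Om ∩ W = ⋃ j, S j := by
    rw [hS, ← hAU, inter_iUnion]
  rw [h1, h2, lintegral_iUnion hSm hSd]
  have h3 : ∀ j, ∫⁻ x in S j, ENNReal.ofReal |(fderiv ℝ G x).det| =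
      ∫⁻ y, (G '' S j).indicator 1 y := by
    intro j
    rw [lintegral_abs_det_fderiv_eq_addHaar_image volume (hSm j) (hder j) (hSinj j),
      lintegral_indicator_one (himm j)]
  simp only [h3]
  rw [← lintegral_tsum fun j => (measurable_one.indicator (himm j)).aemeasurable]
  have h4 : (m : ℝ≥0∞) * volume Bx = ∫⁻ y, m * Bx.indicator 1 y := by
    rw [lintegral_const_mul _ (measurable_one.indicator hBx), lintegral_indicator_one hBx]
  rw [h4]
  refine lintegral_mono fun y => ?_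
  rw [ENNReal.tsum_eq_iSup_sum]
  refine iSup_le fun F => ?_
  by_cases hy : y ∈ Bx
  · rw [indicator_of_mem hy, Pi.one_apply, mul_one]
    have h5 : ∑ j ∈ F, (G '' S j).indicator (1 : (Fin n → ℝ) → ℝ≥0∞) y =
        ((F.filter fun j => y ∈ G '' S j).card : ℝ≥0∞) := by
      rw [Finset.card_filter, Nat.cast_sum]
      refine Finset.sum_congr rfl fun j _ => ?_
      by_cases h : y ∈ G '' S j
      · simp [h]
      · simp [h]
    rw [h5]
    have h6 : ∀ j : ℕ, ∃ x : Fin n → ℝ, y ∈ G '' S j → x ∈ S j ∧ G x = y := by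
      intro j
      by_cases h : y ∈ G '' S j
      · obtain ⟨x, hx, hxy⟩ := h
        exact ⟨x, fun _ => ⟨hx, hxy⟩⟩
      · exact ⟨0, fun h' => absurd h' h⟩
    choose p hp using h6
    have h7 : ((F.filter fun j => y ∈ G '' S j).image p).card =
        (F.filter fun j => y ∈ G '' S j).card := by
      refine Finset.card_image_of_injOn ?_
      intro i hi j hj hij
      by_contra hne
      have hi' := (Finset.mem_filter.1 hi).2
      have hj' := (Finset.mem_filter.1 hj).2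
      have h8 := (hp i hi').1
      rw [hij] at h8
      exact Set.disjoint_left.1 (hSd hne) h8 (hp j hj').1
    rw [← h7]
    refine Nat.cast_le.2 (hm y _ fun x hx => ?_)
    obtain ⟨j, hj, rfl⟩ := Finset.mem_image.1 hx
    have hj' := (Finset.mem_filter.1 hj).2
    have h8 := hSW j (hp j hj').1
    rw [hW] at h8
    exact ⟨h8.1, (hp j hj').2, h8.2⟩
  · have h5 : ∑ j ∈ F, (G '' S j).indicator (1 : (Fin n → ℝ) → ℝ≥0∞) y = 0 := by
      refine Finset.sum_eq_zero fun j _ => indicator_of_notMem ?_ _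
      rintro ⟨x, hx, rfl⟩
      rw [hS] at hx
      exact hy (hmaps x hx.1)
    rw [h5]
    exact bot_le

end Pool.Agent.Helper688.Crit.AREA
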