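import Pool.Agent.Helper688_Crit.Defs

/-!
# An elementary Bezout count
-/

set_option autoImplicit false

open MeasureTheory Metric Set Filter Topology
open scoped ContDiff ENNReal NNReal

namespace Pool.Agent.Helper688.Crit.BEZ

open Pool.Agent.Helper688.Crit

/-- The map is open at a nondegenerate point. -/
theorem map_nhds {n : ℕ} (S : Finset (Fin n)) (p : Fin n → MvPolynomial (Fin n) ℝ)
    (q : MvPolynomial (Fin n) ℝ) (z : Fin n → ℝ) (hz : MvPolynomial.eval z q ≠ 0)
    (hdet : (fderiv ℝ (gmap S (fun l y => MvPolynomial.eval y (p l) / MvPolynomial.eval y q))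
      z).det ≠ 0) :
    Filter.map (gmap S (fun l y => MvPolynomial.eval y (p l) / MvPolynomial.eval y q)) (𝓝 z) =
      𝓝 (gmap S (fun l y => MvPolynomial.eval y (p l) / MvPolynomial.eval y q) z) := by
  have hpoly : ∀ r : MvPolynomial (Fin n) ℝ,
      ContDiffAt ℝ 1 (fun y : Fin n → ℝ => MvPolynomial.eval y r) z :=
    fun r => ((AnalyticOnNhd.eval_mvPolynomial r) z (mem_univ z)).contDiffAt
  have hc : ContDiffAt ℝ 1
      (gmap S (fun l y => MvPolynomial.eval y (p l) / MvPolynomial.eval y q)) z := by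
    rw [contDiffAt_pi]
    intro l
    by_cases hl : l ∈ S
    · simp only [gmap, hl, if_true]
      exact (hpoly _).div (hpoly _) hz
    · simp only [gmap, hl, if_false]
      exact (contDiff_apply ℝ ℝ l).contDiffAt
  have hs := hc.hasStrictFDerivAt (by norm_num)
  rw [← ContinuousLinearMap.coe_toContinuousLinearEquivOfDetNeZero _ hdet] at hs
  exact hs.map_nhds_eq_of_equiv

/-- Near `b` there are `F.card` preimages, separated by a linear form. -/
theorem exists_points {n : ℕ} (S : Finset (Fin n)) (p : Fin n → MvPolynomial (Fin n) ℝ)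
    (q : MvPolynomial (Fin n) ℝ) (b : Fin n → ℝ) (F : Finset (Fin n → ℝ))
    (hF : ∀ x ∈ F, MvPolynomial.eval x q ≠ 0 ∧
      gmap S (fun l y => MvPolynomial.eval y (p l) / MvPolynomial.eval y q) x = b ∧
      (fderiv ℝ (gmap S (fun l y => MvPolynomial.eval y (p l) / MvPolynomial.eval y q)) x).det
        ≠ 0) :
    ∃ (c : Fin n → ℝ) (ε : ℝ), 0 < ε ∧ ∀ y : Fin n → ℝ, (∀ l, |y l - b l| < ε) →
      ∃ x : Fin F.card → (Fin n → ℝ), (∀ i, MvPolynomial.eval (x i) q ≠ 0) ∧
        (∀ i, gmap S (fun l y => MvPolynomial.eval y (p l) / MvPolynomial.eval y q) (x i) = y) ∧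
        Function.Injective (fun i => ∑ l, c l * x i l) := by
  classical
  set G := gmap S (fun l y => MvPolynomial.eval y (p l) / MvPolynomial.eval y q) with hG
  obtain ⟨ell, hell⟩ := Module.exists_dual_forall_apply_ne_zero (K := ℝ)
    (fun pr : {pr : F × F // pr.1 ≠ pr.2} => (pr.1.1 : Fin n → ℝ) - (pr.1.2 : Fin n → ℝ))
    (fun pr h => pr.2 (Subtype.ext (sub_eq_zero.1 h)))
  have hinj : ∀ z ∈ F, ∀ z' ∈ F, z ≠ z' → ell z ≠ ell z' := by
    intro z hz z' hz' hne h
    refine hell ⟨(⟨z, hz⟩, ⟨z', hz'⟩), fun h => hne (congrArg Subtype.val h)⟩ ?_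
    simp [map_sub, h]
  have hcont : Continuous ell := ell.continuous_of_finiteDimensional
  obtain ⟨U, hU, hdisj⟩ := (F.finite_toSet.image ell).t2_separation
  let W : (Fin n → ℝ) → Set (Fin n → ℝ) := fun z =>
    {x | MvPolynomial.eval x q ≠ 0} ∩ ell ⁻¹' (U (ell z))
  have hW : ∀ z ∈ F, W z ∈ 𝓝 z := by
    intro z hz
    refine Filter.inter_mem ?_ ?_
    · exact (isOpen_ne.preimage (MvPolynomial.continuous_eval q)).mem_nhds (hF z hz).1
    · exact ((hU (ell z)).2.preimage hcont).mem_nhds (hU (ell z)).1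
  have hGW : (⋂ z ∈ F, G '' W z) ∈ 𝓝 b := by
    rw [Filter.biInter_finset_mem]
    intro z hz
    have h : Filter.map G (𝓝 z) = 𝓝 (G z) := map_nhds S p q z (hF z hz).1 (hF z hz).2.2
    have h2 : G '' W z ∈ Filter.map G (𝓝 z) := Filter.image_mem_map (hW z hz)
    rw [h, (hF z hz).2.1] at h2
    exact h2
  obtain ⟨ε, hε, hball⟩ := Metric.mem_nhds_iff.1 hGW
  refine ⟨fun l => ell (Pi.single l 1), ε, hε, ?_⟩
  intro y hy
  have hyb : y ∈ ball b ε := by
    rw [mem_ball, dist_pi_lt_iff hε]
    intro l
    rw [Real.dist_eq]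
    exact hy l
  have hmem := hball hyb
  simp only [Set.mem_iInter, Set.mem_image] at hmem
  choose! X hX hXy using hmem
  have helleq : ∀ x : Fin n → ℝ, ∑ l, ell (Pi.single l 1) * x l = ell x := by
    intro x
    rw [LinearMap.pi_apply_eq_sum_univ ell x]
    refine Finset.sum_congr rfl fun l _ => ?_
    rw [smul_eq_mul, mul_comm]
    congr 2
    funext m
    simp [Pi.single_apply, eq_comm]
  refine ⟨fun i => X (F.equivFin.symm i : Fin n → ℝ), fun i => (hX _ (F.equivFin.symm i).2).1,
    fun i => hXy _ (F.equivFin.symm i).2, ?_⟩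
  intro i j hij
  simp only [helleq] at hij
  by_contra hne
  have hne' : (F.equivFin.symm i : Fin n → ℝ) ≠ (F.equivFin.symm j : Fin n → ℝ) := fun h =>
    hne (F.equivFin.symm.injective (Subtype.ext h))
  have hd := hdisj (Set.mem_image_of_mem ell (F.equivFin.symm i).2)
    (Set.mem_image_of_mem ell (F.equivFin.symm j).2)
    (hinj _ (F.equivFin.symm i).2 _ (F.equivFin.symm j).2 hne')
  have h1 := (hX _ (F.equivFin.symm i).2).2
  have h2 := (hX _ (F.equivFin.symm j).2).2
  simp only [Set.mem_preimage] at h1 h2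
  rw [hij] at h1
  exact Set.disjoint_left.1 hd h1 h2

/-- The dimension count. -/
theorem count {n k : ℕ} (S : Finset (Fin n)) (p : Fin n → MvPolynomial (Fin n) ℝ)
    (q : MvPolynomial (Fin n) ℝ) (hp : ∀ l ∈ S, (p l).totalDegree ≤ k) (hq : q.totalDegree ≤ k)
    (b c : Fin n → ℝ) (ε : ℝ) (hε : 0 < ε) (M : ℕ) (hM : 0 < M)
    (hx : ∀ y : Fin n → ℝ, (∀ l, |y l - b l| < ε) →
      ∃ x : Fin M → (Fin n → ℝ), (∀ i, MvPolynomial.eval (x i) q ≠ 0) ∧
        (∀ i, gmap S (fun l y => MvPolynomial.eval y (p l) / MvPolynomial.eval y q) (x i) = y) ∧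
        Function.Injective (fun i => ∑ l, c l * x i l)) (D : ℕ) :
    M * (D + 1) ^ S.card ≤ (S.card * D * k + M) ^ S.card := by
  classical
  obtain ⟨a, ha⟩ : ∃ a, S.card * D * k + M = a + 1 := ⟨S.card * D * k + (M - 1), by omega⟩
  let X : Type := {x : Fin n → ℝ // ∀ l, l ∉ S → x l = b l}
  let ellp : MvPolynomial (Fin n) ℝ := ∑ l, MvPolynomial.C (c l) * MvPolynomial.X l
  have hellp : ∀ x : Fin n → ℝ, MvPolynomial.eval x ellp = ∑ l, c l * x l := by
    intro x
    simp [ellp, map_sum]
  have hellpd : ellp.totalDegree ≤ 1 := by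
    refine MvPolynomial.totalDegree_finsetSum_le fun l _ => ?_
    refine (MvPolynomial.totalDegree_mul _ _).trans ?_
    rw [MvPolynomial.totalDegree_C, MvPolynomial.totalDegree_X]
  let fp : Fin M × (S → Fin (D + 1)) → MvPolynomial (Fin n) ℝ := fun jα =>
    ellp ^ (jα.1 : ℕ) * (∏ l : S, (p l) ^ (jα.2 l : ℕ)) * q ^ (S.card * D - ∑ l, (jα.2 l : ℕ))
  have hsumle : ∀ α : S → Fin (D + 1), ∑ l, (α l : ℕ) ≤ S.card * D := by
    intro α
    calc ∑ l, (α l : ℕ) ≤ ∑ _l : S, D := Finset.sum_le_sum fun l _ => by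
          have := (α l).2; omega
      _ = S.card * D := by simp
  have hfpd : ∀ jα, (fp jα).totalDegree ≤ a := by
    rintro ⟨j, α⟩
    have h1 : (ellp ^ (j : ℕ)).totalDegree ≤ j :=
      (MvPolynomial.totalDegree_pow _ _).trans (by nlinarith)
    have h2 : (∏ l : S, (p l) ^ (α l : ℕ)).totalDegree ≤ (∑ l, (α l : ℕ)) * k := by
      refine (MvPolynomial.totalDegree_finsetProd _ _).trans ?_
      rw [Finset.sum_mul]
      refine Finset.sum_le_sum fun l _ => ?_
      exact (MvPolynomial.totalDegree_pow _ _).trans (Nat.mul_le_mul_left _ (hp l l.2))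
    have h3 : (q ^ (S.card * D - ∑ l, (α l : ℕ))).totalDegree ≤
        (S.card * D - ∑ l, (α l : ℕ)) * k :=
      (MvPolynomial.totalDegree_pow _ _).trans (Nat.mul_le_mul_left _ hq)
    have h4 : (∑ l, (α l : ℕ)) * k + (S.card * D - ∑ l, (α l : ℕ)) * k = S.card * D * k := by
      rw [← add_mul, Nat.add_sub_cancel' (hsumle α)]
    have h5 := MvPolynomial.totalDegree_mul (ellp ^ (j : ℕ) * ∏ l : S, (p l) ^ (α l : ℕ))
      (q ^ (S.card * D - ∑ l, (α l : ℕ)))
    have h6 := MvPolynomial.totalDegree_mul (ellp ^ (j : ℕ)) (∏ l : S, (p l) ^ (α l : ℕ))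
    have h7 := j.2
    simp only [fp]
    omega
  let φ : Fin M × (S → Fin (D + 1)) → (X → ℝ) := fun jα x => MvPolynomial.eval x.1 (fp jα)
  let m : (S → Fin (a + 1)) → (X → ℝ) := fun γ x => ∏ l : S, (x.1 l) ^ (γ l : ℕ)
  have hspan : ∀ r : MvPolynomial (Fin n) ℝ, r.totalDegree ≤ a →
      (fun x : X => MvPolynomial.eval x.1 r) ∈ Submodule.span ℝ (Set.range m) := by
    intro r hr
    have hle : ∀ d ∈ r.support, ∀ l, d l < a + 1 := by
      intro d hd l
      have h1 := MvPolynomial.le_totalDegree hd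
      have h2 : d l ≤ d.sum fun _ e => e := by
        by_cases hl : l ∈ d.support
        · exact Finset.single_le_sum (f := fun i => d i) (fun _ _ => Nat.zero_le _) hl
        · rw [Finsupp.notMem_support_iff.1 hl]; exact Nat.zero_le _
      omega
    have hsum : (fun x : X => MvPolynomial.eval x.1 r) =
        ∑ d ∈ r.support.attach, (r.coeff d.1 * ∏ l ∈ Sᶜ, (b l) ^ (d.1 l)) •
          m (fun l => ⟨d.1 l, hle d.1 d.2 l⟩) := by
      funext x
      rw [MvPolynomial.eval_eq', Finset.sum_apply, ← Finset.sum_attach]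
      refine Finset.sum_congr rfl fun d _ => ?_
      simp only [Pi.smul_apply, smul_eq_mul, m]
      rw [mul_assoc]
      congr 1
      rw [← Finset.prod_mul_prod_compl S, mul_comm]
      congr 1
      · refine Finset.prod_congr rfl fun l hl => ?_
        rw [x.2 l (Finset.mem_compl.1 hl)]
      · exact (Finset.prod_coe_sort S (fun l => (x.1 l) ^ (d.1 l))).symm
    rw [hsum]
    exact Submodule.sum_mem _ fun d _ => Submodule.smul_mem _ _
      (Submodule.subset_span (Set.mem_range_self _))
  have hrange : Set.range φ ≤ Submodule.span ℝ (Set.range m) := by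
    rintro _ ⟨jα, rfl⟩
    exact hspan _ (hfpd jα)
  have hli : LinearIndependent ℝ φ := by
    rw [Fintype.linearIndependent_iff]
    intro g hg
    let tf : (S → Fin (D + 1)) → (S →₀ ℕ) := fun α =>
      Finsupp.equivFunOnFinite.symm (fun l => (α l : ℕ))
    have htf : Function.Injective tf := by
      intro α β h
      have h' := Finsupp.equivFunOnFinite.symm.injective h
      funext l
      exact Fin.ext (congrFun h' l)
    let Cp : Fin M → MvPolynomial S ℝ := fun j =>
      ∑ α, MvPolynomial.monomial (tf α) (g (j, α))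
    have hCe : ∀ j y, MvPolynomial.eval y (Cp j) = ∑ α, g (j, α) * ∏ l, y l ^ (α l : ℕ) := by
      intro j y
      simp only [Cp, map_sum, MvPolynomial.eval_monomial]
      refine Finset.sum_congr rfl fun α _ => ?_
      congr 1
      rw [Finsupp.prod_fintype _ _ (fun _ => pow_zero _)]
      simp [tf]
    have hC0 : ∀ j, Cp j = 0 := by
      intro j
      refine MvPolynomial.funext_set (fun l : S => Set.Ioo (b l - ε) (b l + ε))
        (fun l => Set.Ioo_infinite (by linarith)) ?_
      intro y hy
      simp only [Set.mem_pi, Set.mem_univ, true_implies] at hy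
      let Y : Fin n → ℝ := fun l => if h : l ∈ S then y ⟨l, h⟩ else b l
      have hYS : ∀ l : S, Y l = y l := fun l => by simp [Y]
      have hYb : ∀ l, l ∉ S → Y l = b l := fun l hl => by simp [Y, hl]
      obtain ⟨x, hxq, hxG, hxi⟩ := hx Y (by
        intro l
        by_cases hl : l ∈ S
        · have h1 := hy ⟨l, hl⟩
          have h2 := hYS ⟨l, hl⟩
          simp only at h2
          rw [h2, abs_lt]
          constructor
          · have := h1.1; simp only at this; linarith
          · have := h1.2; simp only at this; linarith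
        · rw [hYb l hl]; simpa using hε)
      have hxb : ∀ i, ∀ l, l ∉ S → x i l = b l := by
        intro i l hl
        have := congrFun (hxG i) l
        simp only [gmap, hl, if_false] at this
        rw [this, hYb l hl]
      have hxp : ∀ i, ∀ l : S, MvPolynomial.eval (x i) (p l) =
          MvPolynomial.eval (x i) q * y l := by
        intro i l
        have := congrFun (hxG i) l
        simp only [gmap, l.2, if_true] at this
        rw [div_eq_iff (hxq i), hYS] at this
        rw [this, mul_comm]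
      have hfe : ∀ i (j : Fin M) (α : S → Fin (D + 1)), MvPolynomial.eval (x i) (fp (j, α)) =
          (∑ l, c l * x i l) ^ (j : ℕ) * (MvPolynomial.eval (x i) q ^ (S.card * D) *
            ∏ l, y l ^ (α l : ℕ)) := by
        intro i j α
        simp only [fp, map_mul, map_pow, map_prod, hellp, hxp, mul_pow,
          Finset.prod_mul_distrib, Finset.prod_pow_eq_pow_sum]
        have : MvPolynomial.eval (x i) q ^ (S.card * D) =
            MvPolynomial.eval (x i) q ^ (∑ l, (α l : ℕ)) *
              MvPolynomial.eval (x i) q ^ (S.card * D - ∑ l, (α l : ℕ)) := by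
          rw [← pow_add, Nat.add_sub_cancel' (hsumle α)]
        rw [this]; ring
      have hz : (fun j => MvPolynomial.eval y (Cp j)) = 0 := by
        refine Matrix.eq_zero_of_forall_index_sum_pow_mul_eq_zero hxi ?_
        intro i
        have h1 := congrFun hg ⟨x i, hxb i⟩
        simp only [Finset.sum_apply, Pi.smul_apply, smul_eq_mul, φ, Pi.zero_apply] at h1
        rw [Fintype.sum_prod_type] at h1
        simp only [hfe] at h1
        have h2 : MvPolynomial.eval (x i) q ^ (S.card * D) *
            ∑ j : Fin M, (∑ l, c l * x i l) ^ (j : ℕ) * MvPolynomial.eval y (Cp j) = 0 := by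
          rw [← h1, Finset.mul_sum]
          refine Finset.sum_congr rfl fun j _ => ?_
          rw [hCe, Finset.mul_sum, Finset.mul_sum]
          refine Finset.sum_congr rfl fun α _ => ?_
          ring
        exact (mul_eq_zero.1 h2).resolve_left (pow_ne_zero _ (hxq i))
      rw [map_zero]
      exact congrFun hz j
    rintro ⟨j, α⟩
    have h1 := congrArg (MvPolynomial.coeff (tf α)) (hC0 j)
    simp only [Cp, MvPolynomial.coeff_sum, MvPolynomial.coeff_monomial,
      MvPolynomial.coeff_zero] at h1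
    rw [Finset.sum_eq_single α] at h1
    · simpa using h1
    · intro β _ hβ
      rw [if_neg (fun h => hβ (htf h))]
    · intro h
      exact absurd (Finset.mem_univ _) h
  have hcard := linearIndependent_le_span_aux' φ hli (Set.range m) hrange
  have hcard2 : Fintype.card (Set.range m) ≤ Fintype.card (S → Fin (a + 1)) :=
    Fintype.card_range_le m
  have h := hcard.trans hcard2
  rw [Fintype.card_prod, Fintype.card_fun, Fintype.card_fun, Fintype.card_fin, Fintype.card_fin,
    Fintype.card_fin, Fintype.card_coe] at h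
  rw [ha]
  exact h

/-- TARGET -/
theorem bezout (n k : ℕ) (S : Finset (Fin n)) (p : Fin n → MvPolynomial (Fin n) ℝ)
    (q : MvPolynomial (Fin n) ℝ) (hp : ∀ l ∈ S, (p l).totalDegree ≤ k) (hq : q.totalDegree ≤ k)
    (b : Fin n → ℝ) (F : Finset (Fin n → ℝ))
    (hF : ∀ x ∈ F, MvPolynomial.eval x q ≠ 0 ∧
      gmap S (fun l y => MvPolynomial.eval y (p l) / MvPolynomial.eval y q) x = b ∧
      (fderiv ℝ (gmap S (fun l y => MvPolynomial.eval y (p l) / MvPolynomial.eval y q)) x).det
        ≠ 0) :
    F.card ≤ (S.card * k + 1) ^ S.card := by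
  rcases Nat.eq_zero_or_pos F.card with h0 | hpos
  · rw [h0]; exact Nat.zero_le _
  obtain ⟨c, ε, hε, hx⟩ := exists_points S p q b F hF
  have h := count S p q hp hq b c ε hε F.card hpos hx F.card
  have h1 : F.card * F.card ^ S.card ≤ F.card * (F.card + 1) ^ S.card :=
    Nat.mul_le_mul_left _ (Nat.pow_le_pow_left (Nat.le_succ _) _)
  have h2 : (S.card * F.card * k + F.card) ^ S.card =
      (S.card * k + 1) ^ S.card * F.card ^ S.card := by
    rw [← mul_pow]; ring
  rw [h2] at h
  exact Nat.le_of_mul_le_mul_right (h1.trans h) (pow_pos hpos _)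

end Pool.Agent.Helper688.Crit.BEZ
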