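import Pool.Agent.Helper688_Crit.Defs

/-!
# The determinant of the derivative of `gmap`
-/

set_option autoImplicit false

open MeasureTheory Metric Set Filter Topology
open scoped ContDiff ENNReal NNReal

namespace Pool.Agent.Helper688.Crit.DET

open Pool.Agent.Helper688.Crit

/-- The determinant of a matrix most of whose rows are basis rows. -/
theorem det_sub (n k : ℕ) (v : Fin k → Fin n) (hv : Function.Injective v)
    (M : Matrix (Fin n) (Fin n) ℝ)
    (h : ∀ l, l ∉ Set.range v → ∀ m, M l m = if l = m then 1 else 0) :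
    M.det = (M.submatrix v v).det := by
  classical
  rw [Matrix.twoBlockTriangular_det M (fun l => l ∈ Set.range v)]
  · have h1 : M.toSquareBlockProp (fun i => ¬ i ∈ Set.range v) = 1 := by
      ext a b
      rw [Matrix.toSquareBlockProp_def, Matrix.of_apply, h a.1 a.2, Matrix.one_apply]
      simp only [Subtype.ext_iff]
    rw [h1, Matrix.det_one, mul_one]
    have h2 : M.submatrix v v = (M.toSquareBlockProp (fun i => i ∈ Set.range v)).submatrix
        (Equiv.ofInjective v hv) (Equiv.ofInjective v hv) := by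
      ext a b
      rw [Matrix.submatrix_apply, Matrix.submatrix_apply, Matrix.toSquareBlockProp_def,
        Matrix.of_apply, Equiv.ofInjective_apply, Equiv.ofInjective_apply]
    rw [h2, Matrix.det_submatrix_equiv_self]
    have key : ∀ (F1 F2 : Fintype {l // l ∈ Set.range v}) (D1 D2 : DecidableEq {l // l ∈ Set.range v})
        (X : Matrix {l // l ∈ Set.range v} {l // l ∈ Set.range v} ℝ),
        @Matrix.det _ D1 F1 ℝ _ X = @Matrix.det _ D2 F2 ℝ _ X := by
      intro F1 F2 D1 D2 X
      obtain rfl : F1 = F2 := Subsingleton.elim _ _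
      obtain rfl : D1 = D2 := Subsingleton.elim _ _
      rfl
    exact key _ _ _ _ _
  · intro l hl m hm
    rw [h l hl, if_neg]
    rintro rfl
    exact hl hm

/-- The derivative of `gmap`. -/
theorem gmap_hasFDerivAt (n : ℕ) (S : Finset (Fin n)) (f : Fin n → (Fin n → ℝ) → ℝ)
    (x : Fin n → ℝ) (hf : ∀ l ∈ S, DifferentiableAt ℝ (f l) x) :
    HasFDerivAt (gmap S f) (ContinuousLinearMap.pi fun l =>
      if l ∈ S then fderiv ℝ (f l) x else ContinuousLinearMap.proj l) x := by
  rw [hasFDerivAt_pi]
  intro l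
  by_cases hl : l ∈ S
  · have h1 : (fun x => gmap S f x l) = f l := by
      funext x
      unfold gmap
      rw [if_pos hl]
    rw [if_pos hl, h1]
    exact (hf l hl).hasFDerivAt
  · have h1 : (fun x => gmap S f x l) = fun x => x l := by
      funext x
      unfold gmap
      rw [if_neg hl]
    rw [if_neg hl, h1]
    exact hasFDerivAt_apply l x

theorem gmap_det (n k : ℕ) (v : Fin k → Fin n) (hv : Function.Injective v) (S : Finset (Fin n))
    (hS : ∀ l, l ∈ S ↔ l ∈ Set.range v) (f : Fin n → (Fin n → ℝ) → ℝ)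
    (x : Fin n → ℝ) (hf : ∀ l ∈ S, DifferentiableAt ℝ (f l) x) :
    (fderiv ℝ (gmap S f) x).det =
      (Matrix.of fun a b : Fin k => pp (v b) (f (v a)) x).det := by
  rw [(gmap_hasFDerivAt n S f x hf).fderiv]
  unfold ContinuousLinearMap.det
  rw [← LinearMap.det_toMatrix', det_sub n k v hv]
  · congr 1
    ext a b
    rw [Matrix.submatrix_apply, LinearMap.toMatrix'_apply, Matrix.of_apply]
    have ha : v a ∈ S := (hS _).2 ⟨a, rfl⟩
    simp [ha, pp]
  · intro l hl m
    have hl' : l ∉ S := fun h => hl ((hS l).1 h)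
    rw [LinearMap.toMatrix'_apply]
    simp [hl', Pi.single_apply]

/-- TARGET 1 -/
theorem det_two (n : ℕ) (i j : Fin n) (hij : i ≠ j) (f : Fin n → (Fin n → ℝ) → ℝ)
    (x : Fin n → ℝ) (hi : DifferentiableAt ℝ (f i) x) (hj : DifferentiableAt ℝ (f j) x) :
    (fderiv ℝ (gmap {i, j} f) x).det =
      pp i (f i) x * pp j (f j) x - pp j (f i) x * pp i (f j) x := by
  have hv : Function.Injective ![i, j] := by
    intro a b hab
    fin_cases a <;> fin_cases b <;> simp_all
  rw [gmap_det n 2 ![i, j] hv {i, j} _ f x _, Matrix.det_fin_two]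
  · simp
  · intro l
    simp [eq_comm, or_comm]
  · intro l hl
    rw [Finset.mem_insert, Finset.mem_singleton] at hl
    rcases hl with rfl | rfl
    · exact hi
    · exact hj

/-- TARGET 2 -/
theorem det_three (n : ℕ) (q i j : Fin n) (hqi : q ≠ i) (hqj : q ≠ j) (hij : i ≠ j)
    (f : Fin n → (Fin n → ℝ) → ℝ) (x : Fin n → ℝ) (hq : DifferentiableAt ℝ (f q) x)
    (hi : DifferentiableAt ℝ (f i) x) (hj : DifferentiableAt ℝ (f j) x) :
    (fderiv ℝ (gmap {q, i, j} f) x).det =
      det3 (pp q (f q) x) (pp i (f q) x) (pp j (f q) x)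
        (pp q (f i) x) (pp i (f i) x) (pp j (f i) x)
        (pp q (f j) x) (pp i (f j) x) (pp j (f j) x) := by
  have hv : Function.Injective ![q, i, j] := by
    intro a b hab
    fin_cases a <;> fin_cases b <;> simp_all
  rw [gmap_det n 3 ![q, i, j] hv {q, i, j} _ f x _, Matrix.det_fin_three]
  · unfold det3
    simp
    ring
  · intro l
    simp [eq_comm]
    tauto
  · intro l hl
    rw [Finset.mem_insert, Finset.mem_insert, Finset.mem_singleton] at hl
    rcases hl with rfl | rfl | rfl
    · exact hq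
    · exact hi
    · exact hj

end Pool.Agent.Helper688.Crit.DET
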