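import Mathlib

/-!
# Critical sets of harmonic functions: definitions
-/

set_option autoImplicit false

open MeasureTheory Metric Set Filter Topology
open scoped ContDiff ENNReal NNReal

namespace Pool.Agent.Helper688.Crit

/-- Euclidean space. -/
abbrev E (n : ℕ) := EuclideanSpace ℝ (Fin n)

/-- The derivative in the direction of the basis vector `i`. -/
noncomputable def pd {n : ℕ} (i : Fin n) (f : E n → ℝ) (x : E n) : ℝ :=
  fderiv ℝ f x (EuclideanSpace.single i 1)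

/-- A polynomial evaluated at a point of Euclidean space. -/
noncomputable def ev {n : ℕ} (p : MvPolynomial (Fin n) ℝ) (x : E n) : ℝ :=
  MvPolynomial.eval (fun i => x i) p

/-- The gradient field `P` of a harmonic function on the unit ball, with analytic bounds. -/
structure Fam (n : ℕ) (A : ℝ) (P : Fin n → E n → ℝ) : Prop where
  smooth : ∀ i, ContDiffOn ℝ ∞ (P i) (ball 0 1)
  bd : ∀ i, ∀ k : ℕ, ∀ x ∈ ball (0 : E n) 1,
    ‖iteratedFDeriv ℝ k (P i) x‖ ≤ A ^ k * k.factorial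
  symm : ∀ i j, ∀ x ∈ ball (0 : E n) 1, pd j (P i) x = pd i (P j) x
  div : ∀ x ∈ ball (0 : E n) 1, ∑ i, pd i (P i) x = 0
  harm : ∀ i, ∀ x ∈ ball (0 : E n) 1, ∑ j, pd j (pd j (P i)) x = 0

/-- `|P|²` -/
noncomputable def gg {n : ℕ} (P : Fin n → E n → ℝ) (x : E n) : ℝ := ∑ i, (P i x) ^ 2

/-- `|DP|²` -/
noncomputable def mm {n : ℕ} (P : Fin n → E n → ℝ) (x : E n) : ℝ := ∑ i, ∑ j, (pd j (P i) x) ^ 2

/-- `|DP · P|²` -/
noncomputable def mp {n : ℕ} (P : Fin n → E n → ℝ) (x : E n) : ℝ :=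
  ∑ j, (∑ i, P i x * pd j (P i) x) ^ 2

/-- the integrand `ε² |DP|² / (|P|² + ε²)²` -/
noncomputable def FF {n : ℕ} (P : Fin n → E n → ℝ) (ε : ℝ) (x : E n) : ℝ :=
  ε ^ 2 * mm P x / (gg P x + ε ^ 2) ^ 2

/-- the function `R`: `(2 |DP P|² - |P|² |DP|²) / |P|⁴` -/
noncomputable def RR {n : ℕ} (P : Fin n → E n → ℝ) (x : E n) : ℝ :=
  (2 * mp P x - gg P x * mm P x) / (gg P x) ^ 2

/-- the derivative of `P a / P c` in the direction `i` -/
noncomputable def WW {n : ℕ} (P : Fin n → E n → ℝ) (c a i : Fin n) (x : E n) : ℝ :=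
  (P c x * pd i (P a) x - P a x * pd i (P c) x) / (P c x) ^ 2

/-- a `3 × 3` determinant -/
def det3 (a1 a2 a3 b1 b2 b3 c1 c2 c3 : ℝ) : ℝ :=
  a1 * (b2 * c3 - b3 * c2) - a2 * (b1 * c3 - b3 * c1) + a3 * (b1 * c2 - b2 * c1)

/-- the `3 × 3` minor with rows `p, i, j` and columns `q, i, j` -/
noncomputable def JJ {n : ℕ} (P : Fin n → E n → ℝ) (p q i j : Fin n) (x : E n) : ℝ :=
  det3 (pd q (P p) x) (pd i (P p) x) (pd j (P p) x)
    (pd q (P i) x) (pd i (P i) x) (pd j (P i) x)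
    (pd q (P j) x) (pd i (P j) x) (pd j (P j) x)

/-- the map of `ℝ^n` that replaces the coordinates `l ∈ S` by `f l x` -/
def gmap {n : ℕ} (S : Finset (Fin n)) (f : Fin n → (Fin n → ℝ) → ℝ) (x : Fin n → ℝ) :
    Fin n → ℝ := fun l => if l ∈ S then f l x else x l

/-- derivative in the direction of the coordinate `m`, for functions on `Fin n → ℝ` -/
noncomputable def pp {n : ℕ} (m : Fin n) (f : (Fin n → ℝ) → ℝ) (x : Fin n → ℝ) : ℝ :=
  fderiv ℝ f x (Pi.single m 1)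

/-- functions with good approximating polynomials on `X` -/
structure Apx (n : ℕ) (B : ℝ) (X : Set (Fin n → ℝ)) (P : Fin n → (Fin n → ℝ) → ℝ)
    (Tp : Fin n → ℕ → MvPolynomial (Fin n) ℝ) : Prop where
  diff : ∀ a, ∀ x ∈ X, DifferentiableAt ℝ (P a) x
  box : ∀ x ∈ X, ∀ l, |x l| ≤ 1
  le_one : ∀ a, ∀ x ∈ X, |P a x| ≤ 1
  pp_le : ∀ a l, ∀ x ∈ X, |pp l (P a) x| ≤ B
  deg : ∀ a k, (Tp a k).totalDegree ≤ k
  apx : ∀ a k, ∀ x ∈ X, |P a x - MvPolynomial.eval x (Tp a k)| ≤ (1 / 2) ^ k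
  apx' : ∀ a k l, ∀ x ∈ X,
    |pp l (P a) x - MvPolynomial.eval x (MvPolynomial.pderiv l (Tp a k))| ≤ B * (1 / 2) ^ k

end Pool.Agent.Helper688.Crit
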