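import Pool.Agent.Helper688_Crit.Defs

/-!
# Comparison with the approximating polynomials (job EE)
-/

set_option autoImplicit false

open MeasureTheory Metric Set Filter Topology
open scoped ContDiff ENNReal NNReal

namespace Pool.Agent.Helper688.Crit.EE

open Pool.Agent.Helper688.Crit

/-- proved in job RAT -/
def StRAT2 : Prop := ∀ (n k : ℕ) (i j : Fin n), i ≠ j →
    ∀ (pa pb pc : MvPolynomial (Fin n) ℝ), pa.totalDegree ≤ k → pb.totalDegree ≤ k →
    pc.totalDegree ≤ k → ∀ (Om : Set (Fin n → ℝ)), MeasurableSet Om →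
    (∀ x ∈ Om, MvPolynomial.eval x pc ≠ 0 ∧
      |MvPolynomial.eval x pa / MvPolynomial.eval x pc| ≤ 2 ∧
      |MvPolynomial.eval x pb / MvPolynomial.eval x pc| ≤ 2 ∧ ∀ l, |x l| ≤ 1) →
    ∫⁻ x in Om, ENNReal.ofReal
      |pp i (fun y => MvPolynomial.eval y pa / MvPolynomial.eval y pc) x *
        pp j (fun y => MvPolynomial.eval y pb / MvPolynomial.eval y pc) x -
       pp j (fun y => MvPolynomial.eval y pa / MvPolynomial.eval y pc) x *
        pp i (fun y => MvPolynomial.eval y pb / MvPolynomial.eval y pc) x| ≤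
      ENNReal.ofReal ((2 * k + 1) ^ 2 * 4 ^ n)

/-- proved in job RAT -/
def StPOL3 : Prop := ∀ (n k : ℕ) (q i j : Fin n), q ≠ i → q ≠ j → i ≠ j →
    ∀ (p1 p2 p3 : MvPolynomial (Fin n) ℝ), p1.totalDegree ≤ k → p2.totalDegree ≤ k →
    p3.totalDegree ≤ k → ∀ (Om : Set (Fin n → ℝ)), MeasurableSet Om → ∀ (ρ : ℝ), 0 ≤ ρ →
    (∀ x ∈ Om, |MvPolynomial.eval x p1| ≤ ρ ∧ |MvPolynomial.eval x p2| ≤ ρ ∧
      |MvPolynomial.eval x p3| ≤ ρ ∧ ∀ l, |x l| ≤ 1) →
    ∫⁻ x in Om, ENNReal.ofReal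
      |det3 (pp q (fun y => MvPolynomial.eval y p1) x) (pp i (fun y => MvPolynomial.eval y p1) x)
          (pp j (fun y => MvPolynomial.eval y p1) x)
        (pp q (fun y => MvPolynomial.eval y p2) x) (pp i (fun y => MvPolynomial.eval y p2) x)
          (pp j (fun y => MvPolynomial.eval y p2) x)
        (pp q (fun y => MvPolynomial.eval y p3) x) (pp i (fun y => MvPolynomial.eval y p3) x)
          (pp j (fun y => MvPolynomial.eval y p3) x)| ≤
      ENNReal.ofReal ((3 * k + 1) ^ 3 * (2 * ρ) ^ 3 * 2 ^ n)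

/-! ## Derivatives of polynomials -/

lemma eval_deriv {n : ℕ} (p : MvPolynomial (Fin n) ℝ) (x : Fin n → ℝ) :
    DifferentiableAt ℝ (fun y => MvPolynomial.eval y p) x ∧
      ∀ l, pp l (fun y => MvPolynomial.eval y p) x =
        MvPolynomial.eval x (MvPolynomial.pderiv l p) := by
  induction p using MvPolynomial.induction_on with
  | C a =>
    simp only [MvPolynomial.eval_C, MvPolynomial.pderiv_C, map_zero]
    refine ⟨differentiableAt_const a, fun l => ?_⟩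
    simp [pp]
  | add p q hp hq =>
    simp only [map_add]
    refine ⟨hp.1.add hq.1, fun l => ?_⟩
    rw [← hp.2 l, ← hq.2 l]
    unfold pp
    rw [fderiv_fun_add hp.1 hq.1]
    rfl
  | mul_X p i hp =>
    have hX : DifferentiableAt ℝ (fun y : Fin n → ℝ => y i) x := differentiableAt_apply i x
    simp only [map_mul, MvPolynomial.eval_X]
    refine ⟨hp.1.mul hX, fun l => ?_⟩
    have h1 : pp l (fun y : Fin n → ℝ => y i) x = if l = i then 1 else 0 := by
      unfold pp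
      have : HasFDerivAt (fun y : Fin n → ℝ => y i)
          (ContinuousLinearMap.proj (R := ℝ) (φ := fun _ : Fin n => ℝ) i) x :=
        (ContinuousLinearMap.proj (R := ℝ) (φ := fun _ : Fin n => ℝ) i).hasFDerivAt
      rw [this.fderiv]
      simp [Pi.single_apply, eq_comm]
    have h2 : pp l (fun y => MvPolynomial.eval y p * y i) x =
        MvPolynomial.eval x p * pp l (fun y : Fin n → ℝ => y i) x +
          x i * pp l (fun y => MvPolynomial.eval y p) x := by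
      unfold pp
      rw [fderiv_fun_mul hp.1 hX]
      simp
    rw [h2, h1, hp.2 l, Derivation.leibniz, MvPolynomial.pderiv_X]
    simp only [smul_eq_mul, map_add, map_mul, MvPolynomial.eval_X]
    by_cases hli : l = i
    · subst hli; simp
    · rw [if_neg hli, Pi.single_eq_of_ne (Ne.symm hli)]; simp

lemma pp_quot {n : ℕ} (p q : MvPolynomial (Fin n) ℝ) (x : Fin n → ℝ) (l : Fin n)
    (hq : MvPolynomial.eval x q ≠ 0) :
    pp l (fun y => MvPolynomial.eval y p / MvPolynomial.eval y q) x =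
      (MvPolynomial.eval x q * MvPolynomial.eval x (MvPolynomial.pderiv l p) -
        MvPolynomial.eval x p * MvPolynomial.eval x (MvPolynomial.pderiv l q)) /
        (MvPolynomial.eval x q) ^ 2 := by
  rw [← (eval_deriv p x).2 l, ← (eval_deriv q x).2 l]
  unfold pp
  have h1 : HasFDerivAt (fun y : Fin n → ℝ => (MvPolynomial.eval y q)⁻¹) _ x :=
    (hasDerivAt_inv hq).comp_hasFDerivAt x (eval_deriv q x).1.hasFDerivAt
  have h2 := ((eval_deriv p x).1.hasFDerivAt.fun_mul h1).fderiv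
  simp only [div_eq_mul_inv] at h2 ⊢
  rw [h2]
  simp only [add_apply, smul_apply, smul_eq_mul]
  field_simp
  ring

/-! ## The choice of the degree -/

lemma pick (L : ℝ) (hL : 0 ≤ L) : ∀ T : ℝ, 0 ≤ T → ∃ k : ℕ,
    (k : ℝ) ≤ (2 * L + 1) * (T + 1) ∧ (1 / 2 : ℝ) ^ k ≤ Real.exp (-L * (T + 1)) := by
  intro T hT
  refine ⟨⌈2 * L * (T + 1)⌉₊, ?_, ?_⟩
  · have h := (Nat.ceil_lt_add_one (show 0 ≤ 2 * L * (T + 1) by positivity)).le
    nlinarith
  · have h1 : (1 / 2 : ℝ) ^ ⌈2 * L * (T + 1)⌉₊ =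
        Real.exp (-(Real.log 2 * ⌈2 * L * (T + 1)⌉₊)) := by
      rw [Real.exp_neg, Real.exp_mul, Real.exp_log (by norm_num), Real.rpow_natCast, one_div,
        inv_pow]
    rw [h1]
    apply Real.exp_le_exp.mpr
    have h2 : 2 * L * (T + 1) ≤ (⌈2 * L * (T + 1)⌉₊ : ℝ) := Nat.le_ceil _
    have h3 : (1 / 2 : ℝ) ≤ Real.log 2 := by
      have := Real.log_two_gt_d9; linarith
    have h4 : (1 / 2 : ℝ) * (2 * L * (T + 1)) ≤ Real.log 2 * (⌈2 * L * (T + 1)⌉₊ : ℝ) := by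
      apply mul_le_mul h3 h2 (by positivity) (by linarith)
    linarith

lemma exp_small (M m T : ℝ) (hM : 0 < M) (hm : 0 ≤ m) (hT : 0 ≤ T) :
    Real.exp (-(m + M) * (T + 1)) ≤ Real.exp (-(m * T)) / M := by
  have h1 : -(m + M) * (T + 1) ≤ -(m * T) + -M := by nlinarith [mul_nonneg hM.le hT]
  have h2 : Real.exp (-M) ≤ 1 / M := by
    rw [Real.exp_neg, ← one_div]
    apply one_div_le_one_div_of_le hM
    have := Real.add_one_le_exp M
    linarith
  calc Real.exp (-(m + M) * (T + 1)) ≤ Real.exp (-(m * T) + -M) := Real.exp_le_exp.mpr h1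
    _ = Real.exp (-(m * T)) * Real.exp (-M) := Real.exp_add _ _
    _ ≤ Real.exp (-(m * T)) * (1 / M) := mul_le_mul_of_nonneg_left h2 (Real.exp_pos _).le
    _ = _ := by ring

lemma vol_le {n : ℕ} (Om : Set (Fin n → ℝ)) (h : ∀ x ∈ Om, ∀ l, |x l| ≤ 1) :
    volume Om ≤ ENNReal.ofReal (2 ^ n) := by
  have hsub : Om ⊆ Set.Icc (fun _ => (-1 : ℝ)) (fun _ => (1 : ℝ)) := by
    intro x hx
    rw [Set.mem_Icc]
    exact ⟨fun l => (abs_le.mp (h x hx l)).1, fun l => (abs_le.mp (h x hx l)).2⟩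
  refine (measure_mono hsub).trans ?_
  rw [Real.volume_Icc_pi]
  simp only [sub_neg_eq_add]
  rw [Finset.prod_const, Finset.card_univ, Fintype.card_fin, ← ENNReal.ofReal_pow (by norm_num)]
  norm_num

/-! ## Elementary estimates -/

lemma abs_mul_le {a b x y : ℝ} (ha : |a| ≤ x) (hb : |b| ≤ y) : |a * b| ≤ x * y := by
  rw [abs_mul]
  exact mul_le_mul ha hb (abs_nonneg _) ((abs_nonneg _).trans ha)

lemma mul_diff {a b a' b' x y u v : ℝ} (ha : |a - a'| ≤ u) (hb : |b - b'| ≤ v) (hx : |a'| ≤ x)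
    (hy : |b| ≤ y) : |a * b - a' * b'| ≤ u * y + x * v := by
  have h : a * b - a' * b' = (a - a') * b + a' * (b - b') := by ring
  rw [h]
  exact (abs_add_le _ _).trans (add_le_add (abs_mul_le ha hy) (abs_mul_le hx hb))

lemma W_close {B e δ Pa Pai Pc Pci A Ai C Ci : ℝ} (hB : 1 ≤ B) (he : 0 < e) (he1 : e ≤ 1)
    (hδ0 : 0 ≤ δ) (hδ : δ ≤ e / 3) (hPc : e ≤ |Pc|) (hPc1 : |Pc| ≤ 1) (hPa1 : |Pa| ≤ 1)
    (hPai : |Pai| ≤ B) (hPci : |Pci| ≤ B) (h1 : |Pa - A| ≤ δ) (h2 : |Pc - C| ≤ δ)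
    (h3 : |Pai - Ai| ≤ B * δ) (h4 : |Pci - Ci| ≤ B * δ) :
    e / 2 ≤ |C| ∧
    |(Pc * Pai - Pa * Pci) / Pc ^ 2 - (C * Ai - A * Ci) / C ^ 2| ≤ 48 * B * δ / e ^ 4 ∧
    |(Pc * Pai - Pa * Pci) / Pc ^ 2| ≤ 2 * B / e ^ 2 := by
  have hB0 : 0 ≤ B := by linarith
  have hC : e / 2 ≤ |C| := by
    have := abs_sub_abs_le_abs_sub Pc C
    linarith
  have hC2 : |C| ≤ 2 := by
    have := abs_sub_abs_le_abs_sub C Pc
    rw [abs_sub_comm] at this
    linarith
  have hA2 : |A| ≤ 2 := by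
    have := abs_sub_abs_le_abs_sub A Pa
    rw [abs_sub_comm] at this
    linarith
  have hX : |Pc * Pai - Pa * Pci| ≤ 2 * B := by
    have e1 := abs_mul_le hPc1 hPai
    have e2 := abs_mul_le hPa1 hPci
    have := abs_sub (Pc * Pai) (Pa * Pci)
    linarith
  have hXY : |(Pc * Pai - Pa * Pci) - (C * Ai - A * Ci)| ≤ 6 * B * δ := by
    have e1 := mul_diff h2 h3 hC2 hPai
    have e2 := mul_diff h1 h4 hA2 hPci
    have e3 : (Pc * Pai - Pa * Pci) - (C * Ai - A * Ci) =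
      (Pc * Pai - C * Ai) - (Pa * Pci - A * Ci) := by ring
    rw [e3]
    have := abs_sub (Pc * Pai - C * Ai) (Pa * Pci - A * Ci)
    nlinarith
  have hD : e ^ 2 ≤ Pc ^ 2 := by
    rw [← sq_abs Pc]; exact pow_le_pow_left₀ he.le hPc 2
  have hE : e ^ 2 / 4 ≤ C ^ 2 := by
    rw [← sq_abs C]
    have := pow_le_pow_left₀ (by positivity : 0 ≤ e / 2) hC 2
    linarith [this, (by ring : (e / 2) ^ 2 = e ^ 2 / 4)]
  have he2 : 0 < e ^ 2 := by positivity
  have hDE : |C ^ 2 - Pc ^ 2| ≤ 3 * δ := by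
    have e1 : C ^ 2 - Pc ^ 2 = (C - Pc) * (C + Pc) := by ring
    rw [e1]
    have e2 : |C + Pc| ≤ 3 := (abs_add_le _ _).trans (by linarith)
    have e3 : |C - Pc| ≤ δ := by rw [abs_sub_comm]; exact h2
    have := abs_mul_le e3 e2
    linarith
  have hD0 : 0 < Pc ^ 2 := lt_of_lt_of_le he2 hD
  have hE0 : 0 < C ^ 2 := lt_of_lt_of_le (by positivity) hE
  refine ⟨hC, ?_, ?_⟩
  · have e1 : (Pc * Pai - Pa * Pci) / Pc ^ 2 - (C * Ai - A * Ci) / C ^ 2 =
        (Pc * Pai - Pa * Pci) * (C ^ 2 - Pc ^ 2) / (Pc ^ 2 * C ^ 2) +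
        ((Pc * Pai - Pa * Pci) - (C * Ai - A * Ci)) / C ^ 2 := by
      have hD0' : Pc ≠ 0 := by
        rintro rfl; simp at hD0
      have hE0' : C ≠ 0 := by
        rintro rfl; simp at hE0
      field_simp
      ring
    rw [e1]
    have e2 : |(Pc * Pai - Pa * Pci) * (C ^ 2 - Pc ^ 2) / (Pc ^ 2 * C ^ 2)| ≤
        24 * B * δ / e ^ 4 := by
      rw [abs_div, abs_of_pos (mul_pos hD0 hE0)]
      have n1 := abs_mul_le hX hDE
      have n2 : e ^ 2 * (e ^ 2 / 4) ≤ Pc ^ 2 * C ^ 2 := mul_le_mul hD hE (by positivity) hD0.le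
      calc |(Pc * Pai - Pa * Pci) * (C ^ 2 - Pc ^ 2)| / (Pc ^ 2 * C ^ 2)
          ≤ (2 * B * (3 * δ)) / (e ^ 2 * (e ^ 2 / 4)) := by
            apply div_le_div₀ (by positivity) n1 (by positivity) n2
        _ = 24 * B * δ / e ^ 4 := by field_simp; ring
    have e3 : |((Pc * Pai - Pa * Pci) - (C * Ai - A * Ci)) / C ^ 2| ≤ 24 * B * δ / e ^ 4 := by
      rw [abs_div, abs_of_pos hE0]
      calc |(Pc * Pai - Pa * Pci) - (C * Ai - A * Ci)| / C ^ 2
          ≤ (6 * B * δ) / (e ^ 2 / 4) := by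
            apply div_le_div₀ (by positivity) hXY (by positivity) hE
        _ = 24 * B * δ / e ^ 2 := by field_simp; ring
        _ ≤ 24 * B * δ / e ^ 4 := by
            apply div_le_div_of_nonneg_left (by positivity) (by positivity)
            exact pow_le_pow_of_le_one he.le he1 (by norm_num)
    calc _ ≤ _ := abs_add_le _ _
      _ ≤ 24 * B * δ / e ^ 4 + 24 * B * δ / e ^ 4 := add_le_add e2 e3
      _ = _ := by ring
  · rw [abs_div, abs_of_pos hD0]
    exact div_le_div₀ (by positivity) hX he2 hD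

lemma minor_close {M η W1 W2 W3 W4 w1 w2 w3 w4 : ℝ} (hηM : η ≤ M)
    (h1 : |W1| ≤ M) (h3 : |W3| ≤ M) (h2 : |W2| ≤ M) (h4 : |W4| ≤ M)
    (d1 : |W1 - w1| ≤ η) (d2 : |W2 - w2| ≤ η) (d3 : |W3 - w3| ≤ η) (d4 : |W4 - w4| ≤ η) :
    |W1 * W2 - W3 * W4| ≤ |w1 * w2 - w3 * w4| + 6 * M * η := by
  have k1 : |w1| ≤ 2 * M := by
    have := abs_sub_abs_le_abs_sub w1 W1
    rw [abs_sub_comm] at this
    linarith
  have k3 : |w3| ≤ 2 * M := by
    have := abs_sub_abs_le_abs_sub w3 W3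
    rw [abs_sub_comm] at this
    linarith
  have e1 := mul_diff d1 d2 k1 h2
  have e2 := mul_diff d3 d4 k3 h4
  have e3 : W1 * W2 - W3 * W4 = (w1 * w2 - w3 * w4) + ((W1 * W2 - w1 * w2) -
    (W3 * W4 - w3 * w4)) := by ring
  rw [e3]
  have e4 := abs_add_le (w1 * w2 - w3 * w4) ((W1 * W2 - w1 * w2) - (W3 * W4 - w3 * w4))
  have e5 := abs_sub (W1 * W2 - w1 * w2) (W3 * W4 - w3 * w4)
  nlinarith

/-- TARGET 1 -/
theorem E1 (h : StRAT2) (n : ℕ) (B : ℝ) (hB : 1 ≤ B) : ∃ C : ℝ, ∀ (X : Set (Fin n → ℝ))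
    (P : Fin n → (Fin n → ℝ) → ℝ) (Tp : Fin n → ℕ → MvPolynomial (Fin n) ℝ), Apx n B X P Tp →
    ∀ (T : ℝ), 0 ≤ T → ∀ (a b c i j : Fin n) (Om : Set (Fin n → ℝ)), MeasurableSet Om → Om ⊆ X →
    (∀ x ∈ Om, Real.exp (-T) ≤ |P c x| ∧ |P a x| ≤ |P c x| ∧ |P b x| ≤ |P c x|) →
    ∫⁻ x in Om, ENNReal.ofReal
      |(P c x * pp i (P a) x - P a x * pp i (P c) x) / (P c x) ^ 2 *
        ((P c x * pp j (P b) x - P b x * pp j (P c) x) / (P c x) ^ 2) -
       (P c x * pp j (P a) x - P a x * pp j (P c) x) / (P c x) ^ 2 *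
        ((P c x * pp i (P b) x - P b x * pp i (P c) x) / (P c x) ^ 2)| ≤
      ENNReal.ofReal (C * (T + 1) ^ 2) := by
  set L : ℝ := 6 + 576 * B ^ 2 with hL
  have hL0 : 0 ≤ L := by positivity
  set K : ℝ := 2 * L + 1 with hK
  have hK0 : 0 ≤ K := by positivity
  refine ⟨(2 * K + 1) ^ 2 * 4 ^ n + 2 ^ n, ?_⟩
  intro X P Tp hA T hT a b c i j Om hOm hOX hc
  have hT1 : 1 ≤ T + 1 := by linarith
  by_cases hij : i = j
  · subst hij
    have : ∀ x : Fin n → ℝ, ENNReal.ofReal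
      |(P c x * pp i (P a) x - P a x * pp i (P c) x) / (P c x) ^ 2 *
        ((P c x * pp i (P b) x - P b x * pp i (P c) x) / (P c x) ^ 2) -
       (P c x * pp i (P a) x - P a x * pp i (P c) x) / (P c x) ^ 2 *
        ((P c x * pp i (P b) x - P b x * pp i (P c) x) / (P c x) ^ 2)| = 0 := by
      intro x
      rw [sub_self, abs_zero, ENNReal.ofReal_zero]
    simp only [this, lintegral_zero]
    exact bot_le
  obtain ⟨k, hk1, hk2⟩ := pick L hL0 T hT
  set δ : ℝ := (1 / 2) ^ k with hδ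
  have hδ0 : 0 < δ := by positivity
  set e : ℝ := Real.exp (-T) with he
  have he0 : 0 < e := Real.exp_pos _
  have he1 : e ≤ 1 := by rw [he, Real.exp_le_one_iff]; linarith
  have hδe : δ ≤ e ^ 6 / (576 * B ^ 2) := by
    refine hk2.trans ((exp_small (576 * B ^ 2) 6 T (by positivity) (by norm_num) hT).trans ?_)
    rw [he, ← Real.exp_nat_mul]
    apply le_of_eq
    congr 2
    push_cast
    ring
  have hB2 : 1 ≤ B ^ 2 := by nlinarith
  have hδe' : 576 * δ * B ^ 2 ≤ e ^ 6 := by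
    rw [le_div_iff₀ (by positivity)] at hδe
    linarith
  have hδe2 : 576 * δ ≤ e ^ 6 := by
    have : 576 * δ * 1 ≤ 576 * δ * B ^ 2 := mul_le_mul_of_nonneg_left hB2 (by positivity)
    linarith
  have he6 : e ^ 6 ≤ e := by
    calc e ^ 6 ≤ e ^ 1 := pow_le_pow_of_le_one he0.le he1 (by norm_num)
      _ = e := pow_one e
  have he62 : e ^ 6 ≤ e ^ 2 := pow_le_pow_of_le_one he0.le he1 (by norm_num)
  have hδ3 : δ ≤ e / 3 := by linarith
  -- the pointwise comparison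
  have hpt : ∀ x ∈ Om, (MvPolynomial.eval x (Tp c k) ≠ 0 ∧
      |MvPolynomial.eval x (Tp a k) / MvPolynomial.eval x (Tp c k)| ≤ 2 ∧
      |MvPolynomial.eval x (Tp b k) / MvPolynomial.eval x (Tp c k)| ≤ 2) ∧
      |(P c x * pp i (P a) x - P a x * pp i (P c) x) / (P c x) ^ 2 *
        ((P c x * pp j (P b) x - P b x * pp j (P c) x) / (P c x) ^ 2) -
       (P c x * pp j (P a) x - P a x * pp j (P c) x) / (P c x) ^ 2 *
        ((P c x * pp i (P b) x - P b x * pp i (P c) x) / (P c x) ^ 2)| ≤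
      |pp i (fun y => MvPolynomial.eval y (Tp a k) / MvPolynomial.eval y (Tp c k)) x *
        pp j (fun y => MvPolynomial.eval y (Tp b k) / MvPolynomial.eval y (Tp c k)) x -
       pp j (fun y => MvPolynomial.eval y (Tp a k) / MvPolynomial.eval y (Tp c k)) x *
        pp i (fun y => MvPolynomial.eval y (Tp b k) / MvPolynomial.eval y (Tp c k)) x| + 1 := by
    intro x hx
    obtain ⟨c1, c2, c3⟩ := hc x hx
    have hxX := hOX hx
    have hC := hA.apx c k x hxX
    have key : ∀ (a l : Fin n), _ := fun a l =>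
      W_close (B := B) (e := e) (δ := δ) hB he0 he1 hδ0.le hδ3 c1 (hA.le_one c x hxX)
        (hA.le_one a x hxX) (hA.pp_le a l x hxX) (hA.pp_le c l x hxX) (hA.apx a k x hxX) hC
        (hA.apx' a k l x hxX) (hA.apx' c k l x hxX)
    have hC0 : e / 2 ≤ |MvPolynomial.eval x (Tp c k)| := (key a i).1
    have hCne : MvPolynomial.eval x (Tp c k) ≠ 0 := by
      intro h0
      rw [h0, abs_zero] at hC0
      linarith
    have hratio : ∀ a : Fin n, |P a x| ≤ |P c x| →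
        |MvPolynomial.eval x (Tp a k) / MvPolynomial.eval x (Tp c k)| ≤ 2 := by
      intro a ha
      rw [abs_div, div_le_iff₀ (abs_pos.mpr hCne)]
      have u1 := abs_sub_abs_le_abs_sub (MvPolynomial.eval x (Tp a k)) (P a x)
      rw [abs_sub_comm] at u1
      have u2 := abs_sub_abs_le_abs_sub (P c x) (MvPolynomial.eval x (Tp c k))
      have u3 := hA.apx a k x hxX
      have u4 : 3 * δ ≤ |P c x| := by linarith
      have u5 : |P a x - MvPolynomial.eval x (Tp a k)| ≤ δ := u3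
      have u6 : |P c x - MvPolynomial.eval x (Tp c k)| ≤ δ := hC
      linarith
    refine ⟨⟨hCne, hratio a c2, hratio b c3⟩, ?_⟩
    rw [pp_quot _ _ _ _ hCne, pp_quot _ _ _ _ hCne, pp_quot _ _ _ _ hCne, pp_quot _ _ _ _ hCne]
    have hη : 48 * B * δ / e ^ 4 ≤ 2 * B / e ^ 2 := by
      rw [div_le_div_iff₀ (by positivity) (by positivity)]
      have v1 : 48 * B * δ * e ^ 2 = (B * e ^ 2) * (48 * δ) := by ring
      have v2 : 2 * B * e ^ 4 = (B * e ^ 2) * (2 * e ^ 2) := by ring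
      rw [v1, v2]
      apply mul_le_mul_of_nonneg_left _ (by positivity)
      linarith
    have hm := minor_close (M := 2 * B / e ^ 2) (η := 48 * B * δ / e ^ 4) hη
      (key a i).2.2 (key a j).2.2 (key b j).2.2 (key b i).2.2
      (key a i).2.1 (key b j).2.1 (key a j).2.1 (key b i).2.1
    refine hm.trans ?_
    have hlast : 6 * (2 * B / e ^ 2) * (48 * B * δ / e ^ 4) ≤ 1 := by
      have v1 : 6 * (2 * B / e ^ 2) * (48 * B * δ / e ^ 4) = (576 * δ * B ^ 2) / e ^ 6 := by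
        field_simp
        ring
      rw [v1, div_le_one (by positivity)]
      exact hδe'
    linarith
  have hvol := vol_le Om (fun x hx => hA.box x (hOX hx))
  have hRAT := h n k i j hij (Tp a k) (Tp b k) (Tp c k) (hA.deg a k) (hA.deg b k) (hA.deg c k)
    Om hOm (fun x hx => ⟨(hpt x hx).1.1, (hpt x hx).1.2.1, (hpt x hx).1.2.2,
      hA.box x (hOX hx)⟩)
  calc _ ≤ ∫⁻ x in Om, (ENNReal.ofReal
      |pp i (fun y => MvPolynomial.eval y (Tp a k) / MvPolynomial.eval y (Tp c k)) x *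
        pp j (fun y => MvPolynomial.eval y (Tp b k) / MvPolynomial.eval y (Tp c k)) x -
       pp j (fun y => MvPolynomial.eval y (Tp a k) / MvPolynomial.eval y (Tp c k)) x *
        pp i (fun y => MvPolynomial.eval y (Tp b k) / MvPolynomial.eval y (Tp c k)) x| + 1) := by
        apply setLIntegral_mono' hOm
        intro x hx
        rw [← ENNReal.ofReal_one, ← ENNReal.ofReal_add (abs_nonneg _) zero_le_one]
        exact ENNReal.ofReal_le_ofReal (hpt x hx).2
    _ = (∫⁻ x in Om, ENNReal.ofReal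
      |pp i (fun y => MvPolynomial.eval y (Tp a k) / MvPolynomial.eval y (Tp c k)) x *
        pp j (fun y => MvPolynomial.eval y (Tp b k) / MvPolynomial.eval y (Tp c k)) x -
       pp j (fun y => MvPolynomial.eval y (Tp a k) / MvPolynomial.eval y (Tp c k)) x *
        pp i (fun y => MvPolynomial.eval y (Tp b k) / MvPolynomial.eval y (Tp c k)) x|) +
        ∫⁻ x in Om, 1 := lintegral_add_right _ measurable_const
    _ ≤ ENNReal.ofReal ((2 * k + 1) ^ 2 * 4 ^ n) + ENNReal.ofReal (2 ^ n) := by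
        apply add_le_add hRAT
        rw [setLIntegral_one]
        exact hvol
    _ = ENNReal.ofReal ((2 * k + 1) ^ 2 * 4 ^ n + 2 ^ n) := by
        rw [← ENNReal.ofReal_add (by positivity) (by positivity)]
    _ ≤ ENNReal.ofReal (((2 * K + 1) ^ 2 * 4 ^ n + 2 ^ n) * (T + 1) ^ 2) := by
        apply ENNReal.ofReal_le_ofReal
        have w1 : (2 * (k : ℝ) + 1) ≤ (2 * K + 1) * (T + 1) := by nlinarith
        have w2 : (2 * (k : ℝ) + 1) ^ 2 ≤ ((2 * K + 1) * (T + 1)) ^ 2 :=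
          pow_le_pow_left₀ (by positivity) w1 2
        have w3 : (1 : ℝ) ≤ (T + 1) ^ 2 := by nlinarith
        have w4 : (2 * (k : ℝ) + 1) ^ 2 * 4 ^ n ≤ ((2 * K + 1) * (T + 1)) ^ 2 * 4 ^ n :=
          mul_le_mul_of_nonneg_right w2 (by positivity)
        have w5 : (2 : ℝ) ^ n * 1 ≤ 2 ^ n * (T + 1) ^ 2 :=
          mul_le_mul_of_nonneg_left w3 (by positivity)
        rw [mul_pow] at w4
        linarith

lemma det3_close {M η a1 a2 a3 b1 b2 b3 c1 c2 c3 a1' a2' a3' b1' b2' b3' c1' c2' c3' : ℝ}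
    (hηM : η ≤ M)
    (ha1 : |a1| ≤ M) (ha2 : |a2| ≤ M) (ha3 : |a3| ≤ M)
    (hb1 : |b1| ≤ M) (hb2 : |b2| ≤ M) (hb3 : |b3| ≤ M)
    (hc1 : |c1| ≤ M) (hc2 : |c2| ≤ M) (hc3 : |c3| ≤ M)
    (da1 : |a1 - a1'| ≤ η) (da2 : |a2 - a2'| ≤ η) (da3 : |a3 - a3'| ≤ η)
    (db1 : |b1 - b1'| ≤ η) (db2 : |b2 - b2'| ≤ η) (db3 : |b3 - b3'| ≤ η)
    (dc1 : |c1 - c1'| ≤ η) (dc2 : |c2 - c2'| ≤ η) (dc3 : |c3 - c3'| ≤ η) :
    |det3 a1 a2 a3 b1 b2 b3 c1 c2 c3| ≤ |det3 a1' a2' a3' b1' b2' b3' c1' c2' c3'| +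
      42 * M ^ 2 * η := by
  have k : ∀ {u u' : ℝ}, |u| ≤ M → |u - u'| ≤ η → |u'| ≤ 2 * M := by
    intro u u' h1 h2
    have := abs_sub_abs_le_abs_sub u' u
    rw [abs_sub_comm] at this
    linarith
  have m : ∀ {b b' c c' d d' e e' : ℝ}, |b| ≤ M → |c| ≤ M → |d| ≤ M → |e| ≤ M →
      |b - b'| ≤ η → |c - c'| ≤ η → |d - d'| ≤ η → |e - e'| ≤ η →
      |b * c - d * e| ≤ 2 * M ^ 2 ∧ |(b * c - d * e) - (b' * c' - d' * e')| ≤ 6 * M * η := by
    intro b b' c c' d d' e e' hb hc hd he db dc dd de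
    constructor
    · have u1 := abs_mul_le hb hc
      have u2 := abs_mul_le hd he
      have u3 := abs_sub (b * c) (d * e)
      nlinarith
    · have u1 := mul_diff db dc (k hb db) hc
      have u2 := mul_diff dd de (k hd dd) he
      have u3 := abs_sub (b * c - b' * c') (d * e - d' * e')
      have u4 : (b * c - d * e) - (b' * c' - d' * e') =
        (b * c - b' * c') - (d * e - d' * e') := by ring
      rw [u4]
      nlinarith
  have m1 := m (b := b2) (c := c3) (d := b3) (e := c2) hb2 hc3 hb3 hc2 db2 dc3 db3 dc2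
  have m2 := m (b := b1) (c := c3) (d := b3) (e := c1) hb1 hc3 hb3 hc1 db1 dc3 db3 dc1
  have m3 := m (b := b1) (c := c2) (d := b2) (e := c1) hb1 hc2 hb2 hc1 db1 dc2 db2 dc1
  have t1 := mul_diff da1 m1.2 (k ha1 da1) m1.1
  have t2 := mul_diff da2 m2.2 (k ha2 da2) m2.1
  have t3 := mul_diff da3 m3.2 (k ha3 da3) m3.1
  have e1 : det3 a1 a2 a3 b1 b2 b3 c1 c2 c3 = det3 a1' a2' a3' b1' b2' b3' c1' c2' c3' +
      (((a1 * (b2 * c3 - b3 * c2) - a1' * (b2' * c3' - b3' * c2')) -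
      (a2 * (b1 * c3 - b3 * c1) - a2' * (b1' * c3' - b3' * c1'))) +
      (a3 * (b1 * c2 - b2 * c1) - a3' * (b1' * c2' - b2' * c1'))) := by
    unfold det3; ring
  rw [e1]
  refine (abs_add_le _ _).trans ?_
  have e2 := abs_add_le ((a1 * (b2 * c3 - b3 * c2) - a1' * (b2' * c3' - b3' * c2')) -
      (a2 * (b1 * c3 - b3 * c1) - a2' * (b1' * c3' - b3' * c1')))
      (a3 * (b1 * c2 - b2 * c1) - a3' * (b1' * c2' - b2' * c1'))
  have e3 := abs_sub (a1 * (b2 * c3 - b3 * c2) - a1' * (b2' * c3' - b3' * c2'))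
      (a2 * (b1 * c3 - b3 * c1) - a2' * (b1' * c3' - b3' * c1'))
  nlinarith

/-- TARGET 2 -/
theorem E2 (h : StPOL3) (n : ℕ) (B : ℝ) (hB : 1 ≤ B) : ∃ C : ℝ, ∀ (X : Set (Fin n → ℝ))
    (P : Fin n → (Fin n → ℝ) → ℝ) (Tp : Fin n → ℕ → MvPolynomial (Fin n) ℝ), Apx n B X P Tp →
    ∀ (t : ℝ), 0 ≤ t → ∀ (p q i j : Fin n) (Om : Set (Fin n → ℝ)), MeasurableSet Om → Om ⊆ X →
    (∀ x ∈ Om, ∀ a, |P a x| ≤ Real.exp (-t)) →
    ∫⁻ x in Om, ENNReal.ofReal
      |det3 (pp q (P p) x) (pp i (P p) x) (pp j (P p) x)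
        (pp q (P i) x) (pp i (P i) x) (pp j (P i) x)
        (pp q (P j) x) (pp i (P j) x) (pp j (P j) x)| ≤
      ENNReal.ofReal (C * (t + 1) ^ 3 * Real.exp (-3 * t)) := by
  set L : ℝ := 3 + 42 * B ^ 3 with hL
  have hB0 : 0 ≤ B := by linarith
  have hL0 : 0 ≤ L := by positivity
  set K : ℝ := 2 * L + 1 with hK
  have hK0 : 0 ≤ K := by positivity
  refine ⟨(3 * K + 1) ^ 3 * 64 * 2 ^ n + 2 ^ n, ?_⟩
  intro X P Tp hA t ht p q i j Om hOm hOX hc
  have hT1 : 1 ≤ t + 1 := by linarith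
  have hzero : (∀ x : Fin n → ℝ, det3 (pp q (P p) x) (pp i (P p) x) (pp j (P p) x)
        (pp q (P i) x) (pp i (P i) x) (pp j (P i) x)
        (pp q (P j) x) (pp i (P j) x) (pp j (P j) x) = 0) →
      ∫⁻ x in Om, ENNReal.ofReal
      |det3 (pp q (P p) x) (pp i (P p) x) (pp j (P p) x)
        (pp q (P i) x) (pp i (P i) x) (pp j (P i) x)
        (pp q (P j) x) (pp i (P j) x) (pp j (P j) x)| ≤
      ENNReal.ofReal (((3 * K + 1) ^ 3 * 64 * 2 ^ n + 2 ^ n) * (t + 1) ^ 3 *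
        Real.exp (-3 * t)) := by
    intro hz
    simp only [hz, abs_zero, ENNReal.ofReal_zero, lintegral_zero]
    exact bot_le
  by_cases hij : i = j
  · subst hij
    apply hzero
    intro x
    unfold det3; ring
  by_cases hqi : q = i
  · subst hqi
    apply hzero
    intro x
    unfold det3; ring
  by_cases hqj : q = j
  · subst hqj
    apply hzero
    intro x
    unfold det3; ring
  obtain ⟨k, hk1, hk2⟩ := pick L hL0 t ht
  set δ : ℝ := (1 / 2) ^ k with hδ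
  have hδ0 : 0 < δ := by positivity
  set e : ℝ := Real.exp (-t) with he
  have he0 : 0 < e := Real.exp_pos _
  have he1 : e ≤ 1 := by rw [he, Real.exp_le_one_iff]; linarith
  have he3 : Real.exp (-3 * t) = e ^ 3 := by
    rw [he, ← Real.exp_nat_mul]
    congr 1
    push_cast
    ring
  have hδe : δ ≤ e ^ 3 / (42 * B ^ 3) := by
    refine hk2.trans ((exp_small (42 * B ^ 3) 3 t (by positivity) (by norm_num) ht).trans ?_)
    rw [← he3]
    apply le_of_eq
    congr 2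
    ring
  have hB3 : 1 ≤ B ^ 3 := one_le_pow₀ hB
  have hδe' : 42 * δ * B ^ 3 ≤ e ^ 3 := by
    rw [le_div_iff₀ (by positivity)] at hδe
    linarith
  have hδe2 : 42 * δ ≤ e ^ 3 := by
    have : 42 * δ * 1 ≤ 42 * δ * B ^ 3 := mul_le_mul_of_nonneg_left hB3 (by positivity)
    linarith
  have he31 : e ^ 3 ≤ e := by
    calc e ^ 3 ≤ e ^ 1 := pow_le_pow_of_le_one he0.le he1 (by norm_num)
      _ = e := pow_one e
  have hδ1 : δ ≤ e := by linarith
  have hbd : ∀ x ∈ Om, ∀ a, |MvPolynomial.eval x (Tp a k)| ≤ 2 * e := by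
    intro x hx a
    have u1 := abs_sub_abs_le_abs_sub (MvPolynomial.eval x (Tp a k)) (P a x)
    rw [abs_sub_comm] at u1
    have u2 := hA.apx a k x (hOX hx)
    have u3 := hc x hx a
    have u4 : |P a x - MvPolynomial.eval x (Tp a k)| ≤ δ := u2
    linarith
  have hpt : ∀ x ∈ Om,
      |det3 (pp q (P p) x) (pp i (P p) x) (pp j (P p) x)
        (pp q (P i) x) (pp i (P i) x) (pp j (P i) x)
        (pp q (P j) x) (pp i (P j) x) (pp j (P j) x)| ≤
      |det3 (pp q (fun y => MvPolynomial.eval y (Tp p k)) x)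
          (pp i (fun y => MvPolynomial.eval y (Tp p k)) x)
          (pp j (fun y => MvPolynomial.eval y (Tp p k)) x)
        (pp q (fun y => MvPolynomial.eval y (Tp i k)) x)
          (pp i (fun y => MvPolynomial.eval y (Tp i k)) x)
          (pp j (fun y => MvPolynomial.eval y (Tp i k)) x)
        (pp q (fun y => MvPolynomial.eval y (Tp j k)) x)
          (pp i (fun y => MvPolynomial.eval y (Tp j k)) x)
          (pp j (fun y => MvPolynomial.eval y (Tp j k)) x)| + e ^ 3 := by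
    intro x hx
    have hxX := hOX hx
    have d : ∀ a l, |pp l (P a) x - pp l (fun y => MvPolynomial.eval y (Tp a k)) x| ≤ B * δ := by
      intro a l
      rw [(eval_deriv (Tp a k) x).2 l]
      exact hA.apx' a k l x hxX
    have b : ∀ a l, |pp l (P a) x| ≤ B := fun a l => hA.pp_le a l x hxX
    have hηM : B * δ ≤ B := by
      have : B * δ ≤ B * 1 := mul_le_mul_of_nonneg_left (by linarith) hB0
      linarith
    refine (det3_close hηM (b p q) (b p i) (b p j) (b i q) (b i i) (b i j) (b j q) (b j i)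
      (b j j) (d p q) (d p i) (d p j) (d i q) (d i i) (d i j) (d j q) (d j i) (d j j)).trans ?_
    have : 42 * B ^ 2 * (B * δ) = 42 * δ * B ^ 3 := by ring
    rw [this]
    linarith
  have hvol := vol_le Om (fun x hx => hA.box x (hOX hx))
  have hPOL := h n k q i j hqi hqj hij (Tp p k) (Tp i k) (Tp j k) (hA.deg p k) (hA.deg i k)
    (hA.deg j k) Om hOm (2 * e) (by positivity) (fun x hx => ⟨hbd x hx p, hbd x hx i,
      hbd x hx j, hA.box x (hOX hx)⟩)
  calc _ ≤ ∫⁻ x in Om, (ENNReal.ofReal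
      |det3 (pp q (fun y => MvPolynomial.eval y (Tp p k)) x)
          (pp i (fun y => MvPolynomial.eval y (Tp p k)) x)
          (pp j (fun y => MvPolynomial.eval y (Tp p k)) x)
        (pp q (fun y => MvPolynomial.eval y (Tp i k)) x)
          (pp i (fun y => MvPolynomial.eval y (Tp i k)) x)
          (pp j (fun y => MvPolynomial.eval y (Tp i k)) x)
        (pp q (fun y => MvPolynomial.eval y (Tp j k)) x)
          (pp i (fun y => MvPolynomial.eval y (Tp j k)) x)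
          (pp j (fun y => MvPolynomial.eval y (Tp j k)) x)| + ENNReal.ofReal (e ^ 3)) := by
        apply setLIntegral_mono' hOm
        intro x hx
        rw [← ENNReal.ofReal_add (abs_nonneg _) (by positivity)]
        exact ENNReal.ofReal_le_ofReal (hpt x hx)
    _ = (∫⁻ x in Om, ENNReal.ofReal
      |det3 (pp q (fun y => MvPolynomial.eval y (Tp p k)) x)
          (pp i (fun y => MvPolynomial.eval y (Tp p k)) x)
          (pp j (fun y => MvPolynomial.eval y (Tp p k)) x)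
        (pp q (fun y => MvPolynomial.eval y (Tp i k)) x)
          (pp i (fun y => MvPolynomial.eval y (Tp i k)) x)
          (pp j (fun y => MvPolynomial.eval y (Tp i k)) x)
        (pp q (fun y => MvPolynomial.eval y (Tp j k)) x)
          (pp i (fun y => MvPolynomial.eval y (Tp j k)) x)
          (pp j (fun y => MvPolynomial.eval y (Tp j k)) x)|) +
        ∫⁻ x in Om, ENNReal.ofReal (e ^ 3) := lintegral_add_right _ measurable_const
    _ ≤ ENNReal.ofReal ((3 * k + 1) ^ 3 * (2 * (2 * e)) ^ 3 * 2 ^ n) +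
        ENNReal.ofReal (e ^ 3) * ENNReal.ofReal (2 ^ n) := by
        apply add_le_add hPOL
        rw [setLIntegral_const]
        gcongr
    _ = ENNReal.ofReal ((3 * k + 1) ^ 3 * (2 * (2 * e)) ^ 3 * 2 ^ n + e ^ 3 * 2 ^ n) := by
        rw [← ENNReal.ofReal_mul (by positivity),
          ← ENNReal.ofReal_add (by positivity) (by positivity)]
    _ ≤ ENNReal.ofReal (((3 * K + 1) ^ 3 * 64 * 2 ^ n + 2 ^ n) * (t + 1) ^ 3 *
        Real.exp (-3 * t)) := by
        apply ENNReal.ofReal_le_ofReal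
        rw [he3]
        have w1 : (3 * (k : ℝ) + 1) ≤ (3 * K + 1) * (t + 1) := by nlinarith
        have w2 : (3 * (k : ℝ) + 1) ^ 3 ≤ ((3 * K + 1) * (t + 1)) ^ 3 :=
          pow_le_pow_left₀ (by positivity) w1 3
        have w3 : (1 : ℝ) ≤ (t + 1) ^ 3 := one_le_pow₀ hT1
        have w4 : (3 * (k : ℝ) + 1) ^ 3 * (64 * e ^ 3 * 2 ^ n) ≤
            ((3 * K + 1) * (t + 1)) ^ 3 * (64 * e ^ 3 * 2 ^ n) :=
          mul_le_mul_of_nonneg_right w2 (by positivity)
        have w5 : e ^ 3 * (2 : ℝ) ^ n * 1 ≤ e ^ 3 * 2 ^ n * (t + 1) ^ 3 :=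
          mul_le_mul_of_nonneg_left w3 (by positivity)
        rw [mul_pow] at w4
        have w6 : (3 * (k : ℝ) + 1) ^ 3 * (2 * (2 * e)) ^ 3 * 2 ^ n =
          (3 * (k : ℝ) + 1) ^ 3 * (64 * e ^ 3 * 2 ^ n) := by ring
        rw [w6]
        linarith

end Pool.Agent.Helper688.Crit.EE
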