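import Pool.Agent.Helper688_Crit.Defs

/-!
JOB FAM (MP_8465a2_an, owner helper688). Write your file as Pool/Agent/Helper688_Crit/FAM.lean, namespace below.
Prove the TARGET, statement unchanged, from the hypotheses StMVP, StREG (proved in other jobs); auxiliary lemmas in the
namespace `Pool.Agent.Helper688.Crit.FAM`.
No banned words (RULES.md Validity 2). Land your file with land.sh and put its path in jobs.result.
SETUP. The definitions (E, pd, Fam) are in Pool/Agent/Helper688_Crit/Defs.lean on origin/main (imports only Mathlib):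
  cd /workdir/pool/outputs/live && git fetch -q && git merge -q --ff-only origin/main ; cd /workdir/pool
  mkdir -p Pool/Agent/Helper688_Crit && cp -n outputs/live/Pool/Agent/Helper688_Crit/Defs.lean Pool/Agent/Helper688_Crit/
  lake build Pool.Agent.Helper688_Crit.Defs

PROOF. StMVP gives η; StREG gives C. u satisfies the mean value formula on ball 0 1, so it is smooth there and fderiv u too
satisfies it; hence pd i u = fderiv u · e_i satisfies it (ContinuousLinearMap.integral_comp_comm with evaluation at e_i), it is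
continuous and |pd i u| ≤ ‖fderiv u‖ ≤ 1 (‖e_i‖ = 1). StREG for f = pd i u with M = 1, ρ = 1/8, x ∈ ball 0 (3/4) (closedBall x (1/8) ⊆ ball 0 1):
‖iteratedFDeriv k (pd i u) x‖ ≤ (8 C k)^k ≤ (24 C)^k k! (k^k ≤ 3^k k!). A = 24 C.
P i y = pd i u (x₀ + y/4), y ∈ ball 0 1: x₀ + y/4 ∈ ball 0 (3/4). Chain rule: iteratedFDeriv of a composition with x₀ + (1/4)•y:
norm multiplied by at most (1/4)^k ≤ 1 (ContinuousLinearMap.norm_iteratedFDeriv_comp_right_le or iteratedFDeriv_comp_add_left and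
the scaling lemma), pd j (P i) y = (1/4) pd j (pd i u)(x₀+y/4). symm: symmetry of the second derivative (u smooth). div: the hypothesis
∑_i iteratedFDeriv ℝ 2 u x (fun _ => e_i) = 0 is ∑_i pd i (pd i u) x = 0. harm: ∑_j pd j (pd j (pd i u)) = pd i (∑_j pd j (pd j u)) = 0 by
symmetry of derivatives of the smooth function u on the open ball.
-/

set_option autoImplicit false

open MeasureTheory Metric Set Filter Topology
open scoped ContDiff ENNReal NNReal

namespace Pool.Agent.Helper688.Crit.FAM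

open Pool.Agent.Helper688.Crit

/-- proved in job MVP -/
def StMVP : Prop := ∀ (n : ℕ), 1 ≤ n → ∃ η : EuclideanSpace ℝ (Fin n) → ℝ, ContDiff ℝ ∞ η ∧
    (∀ z, 0 ≤ η z) ∧ (∀ z, 1 ≤ ‖z‖ → η z = 0) ∧ ∫ z, η z = 1 ∧
    (∃ c : ℝ, 0 < c ∧ ∀ z, ‖z‖ ≤ 3 / 4 → c ≤ η z) ∧
    ∀ (u : EuclideanSpace ℝ (Fin n) → ℝ) (x₀ : EuclideanSpace ℝ (Fin n)) (R : ℝ), 0 < R →
      ContDiffOn ℝ 2 u (ball x₀ R) →
      (∀ x ∈ ball x₀ R,
        ∑ i : Fin n, iteratedFDeriv ℝ 2 u x (fun _ => EuclideanSpace.single i (1 : ℝ)) = 0) →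
      ∀ (x : EuclideanSpace ℝ (Fin n)) (r : ℝ), 0 < r → closedBall x r ⊆ ball x₀ R →
        u x = ∫ z, η z * u (x + r • z)

/-- proved in job REG -/
def StREG : Prop := ∀ (n : ℕ), 1 ≤ n → ∀ (η : EuclideanSpace ℝ (Fin n) → ℝ), ContDiff ℝ ∞ η →
    (∀ z, 0 ≤ η z) → (∀ z, 1 ≤ ‖z‖ → η z = 0) → ∫ z, η z = 1 →
    ∃ C : ℝ, 1 ≤ C ∧ ∀ (F : Type) [NormedAddCommGroup F] [NormedSpace ℝ F] [CompleteSpace F]
      (f : EuclideanSpace ℝ (Fin n) → F) (x₀ : EuclideanSpace ℝ (Fin n)) (R : ℝ), 0 < R →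
      ContinuousOn f (ball x₀ R) →
      (∀ (x : EuclideanSpace ℝ (Fin n)) (r : ℝ), 0 < r → closedBall x r ⊆ ball x₀ R →
        f x = ∫ z, η z • f (x + r • z)) →
      ContDiffOn ℝ ∞ f (ball x₀ R) ∧
      (∀ (x : EuclideanSpace ℝ (Fin n)) (r : ℝ), 0 < r → closedBall x r ⊆ ball x₀ R →
        fderiv ℝ f x = ∫ z, η z • fderiv ℝ f (x + r • z)) ∧
      ∀ (M : ℝ) (k : ℕ) (x : EuclideanSpace ℝ (Fin n)) (ρ : ℝ), 0 < ρ →
        closedBall x ρ ⊆ ball x₀ R → (∀ y ∈ closedBall x ρ, ‖f y‖ ≤ M) →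
        ‖iteratedFDeriv ℝ k f x‖ ≤ M * (C * k / ρ) ^ k

/-- Scaling of iterated derivatives. -/
theorem iter_smul {F G : Type*} [NormedAddCommGroup F] [NormedSpace ℝ F] [NormedAddCommGroup G]
    [NormedSpace ℝ G] (f : F → G) (c : ℝ) (k : ℕ) :
    iteratedFDeriv ℝ k (fun z => f (c • z)) = fun x => c ^ k • iteratedFDeriv ℝ k f (c • x) := by
  induction k with
  | zero => ext; simp
  | succ k ih =>
    ext x v
    rw [iteratedFDeriv_succ_eq_comp_left, iteratedFDeriv_succ_eq_comp_left]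
    simp only [ih, Function.comp_apply, continuousMultilinearCurryLeftEquiv_symm_apply, smul_apply]
    have h1 : fderiv ℝ (fun x => c ^ k • iteratedFDeriv ℝ k f (c • x)) x =
        c ^ k • c • fderiv ℝ (iteratedFDeriv ℝ k f) (c • x) := by
      rw [← fderiv_comp_smul]
      exact congrFun (fderiv_const_smul_field (𝕜 := ℝ)
        (f := fun x => iteratedFDeriv ℝ k f (c • x)) (c ^ k)) x
    rw [h1, smul_smul, ← pow_succ]
    simp

theorem iter_affine {F G : Type*} [NormedAddCommGroup F] [NormedSpace ℝ F] [NormedAddCommGroup G]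
    [NormedSpace ℝ G] (f : F → G) (x₀ : F) (c : ℝ) (k : ℕ) (y : F) :
    iteratedFDeriv ℝ k (fun z => f (x₀ + c • z)) y =
      c ^ k • iteratedFDeriv ℝ k f (x₀ + c • y) := by
  have h1 := congrFun (iter_smul (fun z => f (x₀ + z)) c k) y
  rw [h1, iteratedFDeriv_comp_add_left]

theorem pow_le (k : ℕ) : ((k : ℝ)) ^ k ≤ 3 ^ k * k.factorial := by
  have h1 := Real.pow_div_factorial_le_exp (x := (k : ℝ)) (by positivity) k
  have h2 : Real.exp k ≤ 3 ^ k := by
    have h3 : Real.exp k = (Real.exp 1) ^ k := by rw [← Real.exp_nat_mul, mul_one]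
    rw [h3]
    exact pow_le_pow_left₀ (Real.exp_pos 1).le Real.exp_one_lt_three.le k
  have h4 : (0 : ℝ) < k.factorial := by exact_mod_cast k.factorial_pos
  rw [div_le_iff₀ h4] at h1
  exact h1.trans (mul_le_mul_of_nonneg_right h2 h4.le)

section calculus

variable {n : ℕ} {U : Set (E n)} {f g : E n → ℝ}

theorem pd_congr (hU : IsOpen U) (h : ∀ x ∈ U, f x = g x) (i : Fin n) {x : E n} (hx : x ∈ U) :
    pd i f x = pd i g x := by
  unfold pd
  have : f =ᶠ[𝓝 x] g := by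
    filter_upwards [hU.mem_nhds hx] with y hy using h y hy
  rw [this.fderiv_eq]

theorem smooth_fderiv (hU : IsOpen U) (hf : ContDiffOn ℝ ∞ f U) : ContDiffOn ℝ ∞ (fderiv ℝ f) U :=
  hf.fderiv_of_isOpen hU (by norm_num)

theorem smooth_pd (hU : IsOpen U) (hf : ContDiffOn ℝ ∞ f U) (i : Fin n) :
    ContDiffOn ℝ ∞ (pd i f) U :=
  (smooth_fderiv hU hf).clm_apply contDiffOn_const

theorem diffAt (hU : IsOpen U) (hf : ContDiffOn ℝ ∞ f U) {x : E n} (hx : x ∈ U) :
    DifferentiableAt ℝ f x :=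
  (hf.contDiffAt (hU.mem_nhds hx)).differentiableAt (by simp)

theorem diffAt_fderiv (hU : IsOpen U) (hf : ContDiffOn ℝ ∞ f U) {x : E n} (hx : x ∈ U) :
    DifferentiableAt ℝ (fderiv ℝ f) x :=
  ((smooth_fderiv hU hf).contDiffAt (hU.mem_nhds hx)).differentiableAt (by simp)

theorem pd_pd (hU : IsOpen U) (hf : ContDiffOn ℝ ∞ f U) {x : E n} (hx : x ∈ U) (i j : Fin n) :
    pd j (pd i f) x =
      fderiv ℝ (fderiv ℝ f) x (EuclideanSpace.single j 1) (EuclideanSpace.single i 1) := by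
  have h1 := (diffAt_fderiv hU hf hx).hasFDerivAt.clm_apply
    (hasFDerivAt_const (EuclideanSpace.single i (1 : ℝ)) x)
  have h2 : HasFDerivAt (pd i f) _ x := h1
  unfold pd at h2 ⊢
  rw [h2.fderiv]
  simp

theorem pd_symm (hU : IsOpen U) (hf : ContDiffOn ℝ ∞ f U) {x : E n} (hx : x ∈ U) (i j : Fin n) :
    pd j (pd i f) x = pd i (pd j f) x := by
  rw [pd_pd hU hf hx, pd_pd hU hf hx]
  have h1 : ContDiffAt ℝ ∞ f x := hf.contDiffAt (hU.mem_nhds hx)
  have h2 := h1.isSymmSndFDerivAt (by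
    rw [minSmoothness_of_isRCLikeNormedField]
    exact WithTop.coe_le_coe.2 le_top)
  exact h2 _ _

theorem pd_sum (hU : IsOpen U) {F : Fin n → E n → ℝ} (hF : ∀ j, ContDiffOn ℝ ∞ (F j) U) {x : E n}
    (hx : x ∈ U) (i : Fin n) : pd i (fun y => ∑ j, F j y) x = ∑ j, pd i (F j) x := by
  unfold pd
  rw [fderiv_fun_sum fun j _ => diffAt hU (hF j) hx]
  simp

theorem pd_zero (i : Fin n) (x : E n) : pd i (fun _ => (0 : ℝ)) x = 0 := by
  unfold pd
  simp

theorem pd_affine {x₀ : E n} {c : ℝ} {y : E n} (hg : DifferentiableAt ℝ g (x₀ + c • y))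
    (j : Fin n) : pd j (fun z => g (x₀ + c • z)) y = c * pd j g (x₀ + c • y) := by
  unfold pd
  have h1 : HasFDerivAt (fun z : E n => x₀ + c • z) (c • ContinuousLinearMap.id ℝ (E n)) y :=
    ((hasFDerivAt_id y).const_smul c).const_add x₀
  have h2 := hg.hasFDerivAt.comp y h1
  have h3 : HasFDerivAt (fun z => g (x₀ + c • z)) _ y := h2
  rw [h3.fderiv]
  simp

theorem pd_const_mul {c : ℝ} {y : E n} (hg : DifferentiableAt ℝ g y) (j : Fin n) :
    pd j (fun z => c * g z) y = c * pd j g y := by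
  unfold pd
  rw [fderiv_const_mul hg]
  simp

end calculus

/-- TARGET -/
theorem fam (hM : StMVP) (hR : StREG) (n : ℕ) (hn : 1 ≤ n) : ∃ A : ℝ, 1 ≤ A ∧
    ∀ u : E n → ℝ, ContDiffOn ℝ 2 u (ball 0 1) →
      (∀ x ∈ ball (0 : E n) 1,
        ∑ i : Fin n, iteratedFDeriv ℝ 2 u x (fun _ => EuclideanSpace.single i (1 : ℝ)) = 0) →
      (∀ x ∈ ball (0 : E n) 1, ‖fderiv ℝ u x‖ ≤ 1) →
      (∀ (i : Fin n), ContDiffOn ℝ ∞ (pd i u) (ball 0 1) ∧
        ∀ (k : ℕ), ∀ x ∈ ball (0 : E n) (3 / 4),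
          ‖iteratedFDeriv ℝ k (pd i u) x‖ ≤ A ^ k * k.factorial) ∧
      ∀ x₀ ∈ ball (0 : E n) (1 / 2), Fam n A (fun i y => pd i u (x₀ + (1 / 4 : ℝ) • y)) := by
  obtain ⟨η, hη, hη0, hη1, hηi, -, hmvp⟩ := hM n hn
  obtain ⟨C, hC, hreg⟩ := hR n hn η hη hη0 hη1 hηi
  refine ⟨24 * C, by linarith, fun u hu hharm hgrad => ?_⟩
  have hU : IsOpen (ball (0 : E n) 1) := isOpen_ball
  -- first application
  obtain ⟨husm, hum, -⟩ := hreg ℝ u 0 1 one_pos hu.continuousOn (fun x r hr hxr => by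
    simpa [smul_eq_mul] using hmvp u 0 1 one_pos hu hharm x r hr hxr)
  have hfd := smooth_fderiv hU husm
  have hpds := smooth_pd hU husm
  have hpdm : ∀ i : Fin n, ∀ (x : E n) (r : ℝ), 0 < r → closedBall x r ⊆ ball (0 : E n) 1 →
      pd i u x = ∫ z, η z • pd i u (x + r • z) := by
    intro i x r hr hxr
    have hmaps : ∀ z ∈ closedBall (0 : E n) 1, x + r • z ∈ ball (0 : E n) 1 := by
      intro z hz
      apply hxr
      rw [mem_closedBall, dist_eq_norm, add_sub_cancel_left, norm_smul, Real.norm_eq_abs,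
        abs_of_pos hr]
      have := mem_closedBall_zero_iff.1 hz
      nlinarith
    have hint : Integrable (fun z : E n => η z • fderiv ℝ u (x + r • z)) := by
      have h1 : ContinuousOn (fun z : E n => η z • fderiv ℝ u (x + r • z))
          (closedBall (0 : E n) 1) := by
        refine (hη.continuous.continuousOn).smul ?_
        refine hfd.continuousOn.comp ?_ hmaps
        exact (continuous_const.add (continuous_const_smul r)).continuousOn
      refine (h1.integrableOn_compact (isCompact_closedBall _ _)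
        ).integrable_of_forall_notMem_eq_zero fun z hz => ?_
      rw [mem_closedBall_zero_iff, not_le] at hz
      rw [hη1 z hz.le, zero_smul]
    have h2 := hum x r hr hxr
    unfold pd
    conv_lhs => rw [h2]
    rw [ContinuousLinearMap.integral_apply hint]
    rfl
  have hpd1 : ∀ i : Fin n, ∀ y ∈ ball (0 : E n) 1, ‖pd i u y‖ ≤ 1 := by
    intro i y hy
    unfold pd
    refine (ContinuousLinearMap.le_opNorm _ _).trans ?_
    rw [PiLp.norm_single, norm_one, mul_one]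
    exact hgrad y hy
  have hbd : ∀ (i : Fin n) (k : ℕ), ∀ x ∈ ball (0 : E n) (3 / 4),
      ‖iteratedFDeriv ℝ k (pd i u) x‖ ≤ (24 * C) ^ k * k.factorial := by
    intro i k x hx
    have hsub : closedBall x (1 / 8) ⊆ ball (0 : E n) 1 := by
      intro y hy
      rw [mem_ball_zero_iff] at hx ⊢
      rw [mem_closedBall, dist_eq_norm] at hy
      have : ‖y‖ ≤ ‖y - x‖ + ‖x‖ := by
        calc ‖y‖ = ‖(y - x) + x‖ := by rw [sub_add_cancel]
          _ ≤ _ := norm_add_le _ _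
      linarith
    have h1 := (hreg ℝ (pd i u) 0 1 one_pos (hpds i).continuousOn (hpdm i)).2.2 1 k x (1 / 8)
      (by norm_num) hsub fun y hy => hpd1 i y (hsub hy)
    refine h1.trans ?_
    rw [one_mul]
    have e : (C * k / (1 / 8)) ^ k = (8 * C) ^ k * (k : ℝ) ^ k := by
      rw [← mul_pow]
      congr 1
      ring
    rw [e]
    calc (8 * C) ^ k * (k : ℝ) ^ k ≤ (8 * C) ^ k * (3 ^ k * k.factorial) :=
          mul_le_mul_of_nonneg_left (pow_le k) (by positivity)
      _ = (24 * C) ^ k * k.factorial := by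
          rw [← mul_assoc, ← mul_pow]
          congr 2
          ring
  refine ⟨fun i => ⟨hpds i, hbd i⟩, fun x₀ hx₀ => ?_⟩
  have hmap : ∀ y ∈ ball (0 : E n) 1, x₀ + (1 / 4 : ℝ) • y ∈ ball (0 : E n) (3 / 4) := by
    intro y hy
    rw [mem_ball_zero_iff] at hx₀ hy ⊢
    have h1 : ‖x₀ + (1 / 4 : ℝ) • y‖ ≤ ‖x₀‖ + ‖(1 / 4 : ℝ) • y‖ := norm_add_le _ _
    rw [norm_smul] at h1
    norm_num at h1
    linarith
  have hmap' : ∀ y ∈ ball (0 : E n) 1, x₀ + (1 / 4 : ℝ) • y ∈ ball (0 : E n) 1 := fun y hy =>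
    ball_subset_ball (by norm_num) (hmap y hy)
  have hlap : ∀ x ∈ ball (0 : E n) 1, ∑ j, pd j (pd j u) x = 0 := by
    intro x hx
    rw [← hharm x hx]
    refine Finset.sum_congr rfl fun j _ => ?_
    rw [iteratedFDeriv_two_apply, pd_pd hU husm hx]
  have hpdP : ∀ (i j : Fin n), ∀ y ∈ ball (0 : E n) 1,
      pd j (fun z => pd i u (x₀ + (1 / 4 : ℝ) • z)) y =
        (1 / 4) * pd j (pd i u) (x₀ + (1 / 4 : ℝ) • y) := fun i j y hy =>
    pd_affine (diffAt hU (hpds i) (hmap' y hy)) j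
  refine ⟨fun i => ?_, fun i k y hy => ?_, fun i j y hy => ?_, fun y hy => ?_, fun i y hy => ?_⟩
  · refine (hpds i).comp ?_ hmap'
    exact (contDiff_const.add (contDiff_const_smul _)).contDiffOn
  · rw [iter_affine, norm_smul]
    have h1 := hbd i k _ (hmap y hy)
    have h2 : ‖(1 / 4 : ℝ) ^ k‖ ≤ 1 := by
      rw [norm_pow]
      exact pow_le_one₀ (norm_nonneg _) (by norm_num)
    calc _ ≤ 1 * ‖iteratedFDeriv ℝ k (pd i u) (x₀ + (1 / 4 : ℝ) • y)‖ :=
          mul_le_mul_of_nonneg_right h2 (norm_nonneg _)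
      _ ≤ _ := by rw [one_mul]; exact h1
  · rw [hpdP i j y hy, hpdP j i y hy, pd_symm hU husm (hmap' y hy)]
  · rw [Finset.sum_congr rfl fun i _ => hpdP i i y hy, ← Finset.mul_sum, hlap _ (hmap' y hy),
      mul_zero]
  · have h1 : ∀ j, pd j (pd j (fun z => pd i u (x₀ + (1 / 4 : ℝ) • z))) y =
        (1 / 4) * ((1 / 4) * pd j (pd j (pd i u)) (x₀ + (1 / 4 : ℝ) • y)) := by
      intro j
      have hs2 : ContDiffOn ℝ ∞ (pd j (pd i u)) (ball (0 : E n) 1) := smooth_pd hU (hpds i) j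
      rw [pd_congr hU (hpdP i j) j hy]
      have hd := diffAt hU hs2 (hmap' y hy)
      have hd' : DifferentiableAt ℝ (fun z => pd j (pd i u) (x₀ + (1 / 4 : ℝ) • z)) y := by
        exact DifferentiableAt.comp (f := fun z : E n => x₀ + (1 / 4 : ℝ) • z) y hd
          (by fun_prop)
      rw [pd_const_mul hd', pd_affine hd]
    rw [Finset.sum_congr rfl fun j _ => h1 j, ← Finset.mul_sum, ← Finset.mul_sum]
    have h2 : ∀ x ∈ ball (0 : E n) 1, ∑ j, pd j (pd j (pd i u)) x = 0 := by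
      intro x hx
      have h3 : ∀ j, pd j (pd j (pd i u)) x = pd i (pd j (pd j u)) x := by
        intro j
        rw [pd_congr hU (fun z hz => pd_symm hU husm hz i j) j hx,
          pd_symm hU (hpds j) hx]
      rw [Finset.sum_congr rfl fun j _ => h3 j,
        ← pd_sum hU (fun j => smooth_pd hU (hpds j) j) hx,
        pd_congr hU hlap i hx, pd_zero]
    rw [h2 _ (hmap' y hy), mul_zero, mul_zero]

end Pool.Agent.Helper688.Crit.FAM
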