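import Pool.Agent.Helper688_Crit.Defs

/-!
JOB HAR (MP_8465a2_an, owner helper688). Write your file as Pool/Agent/Helper688_Crit/HAR.lean, namespace below.
Prove the TARGET, statement unchanged, from the hypotheses StMVP, StREG (proved in other jobs); auxiliary lemmas in the
namespace `Pool.Agent.Helper688.Crit.HAR`.
No banned words (RULES.md Validity 2). Land your file with land.sh and put its path in jobs.result.
SETUP. The definitions (E, pd) are in Pool/Agent/Helper688_Crit/Defs.lean on origin/main (imports only Mathlib):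
  cd /workdir/pool/outputs/live && git fetch -q && git merge -q --ff-only origin/main ; cd /workdir/pool
  mkdir -p Pool/Agent/Helper688_Crit && cp -n outputs/live/Pool/Agent/Helper688_Crit/Defs.lean Pool/Agent/Helper688_Crit/
  lake build Pool.Agent.Helper688_Crit.Defs

PROOF. (1) Harnack: there is C₀ = C₀(n) ≥ 1: if v ≥ 0 is continuous on ball 0 1 and v x = ∫ η z * v (x + r z) for closedBall x r ⊆ ball 0 1, then
v x ≤ C₀ v y for x, y ∈ ball 0 (1/2) (or the closed ball). One step, ‖x-y‖ ≤ 1/16: with r = 1/4,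
v y = ∫ η(z) v(y+z/4) dz ≥ c ∫_{‖z‖≤3/4} v(y+z/4) dz = c 4^n ∫_{closedBall y (3/16)} v, and with r = 1/16:
v x = ∫ η(z) v(x+z/16) dz ≤ (sup η) 16^n ∫_{closedBall x (1/16)} v, and closedBall x (1/16) ⊆ closedBall y (3/16). Chain of 16 steps
on the segment from y to x (length < 1).
(2) Let S be the supremum in the hypothesis. The family is bounded above (values in a bounded set by the hypothesis itself if the
real supremum is positive; if it were unbounded the real ⨆ would be 0 and then all fderiv = 0 on ball 0 1, so u is constant,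
contradiction). S > 0 because u is not constant (otherwise fderiv ℝ u = 0 on the convex ball). Also e^N ≥ 1 (the hypothesis at points
of the half ball gives S ≤ e^N S). Let δ > 0 be small; there is y ∈ ball 0 (1/2) with ‖fderiv u y‖ ≥ S (1-δ). Let ω be a unit vector
with fderiv u y ω = ‖fderiv u y‖ (Riesz: InnerProductSpace.toDual; or a vector with value ≥ (1-δ)S/... by compactness), and
v x = e^N S - fderiv u x ω ≥ 0 on ball 0 1. u has the mean value property (StMVP), so fderiv u has it (StREG, second conclusion) and so has v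
(∫ η = 1). v y ≤ (e^N - 1 + δ) S, so for all x ∈ ball 0 (1/2): fderiv u x ω ≥ e^N S - C₀ (e^N - 1 + δ) S > 0 if N ≤ ε₀, δ ≤ ε₀ with
ε₀ = ε₀(C₀) small. So fderiv u x ≠ 0.
-/

set_option autoImplicit false

open MeasureTheory Metric Set Filter Topology
open scoped ContDiff ENNReal NNReal

namespace Pool.Agent.Helper688.Crit.HAR

open Pool.Agent.Helper688.Crit

/-- proved in job MVP -/
def StMVP : Prop := ∀ (n : ℕ), 1 ≤ n → ∃ η : EuclideanSpace ℝ (Fin n) → ℝ, ContDiff ℝ ∞ η ∧
    (∀ z, 0 ≤ η z) ∧ (∀ z, 1 ≤ ‖z‖ → η z = 0) ∧ ∫ z, η z = 1 ∧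
    (∃ c : ℝ, 0 < c ∧ ∀ z, ‖z‖ ≤ 3 / 4 → c ≤ η z) ∧
    ∀ (u : EuclideanSpace ℝ (Fin n) → ℝ) (x₀ : EuclideanSpace ℝ (Fin n)) (R : ℝ), 0 < R →
      ContDiffOn ℝ 2 u (ball x₀ R) →
      (∀ x ∈ ball x₀ R,
        ∑ i : Fin n, iteratedFDeriv ℝ 2 u x (fun _ => EuclideanSpace.single i (1 : ℝ)) = 0) →
      ∀ (x : EuclideanSpace ℝ (Fin n)) (r : ℝ), 0 < r → closedBall x r ⊆ ball x₀ R →
        u x = ∫ z, η z * u (x + r • z)

/-- proved in job REG -/
def StREG : Prop := ∀ (n : ℕ), 1 ≤ n → ∀ (η : EuclideanSpace ℝ (Fin n) → ℝ), ContDiff ℝ ∞ η →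
    (∀ z, 0 ≤ η z) → (∀ z, 1 ≤ ‖z‖ → η z = 0) → ∫ z, η z = 1 →
    ∃ C : ℝ, 1 ≤ C ∧ ∀ (F : Type) [NormedAddCommGroup F] [NormedSpace ℝ F] [CompleteSpace F]
      (f : EuclideanSpace ℝ (Fin n) → F) (x₀ : EuclideanSpace ℝ (Fin n)) (R : ℝ), 0 < R →
      ContinuousOn f (ball x₀ R) →
      (∀ (x : EuclideanSpace ℝ (Fin n)) (r : ℝ), 0 < r → closedBall x r ⊆ ball x₀ R →
        f x = ∫ z, η z • f (x + r • z)) →
      ContDiffOn ℝ ∞ f (ball x₀ R) ∧
      (∀ (x : EuclideanSpace ℝ (Fin n)) (r : ℝ), 0 < r → closedBall x r ⊆ ball x₀ R →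
        fderiv ℝ f x = ∫ z, η z • fderiv ℝ f (x + r • z)) ∧
      ∀ (M : ℝ) (k : ℕ) (x : EuclideanSpace ℝ (Fin n)) (ρ : ℝ), 0 < ρ →
        closedBall x ρ ⊆ ball x₀ R → (∀ y ∈ closedBall x ρ, ‖f y‖ ≤ M) →
        ‖iteratedFDeriv ℝ k f x‖ ≤ M * (C * k / ρ) ^ k

/-- the weight times a function continuous on the closed ball is integrable -/
theorem integrable_eta_smul {n : ℕ} {F : Type} [NormedAddCommGroup F] [NormedSpace ℝ F]
    (η : E n → ℝ) (hη : Continuous η) (h1 : ∀ z, 1 ≤ ‖z‖ → η z = 0) {g : E n → F}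
    (hg : ContinuousOn g (closedBall (0 : E n) 1)) : Integrable (fun z => η z • g z) := by
  have h2 : IntegrableOn (fun z : E n => η z • g z) (closedBall (0 : E n) 1) :=
    (hη.continuousOn.smul hg).integrableOn_compact (isCompact_closedBall _ _)
  rwa [integrableOn_iff_integrable_of_support_subset] at h2
  intro z hz
  rw [mem_closedBall_zero_iff]
  by_contra h3
  push Not at h3
  exact hz (by show η z • _ = 0; rw [h1 z h3.le, zero_smul])

/-- one step of the Harnack chain -/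
theorem step {n : ℕ} (η : E n → ℝ) (hη : Continuous η) (h0 : ∀ z, 0 ≤ η z)
    (h1 : ∀ z, 1 ≤ ‖z‖ → η z = 0) (c : ℝ) (hc : 0 < c) (hcη : ∀ z, ‖z‖ ≤ 3 / 4 → c ≤ η z)
    (M : ℝ) (hM : ∀ z, η z ≤ M) (v : E n → ℝ) (hv : ContinuousOn v (ball 0 1))
    (hv0 : ∀ x ∈ ball (0 : E n) 1, 0 ≤ v x)
    (hmv : ∀ (x : E n) (r : ℝ), 0 < r → closedBall x r ⊆ ball 0 1 →
      v x = ∫ z, η z * v (x + r • z))
    (x y : E n) (hx : x ∈ ball (0 : E n) (1 / 2)) (hy : y ∈ ball (0 : E n) (1 / 2))
    (hxy : ‖x - y‖ ≤ 1 / 16) : v x ≤ M * 4 ^ n / c * v y := by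
  rw [mem_ball_zero_iff] at hx hy
  have hMnn : 0 ≤ M := (h0 0).trans (hM 0)
  have hyz : ∀ z : E n, ‖z‖ ≤ 1 → y + (1 / 4 : ℝ) • z ∈ ball (0 : E n) 1 := by
    intro z hz
    rw [mem_ball_zero_iff]
    calc ‖y + (1 / 4 : ℝ) • z‖ ≤ ‖y‖ + ‖(1 / 4 : ℝ) • z‖ := norm_add_le _ _
      _ = ‖y‖ + 1 / 4 * ‖z‖ := by rw [norm_smul]; norm_num
      _ < 1 := by linarith
  have hcy : closedBall y (1 / 4) ⊆ ball (0 : E n) 1 := by
    intro w hw
    rw [mem_closedBall_iff_norm] at hw
    rw [mem_ball_zero_iff]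
    calc ‖w‖ = ‖y + (w - y)‖ := by rw [add_sub_cancel]
      _ ≤ ‖y‖ + ‖w - y‖ := norm_add_le _ _
      _ < 1 := by linarith
  have hcx : closedBall x (1 / 16) ⊆ ball (0 : E n) 1 := by
    intro w hw
    rw [mem_closedBall_iff_norm] at hw
    rw [mem_ball_zero_iff]
    calc ‖w‖ = ‖x + (w - x)‖ := by rw [add_sub_cancel]
      _ ≤ ‖x‖ + ‖w - x‖ := norm_add_le _ _
      _ < 1 := by linarith
  set G : E n → ℝ := (closedBall (0 : E n) (3 / 4)).indicator (fun z => v (y + (1 / 4 : ℝ) • z))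
    with hG
  have hcont1 : ContinuousOn (fun z : E n => v (y + (1 / 4 : ℝ) • z)) (closedBall (0 : E n) 1) := by
    refine hv.comp (by fun_prop) ?_
    intro z hz
    exact hyz z (by simpa using hz)
  have hsub : closedBall (0 : E n) (3 / 4) ⊆ closedBall (0 : E n) 1 :=
    closedBall_subset_closedBall (by norm_num)
  have hGint : Integrable G := by
    have h2 : IntegrableOn (fun z : E n => v (y + (1 / 4 : ℝ) • z)) (closedBall (0 : E n) (3 / 4)) :=
      (hcont1.mono hsub).integrableOn_compact (isCompact_closedBall _ _)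
    exact h2.integrable_indicator measurableSet_closedBall
  have hG0 : ∀ z, 0 ≤ G z := by
    intro z
    apply indicator_nonneg
    intro z hz
    exact hv0 _ (hyz z (by simpa using hsub hz))
  -- lower bound
  have hlow : c * ∫ z, G z ≤ v y := by
    rw [hmv y (1 / 4) (by norm_num) hcy, ← integral_const_mul]
    refine integral_mono_of_nonneg (Eventually.of_forall fun z => mul_nonneg hc.le (hG0 z)) ?_ ?_
    · have h2 : IntegrableOn (fun z : E n => η z * v (y + (1 / 4 : ℝ) • z))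
          (closedBall (0 : E n) 1) :=
        (hη.continuousOn.mul hcont1).integrableOn_compact (isCompact_closedBall _ _)
      rwa [integrableOn_iff_integrable_of_support_subset] at h2
      intro z hz
      rw [mem_closedBall_zero_iff]
      by_contra h3
      push Not at h3
      exact hz (by show η z * _ = 0; rw [h1 z h3.le, zero_mul])
    · refine Eventually.of_forall fun z => ?_
      show c * G z ≤ η z * v (y + (1 / 4 : ℝ) • z)
      by_cases hz : ‖z‖ ≤ 3 / 4
      · have h2 : G z = v (y + (1 / 4 : ℝ) • z) :=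
          indicator_of_mem (by rwa [mem_closedBall_zero_iff]) _
        rw [h2]
        exact mul_le_mul_of_nonneg_right (hcη z hz) (hv0 _ (hyz z (by linarith)))
      · have h2 : G z = 0 := indicator_of_notMem (by rwa [mem_closedBall_zero_iff]) _
        rw [h2, mul_zero]
        by_cases hz1 : ‖z‖ ≤ 1
        · exact mul_nonneg (h0 z) (hv0 _ (hyz z hz1))
        · push Not at hz1
          rw [h1 z hz1.le, zero_mul]
  -- upper bound
  have hcv : ∫ z, G ((4 : ℝ) • (x - y) + (1 / 4 : ℝ) • z) = 4 ^ n * ∫ z, G z := by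
    have h2 := Measure.integral_comp_smul (volume : Measure (E n))
      (fun z => G ((4 : ℝ) • (x - y) + z)) (1 / 4)
    rw [h2, integral_add_left_eq_self, finrank_euclideanSpace_fin, smul_eq_mul]
    congr 1
    rw [abs_of_pos (by positivity), ← inv_pow]
    norm_num
  have hup : v x ≤ M * (4 ^ n * ∫ z, G z) := by
    rw [hmv x (1 / 16) (by norm_num) hcx, ← hcv, ← integral_const_mul]
    have hxz : ∀ z : E n, ‖z‖ ≤ 1 → x + (1 / 16 : ℝ) • z ∈ ball (0 : E n) 1 := by
      intro z hz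
      apply hcx
      rw [mem_closedBall_iff_norm, add_sub_cancel_left, norm_smul]
      norm_num
      linarith
    refine integral_mono_of_nonneg (Eventually.of_forall fun z => ?_) ?_
      (Eventually.of_forall fun z => ?_)
    · show 0 ≤ η z * v (x + (1 / 16 : ℝ) • z)
      by_cases hz1 : ‖z‖ ≤ 1
      · exact mul_nonneg (h0 z) (hv0 _ (hxz z hz1))
      · push Not at hz1
        rw [h1 z hz1.le, zero_mul]
    · refine Integrable.const_mul ?_ M
      have h2 : Integrable (fun z => G ((4 : ℝ) • (x - y) + z)) :=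
        hGint.comp_add_left _
      exact h2.comp_smul (by norm_num : (1 / 4 : ℝ) ≠ 0)
    · show η z * v (x + (1 / 16 : ℝ) • z) ≤ M * G ((4 : ℝ) • (x - y) + (1 / 4 : ℝ) • z)
      by_cases hz1 : ‖z‖ ≤ 1
      · have h2 : G ((4 : ℝ) • (x - y) + (1 / 4 : ℝ) • z) = v (x + (1 / 16 : ℝ) • z) := by
          rw [hG, indicator_of_mem]
          · congr 1
            rw [smul_add, smul_smul, smul_smul]
            norm_num
            abel
          · rw [mem_closedBall_zero_iff]
            calc ‖(4 : ℝ) • (x - y) + (1 / 4 : ℝ) • z‖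
                ≤ ‖(4 : ℝ) • (x - y)‖ + ‖(1 / 4 : ℝ) • z‖ := norm_add_le _ _
              _ = 4 * ‖x - y‖ + 1 / 4 * ‖z‖ := by rw [norm_smul, norm_smul]; norm_num
              _ ≤ 3 / 4 := by linarith
        rw [h2]
        exact mul_le_mul_of_nonneg_right (hM z) (hv0 _ (hxz z hz1))
      · push Not at hz1
        rw [h1 z hz1.le, zero_mul]
        exact mul_nonneg hMnn (hG0 _)
  have hI : ∫ z, G z ≤ v y / c := by
    rw [le_div_iff₀ hc]; linarith
  calc v x ≤ M * (4 ^ n * ∫ z, G z) := hup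
    _ ≤ M * (4 ^ n * (v y / c)) := by
      apply mul_le_mul_of_nonneg_left _ hMnn
      exact mul_le_mul_of_nonneg_left hI (by positivity)
    _ = M * 4 ^ n / c * v y := by ring

/-- Harnack inequality on the half ball -/
theorem harnack {n : ℕ} (η : E n → ℝ) (hη : Continuous η) (h0 : ∀ z, 0 ≤ η z)
    (h1 : ∀ z, 1 ≤ ‖z‖ → η z = 0) (c : ℝ) (hc : 0 < c) (hcη : ∀ z, ‖z‖ ≤ 3 / 4 → c ≤ η z)
    (M : ℝ) (hM : ∀ z, η z ≤ M) (v : E n → ℝ) (hv : ContinuousOn v (ball 0 1))
    (hv0 : ∀ x ∈ ball (0 : E n) 1, 0 ≤ v x)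
    (hmv : ∀ (x : E n) (r : ℝ), 0 < r → closedBall x r ⊆ ball 0 1 →
      v x = ∫ z, η z * v (x + r • z))
    (x y : E n) (hx : x ∈ ball (0 : E n) (1 / 2)) (hy : y ∈ ball (0 : E n) (1 / 2)) :
    v x ≤ (M * 4 ^ n / c) ^ 16 * v y := by
  have hMnn : 0 ≤ M := (h0 0).trans (hM 0)
  have hC : 0 ≤ M * 4 ^ n / c := by positivity
  have hp : ∀ k : ℕ, k ≤ 16 → y + ((k : ℝ) / 16) • (x - y) ∈ ball (0 : E n) (1 / 2) := by
    intro k hk
    have hconv := convex_ball (0 : E n) (1 / 2)
    have hk' : (k : ℝ) ≤ 16 := by exact_mod_cast hk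
    have := hconv.add_smul_sub_mem hy hx (t := (k : ℝ) / 16)
      ⟨by positivity, by rw [div_le_one (by norm_num)]; exact hk'⟩
    exact this
  have key : ∀ k : ℕ, k ≤ 16 → v (y + ((k : ℝ) / 16) • (x - y)) ≤ (M * 4 ^ n / c) ^ k * v y := by
    intro k
    induction k with
    | zero => intro _; simp
    | succ k ih =>
      intro hk
      have h2 := step η hη h0 h1 c hc hcη M hM v hv hv0 hmv _ _ (hp (k + 1) hk)
        (hp k (by omega)) (by
          have h3 : y + (((k + 1 : ℕ) : ℝ) / 16) • (x - y) - (y + ((k : ℝ) / 16) • (x - y)) =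
              (1 / 16 : ℝ) • (x - y) := by
            push_cast
            module
          rw [h3, norm_smul]
          rw [mem_ball_zero_iff] at hx hy
          have h4 := norm_sub_le x y
          norm_num
          linarith)
      calc v (y + (((k + 1 : ℕ) : ℝ) / 16) • (x - y))
          ≤ M * 4 ^ n / c * v (y + ((k : ℝ) / 16) • (x - y)) := h2
        _ ≤ M * 4 ^ n / c * ((M * 4 ^ n / c) ^ k * v y) :=
            mul_le_mul_of_nonneg_left (ih (by omega)) hC
        _ = (M * 4 ^ n / c) ^ (k + 1) * v y := by ring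
  have h2 := key 16 le_rfl
  have h3 : y + (((16 : ℕ) : ℝ) / 16) • (x - y) = x := by
    norm_num
  rwa [h3] at h2

/-- TARGET -/
theorem har (hM : StMVP) (hR : StREG) (n : ℕ) (hn : 1 ≤ n) : ∃ ε₀ : ℝ, 0 < ε₀ ∧
    ∀ u : E n → ℝ, ContDiffOn ℝ 2 u (ball 0 1) →
      (∀ x ∈ ball (0 : E n) 1,
        ∑ i : Fin n, iteratedFDeriv ℝ 2 u x (fun _ => EuclideanSpace.single i (1 : ℝ)) = 0) →
      (∃ x ∈ ball (0 : E n) 1, ∃ y ∈ ball (0 : E n) 1, u x ≠ u y) →
      ∀ N : ℝ, N ≤ ε₀ →
        (∀ x ∈ ball (0 : E n) 1, ‖fderiv ℝ u x‖ ≤ Real.exp N *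
            ⨆ y : ball (0 : E n) (1 / 2), ‖fderiv ℝ u (y : E n)‖) →
        ∀ x ∈ ball (0 : E n) (1 / 2), fderiv ℝ u x ≠ 0 := by
  obtain ⟨η, hηs, h0, h1, hint, ⟨c, hc, hcη⟩, hmean⟩ := hM n hn
  obtain ⟨_, _, hreg⟩ := hR n hn η hηs h0 h1 hint
  have hη : Continuous η := hηs.continuous
  obtain ⟨M, hMη⟩ : ∃ M : ℝ, ∀ z, η z ≤ M := by
    obtain ⟨M, hM'⟩ := (isCompact_closedBall (0 : E n) 1).exists_bound_of_continuousOn
      hη.continuousOn
    refine ⟨max M 0, fun z => ?_⟩
    by_cases hz : ‖z‖ ≤ 1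
    · have := hM' z (by rwa [mem_closedBall_zero_iff])
      exact (le_abs_self _).trans (this.trans (le_max_left _ _))
    · push Not at hz
      rw [h1 z hz.le]
      exact le_max_right _ _
  have hηc : HasCompactSupport η := by
    refine HasCompactSupport.intro (isCompact_closedBall (0 : E n) 1) ?_
    intro z hz
    rw [mem_closedBall_zero_iff] at hz
    push Not at hz
    exact h1 z hz.le
  set C₀ : ℝ := max 1 ((M * 4 ^ n / c) ^ 16) with hC₀
  have hC1 : 1 ≤ C₀ := le_max_left _ _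
  have hCpos : 0 < C₀ := by linarith
  refine ⟨Real.log (1 + 1 / (4 * C₀)), Real.log_pos (by
    have : 0 < 1 / (4 * C₀) := by positivity
    linarith), ?_⟩
  intro u hu hharm hnc N hN hdoub
  have hsub : ball (0 : E n) (1 / 2) ⊆ ball (0 : E n) 1 := ball_subset_ball (by norm_num)
  -- mean values
  have humv := hmean u 0 1 one_pos hu hharm
  obtain ⟨husm, hdmv, _⟩ := hreg ℝ u 0 1 one_pos hu.continuousOn humv
  have hcd : ContinuousOn (fderiv ℝ u) (ball (0 : E n) 1) :=
    husm.continuousOn_fderiv_of_isOpen isOpen_ball (by simp)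
  set S : ℝ := ⨆ y : ball (0 : E n) (1 / 2), ‖fderiv ℝ u (y : E n)‖ with hS
  have hbdd : BddAbove (range fun y : ball (0 : E n) (1 / 2) => ‖fderiv ℝ u (y : E n)‖) := by
    refine ⟨Real.exp N * S, ?_⟩
    rintro _ ⟨y, rfl⟩
    exact hdoub y (hsub y.2)
  have hS0 : 0 ≤ S := Real.iSup_nonneg fun y => norm_nonneg _
  have hSpos : 0 < S := by
    rcases hS0.lt_or_eq with h | h
    · exact h
    · exfalso
      obtain ⟨x, hx, y, hy, hne⟩ := hnc
      apply hne
      refine isOpen_ball.is_const_of_fderiv_eq_zero (𝕜 := ℝ)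
        (convex_ball (0 : E n) 1).isPreconnected (husm.differentiableOn (by simp)) ?_ hx hy
      intro z hz
      have := hdoub z hz
      rw [← h, mul_zero] at this
      exact norm_le_zero_iff.1 this
  have hne : Nonempty (ball (0 : E n) (1 / 2)) := ⟨⟨0, mem_ball_self (by norm_num)⟩⟩
  have hexp1 : 1 ≤ Real.exp N := by
    have h2 : S ≤ Real.exp N * S := ciSup_le fun y => hdoub y (hsub y.2)
    by_contra h3
    push Not at h3
    nlinarith
  have hexp2 : Real.exp N ≤ 1 + 1 / (4 * C₀) := by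
    have h2 := Real.exp_le_exp.2 hN
    rwa [Real.exp_log (by positivity)] at h2
  -- a point with large derivative
  obtain ⟨y, hy, qq, hq1, hq⟩ : ∃ y ∈ ball (0 : E n) (1 / 2), ∃ qq : E n, ‖qq‖ ≤ 1 ∧
      S * (1 - 1 / (4 * C₀)) < fderiv ℝ u y qq := by
    have h2 : S * (1 - 1 / (4 * C₀)) < S := by
      have : 0 < S * (1 / (4 * C₀)) := by positivity
      linarith
    obtain ⟨y, hy⟩ := exists_lt_of_lt_ciSup h2
    obtain ⟨qq, hq1, hq2⟩ := (fderiv ℝ u (y : E n)).exists_lt_apply_of_lt_opNorm hy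
    rw [Real.norm_eq_abs, lt_abs] at hq2
    rcases hq2 with h3 | h3
    · exact ⟨y, y.2, qq, hq1.le, h3⟩
    · exact ⟨y, y.2, -qq, by rw [norm_neg]; exact hq1.le, by rw [map_neg]; exact h3⟩
  -- the nonnegative function
  set v : E n → ℝ := fun x => Real.exp N * S - fderiv ℝ u x qq with hv
  have hvc : ContinuousOn v (ball (0 : E n) 1) := by
    refine continuousOn_const.sub ?_
    exact hcd.clm_apply continuousOn_const
  have hv0 : ∀ x ∈ ball (0 : E n) 1, 0 ≤ v x := by
    intro x hx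
    have h2 := (fderiv ℝ u x).le_opNorm qq
    have h3 := hdoub x hx
    have h4 : ‖fderiv ℝ u x‖ * ‖qq‖ ≤ ‖fderiv ℝ u x‖ * 1 :=
      mul_le_mul_of_nonneg_left hq1 (norm_nonneg _)
    have h5 := le_abs_self (fderiv ℝ u x qq)
    rw [Real.norm_eq_abs] at h2
    show 0 ≤ Real.exp N * S - fderiv ℝ u x qq
    linarith
  have hvm : ∀ (x : E n) (r : ℝ), 0 < r → closedBall x r ⊆ ball 0 1 →
      v x = ∫ z, η z * v (x + r • z) := by
    intro x r hr hxr
    have hmap : ∀ z ∈ closedBall (0 : E n) 1, x + r • z ∈ ball (0 : E n) 1 := by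
      intro z hz
      rw [mem_closedBall_zero_iff] at hz
      apply hxr
      rw [mem_closedBall_iff_norm, add_sub_cancel_left, norm_smul, Real.norm_eq_abs,
        abs_of_pos hr]
      nlinarith
    have hcont : ContinuousOn (fun z : E n => fderiv ℝ u (x + r • z)) (closedBall (0 : E n) 1) :=
      hcd.comp (by fun_prop) hmap
    have hi1 : Integrable (fun z => η z • fderiv ℝ u (x + r • z)) :=
      integrable_eta_smul η hη h1 hcont
    have hi2 : Integrable (fun z => η z * fderiv ℝ u (x + r • z) qq) := by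
      have h2 := (ContinuousLinearMap.apply ℝ ℝ qq).integrable_comp hi1
      refine h2.congr (Eventually.of_forall fun z => ?_)
      simp
    have h2 : fderiv ℝ u x qq = ∫ z, η z * fderiv ℝ u (x + r • z) qq := by
      rw [hdmv x r hr hxr, ContinuousLinearMap.integral_apply hi1]
      rfl
    have h3 : Integrable (fun z => η z * (Real.exp N * S)) :=
      (hη.integrable_of_hasCompactSupport hηc).mul_const _
    have h4 : ∫ z, η z * v (x + r • z) =
        ∫ z, (η z * (Real.exp N * S) - η z * fderiv ℝ u (x + r • z) qq) := by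
      congr 1
      funext z
      rw [hv]
      ring
    rw [h4, integral_sub h3 hi2, ← h2, integral_mul_const, hint, one_mul]
  intro x hx hzero
  have hH := harnack η hη h0 h1 c hc hcη M hMη v hvc hv0 hvm x y hx hy
  have hvy0 : 0 ≤ v y := hv0 y (hsub hy)
  have hH2 : v x ≤ C₀ * v y :=
    hH.trans (mul_le_mul_of_nonneg_right (le_max_right _ _) hvy0)
  have hvx : v x = Real.exp N * S := by
    rw [hv]
    simp [hzero]
  have hvy : v y < (Real.exp N - 1 + 1 / (4 * C₀)) * S := by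
    rw [hv]
    simp only
    linarith
  have h5 : C₀ * v y < C₀ * ((Real.exp N - 1 + 1 / (4 * C₀)) * S) :=
    mul_lt_mul_of_pos_left hvy hCpos
  have h6 : Real.exp N - 1 + 1 / (4 * C₀) ≤ 1 / (2 * C₀) := by
    have : 1 / (2 * C₀) = 1 / (4 * C₀) + 1 / (4 * C₀) := by field_simp; norm_num
    linarith
  have h7 : C₀ * ((Real.exp N - 1 + 1 / (4 * C₀)) * S) ≤ C₀ * (1 / (2 * C₀) * S) :=
    mul_le_mul_of_nonneg_left (mul_le_mul_of_nonneg_right h6 hS0) hCpos.le
  have h8 : C₀ * (1 / (2 * C₀) * S) = S / 2 := by field_simp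
  nlinarith

end Pool.Agent.Helper688.Crit.HAR
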