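import Mathlib

/-!
Job MVP (MP_8465a2_an): a smooth compactly supported averaging kernel with the mean value property
for harmonic functions.
-/

set_option autoImplicit false

open MeasureTheory Metric Set Filter Topology
open scoped ContDiff ENNReal NNReal

namespace Pool.Agent.Helper688.Crit.MVP

/-- The one-dimensional profile. -/
noncomputable def psi (s : ℝ) : ℝ := expNegInvGlue (1 - s)

/-- Minus the derivative of the profile. -/
noncomputable def kap (s : ℝ) : ℝ := ((1 - s)⁻¹) ^ 2 * expNegInvGlue (1 - s)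

lemma kap_contDiff : ContDiff ℝ ∞ kap := by
  have h := expNegInvGlue.contDiff_polynomial_eval_inv_mul (n := ⊤) (Polynomial.X ^ 2)
  have h2 : ContDiff ℝ ∞ (fun x : ℝ => ((x)⁻¹) ^ 2 * expNegInvGlue x) := by
    simpa using h
  exact h2.comp (contDiff_const.sub contDiff_id)

lemma psi_hasDerivAt (s : ℝ) : HasDerivAt psi (-kap s) s := by
  have h := expNegInvGlue.hasDerivAt_polynomial_eval_inv_mul 1 (1 - s)
  have h2 : HasDerivAt expNegInvGlue (((1 - s)⁻¹) ^ 2 * expNegInvGlue (1 - s)) (1 - s) := by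
    simpa using h
  have h3 : HasDerivAt (fun s : ℝ => 1 - s) (-1) s := by
    simpa using (hasDerivAt_id s).const_sub 1
  have h4 := h2.comp s h3
  unfold psi kap
  simpa [Function.comp_def] using h4

lemma kap_nonneg (s : ℝ) : 0 ≤ kap s := by
  unfold kap
  have := expNegInvGlue.nonneg (1 - s)
  positivity

lemma kap_zero {s : ℝ} (hs : 1 ≤ s) : kap s = 0 := by
  unfold kap
  rw [expNegInvGlue.zero_of_nonpos (by linarith), mul_zero]

lemma psi_zero {s : ℝ} (hs : 1 ≤ s) : psi s = 0 := by
  unfold psi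
  rw [expNegInvGlue.zero_of_nonpos (by linarith)]

lemma kap_pos {s : ℝ} (h0 : 0 ≤ s) (hs : s ≤ 9 / 16) : expNegInvGlue (7 / 16) ≤ kap s := by
  unfold kap
  have h1 : 1 ≤ (1 - s)⁻¹ := by
    rw [one_le_inv₀ (by linarith)]
    linarith
  have h2 : 1 ≤ ((1 - s)⁻¹) ^ 2 := one_le_pow₀ h1
  have h3 : expNegInvGlue (7 / 16) ≤ expNegInvGlue (1 - s) :=
    expNegInvGlue.monotone (by linarith)
  have h4 := expNegInvGlue.nonneg (1 - s)
  nlinarith

variable {n : ℕ}

/-- The unnormalised kernel. -/
noncomputable def eta0 (z : EuclideanSpace ℝ (Fin n)) : ℝ := kap (‖z‖ ^ 2)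

/-- The potential of the kernel. -/
noncomputable def Psi (z : EuclideanSpace ℝ (Fin n)) : ℝ := psi (‖z‖ ^ 2)

lemma eta0_nonneg (z : EuclideanSpace ℝ (Fin n)) : 0 ≤ eta0 z := kap_nonneg _

lemma eta0_lower : ∃ c : ℝ, 0 < c ∧ ∀ z : EuclideanSpace ℝ (Fin n), ‖z‖ ≤ 3 / 4 → c ≤ eta0 z := by
  refine ⟨expNegInvGlue (7 / 16), expNegInvGlue.pos_of_pos (by norm_num), fun z hz => ?_⟩
  have h0 := norm_nonneg z
  exact kap_pos (by positivity) (by nlinarith)

lemma eta0_contDiff : ContDiff ℝ ∞ (eta0 (n := n)) :=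
  kap_contDiff.comp (contDiff_norm_sq ℝ)

lemma Psi_hasFDerivAt (z : EuclideanSpace ℝ (Fin n)) :
    HasFDerivAt (Psi (n := n)) ((-kap (‖z‖ ^ 2)) • ((2 : ℕ) • innerSL ℝ z)) z := by
  have h := (psi_hasDerivAt (‖z‖ ^ 2)).comp_hasFDerivAt z (hasStrictFDerivAt_norm_sq z).hasFDerivAt
  exact h

lemma Psi_continuous : Continuous (Psi (n := n)) :=
  continuous_iff_continuousAt.2 fun z => (Psi_hasFDerivAt z).continuousAt

lemma Psi_fderiv (z v : EuclideanSpace ℝ (Fin n)) :
    fderiv ℝ (Psi (n := n)) z v = -2 * (eta0 z * inner ℝ z v) := by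
  rw [(Psi_hasFDerivAt z).fderiv]
  simp [eta0]
  ring

lemma eta0_zero {z : EuclideanSpace ℝ (Fin n)} (hz : 1 ≤ ‖z‖) : eta0 z = 0 :=
  kap_zero (one_le_pow₀ hz)

lemma Psi_zero {z : EuclideanSpace ℝ (Fin n)} (hz : 1 ≤ ‖z‖) : Psi z = 0 :=
  psi_zero (one_le_pow₀ hz)

lemma cs_of_zero {F : Type*} [NormedAddCommGroup F] {f : EuclideanSpace ℝ (Fin n) → F}
    (h : ∀ z, 1 ≤ ‖z‖ → f z = 0) : HasCompactSupport f := by
  apply HasCompactSupport.intro (isCompact_closedBall (0 : EuclideanSpace ℝ (Fin n)) 1)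
  intro z hz
  apply h
  simp only [mem_closedBall, dist_zero_right, not_le] at hz
  exact hz.le

lemma eta0_int_pos : 0 < ∫ z : EuclideanSpace ℝ (Fin n), eta0 z := by
  apply Continuous.integral_pos_of_hasCompactSupport_nonneg_nonzero (x := 0)
    eta0_contDiff.continuous (cs_of_zero fun z hz => eta0_zero hz) (fun z => eta0_nonneg z)
  have h1 : expNegInvGlue (7 / 16) ≤ eta0 (0 : EuclideanSpace ℝ (Fin n)) := by
    unfold eta0
    apply kap_pos <;> norm_num
  have h2 : 0 < expNegInvGlue (7 / 16) := expNegInvGlue.pos_of_pos (by norm_num)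
  linarith

/-- The derivative of the averages. -/
lemma hasDerivAt_avg {U : EuclideanSpace ℝ (Fin n) → ℝ} (hU : ContDiff ℝ 2 U)
    (hs : HasCompactSupport U) (x : EuclideanSpace ℝ (Fin n)) (ρ : ℝ) :
    HasDerivAt (fun ρ : ℝ => ∫ z, eta0 z * U (x + ρ • z))
      (∫ z, eta0 z * fderiv ℝ U (x + ρ • z) z) ρ := by
  have hdc : Continuous (fderiv ℝ U) := hU.continuous_fderiv (by norm_num)
  obtain ⟨C, hC⟩ := hdc.bounded_above_of_compact_support (hs.fderiv (𝕜 := ℝ))
  have hηc : Continuous (eta0 (n := n)) := eta0_contDiff.continuous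
  have hcont : ∀ ρ : ℝ, Continuous fun z : EuclideanSpace ℝ (Fin n) => x + ρ • z :=
    fun ρ => by fun_prop
  have key := hasDerivAt_integral_of_dominated_loc_of_deriv_le (μ := volume) (𝕜 := ℝ)
    (F := fun (ρ : ℝ) (z : EuclideanSpace ℝ (Fin n)) => eta0 z * U (x + ρ • z))
    (F' := fun (ρ : ℝ) (z : EuclideanSpace ℝ (Fin n)) => eta0 z * fderiv ℝ U (x + ρ • z) z)
    (x₀ := ρ) (s := univ) (bound := fun z => eta0 z * (C * ‖z‖)) univ_mem ?_ ?_ ?_ ?_ ?_ ?_
  · exact key.2
  · exact Eventually.of_forall fun ρ =>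
      (hηc.mul (hU.continuous.comp (hcont ρ))).aestronglyMeasurable
  · apply Continuous.integrable_of_hasCompactSupport
    · exact hηc.mul (hU.continuous.comp (hcont ρ))
    · apply cs_of_zero
      intro z hz
      rw [eta0_zero hz, zero_mul]
  · apply Continuous.aestronglyMeasurable
    exact hηc.mul ((hdc.comp (hcont ρ)).clm_apply continuous_id)
  · refine Eventually.of_forall fun z ρ _ => ?_
    rw [norm_mul, Real.norm_of_nonneg (eta0_nonneg z)]
    apply mul_le_mul_of_nonneg_left _ (eta0_nonneg z)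
    exact ((fderiv ℝ U (x + ρ • z)).le_opNorm z).trans
      (mul_le_mul_of_nonneg_right (hC _) (norm_nonneg z))
  · apply Continuous.integrable_of_hasCompactSupport
    · exact hηc.mul (continuous_const.mul continuous_norm)
    · apply cs_of_zero
      intro z hz
      rw [eta0_zero hz, zero_mul]
  · refine Eventually.of_forall fun z ρ _ => ?_
    apply HasDerivAt.const_mul
    have h1 : HasDerivAt (fun ρ : ℝ => x + ρ • z) z ρ := by
      simpa using ((hasDerivAt_id ρ).smul_const z).const_add x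
    exact ((hU.differentiable (by norm_num)) _).hasFDerivAt.comp_hasDerivAt ρ h1

/-- Integration by parts. -/
lemma parts {U : EuclideanSpace ℝ (Fin n) → ℝ} (hU : ContDiff ℝ 2 U)
    (x : EuclideanSpace ℝ (Fin n)) (ρ : ℝ) :
    2 * ∫ z, eta0 z * fderiv ℝ U (x + ρ • z) z =
      ρ * ∫ z, Psi z * ∑ i : Fin n, fderiv ℝ (fderiv ℝ U) (x + ρ • z)
        (EuclideanSpace.single i (1 : ℝ)) (EuclideanSpace.single i (1 : ℝ)) := by
  have hηc : Continuous (eta0 (n := n)) := eta0_contDiff.continuous
  have hΨc : Continuous (Psi (n := n)) := Psi_continuous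
  have hd1 : ContDiff ℝ 1 (fderiv ℝ U) := hU.fderiv_right (m := 1) (by norm_num)
  have hdc : Continuous (fderiv ℝ U) := hd1.continuous
  have hddc : Continuous (fderiv ℝ (fderiv ℝ U)) := hd1.continuous_fderiv (by norm_num)
  have hcont : Continuous fun z : EuclideanSpace ℝ (Fin n) => x + ρ • z := by fun_prop
  -- the functions g_i
  have hg : ∀ (i : Fin n) (z : EuclideanSpace ℝ (Fin n)),
      HasFDerivAt (fun z => fderiv ℝ U (x + ρ • z) (EuclideanSpace.single i (1 : ℝ)))
        ((ContinuousLinearMap.apply ℝ ℝ (EuclideanSpace.single i (1 : ℝ))).comp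
          ((fderiv ℝ (fderiv ℝ U) (x + ρ • z)).comp
            (ρ • ContinuousLinearMap.id ℝ (EuclideanSpace ℝ (Fin n))))) z := by
    intro i z
    have h1 : HasFDerivAt (fun z : EuclideanSpace ℝ (Fin n) => x + ρ • z)
        (ρ • ContinuousLinearMap.id ℝ (EuclideanSpace ℝ (Fin n))) z :=
      ((hasFDerivAt_id z).const_smul ρ).const_add x
    have h2 := ((hd1.differentiable (by norm_num)) (x + ρ • z)).hasFDerivAt.comp z h1
    exact (ContinuousLinearMap.apply ℝ ℝ (EuclideanSpace.single i (1 : ℝ))).hasFDerivAt.comp z h2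
  have hint : ∀ {f : EuclideanSpace ℝ (Fin n) → ℝ}, Continuous f → (∀ z, 1 ≤ ‖z‖ → f z = 0) →
      Integrable f volume := fun hf h0 =>
    hf.integrable_of_hasCompactSupport (cs_of_zero h0)
  have hstep : ∀ i : Fin n,
      ∫ z, Psi z * (ρ * fderiv ℝ (fderiv ℝ U) (x + ρ • z)
        (EuclideanSpace.single i (1 : ℝ)) (EuclideanSpace.single i (1 : ℝ))) =
      ∫ z, 2 * (eta0 z * (z i * fderiv ℝ U (x + ρ • z) (EuclideanSpace.single i (1 : ℝ)))) := by
    intro i
    have hf : ∀ z : EuclideanSpace ℝ (Fin n),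
        fderiv ℝ (fun z => fderiv ℝ U (x + ρ • z) (EuclideanSpace.single i (1 : ℝ))) z
          (EuclideanSpace.single i (1 : ℝ)) = ρ * fderiv ℝ (fderiv ℝ U) (x + ρ • z)
        (EuclideanSpace.single i (1 : ℝ)) (EuclideanSpace.single i (1 : ℝ)) := by
      intro z
      rw [(hg i z).fderiv]
      simp
    have hP : ∀ z : EuclideanSpace ℝ (Fin n),
        fderiv ℝ (Psi (n := n)) z (EuclideanSpace.single i (1 : ℝ)) = -2 * (eta0 z * z i) := by
      intro z
      rw [Psi_fderiv, EuclideanSpace.inner_single_right]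
      simp
    have hc1 : Continuous fun z : EuclideanSpace ℝ (Fin n) => z i := by fun_prop
    have hc2 : Continuous fun z : EuclideanSpace ℝ (Fin n) =>
        fderiv ℝ U (x + ρ • z) (EuclideanSpace.single i (1 : ℝ)) :=
      (hdc.comp hcont).clm_apply continuous_const
    have hc3 : Continuous fun z : EuclideanSpace ℝ (Fin n) =>
        fderiv ℝ (fderiv ℝ U) (x + ρ • z)
        (EuclideanSpace.single i (1 : ℝ)) (EuclideanSpace.single i (1 : ℝ)) :=
      ((hddc.comp hcont).clm_apply continuous_const).clm_apply continuous_const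
    have key := integral_mul_fderiv_eq_neg_fderiv_mul_of_integrable (μ := volume) (𝕜 := ℝ)
      (f := Psi (n := n))
      (g := fun z => fderiv ℝ U (x + ρ • z) (EuclideanSpace.single i (1 : ℝ)))
      (v := EuclideanSpace.single i (1 : ℝ)) ?_ ?_ ?_ ?_ ?_
    · simp only [hf, hP] at key
      rw [key, ← integral_neg]
      congr 1
      ext z
      ring
    · simp only [hP]
      apply hint
      · exact (continuous_const.mul (hηc.mul hc1)).mul hc2
      · intro z hz
        rw [eta0_zero hz]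
        ring
    · simp only [hf]
      apply hint
      · exact hΨc.mul (continuous_const.mul hc3)
      · intro z hz
        rw [Psi_zero hz]
        ring
    · apply hint
      · exact hΨc.mul hc2
      · intro z hz
        rw [Psi_zero hz]
        ring
    · exact fun z _ => (Psi_hasFDerivAt z).differentiableAt
    · exact fun z _ => (hg i z).differentiableAt
  have hz : ∀ z : EuclideanSpace ℝ (Fin n), fderiv ℝ U (x + ρ • z) z =
      ∑ i : Fin n, z i * fderiv ℝ U (x + ρ • z) (EuclideanSpace.single i (1 : ℝ)) := by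
    intro z
    have h1 : z = ∑ i : Fin n, z i • EuclideanSpace.single i (1 : ℝ) := by
      ext j
      simp [Finset.sum_apply, Pi.single_apply]
    conv_lhs => rw [show fderiv ℝ U (x + ρ • z) z = fderiv ℝ U (x + ρ • z)
      (∑ i : Fin n, z i • EuclideanSpace.single i (1 : ℝ)) from by rw [← h1]]
    rw [map_sum]
    apply Finset.sum_congr rfl
    intro i _
    rw [map_smul, smul_eq_mul]
  have e1 : 2 * ∫ z, eta0 z * fderiv ℝ U (x + ρ • z) z =
      ∑ i : Fin n, ∫ z, 2 * (eta0 z * (z i * fderiv ℝ U (x + ρ • z)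
        (EuclideanSpace.single i (1 : ℝ)))) := by
    rw [← integral_finsetSum]
    · rw [← integral_const_mul]
      congr 1
      ext z
      rw [hz z, Finset.mul_sum, Finset.mul_sum]
    · intro i _
      apply hint
      · have hc1 : Continuous fun z : EuclideanSpace ℝ (Fin n) => z i := by fun_prop
        have hc2 : Continuous fun z : EuclideanSpace ℝ (Fin n) =>
            fderiv ℝ U (x + ρ • z) (EuclideanSpace.single i (1 : ℝ)) :=
          (hdc.comp hcont).clm_apply continuous_const
        exact continuous_const.mul (hηc.mul (hc1.mul hc2))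
      · intro z hz
        rw [eta0_zero hz]
        ring
  have e2 : ρ * ∫ z, Psi z * ∑ i : Fin n, fderiv ℝ (fderiv ℝ U) (x + ρ • z)
        (EuclideanSpace.single i (1 : ℝ)) (EuclideanSpace.single i (1 : ℝ)) =
      ∑ i : Fin n, ∫ z, Psi z * (ρ * fderiv ℝ (fderiv ℝ U) (x + ρ • z)
        (EuclideanSpace.single i (1 : ℝ)) (EuclideanSpace.single i (1 : ℝ))) := by
    rw [← integral_finsetSum]
    · rw [← integral_const_mul]
      congr 1
      ext z
      rw [Finset.mul_sum, Finset.mul_sum]
      apply Finset.sum_congr rfl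
      intro i _
      ring
    · intro i _
      apply hint
      · have hc3 : Continuous fun z : EuclideanSpace ℝ (Fin n) =>
            fderiv ℝ (fderiv ℝ U) (x + ρ • z)
            (EuclideanSpace.single i (1 : ℝ)) (EuclideanSpace.single i (1 : ℝ)) :=
          ((hddc.comp hcont).clm_apply continuous_const).clm_apply continuous_const
        exact hΨc.mul (continuous_const.mul hc3)
      · intro z hz
        rw [Psi_zero hz]
        ring
  rw [e1, e2]
  exact Finset.sum_congr rfl fun i _ => (hstep i).symm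

/-- The mean value property for compactly supported functions. -/
lemma mvp_aux {U : EuclideanSpace ℝ (Fin n) → ℝ} (hU : ContDiff ℝ 2 U)
    (hs : HasCompactSupport U) (x : EuclideanSpace ℝ (Fin n)) (r : ℝ) (hr : 0 < r)
    (hL : ∀ y ∈ closedBall x r, ∑ i : Fin n, fderiv ℝ (fderiv ℝ U) y
        (EuclideanSpace.single i (1 : ℝ)) (EuclideanSpace.single i (1 : ℝ)) = 0) :
    ∫ z, eta0 z * U (x + r • z) = (∫ z : EuclideanSpace ℝ (Fin n), eta0 z) * U x := by
  have hz : ∀ ρ ∈ Icc (0 : ℝ) r, ∫ z, eta0 z * fderiv ℝ U (x + ρ • z) z = 0 := by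
    intro ρ hρ
    have h := parts hU x ρ
    have h0 : ∀ z : EuclideanSpace ℝ (Fin n), Psi z * ∑ i : Fin n,
        fderiv ℝ (fderiv ℝ U) (x + ρ • z)
        (EuclideanSpace.single i (1 : ℝ)) (EuclideanSpace.single i (1 : ℝ)) = 0 := by
      intro z
      by_cases hz : 1 ≤ ‖z‖
      · rw [Psi_zero hz, zero_mul]
      · rw [hL, mul_zero]
        rw [mem_closedBall, dist_eq_norm, add_sub_cancel_left, norm_smul,
          Real.norm_of_nonneg hρ.1]
        have := hρ.2
        have := hρ.1
        have h2 := norm_nonneg z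
        push Not at hz
        nlinarith
    simp only [h0, integral_zero, mul_zero] at h
    linarith
  have hconst := constant_of_has_deriv_right_zero (f := fun ρ : ℝ => ∫ z, eta0 z * U (x + ρ • z))
    (a := 0) (b := r) ?_ ?_ r (right_mem_Icc.2 hr.le)
  · beta_reduce at hconst
    rw [hconst]
    simp only [zero_smul, add_zero]
    rw [integral_mul_const]
  · exact fun ρ _ => (hasDerivAt_avg hU hs x ρ).continuousAt.continuousWithinAt
  · intro ρ hρ
    have h := hasDerivAt_avg hU hs x ρ
    rw [hz ρ ⟨hρ.1, hρ.2.le⟩] at h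
    exact h.hasDerivWithinAt

/-- TARGET -/
theorem mvp (n : ℕ) (hn : 1 ≤ n) : ∃ η : EuclideanSpace ℝ (Fin n) → ℝ, ContDiff ℝ ∞ η ∧
    (∀ z, 0 ≤ η z) ∧ (∀ z, 1 ≤ ‖z‖ → η z = 0) ∧ ∫ z, η z = 1 ∧
    (∃ c : ℝ, 0 < c ∧ ∀ z, ‖z‖ ≤ 3 / 4 → c ≤ η z) ∧
    ∀ (u : EuclideanSpace ℝ (Fin n) → ℝ) (x₀ : EuclideanSpace ℝ (Fin n)) (R : ℝ), 0 < R →
      ContDiffOn ℝ 2 u (ball x₀ R) →
      (∀ x ∈ ball x₀ R,
        ∑ i : Fin n, iteratedFDeriv ℝ 2 u x (fun _ => EuclideanSpace.single i (1 : ℝ)) = 0) →
      ∀ (x : EuclideanSpace ℝ (Fin n)) (r : ℝ), 0 < r → closedBall x r ⊆ ball x₀ R →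
        u x = ∫ z, η z * u (x + r • z) := by
  have hI : 0 < ∫ z : EuclideanSpace ℝ (Fin n), eta0 z := eta0_int_pos
  set I : ℝ := ∫ z : EuclideanSpace ℝ (Fin n), eta0 z with hIdef
  refine ⟨fun z => I⁻¹ * eta0 z, contDiff_const.mul eta0_contDiff, ?_, ?_, ?_, ?_, ?_⟩
  · exact fun z => mul_nonneg (inv_nonneg.2 hI.le) (eta0_nonneg z)
  · intro z hz
    simp only [eta0_zero hz, mul_zero]
  · rw [integral_const_mul]
    exact inv_mul_cancel₀ hI.ne'
  · obtain ⟨c, hc, hc2⟩ := eta0_lower (n := n)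
    exact ⟨I⁻¹ * c, mul_pos (inv_pos.2 hI) hc, fun z hz =>
      mul_le_mul_of_nonneg_left (hc2 z hz) (inv_nonneg.2 hI.le)⟩
  · intro u x₀ R hR hu hL x r hr hsub
    -- the cutoff
    obtain ⟨δ, hδ, hδs⟩ := (isCompact_closedBall x r).exists_cthickening_subset_open
      isOpen_ball hsub
    rw [cthickening_closedBall hδ.le hr.le] at hδs
    let b : ContDiffBump x := ⟨r + δ / 2, r + δ, by linarith, by linarith⟩
    have hsup : tsupport (fun y => b y * u y) ⊆ closedBall x (r + δ) := by
      refine (tsupport_mul_subset_left).trans ?_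
      rw [b.tsupport_eq]
    have hcs : HasCompactSupport (fun y => b y * u y) :=
      (isCompact_closedBall x (r + δ)).of_isClosed_subset (isClosed_tsupport _) hsup
    have hU : ContDiff ℝ 2 (fun y => b y * u y) := by
      rw [contDiff_iff_contDiffAt]
      intro y
      by_cases hy : y ∈ ball x₀ R
      · exact (b.contDiff.contDiffAt).mul (hu.contDiffAt (isOpen_ball.mem_nhds hy))
      · have hy' : y ∉ tsupport (fun y => b y * u y) := by
          intro h
          have h2 := hsup h
          rw [add_comm r δ] at h2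
          exact hy (hδs h2)
        exact (contDiffAt_const (c := (0 : ℝ))).congr_of_eventuallyEq
          (notMem_tsupport_iff_eventuallyEq.1 hy')
    have heq : ∀ y ∈ closedBall x r, (fun y => b y * u y) =ᶠ[𝓝 y] u := by
      intro y hy
      have hy' : y ∈ ball x (r + δ / 2) := by
        rw [mem_ball]
        rw [mem_closedBall] at hy
        linarith
      filter_upwards [isOpen_ball.mem_nhds hy'] with w hw
      have : b w = 1 := b.one_of_mem_closedBall (ball_subset_closedBall hw)
      rw [this, one_mul]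
    have hLU : ∀ y ∈ closedBall x r, ∑ i : Fin n, fderiv ℝ (fderiv ℝ (fun y => b y * u y)) y
        (EuclideanSpace.single i (1 : ℝ)) (EuclideanSpace.single i (1 : ℝ)) = 0 := by
      intro y hy
      rw [← hL y (hsub hy)]
      apply Finset.sum_congr rfl
      intro i _
      have h1 := (Filter.EventuallyEq.iteratedFDeriv ℝ (heq y hy) 2).eq_of_nhds
      rw [← h1, iteratedFDeriv_two_apply]
    have key := mvp_aux hU hcs x r hr hLU
    have hx : b x = 1 := b.one_of_mem_closedBall (mem_closedBall_self (by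
      show (0 : ℝ) ≤ r + δ / 2
      positivity))
    have hint : ∫ z, eta0 z * u (x + r • z) = ∫ z, eta0 z * (b (x + r • z) * u (x + r • z)) := by
      congr 1
      ext z
      by_cases hz : 1 ≤ ‖z‖
      · rw [eta0_zero hz, zero_mul, zero_mul]
      · have hmem : x + r • z ∈ closedBall x (r + δ / 2) := by
          rw [mem_closedBall, dist_eq_norm, add_sub_cancel_left, norm_smul,
            Real.norm_of_nonneg hr.le]
          have h2 := norm_nonneg z
          push Not at hz
          nlinarith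
        rw [show b (x + r • z) = 1 from b.one_of_mem_closedBall hmem, one_mul]
    have : ∀ z : EuclideanSpace ℝ (Fin n), I⁻¹ * eta0 z * u (x + r • z) =
        I⁻¹ * (eta0 z * u (x + r • z)) := fun z => by ring
    simp only [this]
    rw [integral_const_mul, hint, key, hx, one_mul, ← hIdef, ← mul_assoc,
      inv_mul_cancel₀ hI.ne', one_mul]

end Pool.Agent.Helper688.Crit.MVP
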