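import Mathlib

/-!
Propagation of smallness from one end of the unit interval to the other (job PROP).
-/

set_option autoImplicit false

open MeasureTheory Metric Set Filter Topology
open scoped ContDiff ENNReal NNReal

namespace Pool.Agent.Helper688.Crit.PROP

/-- proved in job LR -/
def StLR : Prop := ∀ (m : ℕ) (b μ η K : ℝ), 0 < b → 0 < μ → 0 ≤ K →
    ∀ (U : Set ℝ), IsOpen U → Icc 0 b ⊆ U → ∀ (h : ℝ → ℝ), ContDiffOn ℝ ∞ h U →
    (∀ x ∈ Icc 0 b, |iteratedDeriv (m + 1) h x| ≤ K) →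
    ∀ (S : Set ℝ), S ⊆ Icc 0 b → ENNReal.ofReal μ ≤ volume S →
    (∀ x ∈ S, |h x| ≤ η) →
    |h 0| ≤ (12 * b / μ) ^ (m + 1) * η + K * b ^ (m + 1) / ((m + 1).factorial : ℝ)

/-- one step: a lower bound at `a` gives a lower bound at some point of the next interval -/
theorem step (hLR : StLR) (A : ℝ) (hA : 1 ≤ A) (w : ℝ) (hw : 0 < w) (hwA : 2 * w * A ≤ 1 / 10)
    (U : Set ℝ) (hU : IsOpen U) (h01 : Icc 0 1 ⊆ U) (h : ℝ → ℝ) (hh : ContDiffOn ℝ ∞ h U)
    (hk : ∀ k : ℕ, ∀ x ∈ Icc (0 : ℝ) 1, |iteratedDeriv k h x| ≤ A ^ k * k.factorial)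
    (s : ℝ) (hs : 0 ≤ s) (p a : ℝ) (hp0 : 0 ≤ p) (hp1 : p + 2 * w ≤ 1)
    (ha : a ∈ Icc p (p + w)) (hle : Real.exp (-s) ≤ |h a|) :
    ∃ τ ∈ Icc (p + w) (p + 2 * w), Real.exp (-(5 * s + 12)) ≤ |h τ| := by
  by_contra hcon
  push Not at hcon
  obtain ⟨ha1, ha2⟩ := ha
  set m : ℕ := ⌈s⌉₊ with hm
  have hm1 : s ≤ m := Nat.le_ceil s
  have hm2 : (m : ℝ) < s + 1 := Nat.ceil_lt_add_one hs
  set b : ℝ := p + 2 * w - a with hb
  have hb1 : w ≤ b := by rw [hb]; linarith
  have hb2 : b ≤ 2 * w := by rw [hb]; linarith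
  have hb0 : 0 < b := by linarith
  have hfac : (0 : ℝ) < ((m + 1).factorial : ℝ) := by exact_mod_cast Nat.factorial_pos _
  have hcont : Continuous fun t : ℝ => a + t := by fun_prop
  have key := hLR m b w (Real.exp (-(5 * s + 12))) (A ^ (m + 1) * (m + 1).factorial) hb0 hw
    (by positivity) ((fun t : ℝ => a + t) ⁻¹' U) (hU.preimage hcont)
    (by
      intro t ht
      apply h01
      constructor
      · have := ht.1
        simp only
        linarith
      · have := ht.2
        simp only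
        linarith)
    (fun t => h (a + t))
    (hh.comp (by fun_prop) fun t ht => ht)
    (by
      intro x hx
      rw [iteratedDeriv_comp_const_add]
      apply hk
      constructor
      · linarith [hx.1]
      · linarith [hx.2])
    (Icc (p + w - a) (p + 2 * w - a))
    (by
      intro x hx
      constructor
      · linarith [hx.1]
      · exact hx.2)
    (by
      rw [Real.volume_Icc]
      apply ENNReal.ofReal_le_ofReal
      linarith)
    (by
      intro x hx
      refine (hcon (a + x) ⟨by linarith [hx.1], by linarith [hx.2]⟩).le)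
  simp only [add_zero] at key
  -- the two terms
  have t1 : (12 * b / w) ^ (m + 1) * Real.exp (-(5 * s + 12)) ≤ Real.exp (-s) * Real.exp (-4) := by
    have e1 : 12 * b / w ≤ Real.exp 4 := by
      have : 12 * b / w ≤ 24 := by
        rw [div_le_iff₀ hw]; linarith
      have h2 : (5 : ℝ) ≤ Real.exp 2 * Real.exp 0 := by
        have := Real.quadratic_le_exp_of_nonneg (x := 2) (by norm_num)
        rw [Real.exp_zero]
        linarith
      have h3 : Real.exp 4 = Real.exp 2 * Real.exp 2 := by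
        rw [← Real.exp_add]; norm_num
      rw [Real.exp_zero, mul_one] at h2
      rw [h3]
      nlinarith
    have e2 : (12 * b / w) ^ (m + 1) ≤ Real.exp (4 * (s + 2)) := by
      calc (12 * b / w) ^ (m + 1) ≤ (Real.exp 4) ^ (m + 1) := by
            apply pow_le_pow_left₀ (by positivity) e1
        _ = Real.exp (4 * (m + 1)) := by
            rw [← Real.exp_nat_mul]; push_cast; ring_nf
        _ ≤ Real.exp (4 * (s + 2)) := by
            apply Real.exp_le_exp.2; linarith
    calc (12 * b / w) ^ (m + 1) * Real.exp (-(5 * s + 12))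
        ≤ Real.exp (4 * (s + 2)) * Real.exp (-(5 * s + 12)) := by gcongr
      _ = Real.exp (-s) * Real.exp (-4) := by
          rw [← Real.exp_add, ← Real.exp_add]; ring_nf
  have t2 : A ^ (m + 1) * ((m + 1).factorial : ℝ) * b ^ (m + 1) / ((m + 1).factorial : ℝ) ≤
      Real.exp (-s) * Real.exp (-1) := by
    have e1 : A ^ (m + 1) * ((m + 1).factorial : ℝ) * b ^ (m + 1) / ((m + 1).factorial : ℝ) =
        (A * b) ^ (m + 1) := by
      rw [mul_pow]; field_simp
    rw [e1]
    have e3 : A * b ≤ Real.exp (-1) := by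
      have h1 : A * b ≤ 1 / 10 := by nlinarith
      have h2 : (1 : ℝ) / 10 ≤ Real.exp (-1) := by
        have := Real.exp_one_lt_d9
        rw [Real.exp_neg, one_div]
        apply inv_anti₀ (Real.exp_pos _)
        linarith
      linarith
    calc (A * b) ^ (m + 1) ≤ (Real.exp (-1)) ^ (m + 1) := by
          apply pow_le_pow_left₀ (by positivity) e3
      _ = Real.exp (-(m + 1)) := by
          rw [← Real.exp_nat_mul]; push_cast; ring_nf
      _ ≤ Real.exp (-s + -1) := by
          apply Real.exp_le_exp.2; linarith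
      _ = _ := Real.exp_add _ _
  have t3 : Real.exp (-4) + Real.exp (-1) < 1 := by
    have h1 : Real.exp (-4) ≤ Real.exp (-1) * Real.exp (-1) := by
      rw [← Real.exp_add]
      apply Real.exp_le_exp.2; norm_num
    have h2 : Real.exp (-1) ≤ 1 / 2 := by
      have := Real.exp_one_gt_d9
      rw [Real.exp_neg, one_div]
      apply inv_anti₀ (by norm_num)
      linarith
    have h3 := Real.exp_pos (-1)
    nlinarith
  have hpos := Real.exp_pos (-s)
  nlinarith

/-- TARGET -/
theorem propagate (hLR : StLR) (A δ : ℝ) (hA : 1 ≤ A) (hδ : 0 < δ) : ∃ C : ℝ, 0 ≤ C ∧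
    ∀ (U : Set ℝ), IsOpen U → Icc 0 1 ⊆ U → ∀ (h : ℝ → ℝ), ContDiffOn ℝ ∞ h U →
    (∀ k : ℕ, ∀ x ∈ Icc (0 : ℝ) 1, |iteratedDeriv k h x| ≤ A ^ k * k.factorial) →
    ∀ s : ℝ, 0 ≤ s → Real.exp (-s) ≤ |h 0| →
    ∃ τ ∈ Icc (1 - δ) 1, 0 ≤ τ ∧ Real.exp (-(C * (s + 1))) ≤ |h τ| := by
  obtain ⟨J, hJ⟩ := exists_nat_ge (20 * A + 1 / δ)
  have hδ' : 0 < 1 / δ := by positivity
  have hJA : 20 * A ≤ J := by linarith
  have hJδ : 1 / δ ≤ J := by linarith
  have hJ0 : (0 : ℝ) < J := by linarith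
  have hJpos : 0 < J := by exact_mod_cast hJ0
  set w : ℝ := 1 / J with hwdef
  have hw : 0 < w := by positivity
  have hJw : (J : ℝ) * w = 1 := by rw [hwdef]; field_simp
  have hwA : 2 * w * A ≤ 1 / 10 := by
    rw [hwdef]
    rw [show 2 * (1 / (J : ℝ)) * A = 2 * A / J by ring, div_le_iff₀ hJ0]
    linarith
  have hwδ : w ≤ δ := by
    rw [hwdef, div_le_iff₀ hJ0]
    rw [div_le_iff₀ hδ] at hJδ
    linarith
  refine ⟨3 * 5 ^ (J - 1), by positivity, ?_⟩
  intro U hU h01 h hh hk s hs h0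
  have claim : ∀ j : ℕ, j + 1 ≤ J → ∃ τ ∈ Icc ((j : ℝ) * w) ((j : ℝ) * w + w),
      Real.exp (-(5 ^ j * (s + 3) - 3)) ≤ |h τ| := by
    intro j
    induction j with
    | zero =>
      intro _
      refine ⟨0, ⟨by simp, by simp [hw.le]⟩, ?_⟩
      convert h0 using 2
      ring
    | succ j ih =>
      intro hj
      obtain ⟨a, ha, hle⟩ := ih (by omega)
      have h5 : (1 : ℝ) ≤ 5 ^ j := one_le_pow₀ (by norm_num)
      have hp1 : (j : ℝ) * w + 2 * w ≤ 1 := by
        have : ((j : ℝ) + 2) ≤ J := by exact_mod_cast hj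
        nlinarith
      obtain ⟨τ, hτ, hτ2⟩ := step hLR A hA w hw hwA U hU h01 h hh hk (5 ^ j * (s + 3) - 3)
        (by nlinarith) ((j : ℝ) * w) a (by positivity) hp1 ha hle
      refine ⟨τ, ⟨?_, ?_⟩, ?_⟩
      · have := hτ.1
        push_cast
        linarith
      · have := hτ.2
        push_cast
        linarith
      · convert hτ2 using 2
        ring
  obtain ⟨τ, hτ, hτ2⟩ := claim (J - 1) (by omega)
  have hcast : ((J - 1 : ℕ) : ℝ) = J - 1 := by
    rw [Nat.cast_sub (by omega)]; simp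
  rw [hcast] at hτ
  have h1 : 1 - w ≤ τ := by
    have := hτ.1
    nlinarith
  have hw1 : w ≤ 1 := by
    have : (1 : ℝ) ≤ J := by exact_mod_cast hJpos
    nlinarith
  refine ⟨τ, ⟨by linarith, ?_⟩, by linarith, ?_⟩
  · have := hτ.2
    nlinarith
  · refine le_trans (Real.exp_le_exp.2 ?_) hτ2
    have h5 : (0 : ℝ) < 5 ^ (J - 1) := by positivity
    nlinarith

end Pool.Agent.Helper688.Crit.PROP
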