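import Pool.Agent.Helper688_Crit.LOC2
import Pool.Agent.Helper688_Crit.MVP
import Pool.Agent.Helper688_Crit.FAM
import Pool.Agent.Helper688_Crit.PROP
import Pool.Agent.Helper688_Crit.HAR

/-!
# From the local theorem to the theorem on the half ball
-/

set_option autoImplicit false

open MeasureTheory Metric Set Filter Topology
open scoped ContDiff ENNReal NNReal

namespace Pool.Agent.Helper688.Crit.GLOB

open Pool.Agent.Helper688.Crit

theorem num_bound (a b ε₀ : ℝ) (ha : 0 ≤ a) (hb : 0 ≤ b) (hε : 0 < ε₀) :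
    ∃ K : ℝ, 0 ≤ K ∧ ∀ N : ℝ, ε₀ ≤ N →
      (a * N + b + 1) ^ 2 * (Real.log (a * N + b + 2)) ^ 2 ≤
        K * (N ^ 2 * (Real.log (N + 2)) ^ 2) := by
  set κ : ℝ := a + (b + 1) / ε₀ with hκ
  set lam : ℝ := Real.log (a + b + 2) / Real.log 2 + 1 with hlam
  have hl2 : 0 < Real.log 2 := Real.log_pos one_lt_two
  have hκ0 : 0 ≤ κ := by positivity
  have hlab : 0 ≤ Real.log (a + b + 2) := Real.log_nonneg (by linarith)
  have hlam0 : 0 ≤ lam := by positivity
  refine ⟨κ ^ 2 * lam ^ 2, by positivity, ?_⟩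
  intro N hN
  have hN0 : 0 < N := hε.trans_le hN
  have h1 : a * N + b + 1 ≤ κ * N := by
    rw [hκ, add_mul]
    have : b + 1 ≤ (b + 1) / ε₀ * N := by
      rw [div_mul_eq_mul_div, le_div_iff₀ hε]
      exact mul_le_mul_of_nonneg_left hN (by linarith)
    linarith
  have hlN : Real.log 2 ≤ Real.log (N + 2) := Real.log_le_log (by norm_num) (by linarith)
  have h2 : Real.log (a * N + b + 2) ≤ lam * Real.log (N + 2) := by
    have e1 : a * N + b + 2 ≤ (a + b + 2) * (N + 2) := by nlinarith [mul_nonneg hb hN0.le]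
    have e2 : Real.log (a * N + b + 2) ≤ Real.log ((a + b + 2) * (N + 2)) :=
      Real.log_le_log (by positivity) e1
    rw [Real.log_mul (by positivity) (by positivity)] at e2
    have e3 : Real.log (a + b + 2) ≤ Real.log (a + b + 2) / Real.log 2 * Real.log (N + 2) := by
      rw [div_mul_eq_mul_div, le_div_iff₀ hl2]
      exact mul_le_mul_of_nonneg_left hlN hlab
    rw [hlam, add_mul, one_mul]
    linarith
  have h3 : 0 ≤ Real.log (a * N + b + 2) := Real.log_nonneg (by nlinarith [mul_nonneg ha hN0.le])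
  have h4 : (a * N + b + 1) ^ 2 ≤ (κ * N) ^ 2 := pow_le_pow_left₀ (by positivity) h1 2
  have h5 : (Real.log (a * N + b + 2)) ^ 2 ≤ (lam * Real.log (N + 2)) ^ 2 :=
    pow_le_pow_left₀ h3 h2 2
  calc _ ≤ (κ * N) ^ 2 * (lam * Real.log (N + 2)) ^ 2 :=
        mul_le_mul h4 h5 (by positivity) (by positivity)
    _ = _ := by ring

theorem norm_le_sum {n : ℕ} (L : E n →L[ℝ] ℝ) :
    ‖L‖ ≤ ∑ i, |L (EuclideanSpace.single i 1)| := by
  refine ContinuousLinearMap.opNorm_le_bound _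
    (Finset.sum_nonneg fun i _ => abs_nonneg _) fun x => ?_
  have hx : x = ∑ i, x i • (EuclideanSpace.single i (1 : ℝ) : E n) := by
    have := (EuclideanSpace.basisFun (Fin n) ℝ).sum_repr x
    simpa using this.symm
  have h1 : L x = ∑ i, x i * L (EuclideanSpace.single i 1) := by
    conv_lhs => rw [hx]
    rw [map_sum]
    simp
  rw [h1, Real.norm_eq_abs, Finset.sum_mul]
  refine (Finset.abs_sum_le_sum_abs _ _).trans (Finset.sum_le_sum fun i _ => ?_)
  rw [abs_mul, mul_comm]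
  refine mul_le_mul_of_nonneg_left ?_ (abs_nonneg _)
  have := PiLp.norm_apply_le x i
  rwa [Real.norm_eq_abs] at this

/-- the conclusion of the propagation of smallness, in space -/
theorem spread (hLR : PROP.StLR) (n : ℕ) (A δ : ℝ) (hA : 1 ≤ A) (hδ : 0 < δ) :
    ∃ C : ℝ, 0 ≤ C ∧ ∀ f : E n → ℝ, ContDiffOn ℝ ∞ f (ball 0 1) →
      (∀ k : ℕ, ∀ x ∈ ball (0 : E n) (3 / 4), ‖iteratedFDeriv ℝ k f x‖ ≤ A ^ k * k.factorial) →
      ∀ z ∈ ball (0 : E n) (1 / 2), ∀ s : ℝ, 0 ≤ s → Real.exp (-s) ≤ |f z| →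
      ∀ x₀ ∈ ball (0 : E n) (1 / 2), ∃ y : E n, ‖y‖ ≤ δ ∧
        Real.exp (-(C * (s + 1))) ≤ |f (x₀ + y)| := by
  obtain ⟨C, hC0, hC⟩ := PROP.propagate hLR A δ hA hδ
  refine ⟨C, hC0, ?_⟩
  intro f hf hb z hz s hs hfz x₀ hx₀
  rw [mem_ball_zero_iff] at hz hx₀
  have hw1 : ‖x₀ - z‖ ≤ 1 := by
    have := norm_sub_le x₀ z
    linarith
  set U : Set ℝ := {τ : ℝ | z + τ • (x₀ - z) ∈ ball (0 : E n) (3 / 4)} with hU
  have hUo : IsOpen U := isOpen_ball.preimage
    (continuous_const.add (continuous_id.smul continuous_const))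
  have hIU : Icc 0 1 ⊆ U := by
    intro τ hτ
    rw [hU, mem_setOf_eq, mem_ball_zero_iff]
    have e : z + τ • (x₀ - z) = (1 - τ) • z + τ • x₀ := by module
    rw [e]
    have h1 := norm_add_le ((1 - τ) • z) (τ • x₀)
    rw [norm_smul, norm_smul, Real.norm_eq_abs, Real.norm_eq_abs,
      abs_of_nonneg (by linarith [hτ.2] : (0 : ℝ) ≤ 1 - τ), abs_of_nonneg hτ.1] at h1
    have h2 : (1 - τ) * ‖z‖ ≤ (1 - τ) * (1 / 2) :=
      mul_le_mul_of_nonneg_left hz.le (by linarith [hτ.2])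
    have h3 : τ * ‖x₀‖ ≤ τ * (1 / 2) := mul_le_mul_of_nonneg_left hx₀.le hτ.1
    linarith
  have h34 : ball (0 : E n) (3 / 4) ⊆ ball 0 1 := ball_subset_ball (by norm_num)
  set h : ℝ → ℝ := fun τ => f (z + τ • (x₀ - z)) with hh
  have hhs : ContDiffOn ℝ ∞ h U := by
    refine hf.comp (g := f) (f := fun τ : ℝ => z + τ • (x₀ - z)) ?_ fun τ hτ => h34 hτ
    exact (contDiff_const.add (contDiff_id.smul contDiff_const)).contDiffOn
  obtain ⟨τ, hτ1, hτ0, hτ2⟩ := hC U hUo hIU h hhs (by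
    intro k τ hτ
    refine (VOL.iter_line hf z (x₀ - z) k τ (h34 (hIU hτ))).trans ?_
    have h1 := hb k _ (hIU hτ)
    have h2 : ‖x₀ - z‖ ^ k ≤ 1 := pow_le_one₀ (norm_nonneg _) hw1
    calc _ ≤ ‖iteratedFDeriv ℝ k f (z + τ • (x₀ - z))‖ * 1 :=
          mul_le_mul_of_nonneg_left h2 (norm_nonneg _)
      _ ≤ _ := by rw [mul_one]; exact h1) s hs (by
    have : h 0 = f z := by simp [hh]
    rw [this]; exact hfz)
  refine ⟨(τ - 1) • (x₀ - z), ?_, ?_⟩
  · rw [norm_smul, Real.norm_eq_abs, abs_sub_comm, abs_of_nonneg (by linarith [hτ1.2])]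
    have h3 : 1 - τ ≤ δ := by linarith [hτ1.1]
    calc (1 - τ) * ‖x₀ - z‖ ≤ δ * 1 :=
          mul_le_mul h3 hw1 (norm_nonneg _) hδ.le
      _ = δ := mul_one _
  · have e : x₀ + (τ - 1) • (x₀ - z) = z + τ • (x₀ - z) := by module
    rw [e]
    exact hτ2

theorem image_bound {n : ℕ} (hn : 2 ≤ n) (T : Set (E n)) (x₀ : E n) :
    Measure.hausdorffMeasure ((n : ℝ) - 2) ((fun y => x₀ + (1 / 4 : ℝ) • y) '' T) ≤
      Measure.hausdorffMeasure ((n : ℝ) - 2) T := by
  have hd : (0 : ℝ) ≤ (n : ℝ) - 2 := by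
    have : (2 : ℝ) ≤ n := by exact_mod_cast hn
    linarith
  have hL : LipschitzWith 1 (fun y : E n => x₀ + (1 / 4 : ℝ) • y) := by
    refine LipschitzWith.of_dist_le_mul fun x y => ?_
    rw [dist_add_left, dist_smul₀, NNReal.coe_one, one_mul, Real.norm_eq_abs,
      abs_of_pos (by norm_num : (0 : ℝ) < 1 / 4)]
    linarith [dist_nonneg (x := x) (y := y)]
  have := hL.hausdorffMeasure_image_le hd T
  simpa using this

theorem main (hR2 : EE.StRAT2) (hR3 : EE.StPOL3) (hPOW : LOW.StPOW) (hSCU : LOW.StSCU)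
    (hLR : PROP.StLR) (hMVP : FAM.StMVP) (hREG : FAM.StREG) (n : ℕ) (hn : 2 ≤ n) :
    ∃ C : ℝ, ∀ u : E n → ℝ, ContDiffOn ℝ 2 u (ball 0 1) →
      (∀ x ∈ ball (0 : E n) 1,
        ∑ i : Fin n, iteratedFDeriv ℝ 2 u x (fun _ => EuclideanSpace.single i (1 : ℝ)) = 0) →
      (∃ x ∈ ball (0 : E n) 1, ∃ y ∈ ball (0 : E n) 1, u x ≠ u y) →
      ∀ N : ℝ,
        (∀ x ∈ ball (0 : E n) 1, ‖fderiv ℝ u x‖ ≤ Real.exp N *
            ⨆ y : ball (0 : E n) (1 / 2), ‖fderiv ℝ u (y : E n)‖) →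
        Measure.hausdorffMeasure ((n : ℝ) - 2)
          ({x : E n | fderiv ℝ u x = 0} ∩ ball (0 : E n) (1 / 2)) ≤
          ENNReal.ofReal (C * (N ^ 2 * (Real.log (N + 2)) ^ 2)) := by
  have hn1 : 1 ≤ n := by omega
  have hn0 : (0 : ℝ) < n := by exact_mod_cast hn1
  obtain ⟨ε₀, hε₀, hHAR⟩ := HAR.har hMVP hREG n hn1
  obtain ⟨A, hA, hFAM⟩ := FAM.fam hMVP hREG n hn1
  have hA0 : 0 < A := by linarith
  obtain ⟨C₁, hC₁⟩ := LOC.local_main hR2 hR3 hPOW hSCU n hn A hA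
  set β : ℝ := 1 / (24 * A) with hβ
  have hβ0 : 0 < β := by positivity
  obtain ⟨C₂, hC₂0, hC₂⟩ := spread hLR n A (β / 8) hA (by positivity)
  -- a finite cover
  have htb : TotallyBounded (ball (0 : E n) (1 / 2)) :=
    (isCompact_closedBall (0 : E n) (1 / 2)).totallyBounded.subset ball_subset_closedBall
  obtain ⟨t, hts, htf, htc⟩ := htb.exists_subset (Metric.dist_mem_uniformity
    (show 0 < β / 4 by positivity))
  have hlog2n : 0 ≤ Real.log (2 * n) := by
    apply Real.log_nonneg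
    have : (1 : ℝ) ≤ n := by exact_mod_cast hn1
    linarith
  obtain ⟨K, hK0, hK⟩ := num_bound C₂ (C₂ * (Real.log (2 * n) + 1)) ε₀ hC₂0 (by positivity) hε₀
  refine ⟨htf.toFinset.card * (max C₁ 0 * K), ?_⟩
  intro u hu hharm hnc N hN
  rcases le_or_gt N ε₀ with hNε | hNε
  · have hempty : {x : E n | fderiv ℝ u x = 0} ∩ ball (0 : E n) (1 / 2) = ∅ := by
      ext x
      simp only [mem_inter_iff, mem_setOf_eq, mem_empty_iff_false, iff_false, not_and]
      exact fun h1 h2 => hHAR u hu hharm hnc N hNε hN x h2 h1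
    rw [hempty, measure_empty]
    exact zero_le
  have hN0 : 0 < N := hε₀.trans hNε
  set S : ℝ := ⨆ y : ball (0 : E n) (1 / 2), ‖fderiv ℝ u (y : E n)‖ with hS
  have hS0 : 0 ≤ S := Real.iSup_nonneg fun _ => norm_nonneg _
  have hud : ∀ x ∈ ball (0 : E n) 1, DifferentiableAt ℝ u x := fun x hx =>
    (hu.differentiableOn (by norm_num)).differentiableAt (isOpen_ball.mem_nhds hx)
  have hSpos : 0 < S := by
    rcases hS0.lt_or_eq with h | h
    · exact h
    · exfalso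
      obtain ⟨x, hx, y, hy, hxy⟩ := hnc
      apply hxy
      refine isOpen_ball.is_const_of_fderiv_eq_zero (𝕜 := ℝ)
        (convex_ball (0 : E n) 1).isPreconnected (hu.differentiableOn (by norm_num))
        (fun w hw => ?_) hx hy
      have := hN w hw
      rw [← h, mul_zero] at this
      exact norm_le_zero_iff.1 this
  have hne : Nonempty (ball (0 : E n) (1 / 2)) := ⟨⟨0, mem_ball_self (by norm_num)⟩⟩
  obtain ⟨z, hz⟩ : ∃ z : ball (0 : E n) (1 / 2), S / 2 < ‖fderiv ℝ u (z : E n)‖ :=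
    exists_lt_of_lt_ciSup (by rw [← hS]; linarith)
  have hEN : 0 < Real.exp N * S := by positivity
  set c : ℝ := (Real.exp N * S)⁻¹ with hc
  have hc0 : 0 < c := by positivity
  set v : E n → ℝ := fun x => c * u x with hv
  have hvd : ∀ x ∈ ball (0 : E n) 1, fderiv ℝ v x = c • fderiv ℝ u x := fun x hx =>
    fderiv_const_mul (hud x hx) c
  have hv2 : ContDiffOn ℝ 2 v (ball 0 1) := contDiffOn_const.mul hu
  have hvh : ∀ x ∈ ball (0 : E n) 1,
      ∑ i : Fin n, iteratedFDeriv ℝ 2 v x (fun _ => EuclideanSpace.single i (1 : ℝ)) = 0 := by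
    intro x hx
    have h1 : iteratedFDeriv ℝ 2 v x = c • iteratedFDeriv ℝ 2 u x := by
      have h2 : v = fun y => c • u y := rfl
      rw [h2]
      exact iteratedFDeriv_const_smul_apply' (hu.contDiffAt (isOpen_ball.mem_nhds hx))
    rw [h1]
    have h3 := hharm x hx
    simp only [ContinuousMultilinearMap.smul_apply, smul_eq_mul, ← Finset.mul_sum]
    rw [h3, mul_zero]
  have hv1 : ∀ x ∈ ball (0 : E n) 1, ‖fderiv ℝ v x‖ ≤ 1 := by
    intro x hx
    rw [hvd x hx, norm_smul, Real.norm_eq_abs, abs_of_pos hc0, hc, inv_mul_le_iff₀ hEN, mul_one]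
    exact hN x hx
  obtain ⟨hf1, hf2⟩ := hFAM v hv2 hvh hv1
  have hhalf : ball (0 : E n) (1 / 2) ⊆ ball 0 1 := ball_subset_ball (by norm_num)
  have hzv : Real.exp (-N) / 2 ≤ ‖fderiv ℝ v z‖ := by
    rw [hvd z (hhalf z.2), norm_smul, Real.norm_eq_abs, abs_of_pos hc0, hc, mul_inv,
      ← Real.exp_neg, mul_assoc]
    have : 1 / 2 ≤ S⁻¹ * ‖fderiv ℝ u z‖ := by
      rw [inv_mul_eq_div, le_div_iff₀ hSpos]
      linarith
    calc Real.exp (-N) / 2 = Real.exp (-N) * (1 / 2) := by ring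
      _ ≤ _ := mul_le_mul_of_nonneg_left this (Real.exp_pos _).le
  set s₁ : ℝ := N + Real.log (2 * n) with hs₁
  have hs₁0 : 0 ≤ s₁ := by positivity
  obtain ⟨i, hi⟩ : ∃ i, Real.exp (-s₁) ≤ |pd i v z| := by
    by_contra hcon
    push Not at hcon
    have h1 : ‖fderiv ℝ v z‖ < ∑ i : Fin n, Real.exp (-s₁) := by
      refine (norm_le_sum _).trans_lt (Finset.sum_lt_sum_of_nonempty ?_ fun i _ => hcon i)
      exact Finset.univ_nonempty_iff.2 ⟨⟨0, hn1⟩⟩
    rw [Finset.sum_const, Finset.card_univ, Fintype.card_fin, nsmul_eq_mul] at h1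
    have h2 : (n : ℝ) * Real.exp (-s₁) = Real.exp (-N) / 2 := by
      rw [hs₁, neg_add, Real.exp_add, Real.exp_neg (Real.log _), Real.exp_log (by positivity)]
      field_simp
    rw [h2] at h1
    linarith
  set s : ℝ := C₂ * (s₁ + 1) with hs
  have hs0 : 0 ≤ s := by positivity
  have hone : ∀ x₀ ∈ t, Measure.hausdorffMeasure ((n : ℝ) - 2)
      ({x : E n | fderiv ℝ u x = 0} ∩ ball x₀ (β / 4)) ≤
        ENNReal.ofReal (max C₁ 0 * K * (N ^ 2 * (Real.log (N + 2)) ^ 2)) := by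
    intro x₀ hx₀t
    have hx₀ := hts hx₀t
    obtain ⟨y, hy1, hy2⟩ := hC₂ (pd i v) (hf1 i).1 (hf1 i).2 z z.2 s₁ hs₁0 hi x₀ hx₀
    have hloc := hC₁ _ (hf2 x₀ hx₀) s hs0 ⟨(4 : ℝ) • y, ?_, i, ?_⟩
    · have hsub : {x : E n | fderiv ℝ u x = 0} ∩ ball x₀ (β / 4) ⊆
          (fun y => x₀ + (1 / 4 : ℝ) • y) '' ({x : E n | ∀ i, (fun (i : Fin n) (y : E n) =>
            pd i v (x₀ + (1 / 4 : ℝ) • y)) i x = 0} ∩ ball 0 β) := by
        rintro x ⟨hx1, hx2⟩
        rw [mem_ball, dist_eq_norm] at hx2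
        have hx3 : x₀ + (1 / 4 : ℝ) • ((4 : ℝ) • (x - x₀)) = x := by
          rw [smul_smul]; norm_num
        refine ⟨(4 : ℝ) • (x - x₀), ⟨?_, ?_⟩, hx3⟩
        · intro j
          change pd j v (x₀ + (1 / 4 : ℝ) • ((4 : ℝ) • (x - x₀))) = 0
          rw [hx3, pd]
          have hx4 : x ∈ ball (0 : E n) 1 := by
            rw [mem_ball_zero_iff] at hx₀ ⊢
            have h6 : ‖x‖ ≤ ‖x - x₀‖ + ‖x₀‖ := by
              have := norm_add_le (x - x₀) x₀
              rwa [sub_add_cancel] at this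
            have h7 : β ≤ 1 / 24 := by
              rw [hβ]
              apply one_div_le_one_div_of_le (by norm_num)
              linarith
            linarith
          rw [hvd x hx4]
          have : fderiv ℝ u x = 0 := hx1
          rw [this]; simp
        · rw [mem_ball_zero_iff, norm_smul, Real.norm_eq_abs,
            abs_of_pos (by norm_num : (0 : ℝ) < 4)]
          linarith
      refine (measure_mono hsub).trans ((image_bound hn _ x₀).trans (hloc.trans ?_))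
      apply ENNReal.ofReal_le_ofReal
      have h8 := hK N hNε.le
      have e1 : C₂ * N + C₂ * (Real.log (2 * n) + 1) = s := by
        rw [hs, hs₁]; ring
      rw [e1] at h8
      have h9 : 0 ≤ max C₁ 0 := le_max_right _ _
      calc C₁ * ((s + 1) ^ 2 * (Real.log (s + 2)) ^ 2) ≤
            max C₁ 0 * ((s + 1) ^ 2 * (Real.log (s + 2)) ^ 2) :=
              mul_le_mul_of_nonneg_right (le_max_left _ _) (by positivity)
        _ ≤ max C₁ 0 * (K * (N ^ 2 * (Real.log (N + 2)) ^ 2)) :=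
              mul_le_mul_of_nonneg_left h8 h9
        _ = _ := by ring
    · rw [mem_ball_zero_iff, norm_smul, Real.norm_eq_abs, abs_of_pos (by norm_num : (0 : ℝ) < 4)]
      linarith
    · change Real.exp (-s) ≤ |pd i v (x₀ + (1 / 4 : ℝ) • ((4 : ℝ) • y))|
      have : x₀ + (1 / 4 : ℝ) • ((4 : ℝ) • y) = x₀ + y := by
        rw [smul_smul]; norm_num
      rw [this]
      exact hy2
  have hcov : {x : E n | fderiv ℝ u x = 0} ∩ ball (0 : E n) (1 / 2) ⊆
      ⋃ x₀ ∈ htf.toFinset, {x : E n | fderiv ℝ u x = 0} ∩ ball x₀ (β / 4) := by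
    rintro x ⟨hx1, hx2⟩
    have := htc hx2
    simp only [mem_iUnion] at this ⊢
    obtain ⟨y, hy, hxy⟩ := this
    exact ⟨y, htf.mem_toFinset.2 hy, hx1, hxy⟩
  refine (measure_mono hcov).trans ((measure_biUnion_finset_le _ _).trans ?_)
  calc ∑ x₀ ∈ htf.toFinset, Measure.hausdorffMeasure ((n : ℝ) - 2)
        ({x : E n | fderiv ℝ u x = 0} ∩ ball x₀ (β / 4))
      ≤ ∑ x₀ ∈ htf.toFinset,
        ENNReal.ofReal (max C₁ 0 * K * (N ^ 2 * (Real.log (N + 2)) ^ 2)) :=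
        Finset.sum_le_sum fun x₀ hx₀ => hone x₀ (htf.mem_toFinset.1 hx₀)
    _ = _ := by
        rw [Finset.sum_const, nsmul_eq_mul, ← ENNReal.ofReal_natCast,
          ← ENNReal.ofReal_mul (Nat.cast_nonneg _)]
        congr 1
        ring

end Pool.Agent.Helper688.Crit.GLOB
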