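import Pool.Agent.Helper688_Crit.Defs

/-!
Integration by parts estimate for `FF`.
-/

set_option autoImplicit false

open MeasureTheory Metric Set Filter Topology
open scoped ContDiff ENNReal NNReal

namespace Pool.Agent.Helper688.Crit.IBP

open Pool.Agent.Helper688.Crit

variable {n : ℕ}

theorem pd_smoothOn {f : E n → ℝ} {U : Set (E n)} (hU : IsOpen U) (hf : ContDiffOn ℝ ∞ f U)
    (j : Fin n) : ContDiffOn ℝ ∞ (pd j f) U := by
  have h1 : ContDiffOn ℝ ∞ (fderiv ℝ f) U := hf.fderiv_of_isOpen hU (by simp)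
  exact h1.clm_apply contDiffOn_const

theorem pd_smooth {f : E n → ℝ} (hf : ContDiff ℝ ∞ f) (j : Fin n) : ContDiff ℝ ∞ (pd j f) := by
  have h1 : ContDiff ℝ ∞ (fderiv ℝ f) := hf.fderiv_right (by simp)
  exact h1.clm_apply contDiff_const

theorem pd_tsupport {f : E n → ℝ} (j : Fin n) : tsupport (pd j f) ⊆ tsupport f := by
  refine closure_minimal ?_ isClosed_closure
  intro x hx
  by_contra hx'
  apply hx
  have h1 : fderiv ℝ f x = 0 := by
    have := tsupport_fderiv_subset ℝ (f := f)
    exact image_eq_zero_of_notMem_tsupport (fun h2 => hx' (this h2))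
  unfold pd
  rw [h1]
  rfl

/-- the product of a locally continuous function and a test function is continuous -/
theorem cont_mul {f g : E n → ℝ} {U : Set (E n)} (hU : IsOpen U) (hf : ContinuousOn f U)
    (hg : Continuous g) (hs : tsupport g ⊆ U) : Continuous (fun x => f x * g x) := by
  rw [continuous_iff_continuousAt]
  intro x
  by_cases hx : x ∈ U
  · exact (hf.continuousAt (hU.mem_nhds hx)).mul hg.continuousAt
  · have h1 : g =ᶠ[𝓝 x] 0 := notMem_tsupport_iff_eventuallyEq.1 (fun h => hx (hs h))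
    have h2 : (fun x => f x * g x) =ᶠ[𝓝 x] fun _ => 0 := by
      filter_upwards [h1] with y hy
      rw [hy]
      simp
    exact (continuousAt_const).congr h2.symm

theorem int_mul {f g : E n → ℝ} {U : Set (E n)} (hU : IsOpen U) (hf : ContinuousOn f U)
    (hg : Continuous g) (hs : tsupport g ⊆ U) (hc : HasCompactSupport g) :
    Integrable (fun x => f x * g x) :=
  (cont_mul hU hf hg hs).integrable_of_hasCompactSupport hc.mul_left

/-- integration by parts, twice -/
theorem ibp2 {w φ : E n → ℝ} {U : Set (E n)} (hU : IsOpen U) (hw : ContDiffOn ℝ ∞ w U)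
    (hφ : ContDiff ℝ ∞ φ) (hs : tsupport φ ⊆ U) (hc : HasCompactSupport φ) (j : Fin n) :
    ∫ x, w x * pd j (pd j φ) x = ∫ x, pd j (pd j w) x * φ x := by
  have hφ1 := pd_smooth hφ j
  have hφ2 := pd_smooth hφ1 j
  have hw1 := pd_smoothOn hU hw j
  have hw2 := pd_smoothOn hU hw1 j
  have hs1 : tsupport (pd j φ) ⊆ U := (pd_tsupport j).trans hs
  have hs2 : tsupport (pd j (pd j φ)) ⊆ U := (pd_tsupport j).trans hs1
  have hc1 : HasCompactSupport (pd j φ) := hc.of_isClosed_subset isClosed_closure (pd_tsupport j)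
  have hc2 : HasCompactSupport (pd j (pd j φ)) :=
    hc1.of_isClosed_subset isClosed_closure (pd_tsupport j)
  have e1 : ∫ x, w x * pd j (pd j φ) x = - ∫ x, pd j w x * pd j φ x := by
    refine integral_mul_fderiv_eq_neg_fderiv_mul_of_integrable
      (v := EuclideanSpace.single j (1 : ℝ)) ?_ ?_ ?_ ?_ ?_
    · exact int_mul hU hw1.continuousOn hφ1.continuous hs1 hc1
    · exact int_mul hU hw.continuousOn hφ2.continuous hs2 hc2
    · exact int_mul hU hw.continuousOn hφ1.continuous hs1 hc1
    · intro x hx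
      exact (hw.differentiableOn (by simp)).differentiableAt (hU.mem_nhds (hs1 hx))
    · intro x _
      exact hφ1.differentiable (by simp) x
  have e2 : ∫ x, pd j w x * pd j φ x = - ∫ x, pd j (pd j w) x * φ x := by
    refine integral_mul_fderiv_eq_neg_fderiv_mul_of_integrable
      (v := EuclideanSpace.single j (1 : ℝ)) ?_ ?_ ?_ ?_ ?_
    · exact int_mul hU hw2.continuousOn hφ.continuous hs hc
    · exact int_mul hU hw1.continuousOn hφ1.continuous hs1 hc1
    · exact int_mul hU hw1.continuousOn hφ.continuous hs hc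
    · intro x hx
      exact (hw1.differentiableOn (by simp)).differentiableAt (hU.mem_nhds (hs hx))
    · intro x _
      exact hφ.differentiable (by simp) x
  rw [e1, e2, neg_neg]

/-! ### derivatives -/

section

variable {P : Fin n → E n → ℝ} {A : ℝ}

theorem P_diff (hP : Fam n A P) (i : Fin n) {x : E n} (hx : x ∈ ball (0 : E n) 1) :
    DifferentiableAt ℝ (P i) x :=
  ((hP.smooth i).differentiableOn (by simp)).differentiableAt (isOpen_ball.mem_nhds hx)

theorem pdP_diff (hP : Fam n A P) (i j : Fin n) {x : E n} (hx : x ∈ ball (0 : E n) 1) :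
    DifferentiableAt ℝ (pd j (P i)) x :=
  ((pd_smoothOn isOpen_ball (hP.smooth i) j).differentiableOn (by simp)).differentiableAt
    (isOpen_ball.mem_nhds hx)

theorem gg_smooth (hP : Fam n A P) : ContDiffOn ℝ ∞ (gg P) (ball 0 1) := by
  unfold gg
  exact ContDiffOn.sum fun i _ => (hP.smooth i).pow 2

theorem gg_nonneg (P : Fin n → E n → ℝ) (x : E n) : 0 ≤ gg P x :=
  Finset.sum_nonneg fun _ _ => sq_nonneg _

theorem mm_nonneg (P : Fin n → E n → ℝ) (x : E n) : 0 ≤ mm P x :=
  Finset.sum_nonneg fun _ _ => Finset.sum_nonneg fun _ _ => sq_nonneg _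

theorem mm_cont (hP : Fam n A P) : ContinuousOn (mm P) (ball 0 1) := by
  unfold mm
  exact continuousOn_finsetSum _ fun i _ => continuousOn_finsetSum _ fun j _ =>
    (pd_smoothOn isOpen_ball (hP.smooth i) j).continuousOn.pow 2

/-- the sum `∑ i, P i * ∂_j P i` -/
noncomputable def qq (P : Fin n → E n → ℝ) (j : Fin n) (x : E n) : ℝ := ∑ i, P i x * pd j (P i) x

theorem qq_cont (hP : Fam n A P) (j : Fin n) : ContinuousOn (qq P j) (ball 0 1) := by
  unfold qq
  exact continuousOn_finsetSum _ fun i _ => (hP.smooth i).continuousOn.mul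
    (pd_smoothOn isOpen_ball (hP.smooth i) j).continuousOn

theorem mp_cont (hP : Fam n A P) : ContinuousOn (mp P) (ball 0 1) := by
  unfold mp
  exact continuousOn_finsetSum _ fun j _ => (qq_cont hP j).pow 2

theorem pd_gg (hP : Fam n A P) (j : Fin n) {x : E n} (hx : x ∈ ball (0 : E n) 1) :
    HasFDerivAt (gg P) (fderiv ℝ (gg P) x) x ∧ pd j (gg P) x = 2 * qq P j x := by
  have hd : DifferentiableAt ℝ (gg P) x :=
    ((gg_smooth hP).differentiableOn (by simp)).differentiableAt (isOpen_ball.mem_nhds hx)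
  refine ⟨hd.hasFDerivAt, ?_⟩
  have h1 : HasFDerivAt (gg P) (∑ i, (2 * P i x) • fderiv ℝ (P i) x) x := by
    unfold gg
    refine HasFDerivAt.fun_sum fun i _ => ?_
    have h2 := (P_diff hP i hx).hasFDerivAt.pow 2
    simpa using h2
  unfold pd
  rw [h1.fderiv]
  unfold qq pd
  simp only [_root_.sum_apply, _root_.smul_apply, smul_eq_mul,
    Finset.mul_sum]
  exact Finset.sum_congr rfl fun i _ => by ring

/-- the logarithm -/
noncomputable def ww (P : Fin n → E n → ℝ) (ε : ℝ) (x : E n) : ℝ :=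
  1 / 2 * Real.log (gg P x + ε ^ 2)

theorem den_pos (P : Fin n → E n → ℝ) {ε : ℝ} (hε : 0 < ε) (x : E n) : 0 < gg P x + ε ^ 2 := by
  have := gg_nonneg P x
  positivity

theorem ww_smooth (hP : Fam n A P) {ε : ℝ} (hε : 0 < ε) : ContDiffOn ℝ ∞ (ww P ε) (ball 0 1) := by
  unfold ww
  exact contDiffOn_const.mul (((gg_smooth hP).add contDiffOn_const).log
    fun x _ => (den_pos P hε x).ne')

theorem pd_ww (hP : Fam n A P) {ε : ℝ} (hε : 0 < ε) (j : Fin n) {x : E n}
    (hx : x ∈ ball (0 : E n) 1) : pd j (ww P ε) x = qq P j x / (gg P x + ε ^ 2) := by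
  obtain ⟨h1, h2⟩ := pd_gg hP j hx
  have h3 := ((h1.add_const (ε ^ 2)).log (den_pos P hε x).ne').const_mul (1 / 2 : ℝ)
  unfold pd
  rw [show ww P ε = fun y => 1 / 2 * Real.log (gg P y + ε ^ 2) from rfl, h3.fderiv]
  simp only [_root_.smul_apply, smul_eq_mul]
  have h4 : fderiv ℝ (gg P) x (EuclideanSpace.single j 1) = 2 * qq P j x := h2
  rw [h4]
  field_simp

theorem pd_qq (hP : Fam n A P) (j : Fin n) {x : E n} (hx : x ∈ ball (0 : E n) 1) :
    HasFDerivAt (qq P j) (fderiv ℝ (qq P j) x) x ∧
    pd j (qq P j) x = ∑ i, (pd j (P i) x) ^ 2 + ∑ i, P i x * pd j (pd j (P i)) x := by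
  have h1 : HasFDerivAt (qq P j) (∑ i, (P i x • fderiv ℝ (pd j (P i)) x +
      pd j (P i) x • fderiv ℝ (P i) x)) x := by
    unfold qq
    refine HasFDerivAt.fun_sum fun i _ => ?_
    exact (P_diff hP i hx).hasFDerivAt.mul (pdP_diff hP i j hx).hasFDerivAt
  refine ⟨h1.differentiableAt.hasFDerivAt, ?_⟩
  unfold pd
  rw [h1.fderiv]
  simp only [_root_.sum_apply, _root_.add_apply,
    _root_.smul_apply, smul_eq_mul]
  rw [← Finset.sum_add_distrib]
  refine Finset.sum_congr rfl fun i _ => ?_
  unfold pd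
  ring

theorem pd_pd_ww (hP : Fam n A P) {ε : ℝ} (hε : 0 < ε) (j : Fin n) {x : E n}
    (hx : x ∈ ball (0 : E n) 1) : pd j (pd j (ww P ε)) x =
      (∑ i, (pd j (P i) x) ^ 2 + ∑ i, P i x * pd j (pd j (P i)) x) / (gg P x + ε ^ 2) -
        2 * (qq P j x) ^ 2 / (gg P x + ε ^ 2) ^ 2 := by
  have hev : pd j (ww P ε) =ᶠ[𝓝 x] fun y => qq P j y * (gg P y + ε ^ 2)⁻¹ := by
    filter_upwards [isOpen_ball.mem_nhds hx] with y hy
    rw [pd_ww hP hε j hy, div_eq_mul_inv]
  obtain ⟨h1, h2⟩ := pd_gg hP j hx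
  obtain ⟨h3, h4⟩ := pd_qq hP j hx
  have hD := (den_pos P hε x).ne'
  have h5 : HasFDerivAt (fun y => (gg P y + ε ^ 2)⁻¹)
      (-((gg P x + ε ^ 2) ^ 2)⁻¹ • fderiv ℝ (gg P) x) x := by
    have := (hasDerivAt_inv hD).comp_hasFDerivAt x (h1.add_const (ε ^ 2))
    exact this
  have h6 : HasFDerivAt (fun y => qq P j y * (gg P y + ε ^ 2)⁻¹)
      (qq P j x • -((gg P x + ε ^ 2) ^ 2)⁻¹ • fderiv ℝ (gg P) x +
        (gg P x + ε ^ 2)⁻¹ • fderiv ℝ (qq P j) x) x := h3.mul h5
  have h2' : fderiv ℝ (gg P) x (EuclideanSpace.single j 1) = 2 * qq P j x := h2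
  have h4' : fderiv ℝ (qq P j) x (EuclideanSpace.single j 1) =
    ∑ i, (pd j (P i) x) ^ 2 + ∑ i, P i x * pd j (pd j (P i)) x := h4
  have h7 : pd j (pd j (ww P ε)) x =
      fderiv ℝ (fun y => qq P j y * (gg P y + ε ^ 2)⁻¹) x (EuclideanSpace.single j 1) := by
    rw [← hev.fderiv_eq]
    rfl
  rw [h7, h6.fderiv]
  simp only [_root_.add_apply, _root_.smul_apply, smul_eq_mul]
  rw [h2', h4']
  field_simp
  ring

/-- the numerator part -/
noncomputable def NN (P : Fin n → E n → ℝ) (ε : ℝ) (x : E n) : ℝ :=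
  (2 * mp P x - gg P x * mm P x) / (gg P x + ε ^ 2) ^ 2

theorem laplace_ww (hP : Fam n A P) {ε : ℝ} (hε : 0 < ε) {x : E n}
    (hx : x ∈ ball (0 : E n) 1) : ∑ j, pd j (pd j (ww P ε)) x = FF P ε x - NN P ε x := by
  have hD := (den_pos P hε x).ne'
  rw [Finset.sum_congr rfl fun j _ => pd_pd_ww hP hε j hx]
  rw [Finset.sum_sub_distrib, ← Finset.sum_div, ← Finset.sum_div, Finset.sum_add_distrib,
    ← Finset.mul_sum]
  have h1 : ∑ j, ∑ i, P i x * pd j (pd j (P i)) x = 0 := by
    rw [Finset.sum_comm]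
    refine Finset.sum_eq_zero fun i _ => ?_
    rw [← Finset.mul_sum, hP.harm i x hx, mul_zero]
  have h2 : ∑ j, ∑ i, (pd j (P i) x) ^ 2 = mm P x := by
    unfold mm
    rw [Finset.sum_comm]
  have h3 : ∑ j, (qq P j x) ^ 2 = mp P x := rfl
  rw [h1, h2, h3]
  unfold FF NN
  field_simp
  ring

theorem FF_cont (hP : Fam n A P) {ε : ℝ} (hε : 0 < ε) : ContinuousOn (FF P ε) (ball 0 1) := by
  unfold FF
  exact (continuousOn_const.mul (mm_cont hP)).div
    (((gg_smooth hP).continuousOn.add continuousOn_const).pow 2)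
    fun x _ => (pow_pos (den_pos P hε x) 2).ne'

theorem NN_cont (hP : Fam n A P) {ε : ℝ} (hε : 0 < ε) : ContinuousOn (NN P ε) (ball 0 1) := by
  unfold NN
  exact ((continuousOn_const.mul (mp_cont hP)).sub
    ((gg_smooth hP).continuousOn.mul (mm_cont hP))).div
    (((gg_smooth hP).continuousOn.add continuousOn_const).pow 2)
    fun x _ => (pow_pos (den_pos P hε x) 2).ne'

theorem NN_le {ε : ℝ} (hε : 0 < ε) (x : E n) (t : ℝ) (ht0 : 0 ≤ t) (ht1 : t ≤ 1) :
    ENNReal.ofReal (NN P ε x * t) ≤ ENNReal.ofReal (RR P x) := by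
  have hD := den_pos P hε x
  rcases le_or_gt (2 * mp P x - gg P x * mm P x) 0 with h | h
  · have h1 : NN P ε x * t ≤ 0 := by
      refine mul_nonpos_of_nonpos_of_nonneg ?_ ht0
      unfold NN
      exact div_nonpos_of_nonpos_of_nonneg h (by positivity)
    rw [ENNReal.ofReal_of_nonpos h1]
    exact zero_le
  · have hg : 0 < gg P x := by
      rcases (gg_nonneg P x).lt_or_eq with h1 | h1
      · exact h1
      · exfalso
        have h2 : ∀ i, P i x = 0 := by
          intro i
          have h3 := (Finset.sum_eq_zero_iff_of_nonneg (s := Finset.univ)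
            (f := fun i => (P i x) ^ 2) (fun _ _ => sq_nonneg _)).1 h1.symm i (Finset.mem_univ i)
          exact pow_eq_zero_iff (two_ne_zero) |>.1 h3
        have h4 : mp P x = 0 := by
          unfold mp
          refine Finset.sum_eq_zero fun j _ => ?_
          rw [Finset.sum_eq_zero fun i _ => by rw [h2 i, zero_mul]]
          norm_num
        rw [h4, ← h1] at h
        simp at h
    refine ENNReal.ofReal_le_ofReal ?_
    have h1 : 0 ≤ NN P ε x := by
      unfold NN
      positivity
    calc NN P ε x * t ≤ NN P ε x * 1 := by gcongr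
      _ = NN P ε x := mul_one _
      _ ≤ RR P x := by
        unfold NN RR
        have hε2 : 0 ≤ ε ^ 2 := by positivity
        gcongr
        linarith

end

theorem ofReal_integral_le {f : E n → ℝ} (hf : Integrable f) :
    ENNReal.ofReal (∫ x, f x) ≤ ∫⁻ x, ENNReal.ofReal (f x) := by
  have h1 : ∫ x, f x ≤ ∫ x, max (f x) 0 :=
    integral_mono hf hf.pos_part (fun x => le_max_left _ _)
  refine (ENNReal.ofReal_le_ofReal h1).trans ?_
  rw [ofReal_integral_eq_lintegral_ofReal hf.pos_part
    (Filter.Eventually.of_forall fun x => le_max_right _ _)]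
  refine lintegral_mono fun x => ?_
  rw [ENNReal.ofReal_max, ENNReal.ofReal_zero]
  simp

/-- TARGET -/
theorem ibp (n : ℕ) (hn : 1 ≤ n) (A β : ℝ) (hβ : 0 < β) (hβ2 : 2 * β < 1) :
    ∃ C : ℝ, 0 ≤ C ∧ ∀ P : Fin n → E n → ℝ, Fam n A P → ∀ ε : ℝ, 0 < ε →
      ∫⁻ x in ball (0 : E n) β, ENNReal.ofReal (FF P ε x) ≤
        (∫⁻ x in ball (0 : E n) (2 * β), ENNReal.ofReal (C * |Real.log (gg P x + ε ^ 2)|)) +
        ∫⁻ x in ball (0 : E n) (2 * β), ENNReal.ofReal (RR P x) := by
  let b : ContDiffBump (0 : E n) := ⟨β, 2 * β, hβ, by linarith⟩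
  set φ : E n → ℝ := (fun x => b x) with hφdef
  have hφ : ContDiff ℝ ∞ φ := b.contDiff
  have hφc : HasCompactSupport φ := b.hasCompactSupport
  have hφt : tsupport φ = closedBall 0 (2 * β) := b.tsupport_eq
  have hsub : tsupport φ ⊆ ball (0 : E n) 1 := by
    rw [hφt]
    exact closedBall_subset_ball hβ2
  set L : E n → ℝ := fun x => ∑ j, pd j (pd j φ) x with hL
  have hLc : Continuous L :=
    continuous_finsetSum _ fun j _ => (pd_smooth (pd_smooth hφ j) j).continuous
  have hLz : ∀ x, x ∉ ball (0 : E n) (2 * β) → L x = 0 := by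
    have h1 : EqOn L 0 (closedBall (0 : E n) (2 * β))ᶜ := by
      intro x hx
      refine Finset.sum_eq_zero fun j _ => ?_
      by_contra h2
      have h3 : x ∈ tsupport (pd j (pd j φ)) := subset_closure h2
      have h4 := (pd_tsupport j) ((pd_tsupport j) h3)
      rw [hφt] at h4
      exact hx h4
    have h2 := h1.closure hLc continuous_const
    rw [closure_compl, interior_closedBall _ (by positivity)] at h2
    intro x hx
    exact h2 hx
  have hLs : HasCompactSupport L := by
    refine HasCompactSupport.intro (isCompact_closedBall (0 : E n) (2 * β)) fun x hx => ?_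
    exact hLz x fun h => hx (ball_subset_closedBall h)
  obtain ⟨M, hM⟩ := hLs.exists_bound_of_continuous hLc
  have hM0 : 0 ≤ M := (norm_nonneg _).trans (hM 0)
  refine ⟨M / 2, by positivity, ?_⟩
  intro P hP ε hε
  have hwS := ww_smooth hP hε
  -- the identity
  have hIF : Integrable (fun x => FF P ε x * φ x) :=
    int_mul isOpen_ball (FF_cont hP hε) hφ.continuous hsub hφc
  have hIN : Integrable (fun x => NN P ε x * φ x) :=
    int_mul isOpen_ball (NN_cont hP hε) hφ.continuous hsub hφc
  have hIw : ∀ j : Fin n, Integrable (fun x => ww P ε x * pd j (pd j φ) x) := fun j =>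
    int_mul isOpen_ball hwS.continuousOn (pd_smooth (pd_smooth hφ j) j).continuous
      (((pd_tsupport j).trans (pd_tsupport j)).trans hsub)
      ((hφc.of_isClosed_subset isClosed_closure (pd_tsupport j)).of_isClosed_subset
        isClosed_closure (pd_tsupport j))
  have hIww : ∀ j : Fin n, Integrable (fun x => pd j (pd j (ww P ε)) x * φ x) := fun j =>
    int_mul isOpen_ball
      (pd_smoothOn isOpen_ball (pd_smoothOn isOpen_ball hwS j) j).continuousOn
      hφ.continuous hsub hφc
  have hIwL : Integrable (fun x => ww P ε x * L x) := by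
    have : (fun x => ww P ε x * L x) = fun x => ∑ j, ww P ε x * pd j (pd j φ) x := by
      funext x
      rw [hL, Finset.mul_sum]
    rw [this]
    exact integrable_finsetSum _ fun j _ => hIw j
  have key : ∫ x, FF P ε x * φ x = (∫ x, ww P ε x * L x) + ∫ x, NN P ε x * φ x := by
    have e1 : ∫ x, ww P ε x * L x = ∫ x, ∑ j, pd j (pd j (ww P ε)) x * φ x := by
      rw [integral_finsetSum _ fun j _ => hIww j]
      have : (fun x => ww P ε x * L x) = fun x => ∑ j, ww P ε x * pd j (pd j φ) x := by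
        funext x
        rw [hL, Finset.mul_sum]
      rw [this, integral_finsetSum _ fun j _ => hIw j]
      exact Finset.sum_congr rfl fun j _ => ibp2 isOpen_ball hwS hφ hsub hφc j
    have e2 : (fun x => ∑ j, pd j (pd j (ww P ε)) x * φ x) =
        fun x => FF P ε x * φ x - NN P ε x * φ x := by
      funext x
      rw [← Finset.sum_mul]
      by_cases hx : x ∈ ball (0 : E n) 1
      · rw [laplace_ww hP hε hx, sub_mul]
      · have : φ x = 0 := image_eq_zero_of_notMem_tsupport fun h => hx (hsub h)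
        rw [this]
        ring
    rw [e1, e2, integral_sub hIF hIN]
    ring
  have hφ0 : ∀ x, 0 ≤ φ x := fun x => b.nonneg
  have hφ1 : ∀ x, φ x ≤ 1 := fun x => b.le_one
  have hφz : ∀ x, x ∉ ball (0 : E n) (2 * β) → φ x = 0 := by
    intro x hx
    refine b.zero_of_le_dist ?_
    rw [mem_ball, not_lt] at hx
    exact hx
  have hFF0 : ∀ x, 0 ≤ FF P ε x := by
    intro x
    unfold FF
    have := mm_nonneg P x
    positivity
  calc ∫⁻ x in ball (0 : E n) β, ENNReal.ofReal (FF P ε x)
      ≤ ∫⁻ x in ball (0 : E n) β, ENNReal.ofReal (FF P ε x * φ x) := by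
        refine setLIntegral_mono' measurableSet_ball fun x hx => ?_
        have : φ x = 1 := b.one_of_mem_closedBall (ball_subset_closedBall hx)
        rw [this, mul_one]
    _ ≤ ∫⁻ x, ENNReal.ofReal (FF P ε x * φ x) := setLIntegral_le_lintegral _ _
    _ = ENNReal.ofReal (∫ x, FF P ε x * φ x) := by
        rw [ofReal_integral_eq_lintegral_ofReal hIF
          (Filter.Eventually.of_forall fun x => mul_nonneg (hFF0 x) (hφ0 x))]
    _ ≤ ENNReal.ofReal (∫ x, ww P ε x * L x) + ENNReal.ofReal (∫ x, NN P ε x * φ x) := by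
        rw [key]
        exact ENNReal.ofReal_add_le
    _ ≤ (∫⁻ x, ENNReal.ofReal (ww P ε x * L x)) + ∫⁻ x, ENNReal.ofReal (NN P ε x * φ x) :=
        add_le_add (ofReal_integral_le hIwL) (ofReal_integral_le hIN)
    _ ≤ _ := by
        refine add_le_add ?_ ?_
        · rw [← lintegral_indicator measurableSet_ball]
          refine lintegral_mono fun x => ?_
          by_cases hx : x ∈ ball (0 : E n) (2 * β)
          · rw [indicator_of_mem hx]
            refine ENNReal.ofReal_le_ofReal ?_
            calc ww P ε x * L x ≤ |ww P ε x * L x| := le_abs_self _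
              _ = |ww P ε x| * |L x| := abs_mul _ _
              _ ≤ |ww P ε x| * M := by
                have := hM x
                rw [Real.norm_eq_abs] at this
                gcongr
              _ = M / 2 * |Real.log (gg P x + ε ^ 2)| := by
                unfold ww
                rw [abs_mul, abs_of_pos (by norm_num : (0 : ℝ) < 1 / 2)]
                ring
          · rw [indicator_of_notMem hx, hLz x hx, mul_zero, ENNReal.ofReal_zero]
        · rw [← lintegral_indicator measurableSet_ball]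
          refine lintegral_mono fun x => ?_
          by_cases hx : x ∈ ball (0 : E n) (2 * β)
          · rw [indicator_of_mem hx]
            exact NN_le hε x (φ x) (hφ0 x) (hφ1 x)
          · rw [indicator_of_notMem hx, hφz x hx, mul_zero, ENNReal.ofReal_zero]

end Pool.Agent.Helper688.Crit.IBP
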