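import Pool.Agent.Helper688_Crit.LOWa

/-!
# Job LOW: lower bound near a zero
-/

set_option autoImplicit false

open MeasureTheory Metric Set Filter Topology
open scoped ContDiff ENNReal NNReal Pointwise

namespace Pool.Agent.Helper688.Crit.LOW

open Pool.Agent.Helper688.Crit

lemma tail {a : ℕ → ℝ} {S : ℝ} (h : HasSum a S) (d : ℕ) (h0 : ∀ k < d, a k = 0) {g : ℕ → ℝ}
    (hg : Summable g) {c : ℝ} (hb : ∀ j, |a (j + (d + 1))| ≤ c * g j) :
    |S - a d| ≤ c * ∑' j, g j := by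
  have h1 := (hasSum_nat_add_iff' (f := a) (d + 1)).2 h
  have h2 : ∑ i ∈ Finset.range (d + 1), a i = a d := by
    rw [Finset.sum_range_succ, Finset.sum_eq_zero (fun k hk => h0 k (Finset.mem_range.1 hk)),
      zero_add]
  rw [h2] at h1
  rw [← h1.tsum_eq, ← Real.norm_eq_abs, ← tsum_mul_left]
  exact tsum_of_norm_bounded (hg.mul_left c).hasSum hb

/-- steps (1) and (2) -/
lemma leading (hPOW : StPOW) {n : ℕ} {A β : ℝ} (hA : 1 ≤ A)
    (hβ : 0 < β) (hβA : 24 * β * A ≤ 1) {P : Fin n → E n → ℝ} (hP : Fam n A P)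
    (hne : ∃ x₁ ∈ ball (0 : E n) β, ∃ i, P i x₁ ≠ 0) {z : E n} (hz : z ∈ ball (0 : E n) β)
    (hz0 : ∀ i, P i z = 0) :
    ∃ d : ℕ, 1 ≤ d ∧ ∃ Q : Fin n → MvPolynomial (Fin n) ℝ, (∀ i, (Q i).IsHomogeneous d) ∧
      (∃ i, Q i ≠ 0) ∧ ∃ C : ℝ, 0 < C ∧ ∀ y : E n, ‖y‖ < 1 / 2 → A * ‖y‖ ≤ 1 / 2 → ∀ i,
        |P i (z + y) - ev (Q i) y| ≤ C * ‖y‖ ^ (d + 1) ∧
        ∀ l, |pd l (P i) (z + y) - ev (MvPolynomial.pderiv l (Q i)) y| ≤ C * ‖y‖ ^ d := by
  have hzn : ‖z‖ < β := by simpa using hz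
  have hβ24 : β ≤ 1 / 24 := by nlinarith
  have hsub : ball z (1 / 2) ⊆ ball (0 : E n) 1 := by
    intro x hx
    rw [mem_ball, dist_eq_norm] at hx
    rw [mem_ball_zero_iff]
    have : x = (x - z) + z := by abel
    calc ‖x‖ = ‖(x - z) + z‖ := by rw [← this]
      _ ≤ ‖x - z‖ + ‖z‖ := norm_add_le _ _
      _ < 1 := by linarith
  have h1 := fun i => hPOW n (P i) z A (1 / 2) hA (by norm_num) ((hP.smooth i).mono hsub)
    (fun k x hx => hP.bd i k x (hsub hx))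
  choose q hhom hbd hbd' hsum using h1
  -- not all terms vanish
  have hex : ∃ k, ∃ i, q i k ≠ 0 := by
    by_contra hcon
    push Not at hcon
    obtain ⟨x₁, hx₁, i, hi⟩ := hne
    have hx1 : ‖x₁‖ < β := by simpa using hx₁
    have hy : ‖x₁ - z‖ < 2 * β := by
      calc ‖x₁ - z‖ ≤ ‖x₁‖ + ‖z‖ := norm_sub_le _ _
        _ < 2 * β := by linarith
    have h2 := (hsum i (x₁ - z) (by linarith) (by nlinarith [norm_nonneg (x₁ - z)])).1
    simp only [hcon, map_zero, add_sub_cancel] at h2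
    exact hi (h2.unique hasSum_zero)
  classical
  set d := Nat.find hex with hd
  have hdspec : ∃ i, q i d ≠ 0 := Nat.find_spec hex
  have hdmin : ∀ k < d, ∀ i, q i k = 0 := by
    intro k hk i
    have := Nat.find_min hex hk
    push Not at this
    exact this i
  have hd1 : 1 ≤ d := by
    by_contra hcon
    have hd0 : d = 0 := by omega
    obtain ⟨i, hi⟩ := hdspec
    rw [hd0] at hi
    have h2 := (hsum i 0 (by simp) (by simp)).1
    rw [add_zero, hz0 i] at h2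
    have h3 : ∀ k, k ≠ 0 → MvPolynomial.eval (fun j => (0 : E n) j) (q i k) = 0 := by
      intro k hk
      have := hbd i k 0
      rw [norm_zero, mul_zero, zero_pow hk] at this
      exact abs_nonpos_iff.1 this
    have h4 := h2.unique (hasSum_single 0 h3)
    have h5 := (MvPolynomial.totalDegree_zero_iff_isHomogeneous _).2 (hhom i 0)
    rw [MvPolynomial.totalDegree_eq_zero_iff_eq_C] at h5
    rw [h5, MvPolynomial.eval_C] at h4
    rw [h5, ← h4] at hi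
    simp at hi
  have hs1 : Summable fun j : ℕ => (1 / 2 : ℝ) ^ j :=
    summable_geometric_of_lt_one (by norm_num) (by norm_num)
  have hs2 : Summable fun j : ℕ => ((j : ℝ) + (d + 1)) * (1 / 2 : ℝ) ^ j := by
    have h2 : Summable fun j : ℕ => (j : ℝ) * (1 / 2 : ℝ) ^ j :=
      (hasSum_coe_mul_geometric_of_norm_lt_one (r := (1 / 2 : ℝ)) (by norm_num)).summable
    have h3 := h2.add (hs1.mul_left ((d : ℝ) + 1))
    refine h3.congr fun j => ?_
    ring
  have hA0 : 0 < A := by linarith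
  refine ⟨d, hd1, fun i => q i d, fun i => hhom i d, hdspec,
    max 1 (max (A ^ (d + 1) * ∑' j : ℕ, (1 / 2 : ℝ) ^ j)
      (A ^ (d + 1) * ∑' j : ℕ, ((j : ℝ) + (d + 1)) * (1 / 2 : ℝ) ^ j)), by positivity, ?_⟩
  intro y hy hAy i
  set s := ‖y‖ with hs
  have hs0 : 0 ≤ s := norm_nonneg _
  have hAs0 : 0 ≤ A * s := by positivity
  obtain ⟨hsumP, hsumD⟩ := hsum i y hy (by linarith)
  have hpow : ∀ j : ℕ, (A * s) ^ j ≤ (1 / 2) ^ j := fun j => pow_le_pow_left₀ hAs0 hAy j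
  constructor
  · have h2 := tail hsumP d (fun k hk => by rw [hdmin k hk i, map_zero]) hs1
      (c := (A * s) ^ (d + 1)) (fun j => by
        refine (hbd i _ y).trans ?_
        rw [pow_add, mul_comm]
        exact mul_le_mul_of_nonneg_left (hpow j) (by positivity))
    refine h2.trans ?_
    rw [mul_pow]
    have h3 : A ^ (d + 1) * s ^ (d + 1) * ∑' j : ℕ, (1 / 2 : ℝ) ^ j =
        (A ^ (d + 1) * ∑' j : ℕ, (1 / 2 : ℝ) ^ j) * s ^ (d + 1) := by ring
    rw [h3]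
    refine mul_le_mul_of_nonneg_right ?_ (by positivity)
    exact (le_max_left _ _).trans (le_max_right _ _)
  · intro l
    have h2 := tail (hsumD l) d (fun k hk => by rw [hdmin k hk i, map_zero, map_zero]) hs2
      (c := A ^ (d + 1) * s ^ d) (fun j => by
        refine (hbd' i _ l y).trans ?_
        have e1 : j + (d + 1) - 1 = j + d := by omega
        rw [e1]
        push_cast
        have h4 := hpow j
        rw [mul_pow] at h4
        have h5 : ((j : ℝ) + (d + 1)) * A ^ (j + (d + 1)) * s ^ (j + d) =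
            (A ^ (d + 1) * s ^ d * ((j : ℝ) + (d + 1))) * (A ^ j * s ^ j) := by ring
        have h6 : A ^ (d + 1) * s ^ d * (((j : ℝ) + (d + 1)) * (1 / 2 : ℝ) ^ j) =
            (A ^ (d + 1) * s ^ d * ((j : ℝ) + (d + 1))) * (1 / 2 : ℝ) ^ j := by ring
        rw [h5, h6]
        exact mul_le_mul_of_nonneg_left h4 (by positivity))
    have h7 : |pd l (P i) (z + y) - ev (MvPolynomial.pderiv l (q i d)) y| ≤
        A ^ (d + 1) * s ^ d * ∑' j : ℕ, ((j : ℝ) + (d + 1)) * (1 / 2 : ℝ) ^ j := h2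
    refine h7.trans ?_
    have h3 : A ^ (d + 1) * s ^ d * ∑' j : ℕ, ((j : ℝ) + (d + 1)) * (1 / 2 : ℝ) ^ j =
        (A ^ (d + 1) * ∑' j : ℕ, ((j : ℝ) + (d + 1)) * (1 / 2 : ℝ) ^ j) * s ^ d := by ring
    rw [h3]
    refine mul_le_mul_of_nonneg_right ?_ (by positivity)
    exact (le_max_right _ _).trans (le_max_right _ _)

lemma coord_le {n : ℕ} (y : E n) (l : Fin n) : |y l| ≤ ‖y‖ := by
  have := EuclideanSpace.norm_eq y
  rw [this]
  refine Real.abs_le_sqrt ?_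
  have h := Finset.single_le_sum (f := fun i => ‖y i‖ ^ 2) (fun i _ => by positivity)
    (Finset.mem_univ l)
  simpa using h

lemma sum_sq {n : ℕ} (y : E n) : ∑ l, (y l) ^ 2 = ‖y‖ ^ 2 := by
  rw [EuclideanSpace.norm_sq_eq]
  simp

/-- step (5), pointwise -/
lemma pointwise {n : ℕ} (hn : 1 ≤ n) {P : Fin n → E n → ℝ} {z : E n} {d : ℕ} (hd : 1 ≤ d)
    {Q : Fin n → MvPolynomial (Fin n) ℝ} (hQ : ∀ i, (Q i).IsHomogeneous d) {C H ρ ε : ℝ}
    (hC : 0 < C) (hH : 0 < H) (hρ : 0 < ρ) (hε : KK ^ d * ε = H * ρ ^ d)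
    (hρ2 : 4 * n * (C * ρ) * KK ^ d ≤ H) {y : E n} (hy : y ∈ AA Q d H)
    (hap : ∀ i, |P i (z + ρ • y) - ev (Q i) (ρ • y)| ≤ C * ‖ρ • y‖ ^ (d + 1) ∧
        ∀ l, |pd l (P i) (z + ρ • y) - ev (MvPolynomial.pderiv l (Q i)) (ρ • y)| ≤
          C * ‖ρ • y‖ ^ d) :
    (d : ℝ) ^ 2 / (16 * ρ ^ 2 * (4 * n + 1) ^ 2) ≤ FF P ε (z + ρ • y) := by
  have hKd : 0 < KK ^ d := pow_pos KK_pos d
  have hn0 : (1 : ℝ) ≤ n := by exact_mod_cast hn
  have hd0 : (1 : ℝ) ≤ d := by exact_mod_cast hd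
  have hε0 : 0 < ε := by
    have : 0 < KK ^ d * ε := by rw [hε]; positivity
    exact (mul_pos_iff_of_pos_left hKd).1 this
  have hyn : ‖y‖ < 1 := by simpa using hy.1
  have hYn : ‖ρ • y‖ ≤ ρ := by
    rw [norm_smul, Real.norm_of_nonneg hρ.le]
    nlinarith
  -- error bound
  have herr : 4 * n * (C * ρ ^ (d + 1)) ≤ ε := by
    have h1 : 4 * n * (C * ρ ^ (d + 1)) * KK ^ d ≤ ε * KK ^ d := by
      calc 4 * n * (C * ρ ^ (d + 1)) * KK ^ d = (4 * n * (C * ρ) * KK ^ d) * ρ ^ d := by ring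
        _ ≤ H * ρ ^ d := mul_le_mul_of_nonneg_right hρ2 (by positivity)
        _ = ε * KK ^ d := by rw [← hε]; ring
    exact le_of_mul_le_mul_right h1 hKd
  have hCρ : 0 ≤ C * ρ ^ (d + 1) := by positivity
  have hQV : ∀ i, ev (Q i) (ρ • y) = ε * VV Q d H i y := by
    intro i
    rw [ev_smul (hQ i), VV]
    field_simp
    linear_combination -ev (Q i) y * hε
  have hPi : ∀ i, (P i (z + ρ • y)) ^ 2 ≤ 4 * ε ^ 2 := by
    intro i
    have h1 := (hap i).1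
    have h2 : C * ‖ρ • y‖ ^ (d + 1) ≤ ε := by
      calc C * ‖ρ • y‖ ^ (d + 1) ≤ C * ρ ^ (d + 1) := by gcongr
        _ ≤ 4 * n * (C * ρ ^ (d + 1)) := by nlinarith
        _ ≤ ε := herr
    have h3 : |ev (Q i) (ρ • y)| ≤ ε := by
      rw [hQV, abs_mul, abs_of_pos hε0]
      have := hy.2.1 i
      nlinarith
    have h4 : |P i (z + ρ • y)| ≤ 2 * ε := by
      have h5 : P i (z + ρ • y) = (P i (z + ρ • y) - ev (Q i) (ρ • y)) + ev (Q i) (ρ • y) := by ring
      rw [h5]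
      refine (abs_add_le _ _).trans ?_
      linarith
    rw [← sq_abs]
    calc |P i (z + ρ • y)| ^ 2 ≤ (2 * ε) ^ 2 := pow_le_pow_left₀ (abs_nonneg _) h4 2
      _ = 4 * ε ^ 2 := by ring
  have hgg : gg P (z + ρ • y) ≤ 4 * n * ε ^ 2 := by
    unfold gg
    calc ∑ i, (P i (z + ρ • y)) ^ 2 ≤ ∑ _i : Fin n, 4 * ε ^ 2 := Finset.sum_le_sum fun i _ => hPi i
      _ = 4 * n * ε ^ 2 := by simp; ring
  have hgg0 : 0 ≤ gg P (z + ρ • y) := Finset.sum_nonneg fun i _ => sq_nonneg _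
  -- lower bound for mm
  obtain ⟨i, hi⟩ := hy.2.2
  have hmm : (d : ℝ) ^ 2 * ε ^ 2 / (16 * ρ ^ 2) ≤ mm P (z + ρ • y) := by
    have h1 : ∑ l, (pd l (P i) (z + ρ • y)) ^ 2 ≤ mm P (z + ρ • y) := by
      unfold mm
      exact Finset.single_le_sum (f := fun i => ∑ l, (pd l (P i) (z + ρ • y)) ^ 2)
        (fun i _ => Finset.sum_nonneg fun l _ => sq_nonneg _) (Finset.mem_univ i)
    have h2 : ρ * |∑ l, y l * pd l (P i) (z + ρ • y)| ≥ d * ε / 4 := by
      have e1 : ∑ l, y l * pd l (P i) (z + ρ • y) =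
          ∑ l, y l * ev (MvPolynomial.pderiv l (Q i)) (ρ • y) +
          ∑ l, y l * (pd l (P i) (z + ρ • y) - ev (MvPolynomial.pderiv l (Q i)) (ρ • y)) := by
        rw [← Finset.sum_add_distrib]
        exact Finset.sum_congr rfl fun l _ => by ring
      have e2 : ρ * ∑ l, y l * ev (MvPolynomial.pderiv l (Q i)) (ρ • y) =
          d * (ε * VV Q d H i y) := by
        have h3 := congrArg (fun p => ev p (ρ • y)) (hQ i).sum_X_mul_pderiv
        simp only [ev, map_sum, map_mul, MvPolynomial.eval_X, map_nsmul] at h3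
        rw [← hQV, Finset.mul_sum]
        unfold ev
        rw [nsmul_eq_mul] at h3
        rw [← h3]
        refine Finset.sum_congr rfl fun l _ => ?_
        simp
        ring
      have e3 : |∑ l, y l * (pd l (P i) (z + ρ • y) -
          ev (MvPolynomial.pderiv l (Q i)) (ρ • y))| ≤ n * (C * ρ ^ d) := by
        refine (Finset.abs_sum_le_sum_abs _ _).trans ?_
        calc ∑ l, |y l * (pd l (P i) (z + ρ • y) - ev (MvPolynomial.pderiv l (Q i)) (ρ • y))|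
            ≤ ∑ _l : Fin n, C * ρ ^ d := by
              refine Finset.sum_le_sum fun l _ => ?_
              rw [abs_mul]
              have h4 := (hap i).2 l
              have h5 : C * ‖ρ • y‖ ^ d ≤ C * ρ ^ d := by gcongr
              have h6 : |y l| ≤ 1 := (coord_le y l).trans hyn.le
              calc |y l| * |pd l (P i) (z + ρ • y) - ev (MvPolynomial.pderiv l (Q i)) (ρ • y)|
                  ≤ 1 * (C * ρ ^ d) := mul_le_mul h6 (h4.trans h5) (abs_nonneg _) zero_le_one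
                _ = _ := one_mul _
          _ = n * (C * ρ ^ d) := by simp
      have h7 : d * ε / 2 ≤ |(d : ℝ) * (ε * VV Q d H i y)| := by
        rw [abs_mul, abs_mul, abs_of_pos hε0, abs_of_pos (by linarith : (0 : ℝ) < d)]
        have : d * ε * (1 / 2) ≤ d * ε * |VV Q d H i y| :=
          mul_le_mul_of_nonneg_left hi (by positivity)
        linarith
      have h8 : ρ * |∑ l, y l * pd l (P i) (z + ρ • y)| =
          |d * (ε * VV Q d H i y) + ρ * ∑ l, y l * (pd l (P i) (z + ρ • y) -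
            ev (MvPolynomial.pderiv l (Q i)) (ρ • y))| := by
        rw [← e2, ← mul_add, ← e1, abs_mul, abs_of_pos hρ]
      have h9 : |ρ * ∑ l, y l * (pd l (P i) (z + ρ • y) -
            ev (MvPolynomial.pderiv l (Q i)) (ρ • y))| ≤ ε / 4 := by
        rw [abs_mul, abs_of_pos hρ]
        calc ρ * |∑ l, y l * (pd l (P i) (z + ρ • y) -
            ev (MvPolynomial.pderiv l (Q i)) (ρ • y))| ≤ ρ * (n * (C * ρ ^ d)) := by gcongr
          _ = (4 * n * (C * ρ ^ (d + 1))) / 4 := by ring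
          _ ≤ ε / 4 := by linarith
      have h10 : ε / 4 ≤ d * ε / 4 := by nlinarith
      rw [h8, ge_iff_le]
      have h11 := abs_sub_abs_le_abs_add (d * (ε * VV Q d H i y)) (ρ * ∑ l, y l *
        (pd l (P i) (z + ρ • y) - ev (MvPolynomial.pderiv l (Q i)) (ρ • y)))
      linarith
    have h3 : (∑ l, y l * pd l (P i) (z + ρ • y)) ^ 2 ≤ ∑ l, (pd l (P i) (z + ρ • y)) ^ 2 := by
      have h4 := Finset.sum_mul_sq_le_sq_mul_sq Finset.univ (fun l => y l)
        (fun l => pd l (P i) (z + ρ • y))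
      rw [sum_sq] at h4
      have h5 : 0 ≤ ∑ l, (pd l (P i) (z + ρ • y)) ^ 2 := Finset.sum_nonneg fun l _ => sq_nonneg _
      have h6 : ‖y‖ ^ 2 ≤ 1 := by nlinarith [norm_nonneg y]
      nlinarith
    have h4 : (d * ε / 4) ^ 2 ≤ ρ ^ 2 * (∑ l, y l * pd l (P i) (z + ρ • y)) ^ 2 := by
      have h5 : (0 : ℝ) ≤ d * ε / 4 := by positivity
      calc (d * ε / 4) ^ 2 ≤ (ρ * |∑ l, y l * pd l (P i) (z + ρ • y)|) ^ 2 :=
            pow_le_pow_left₀ h5 h2 2
        _ = _ := by rw [mul_pow, sq_abs]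
    rw [div_le_iff₀ (by positivity)]
    have h5 : ρ ^ 2 * (∑ l, y l * pd l (P i) (z + ρ • y)) ^ 2 ≤ ρ ^ 2 * mm P (z + ρ • y) :=
      mul_le_mul_of_nonneg_left (h3.trans h1) (by positivity)
    nlinarith
  unfold FF
  rw [div_le_div_iff₀ (by positivity) (by positivity)]
  have h1 : (gg P (z + ρ • y) + ε ^ 2) ^ 2 ≤ ((4 * n + 1) * ε ^ 2) ^ 2 := by
    apply pow_le_pow_left₀ (by positivity)
    linarith
  have h2 : (d : ℝ) ^ 2 * ε ^ 2 ≤ mm P (z + ρ • y) * (16 * ρ ^ 2) := by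
    rw [div_le_iff₀ (by positivity)] at hmm
    exact hmm
  calc (d : ℝ) ^ 2 * (gg P (z + ρ • y) + ε ^ 2) ^ 2 ≤ d ^ 2 * ((4 * n + 1) * ε ^ 2) ^ 2 :=
        mul_le_mul_of_nonneg_left h1 (by positivity)
    _ = ((d : ℝ) ^ 2 * ε ^ 2) * (ε ^ 2 * (4 * n + 1) ^ 2) := by ring
    _ ≤ (mm P (z + ρ • y) * (16 * ρ ^ 2)) * (ε ^ 2 * (4 * n + 1) ^ 2) :=
        mul_le_mul_of_nonneg_right h2 (by positivity)
    _ = _ := by ring

lemma vol_scale {n : ℕ} (z : E n) {ρ : ℝ} (hρ : 0 < ρ) (S : Set (E n)) :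
    volume {x : E n | ρ⁻¹ • (x - z) ∈ S} = ENNReal.ofReal (ρ ^ n) * volume S := by
  have e : {x : E n | ρ⁻¹ • (x - z) ∈ S} = z +ᵥ (ρ • S) := by
    ext x
    rw [Set.mem_vadd_set_iff_neg_vadd_mem, Set.mem_smul_set_iff_inv_smul_mem₀ hρ.ne']
    rw [Set.mem_ofPred_eq, vadd_eq_add, neg_add_eq_sub]
  rw [e, measure_vadd, Measure.addHaar_smul, finrank_euclideanSpace_fin,
    abs_of_pos (pow_pos hρ n)]

/-- TARGET -/
theorem low (hPOW : StPOW) (hLR : StLR) (hSC : StSCU) (n : ℕ) (hn : 2 ≤ n) (A β : ℝ) (hA : 1 ≤ A)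
    (hβ : 0 < β) (hβA : 24 * β * A ≤ 1) :
    ∃ c : ℝ, 0 < c ∧ ∀ P : Fin n → E n → ℝ, Fam n A P →
      (∃ x₁ ∈ ball (0 : E n) β, ∃ i, P i x₁ ≠ 0) →
      ∀ z ∈ ball (0 : E n) β, (∀ i, P i z = 0) →
      ∃ k : ℕ, 0 < k ∧ ∀ ε : ℝ, 0 < ε → k * ε < 1 →
        ∃ ρ : ℝ, 0 < ρ ∧ ρ ≤ (k * ε) ^ (1 / (k : ℝ)) ∧ closedBall z ρ ⊆ ball 0 β ∧
          ENNReal.ofReal (c * ρ ^ (n - 2)) ≤ ∫⁻ x in ball z ρ, ENNReal.ofReal (FF P ε x) := by
  have hn1 : 1 ≤ n := by omega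
  obtain ⟨c₁, hc₁, hgeom⟩ := geom hLR hSC hn1
  refine ⟨c₁ / (16 * (4 * n + 1) ^ 2), by positivity, ?_⟩
  intro P hP hne z hz hz0
  obtain ⟨d, hd, Q, hQ, hQ0, C, hC, hap⟩ := leading hPOW hA hβ hβA hP hne hz hz0
  obtain ⟨H, hH, hvol⟩ := hgeom d hd Q hQ hQ0
  have hKd : 0 < KK ^ d := pow_pos KK_pos d
  have hn0 : (0 : ℝ) < n := by exact_mod_cast hn1
  have hd0 : (0 : ℝ) < d := by exact_mod_cast hd
  have hd1 : (1 : ℝ) ≤ d := by exact_mod_cast hd
  have hA0 : 0 < A := by linarith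
  have hzn : ‖z‖ < β := by simpa using hz
  -- the bound for rho
  set ρ₀ : ℝ := min (min ((β - ‖z‖) / 2) (1 / (4 * A))) (H / (4 * n * C * KK ^ d)) with hρ₀
  have hρ₀0 : 0 < ρ₀ := by
    refine lt_min (lt_min ?_ ?_) ?_
    · linarith
    · positivity
    · positivity
  obtain ⟨k, hk⟩ := exists_nat_gt (max (d : ℝ) (max (KK ^ d / H) (KK ^ d / (H * ρ₀ ^ d))))
  have hk1 : (d : ℝ) < k := lt_of_le_of_lt (le_max_left _ _) hk
  have hk2 : KK ^ d / H < k := lt_of_le_of_lt ((le_max_left _ _).trans (le_max_right _ _)) hk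
  have hk3 : KK ^ d / (H * ρ₀ ^ d) < k :=
    lt_of_le_of_lt ((le_max_right _ _).trans (le_max_right _ _)) hk
  have hk0 : (0 : ℝ) < k := by linarith
  refine ⟨k, by exact_mod_cast hk0, ?_⟩
  intro ε hε hkε
  set ρ : ℝ := KK * (ε / H) ^ ((d : ℝ)⁻¹) with hρ
  have hρ0 : 0 < ρ := mul_pos KK_pos (Real.rpow_pos_of_pos (by positivity) _)
  have hρd : ρ ^ d = KK ^ d * (ε / H) := by
    rw [hρ, mul_pow, Real.rpow_inv_natCast_pow (by positivity) (by omega)]
  have hρρ₀ : ρ ≤ ρ₀ := by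
    by_contra hcon
    push Not at hcon
    have h1 : ρ₀ ^ d < ρ ^ d := pow_lt_pow_left₀ hcon hρ₀0.le (by omega)
    rw [hρd] at h1
    rw [div_lt_iff₀ (by positivity)] at hk3
    have h2 : ρ₀ ^ d * H < KK ^ d * ε := by
      have h3 : ρ₀ ^ d * H < (KK ^ d * (ε / H)) * H := mul_lt_mul_of_pos_right h1 hH
      have h4 : (KK ^ d * (ε / H)) * H = KK ^ d * ε := by field_simp
      linarith
    have h5 : KK ^ d * ε < (k * (H * ρ₀ ^ d)) * ε := mul_lt_mul_of_pos_right hk3 hε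
    have h6 : (k * (H * ρ₀ ^ d)) * ε = (k * ε) * (H * ρ₀ ^ d) := by ring
    have h7 : (k * ε) * (H * ρ₀ ^ d) < 1 * (H * ρ₀ ^ d) :=
      mul_lt_mul_of_pos_right hkε (by positivity)
    linarith
  have hρa : ρ ≤ (β - ‖z‖) / 2 := hρρ₀.trans ((min_le_left _ _).trans (min_le_left _ _))
  have hρb : ρ ≤ 1 / (4 * A) := hρρ₀.trans ((min_le_left _ _).trans (min_le_right _ _))
  have hρc : ρ ≤ H / (4 * n * C * KK ^ d) := hρρ₀.trans (min_le_right _ _)
  have hAρ : A * ρ ≤ 1 / 4 := by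
    calc A * ρ ≤ A * (1 / (4 * A)) := mul_le_mul_of_nonneg_left hρb hA0.le
      _ = 1 / 4 := by field_simp
  have hρ14 : ρ ≤ 1 / 4 := by nlinarith
  refine ⟨ρ, hρ0, ?_, ?_, ?_⟩
  · have hu0 : 0 < k * ε := by positivity
    have h1 : ρ ≤ (k * ε) ^ ((d : ℝ)⁻¹) := by
      have h2 : ρ ^ d ≤ ((k * ε) ^ ((d : ℝ)⁻¹)) ^ d := by
        rw [Real.rpow_inv_natCast_pow hu0.le (by omega), hρd]
        calc KK ^ d * (ε / H) = (KK ^ d / H) * ε := by ring
          _ ≤ k * ε := mul_le_mul_of_nonneg_right hk2.le hε.le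
      exact le_of_pow_le_pow_left₀ (by omega) (Real.rpow_nonneg hu0.le _) h2
    refine h1.trans ?_
    apply Real.rpow_le_rpow_of_exponent_ge hu0 hkε.le
    rw [one_div]
    exact inv_anti₀ hd0 hk1.le
  · intro x hx
    rw [mem_closedBall, dist_eq_norm] at hx
    rw [mem_ball_zero_iff]
    have : x = (x - z) + z := by abel
    calc ‖x‖ = ‖(x - z) + z‖ := by rw [← this]
      _ ≤ ‖x - z‖ + ‖z‖ := norm_add_le _ _
      _ < β := by linarith
  · set B : Set (E n) := {x : E n | ρ⁻¹ • (x - z) ∈ AA Q d H} with hB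
    have hBm : MeasurableSet B := by
      have hcont : Continuous fun x : E n => ρ⁻¹ • (x - z) := by fun_prop
      have := hcont.measurable
      exact this (AA_meas Q d H)
    have hBsub : B ⊆ ball z ρ := by
      intro x hx
      have h1 : ρ⁻¹ • (x - z) ∈ ball (0 : E n) 1 := hx.1
      rw [mem_ball_zero_iff, norm_smul, norm_inv, Real.norm_of_nonneg hρ0.le,
        inv_mul_lt_iff₀ hρ0, mul_one] at h1
      rw [mem_ball, dist_eq_norm]
      exact h1
    have hερ : KK ^ d * ε = H * ρ ^ d := by rw [hρd]; field_simp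
    have hρ2 : 4 * n * (C * ρ) * KK ^ d ≤ H := by
      rw [le_div_iff₀ (by positivity)] at hρc
      calc 4 * n * (C * ρ) * KK ^ d = ρ * (4 * n * C * KK ^ d) := by ring
        _ ≤ H := hρc
    have hpt : ∀ x ∈ B, ENNReal.ofReal ((d : ℝ) ^ 2 / (16 * ρ ^ 2 * (4 * n + 1) ^ 2)) ≤
        ENNReal.ofReal (FF P ε x) := by
      intro x hx
      apply ENNReal.ofReal_le_ofReal
      have hx2 : x = z + ρ • (ρ⁻¹ • (x - z)) := by
        rw [smul_smul, mul_inv_cancel₀ hρ0.ne', one_smul]; abel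
      have hyn : ‖ρ⁻¹ • (x - z)‖ < 1 := by
        have := hx.1
        rwa [mem_ball_zero_iff] at this
      have hYn : ‖ρ • (ρ⁻¹ • (x - z))‖ ≤ ρ := by
        rw [norm_smul, Real.norm_of_nonneg hρ0.le]
        nlinarith
      have h1 := hap (ρ • (ρ⁻¹ • (x - z))) (by linarith) (by nlinarith)
      have h2 := pointwise hn1 hd hQ hC hH hρ0 hερ hρ2 hx h1
      rwa [← hx2] at h2
    calc ENNReal.ofReal (c₁ / (16 * (4 * n + 1) ^ 2) * ρ ^ (n - 2))
        ≤ ENNReal.ofReal ((d : ℝ) ^ 2 / (16 * ρ ^ 2 * (4 * n + 1) ^ 2)) *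
          (ENNReal.ofReal (ρ ^ n) * ENNReal.ofReal (c₁ / d)) := by
          rw [← ENNReal.ofReal_mul (by positivity), ← ENNReal.ofReal_mul (by positivity)]
          apply ENNReal.ofReal_le_ofReal
          have h1 : ρ ^ n = ρ ^ (n - 2) * ρ ^ 2 := by
            rw [← pow_add]; congr 1; omega
          rw [h1]
          have h2 : (d : ℝ) ^ 2 / (16 * ρ ^ 2 * (4 * n + 1) ^ 2) *
              (ρ ^ (n - 2) * ρ ^ 2 * (c₁ / d)) =
              d * (c₁ / (16 * (4 * n + 1) ^ 2) * ρ ^ (n - 2)) := by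
            field_simp
          rw [h2]
          have h3 : 0 ≤ c₁ / (16 * (4 * n + 1) ^ 2) * ρ ^ (n - 2) := by positivity
          nlinarith
      _ ≤ ENNReal.ofReal ((d : ℝ) ^ 2 / (16 * ρ ^ 2 * (4 * n + 1) ^ 2)) * volume B := by
          rw [hB, vol_scale z hρ0]
          gcongr
      _ = ∫⁻ _x in B, ENNReal.ofReal ((d : ℝ) ^ 2 / (16 * ρ ^ 2 * (4 * n + 1) ^ 2)) := by
          rw [setLIntegral_const]
      _ ≤ ∫⁻ x in B, ENNReal.ofReal (FF P ε x) := setLIntegral_mono' hBm hpt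
      _ ≤ ∫⁻ x in ball z ρ, ENNReal.ofReal (FF P ε x) := lintegral_mono_set hBsub

end Pool.Agent.Helper688.Crit.LOW
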