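import Mathlib

/-!
JOB LR (MP_8465a2_an, owner helper688).
-/

set_option autoImplicit false

open MeasureTheory Metric Set Filter Topology
open scoped ContDiff ENNReal NNReal

namespace Pool.Agent.Helper688.Crit.LR

theorem pick (n : ℕ) : ∀ S : Finset ℕ, 2 * n + 2 ≤ S.card →
    ∃ f : ℕ → ℕ, (∀ i ≤ n, f i ∈ S) ∧ ∀ i j, i ≤ j → j ≤ n → f i + 2 * (j - i) ≤ f j := by
  induction n with
  | zero =>
    intro S hS
    obtain ⟨x, hx⟩ : S.Nonempty := Finset.card_pos.1 (by omega)
    refine ⟨fun _ => x, fun _ _ => hx, fun i j hij hj => ?_⟩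
    have : j - i = 0 := by omega
    simp [this]
  | succ n ih =>
    intro S hS
    have hne : S.Nonempty := Finset.card_pos.1 (by omega)
    set M := S.max' hne
    have hM : M ∈ S := S.max'_mem hne
    have hc1 : (S.erase M).card = S.card - 1 := Finset.card_erase_of_mem hM
    have hne' : (S.erase M).Nonempty := Finset.card_pos.1 (by omega)
    set M' := (S.erase M).max' hne'
    have hM' : M' ∈ S.erase M := (S.erase M).max'_mem hne'
    have hc2 : ((S.erase M).erase M').card = (S.erase M).card - 1 := Finset.card_erase_of_mem hM'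
    obtain ⟨f, hf1, hf2⟩ := ih ((S.erase M).erase M') (by omega)
    have hlt : M' < M := by
      have h1 : M' ≤ M := S.le_max' _ (Finset.mem_of_mem_erase hM')
      have h2 : M' ≠ M := Finset.ne_of_mem_erase hM'
      omega
    have hfn : ∀ i ≤ n, f i + 2 ≤ M := by
      intro i hi
      have h := hf1 i hi
      have h1 : f i ≠ M' := Finset.ne_of_mem_erase h
      have h2 : f i ≤ M' := (S.erase M).le_max' _ (Finset.mem_of_mem_erase h)
      omega
    refine ⟨fun i => if i ≤ n then f i else M, ?_, ?_⟩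
    · intro i hi
      dsimp only
      split_ifs with h
      · exact Finset.mem_of_mem_erase (Finset.mem_of_mem_erase (hf1 i h))
      · exact hM
    · intro i j hij hj
      dsimp only
      by_cases h : j ≤ n
      · rw [if_pos (by omega), if_pos h]
        exact hf2 i j hij h
      · rw [if_neg h]
        by_cases h' : i ≤ n
        · rw [if_pos h']
          have h1 := hf2 i n h' le_rfl
          have h2 := hfn n le_rfl
          omega
        · rw [if_neg h']
          omega

/-- well separated points in a set of large outer measure -/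
theorem nodes {b μ : ℝ} (_hb : 0 < b) (hμ : 0 < μ) {E : Set ℝ} (hE : E ⊆ Icc 0 b)
    (hvol : ENNReal.ofReal μ ≤ volume E) (n : ℕ) :
    ∃ x : ℕ → ℝ, (∀ i ≤ n, x i ∈ E) ∧
      ∀ i j, i < j → j ≤ n → (μ / (2 * (n + 1))) * ((j : ℝ) - i) ≤ x j - x i := by
  classical
  set δ : ℝ := μ / (2 * (n + 1)) with hδ
  have hδ0 : 0 < δ := by positivity
  set κ : ℝ → ℕ := fun x => ⌊x / δ⌋₊ with hκ
  have hκ1 : ∀ x ∈ E, κ x * δ ≤ x := by
    intro x hx
    have h0 : 0 ≤ x / δ := div_nonneg (hE hx).1 hδ0.le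
    have := Nat.floor_le h0
    rwa [le_div_iff₀ hδ0] at this
  have hκ2 : ∀ x ∈ E, x < (κ x + 1) * δ := by
    intro x hx
    have := Nat.lt_floor_add_one (x / δ)
    rwa [div_lt_iff₀ hδ0] at this
  have hκ3 : ∀ x ∈ E, κ x ∈ Finset.range (⌊b / δ⌋₊ + 1) := by
    intro x hx
    rw [Finset.mem_range, Nat.lt_succ_iff]
    apply Nat.floor_le_floor
    exact div_le_div_of_nonneg_right (hE hx).2 hδ0.le
  set S : Finset ℕ := (Finset.range (⌊b / δ⌋₊ + 1)).filter (fun i => ∃ x ∈ E, κ x = i) with hS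
  have hsub : E ⊆ ⋃ i ∈ S, Icc ((i : ℝ) * δ) (((i : ℝ) + 1) * δ) := by
    intro x hx
    rw [mem_iUnion₂]
    exact ⟨κ x, Finset.mem_filter.2 ⟨hκ3 x hx, x, hx, rfl⟩, hκ1 x hx, (hκ2 x hx).le⟩
  have hcard : 2 * n + 2 ≤ S.card := by
    have h1 : volume E ≤ ∑ i ∈ S, volume (Icc ((i : ℝ) * δ) (((i : ℝ) + 1) * δ)) :=
      (measure_mono hsub).trans (measure_biUnion_finset_le S _)
    have h2 : ∀ i ∈ S, volume (Icc ((i : ℝ) * δ) (((i : ℝ) + 1) * δ)) = ENNReal.ofReal δ := by
      intro i _
      rw [Real.volume_Icc]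
      congr 1
      ring
    rw [Finset.sum_congr rfl h2, Finset.sum_const, nsmul_eq_mul] at h1
    have h3 := hvol.trans h1
    have h4 : ((S.card : ℕ) : ENNReal) * ENNReal.ofReal δ = ENNReal.ofReal (S.card * δ) := by
      rw [ENNReal.ofReal_mul (by positivity), ENNReal.ofReal_natCast]
    rw [h4, ENNReal.ofReal_le_ofReal_iff (by positivity)] at h3
    have h5 : μ = (2 * n + 2 : ℕ) * δ := by
      rw [hδ]; push_cast; field_simp
    rw [h5] at h3
    have h6 := le_of_mul_le_mul_right h3 hδ0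
    exact_mod_cast h6
  obtain ⟨f, hf1, hf2⟩ := pick n S hcard
  have hex : ∀ i, ∃ x, i ≤ n → x ∈ E ∧ κ x = f i := by
    intro i
    by_cases h : i ≤ n
    · obtain ⟨x, hx, hx2⟩ := (Finset.mem_filter.1 (hf1 i h)).2
      exact ⟨x, fun _ => ⟨hx, hx2⟩⟩
    · exact ⟨0, fun h' => absurd h' h⟩
  choose x hx using hex
  refine ⟨x, fun i hi => (hx i hi).1, fun i j hij hj => ?_⟩
  have h1 := hκ2 _ (hx i (by omega)).1
  have h2 := hκ1 _ (hx j hj).1
  rw [(hx i (by omega)).2] at h1
  rw [(hx j hj).2] at h2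
  have h3 := hf2 i j hij.le hj
  have h4 : (f i : ℝ) + 2 * ((j : ℝ) - i) ≤ f j := by
    have : ((j - i : ℕ) : ℝ) = (j : ℝ) - i := by rw [Nat.cast_sub hij.le]
    rw [← this]
    exact_mod_cast h3
  have h5 : (1 : ℝ) ≤ (j : ℝ) - i := by
    have : ((i + 1 : ℕ) : ℝ) ≤ j := by exact_mod_cast hij
    push_cast at this
    linarith
  nlinarith [mul_le_mul_of_nonneg_right h4 hδ0.le, mul_le_mul_of_nonneg_right h5 hδ0.le]

theorem prod_abs (n i : ℕ) (hi : i ≤ n) :
    ∏ j ∈ (Finset.range (n + 1)).erase i, |(i : ℝ) - j| = i.factorial * (n - i).factorial := by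
  have hset : (Finset.range (n + 1)).erase i = Finset.range i ∪ Finset.Ico (i + 1) (n + 1) := by
    ext j
    simp only [Finset.mem_erase, Finset.mem_range, Finset.mem_union, Finset.mem_Ico]
    omega
  have hdisj : Disjoint (Finset.range i) (Finset.Ico (i + 1) (n + 1)) := by
    rw [Finset.disjoint_left]
    intro j hj hj'
    rw [Finset.mem_range] at hj
    rw [Finset.mem_Ico] at hj'
    omega
  rw [hset, Finset.prod_union hdisj]
  congr 1
  · rw [← Finset.prod_range_reflect, ← Finset.prod_range_add_one_eq_factorial]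
    push_cast
    refine Finset.prod_congr rfl fun j hj => ?_
    rw [Finset.mem_range] at hj
    have : ((i - 1 - j : ℕ) : ℝ) = (i : ℝ) - 1 - j := by
      rw [Nat.sub_sub, Nat.cast_sub (by omega)]
      push_cast; ring
    rw [this, abs_of_nonneg (by have : (0 : ℝ) ≤ j := by positivity
                                linarith)]
    ring
  · rw [Finset.prod_Ico_eq_prod_range, ← Finset.prod_range_add_one_eq_factorial]
    push_cast
    refine Finset.prod_congr (by congr 1) fun j _ => ?_
    rw [abs_sub_comm, abs_of_nonneg (by have : (0 : ℝ) ≤ j := by positivity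
                                        linarith)]
    ring

/-- iterated Rolle -/
theorem rolle (b : ℝ) (U : Set ℝ) (hU : IsOpen U) (hIU : Icc 0 b ⊆ U) (n : ℕ) :
    ∀ (G : ℝ → ℝ), ContDiffOn ℝ ∞ G U → ∀ z : ℕ → ℝ, (∀ i ≤ n, z i ∈ Icc 0 b) →
    (∀ i < n, z i < z (i + 1)) → (∀ i ≤ n, G (z i) = 0) →
    ∃ ξ ∈ Icc 0 b, iteratedDeriv n G ξ = 0 := by
  induction n with
  | zero =>
    intro G hG z hz _ h0
    exact ⟨z 0, hz 0 le_rfl, by simpa using h0 0 le_rfl⟩
  | succ n ih =>
    intro G hG z hz hlt h0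
    have hex : ∀ i, ∃ w, i ≤ n → w ∈ Ioo (z i) (z (i + 1)) ∧ deriv G w = 0 := by
      intro i
      by_cases h : i ≤ n
      · have hsub : Icc (z i) (z (i + 1)) ⊆ U := by
          intro y hy
          exact hIU ⟨(hz i (by omega)).1.trans hy.1, hy.2.trans (hz (i + 1) (by omega)).2⟩
        obtain ⟨w, hw, hw0⟩ := exists_deriv_eq_zero (hlt i (by omega))
          (hG.continuousOn.mono hsub) ((h0 i (by omega)).trans (h0 (i + 1) (by omega)).symm)
        exact ⟨w, fun _ => ⟨hw, hw0⟩⟩
      · exact ⟨0, fun h' => absurd h' h⟩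
    choose w hw using hex
    obtain ⟨ξ, hξ, hξ0⟩ := ih (deriv G) (hG.deriv_of_isOpen hU (by simp)) w
      (fun i hi => ⟨(hz i (by omega)).1.trans (hw i hi).1.1.le,
        (hw i hi).1.2.le.trans (hz (i + 1) (by omega)).2⟩)
      (fun i hi => (hw i (by omega)).1.2.trans (hw (i + 1) (by omega)).1.1)
      (fun i hi => (hw i hi).2)
    exact ⟨ξ, hξ, by rw [iteratedDeriv_succ']; exact hξ0⟩

theorem poly_iter (n : ℕ) : ∀ Q : Polynomial ℝ,
    iteratedDeriv n (fun x => Q.eval x) = fun x => ((Polynomial.derivative^[n]) Q).eval x := by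
  induction n with
  | zero => intro Q; simp
  | succ n ih =>
    intro Q
    rw [iteratedDeriv_succ']
    have : deriv (fun x => Q.eval x) = fun x => (Polynomial.derivative Q).eval x := by
      funext x; exact Q.deriv
    rw [this, ih]
    simp [Function.iterate_succ_apply]

theorem poly_top (n : ℕ) (Q : Polynomial ℝ) (hQ : Q.natDegree ≤ n) (x : ℝ) :
    iteratedDeriv n (fun x => Q.eval x) x = (n.factorial : ℝ) * Q.coeff n := by
  rw [poly_iter]
  have h1 : ((Polynomial.derivative^[n]) Q).natDegree ≤ 0 := by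
    refine (Polynomial.natDegree_iterate_derivative Q n).trans ?_
    omega
  have h2 := Polynomial.eq_C_of_natDegree_le_zero h1
  show Polynomial.eval x ((Polynomial.derivative^[n]) Q) = _
  rw [h2, Polynomial.eval_C, Polynomial.coeff_iterate_derivative]
  simp [Nat.descFactorial_self]

theorem poly_contDiff (Q : Polynomial ℝ) (n : ℕ∞) : ContDiff ℝ n (fun x => Q.eval x) := by
  have := Q.contDiff_aeval (R := ℝ) (𝕜 := ℝ) n
  simpa [Polynomial.coe_aeval_eq_eval] using this

/-- TARGET -/
theorem lagrange_remez (m : ℕ) (b μ η K : ℝ) (hb : 0 < b) (hμ : 0 < μ) (hK : 0 ≤ K)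
    (U : Set ℝ) (hU : IsOpen U) (hIU : Icc 0 b ⊆ U) (h : ℝ → ℝ) (hh : ContDiffOn ℝ ∞ h U)
    (hd : ∀ x ∈ Icc 0 b, |iteratedDeriv (m + 1) h x| ≤ K)
    (S : Set ℝ) (hS : S ⊆ Icc 0 b) (hvol : ENNReal.ofReal μ ≤ volume S)
    (hη : ∀ x ∈ S, |h x| ≤ η) :
    |h 0| ≤ (12 * b / μ) ^ (m + 1) * η + K * b ^ (m + 1) / ((m + 1).factorial : ℝ) := by
  have hμb : μ ≤ b := by
    have h1 := hvol.trans (measure_mono hS)
    rw [Real.volume_Icc, sub_zero, ENNReal.ofReal_le_ofReal_iff hb.le] at h1
    exact h1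
  obtain ⟨x, hx1, hx2⟩ := nodes hb hμ hS hvol m
  have hη0 : 0 ≤ η := (abs_nonneg _).trans (hη _ (hx1 0 (Nat.zero_le _)))
  have hKb : 0 ≤ K * b ^ (m + 1) / ((m + 1).factorial : ℝ) := by positivity
  have hratio : 1 ≤ b / μ := (one_le_div hμ).2 hμb
  have hbig : 12 ≤ 12 * b / μ := by rw [mul_div_assoc]; linarith
  by_cases h0S : (0 : ℝ) ∈ S
  · have h1 := hη 0 h0S
    have h2 : (1 : ℝ) ≤ (12 * b / μ) ^ (m + 1) := one_le_pow₀ (by linarith)
    nlinarith
  set δ : ℝ := μ / (2 * (m + 1)) with hδ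
  have hδ0 : 0 < δ := by positivity
  have habs : ∀ i ≤ m, ∀ j ≤ m, i ≠ j → δ * |(i : ℝ) - j| ≤ |x i - x j| := by
    intro i hi j hj hij
    rcases lt_or_gt_of_ne hij with h | h
    · have h1 := hx2 i j h hj
      have h2 : (0 : ℝ) ≤ (j : ℝ) - i := by
        have : (i : ℝ) ≤ j := by exact_mod_cast h.le
        linarith
      rw [abs_sub_comm, abs_sub_comm (x i), abs_of_nonneg h2]
      exact h1.trans (le_abs_self _)
    · have h1 := hx2 j i h hi
      have h2 : (0 : ℝ) ≤ (i : ℝ) - j := by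
        have : (j : ℝ) ≤ i := by exact_mod_cast h.le
        linarith
      rw [abs_of_nonneg h2]
      exact h1.trans (le_abs_self _)
  have hinj : Set.InjOn x (Finset.range (m + 1) : Finset ℕ) := by
    intro i hi j hj hij
    by_contra hne
    have hi' : i ≤ m := by simpa [Nat.lt_succ_iff] using hi
    have hj' : j ≤ m := by simpa [Nat.lt_succ_iff] using hj
    have h1 := habs i hi' j hj' hne
    rw [hij, sub_self, abs_zero] at h1
    have h3 : (0 : ℝ) < |(i : ℝ) - j| := by
      apply abs_pos.2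
      intro h
      apply hne
      have : (i : ℝ) = j := by linarith
      exact_mod_cast this
    nlinarith
  set s : Finset ℕ := Finset.range (m + 1) with hs
  set P : Polynomial ℝ := Lagrange.interpolate s x (fun i => h (x i)) with hP
  set Om : Polynomial ℝ := Lagrange.nodal s x with hOm
  have hx0 : ∀ i ≤ m, x i ≠ 0 := fun i hi h' => h0S (h' ▸ hx1 i hi)
  have hxpos : ∀ i ≤ m, 0 < x i := fun i hi => lt_of_le_of_ne (hS (hx1 i hi)).1 (hx0 i hi).symm
  have hOm0 : Om.eval 0 ≠ 0 := by
    rw [hOm, Lagrange.eval_nodal, Finset.prod_ne_zero_iff]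
    intro i hi
    have := hx0 i (by simpa [hs, Nat.lt_succ_iff] using hi)
    simpa using this
  set c : ℝ := (h 0 - P.eval 0) / Om.eval 0 with hc
  set Q : Polynomial ℝ := P + Polynomial.C c * Om with hQ
  have hOmmonic : Om.Monic := Lagrange.nodal_monic
  have hOmdeg : Om.natDegree = m + 1 := by
    rw [hOm, Lagrange.natDegree_nodal, hs, Finset.card_range]
  have hPdeg : P.degree < ((m + 1 : ℕ) : WithBot ℕ) := by
    have := Lagrange.degree_interpolate_lt (r := fun i => h (x i)) hinj
    rwa [Finset.card_range] at this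
  have hPdeg' : P.natDegree ≤ m + 1 := by
    apply Polynomial.natDegree_le_of_degree_le
    exact hPdeg.le
  have hQdeg : Q.natDegree ≤ m + 1 := by
    refine (Polynomial.natDegree_add_le _ _).trans (max_le hPdeg' ?_)
    exact (Polynomial.natDegree_C_mul_le _ _).trans hOmdeg.le
  have hQc : Q.coeff (m + 1) = c := by
    rw [hQ, Polynomial.coeff_add, Polynomial.coeff_C_mul, Polynomial.coeff_eq_zero_of_degree_lt hPdeg,
      zero_add]
    have : Om.coeff (m + 1) = 1 := by
      rw [← hOmdeg]; exact hOmmonic.coeff_natDegree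
    rw [this, mul_one]
  -- the error function
  have hGU : ContDiffOn ℝ ∞ (fun y => h y - Q.eval y) U :=
    hh.sub (poly_contDiff Q ⊤).contDiffOn
  set z : ℕ → ℝ := fun i => if i = 0 then 0 else x (i - 1) with hz
  have hz0 : z 0 = 0 := by simp [hz]
  have hzs : ∀ i, z (i + 1) = x i := by intro i; simp [hz]
  obtain ⟨ξ, hξ, hξ0⟩ := rolle b U hU hIU (m + 1) (fun y => h y - Q.eval y) hGU z
    (by
      intro i hi
      rcases i with _ | i
      · rw [hz0]; exact ⟨le_rfl, hb.le⟩
      · rw [hzs]; exact hS (hx1 i (by omega)))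
    (by
      intro i hi
      rcases i with _ | i
      · rw [hz0, hzs]; exact hxpos 0 (by omega)
      · rw [hzs, hzs]
        have h1 := hx2 i (i + 1) (by omega) (by omega)
        push_cast at h1
        have : δ * ((i : ℝ) + 1 - i) = δ := by ring
        rw [this] at h1
        linarith)
    (by
      intro i hi
      rcases i with _ | i
      · rw [hz0]
        simp only [hQ, Polynomial.eval_add, Polynomial.eval_mul, Polynomial.eval_C, hc]
        field_simp
        ring
      · rw [hzs]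
        have hi' : i ∈ s := by rw [hs, Finset.mem_range]; omega
        have h1 : P.eval (x i) = h (x i) := Lagrange.eval_interpolate_at_node _ hinj hi'
        have h2 : Om.eval (x i) = 0 := Lagrange.eval_nodal_at_node hi'
        simp [hQ, h1, h2])
  have hder : iteratedDeriv (m + 1) h ξ = ((m + 1).factorial : ℝ) * c := by
    have h1 : iteratedDeriv (m + 1) (fun y => h y - Q.eval y) ξ =
        iteratedDeriv (m + 1) h ξ - iteratedDeriv (m + 1) (fun y => Q.eval y) ξ := by
      refine iteratedDeriv_fun_sub ?_ ?_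
      · exact (hh.contDiffAt (hU.mem_nhds (hIU hξ))).of_le (by exact_mod_cast le_top)
      · have := (poly_contDiff Q ((m + 1 : ℕ) : ℕ∞)).contDiffAt (x := ξ)
        exact_mod_cast this
    rw [hξ0, poly_top _ _ hQdeg, hQc] at h1
    linarith
  have hcb : |c| ≤ K / ((m + 1).factorial : ℝ) := by
    have h1 := hd ξ hξ
    rw [hder, abs_mul, Nat.abs_cast] at h1
    rw [le_div_iff₀ (by positivity)]
    linarith
  have hOmb : |Om.eval 0| ≤ b ^ (m + 1) := by
    rw [hOm, Lagrange.eval_nodal, Finset.abs_prod]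
    have : b ^ (m + 1) = ∏ i ∈ s, b := by rw [Finset.prod_const, hs, Finset.card_range]
    rw [this]
    refine Finset.prod_le_prod (fun _ _ => abs_nonneg _) ?_
    intro i hi
    have hi' : i ≤ m := by simpa [hs, Nat.lt_succ_iff] using hi
    rw [zero_sub, abs_neg, abs_of_pos (hxpos i hi')]
    exact (hS (hx1 i hi')).2
  have hdiff : |h 0 - P.eval 0| ≤ K * b ^ (m + 1) / ((m + 1).factorial : ℝ) := by
    have h1 : h 0 - P.eval 0 = c * Om.eval 0 := by
      rw [hc, div_mul_cancel₀ _ hOm0]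
    rw [h1, abs_mul]
    calc |c| * |Om.eval 0| ≤ K / ((m + 1).factorial : ℝ) * b ^ (m + 1) :=
          mul_le_mul hcb hOmb (abs_nonneg _) (by positivity)
      _ = _ := by ring
  -- the value of the interpolation polynomial at `0`
  have heval : P.eval 0 = ∑ i ∈ Finset.range (m + 1), h (x i) *
      ∏ j ∈ (Finset.range (m + 1)).erase i, ((x i - x j)⁻¹ * (0 - x j)) := by
    rw [hP, Lagrange.interpolate_apply, Polynomial.eval_finsetSum]
    refine Finset.sum_congr rfl fun i _ => ?_
    rw [Polynomial.eval_mul, Polynomial.eval_C, Lagrange.basis, Polynomial.eval_prod]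
    congr 1
    refine Finset.prod_congr rfl fun j _ => ?_
    simp [Lagrange.basisDivisor]
  have hterm : ∀ i ∈ Finset.range (m + 1), |h (x i) *
      ∏ j ∈ (Finset.range (m + 1)).erase i, ((x i - x j)⁻¹ * (0 - x j))| ≤
      η * ((2 * (m + 1) * (b / μ)) ^ m * (m.choose i / m.factorial)) := by
    intro i hi
    have hi' : i ≤ m := by simpa [Nat.lt_succ_iff] using hi
    rw [abs_mul]
    refine mul_le_mul (hη _ (hx1 i hi')) ?_ (abs_nonneg _) hη0
    rw [Finset.abs_prod]
    have h1 : ∀ j ∈ (Finset.range (m + 1)).erase i, |(x i - x j)⁻¹ * (0 - x j)| ≤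
        (2 * (m + 1) * (b / μ)) * |(i : ℝ) - j|⁻¹ := by
      intro j hj
      have hj1 : j ≠ i := Finset.ne_of_mem_erase hj
      have hj' : j ≤ m := by
        have := Finset.mem_of_mem_erase hj
        simpa [Nat.lt_succ_iff] using this
      have h3 : (0 : ℝ) < |(i : ℝ) - j| := by
        apply abs_pos.2
        intro h
        apply hj1
        have : (j : ℝ) = i := by linarith
        exact_mod_cast this
      have h4 := habs i hi' j hj' (Ne.symm hj1)
      have h6 : |0 - x j| ≤ b := by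
        rw [zero_sub, abs_neg, abs_of_pos (hxpos j hj')]
        exact (hS (hx1 j hj')).2
      rw [abs_mul, abs_inv]
      have h7 : |x i - x j|⁻¹ ≤ (δ * |(i : ℝ) - j|)⁻¹ := inv_anti₀ (by positivity) h4
      calc |x i - x j|⁻¹ * |0 - x j| ≤ (δ * |(i : ℝ) - j|)⁻¹ * b :=
            mul_le_mul h7 h6 (abs_nonneg _) (by positivity)
        _ = (2 * (m + 1) * (b / μ)) * |(i : ℝ) - j|⁻¹ := by
            rw [hδ]; field_simp
    refine (Finset.prod_le_prod (fun _ _ => abs_nonneg _) h1).trans (le_of_eq ?_)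
    rw [Finset.prod_mul_distrib, Finset.prod_const, Finset.prod_inv_distrib, prod_abs m i hi']
    have hcard : ((Finset.range (m + 1)).erase i).card = m := by
      rw [Finset.card_erase_of_mem hi, Finset.card_range]; rfl
    rw [hcard]
    congr 1
    have hch := Nat.choose_mul_factorial_mul_factorial hi'
    have hch' : (m.choose i : ℝ) * i.factorial * (m - i).factorial = m.factorial := by
      exact_mod_cast hch
    rw [← hch']
    have h8 : (m.choose i : ℝ) ≠ 0 := by
      exact_mod_cast (Nat.choose_pos hi').ne'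
    field_simp
  have hPb : |P.eval 0| ≤ (12 * b / μ) ^ (m + 1) * η := by
    rw [heval]
    refine (Finset.abs_sum_le_sum_abs _ _).trans ((Finset.sum_le_sum hterm).trans ?_)
    rw [← Finset.mul_sum, ← Finset.mul_sum, ← Finset.sum_div]
    have hsum : ∑ i ∈ Finset.range (m + 1), (m.choose i : ℝ) = 2 ^ m := by
      exact_mod_cast Nat.sum_range_choose m
    rw [hsum]
    have hexp : ((m : ℝ) + 1) ^ m / m.factorial ≤ 3 ^ (m + 1) := by
      have h1 := Real.pow_div_factorial_le_exp (x := (m : ℝ) + 1) (by positivity) m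
      have h2 : Real.exp ((m : ℝ) + 1) = Real.exp 1 ^ (m + 1) := by
        rw [← Real.exp_nat_mul]; push_cast; ring_nf
      rw [h2] at h1
      refine h1.trans (pow_le_pow_left₀ (Real.exp_pos _).le ?_ _)
      linarith [Real.exp_one_lt_d9]
    have e : (2 * ((m : ℝ) + 1) * (b / μ)) ^ m * (2 ^ m / m.factorial) =
        (4 * (b / μ)) ^ m * (((m : ℝ) + 1) ^ m / m.factorial) := by
      rw [show (2 * ((m : ℝ) + 1) * (b / μ)) = ((m : ℝ) + 1) * (2 * (b / μ)) by ring, mul_pow,
        show (4 * (b / μ)) = 2 * (2 * (b / μ)) by ring, mul_pow 2 (2 * (b / μ))]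
      ring
    rw [e]
    have h9 : (4 * (b / μ)) ^ m * (((m : ℝ) + 1) ^ m / m.factorial) ≤ (12 * b / μ) ^ (m + 1) := by
      calc (4 * (b / μ)) ^ m * (((m : ℝ) + 1) ^ m / m.factorial) ≤ (4 * (b / μ)) ^ m * 3 ^ (m + 1) :=
            mul_le_mul_of_nonneg_left hexp (by positivity)
        _ ≤ (4 * (b / μ)) ^ (m + 1) * 3 ^ (m + 1) := by
            refine mul_le_mul_of_nonneg_right ?_ (by positivity)
            exact pow_le_pow_right₀ (by linarith) (Nat.le_succ _)
        _ = (12 * b / μ) ^ (m + 1) := by rw [← mul_pow]; congr 1; ring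
    calc η * ((4 * (b / μ)) ^ m * (((m : ℝ) + 1) ^ m / m.factorial)) ≤
          η * (12 * b / μ) ^ (m + 1) := mul_le_mul_of_nonneg_left h9 hη0
      _ = _ := mul_comm _ _
  calc |h 0| = |P.eval 0 + (h 0 - P.eval 0)| := by ring_nf
    _ ≤ |P.eval 0| + |h 0 - P.eval 0| := abs_add_le _ _
    _ ≤ _ := add_le_add hPb hdiff

end Pool.Agent.Helper688.Crit.LR
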