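import Mathlib

/-!
JOB SC (MP_8465a2_an, owner helper688). Write your file as Pool/Agent/Helper688_Crit/SC.lean, namespace below.
Prove both TARGETs, statements unchanged; auxiliary lemmas in the namespace `Pool.Agent.Helper688.Crit.SC`.
No banned words (RULES.md Validity 2). Land your file with land.sh and put its path in jobs.result.

PROOF. Tonelli for the measurable set {(τ, y) : τ ∈ I, y ∈ Y, x₁ + τ y ∈ S} and the scaling
volume {y ∈ ball 0 r : x₁ + τ y ∈ S} = τ^(-n) volume (S ∩ ball x₁ (τ r)) (Measure.addHaar_preimage_smul, translation).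
(low) ∫_{y ∈ ball 0 r} vol{τ ∈ [1/2,1] : x₁+τy ∈ S} dy ≤ κ vol(ball 0 r) and it equals
  ∫_{τ ∈ [1/2,1]} τ^(-n) vol(S ∩ ball x₁ (τ r)) dτ ≥ (1/2) vol(S ∩ ball x₁ (r/2)).
(up) κ vol Y ≤ ∫_{y∈Y} vol{τ ∈ [τ₀,1] : x₁+τy ∈ S} dy ≤ ∫_{τ ∈ [τ₀,1]} vol{y ∈ ball 0 r : x₁+τ y ∈ S} dτ
  = ∫_{[τ₀,1]} τ^(-n) vol(S ∩ ball x₁ (τ r)) dτ ≤ τ₀^(-n) vol(S ∩ ball x₁ r).
-/

set_option autoImplicit false

open MeasureTheory Metric Set Filter Topology
open scoped ContDiff ENNReal NNReal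

namespace Pool.Agent.Helper688.Crit.SC

lemma fub {n : ℕ} {S : Set (EuclideanSpace ℝ (Fin n))} (hS : MeasurableSet S)
    (x₁ : EuclideanSpace ℝ (Fin n)) {I : Set ℝ} (hI : MeasurableSet I)
    {Y : Set (EuclideanSpace ℝ (Fin n))} (hY : MeasurableSet Y) :
    ∫⁻ y in Y, volume {τ : ℝ | τ ∈ I ∧ x₁ + τ • y ∈ S} =
      ∫⁻ τ in I, volume {y : EuclideanSpace ℝ (Fin n) | y ∈ Y ∧ x₁ + τ • y ∈ S} := by
  set A : Set (ℝ × EuclideanSpace ℝ (Fin n)) := {p | p.1 ∈ I ∧ p.2 ∈ Y ∧ x₁ + p.1 • p.2 ∈ S} with hA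
  have mA : MeasurableSet A := by
    apply (measurable_fst hI).inter
    apply (measurable_snd hY).inter
    have : Measurable (fun p : ℝ × EuclideanSpace ℝ (Fin n) => x₁ + p.1 • p.2) := by fun_prop
    exact this hS
  have e1 : (volume.prod volume) A =
      ∫⁻ τ in I, volume {y : EuclideanSpace ℝ (Fin n) | y ∈ Y ∧ x₁ + τ • y ∈ S} := by
    rw [Measure.prod_apply mA, ← lintegral_indicator hI]
    congr 1
    funext τ
    by_cases hτ : τ ∈ I
    · rw [Set.indicator_of_mem hτ]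
      congr 1
      ext y
      simp [hA, hτ]
    · rw [Set.indicator_of_notMem hτ]
      have : Prod.mk τ ⁻¹' A = ∅ := by
        ext y
        simp [hA, hτ]
      rw [this, measure_empty]
  have e2 : (volume.prod volume) A =
      ∫⁻ y in Y, volume {τ : ℝ | τ ∈ I ∧ x₁ + τ • y ∈ S} := by
    rw [Measure.prod_apply_symm mA, ← lintegral_indicator hY]
    congr 1
    funext y
    by_cases hy : y ∈ Y
    · rw [Set.indicator_of_mem hy]
      congr 1
      ext τ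
      simp [hA, hy]
    · rw [Set.indicator_of_notMem hy]
      have : (fun τ => (τ, y)) ⁻¹' A = ∅ := by
        ext τ
        simp [hA, hy]
      rw [this, measure_empty]
  rw [← e1, ← e2]

lemma scale {n : ℕ} (S : Set (EuclideanSpace ℝ (Fin n))) (x₁ : EuclideanSpace ℝ (Fin n)) (r : ℝ)
    {τ : ℝ} (hτ : 0 < τ) :
    volume {y : EuclideanSpace ℝ (Fin n) | y ∈ ball 0 r ∧ x₁ + τ • y ∈ S} =
      ENNReal.ofReal ((τ ^ n)⁻¹) * volume (S ∩ ball x₁ (τ * r)) := by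
  have e1 : {y : EuclideanSpace ℝ (Fin n) | y ∈ ball 0 r ∧ x₁ + τ • y ∈ S} =
      (fun y => τ • y) ⁻¹' ((fun z => x₁ + z) ⁻¹' (S ∩ ball x₁ (τ * r))) := by
    ext y
    simp only [Set.mem_ofPred_eq, Set.mem_preimage, Set.mem_inter_iff, mem_ball, dist_eq_norm,
      sub_zero, add_sub_cancel_left, norm_smul, Real.norm_eq_abs, abs_of_pos hτ]
    rw [mul_lt_mul_iff_right₀ hτ]
    exact and_comm
  rw [e1, Measure.addHaar_preimage_smul volume hτ.ne', measure_preimage_add, finrank_euclideanSpace,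
    Fintype.card_fin, abs_of_pos (by positivity)]

/-- TARGET 1 -/
theorem scale_low (n : ℕ) (hn : 1 ≤ n) (S : Set (EuclideanSpace ℝ (Fin n))) (hS : MeasurableSet S)
    (x₁ : EuclideanSpace ℝ (Fin n)) (r : ℝ) (hr : 0 < r) (κ : ℝ≥0∞)
    (h : ∀ y ∈ ball (0 : EuclideanSpace ℝ (Fin n)) r,
      volume {τ : ℝ | τ ∈ Icc (1 / 2 : ℝ) 1 ∧ x₁ + τ • y ∈ S} ≤ κ) :
    volume (S ∩ ball x₁ (r / 2)) ≤ 2 * κ * volume (ball (0 : EuclideanSpace ℝ (Fin n)) r) := by
  have hf := fub hS x₁ (measurableSet_Icc (a := (1 / 2 : ℝ)) (b := 1))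
    (measurableSet_ball (x := (0 : EuclideanSpace ℝ (Fin n))) (ε := r))
  have up : ∫⁻ y in ball (0 : EuclideanSpace ℝ (Fin n)) r,
      volume {τ : ℝ | τ ∈ Icc (1 / 2 : ℝ) 1 ∧ x₁ + τ • y ∈ S} ≤
      κ * volume (ball (0 : EuclideanSpace ℝ (Fin n)) r) := by
    rw [← setLIntegral_const]
    exact setLIntegral_mono' measurableSet_ball h
  have low : volume (S ∩ ball x₁ (r / 2)) * ENNReal.ofReal (1 / 2) ≤
      ∫⁻ τ in Icc (1 / 2 : ℝ) 1,
        volume {y : EuclideanSpace ℝ (Fin n) | y ∈ ball 0 r ∧ x₁ + τ • y ∈ S} := by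
    have e1 : volume (S ∩ ball x₁ (r / 2)) * ENNReal.ofReal (1 / 2) =
        ∫⁻ _ in Icc (1 / 2 : ℝ) 1, volume (S ∩ ball x₁ (r / 2)) := by
      rw [setLIntegral_const, Real.volume_Icc]
      norm_num
    rw [e1]
    apply setLIntegral_mono' measurableSet_Icc
    intro τ hτ
    have hτ0 : 0 < τ := by linarith [hτ.1]
    rw [scale S x₁ r hτ0]
    have h2 : volume (S ∩ ball x₁ (r / 2)) ≤ volume (S ∩ ball x₁ (τ * r)) := by
      apply measure_mono
      apply Set.inter_subset_inter_right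
      apply ball_subset_ball
      nlinarith [hτ.1]
    have h3 : (1 : ℝ≥0∞) ≤ ENNReal.ofReal ((τ ^ n)⁻¹) := by
      rw [← ENNReal.ofReal_one]
      apply ENNReal.ofReal_le_ofReal
      rw [one_le_inv₀ (by positivity)]
      exact pow_le_one₀ hτ0.le hτ.2
    calc volume (S ∩ ball x₁ (r / 2)) = 1 * volume (S ∩ ball x₁ (r / 2)) := (one_mul _).symm
      _ ≤ ENNReal.ofReal ((τ ^ n)⁻¹) * volume (S ∩ ball x₁ (τ * r)) := mul_le_mul' h3 h2
  rw [hf] at up
  have h4 := low.trans up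
  have e2 : (2 : ℝ≥0∞) * ENNReal.ofReal (1 / 2) = 1 := by
    rw [show (2 : ℝ≥0∞) = ENNReal.ofReal 2 by norm_num, ← ENNReal.ofReal_mul (by norm_num),
      ← ENNReal.ofReal_one]
    norm_num
  calc volume (S ∩ ball x₁ (r / 2))
      = 2 * (volume (S ∩ ball x₁ (r / 2)) * ENNReal.ofReal (1 / 2)) := by
        rw [mul_comm (volume (S ∩ ball x₁ (r / 2))), ← mul_assoc, e2, one_mul]
    _ ≤ 2 * (κ * volume (ball (0 : EuclideanSpace ℝ (Fin n)) r)) := mul_le_mul_right h4 2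
    _ = 2 * κ * volume (ball (0 : EuclideanSpace ℝ (Fin n)) r) := by rw [mul_assoc]

/-- TARGET 2 -/
theorem scale_up (n : ℕ) (hn : 1 ≤ n) (S : Set (EuclideanSpace ℝ (Fin n))) (hS : MeasurableSet S)
    (x₁ : EuclideanSpace ℝ (Fin n)) (r τ₀ : ℝ) (hr : 0 < r) (h0 : 0 < τ₀) (h1 : τ₀ ≤ 1)
    (Y : Set (EuclideanSpace ℝ (Fin n))) (hY : MeasurableSet Y) (hYr : Y ⊆ ball 0 r) (κ : ℝ≥0∞)
    (h : ∀ y ∈ Y, κ ≤ volume {τ : ℝ | τ ∈ Icc τ₀ 1 ∧ x₁ + τ • y ∈ S}) :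
    ENNReal.ofReal (τ₀ ^ n) * κ * volume Y ≤ volume (S ∩ ball x₁ r) := by
  have hf := fub hS x₁ (measurableSet_Icc (a := τ₀) (b := 1)) hY
  have low : κ * volume Y ≤ ∫⁻ y in Y, volume {τ : ℝ | τ ∈ Icc τ₀ 1 ∧ x₁ + τ • y ∈ S} := by
    rw [← setLIntegral_const]
    exact setLIntegral_mono' hY h
  have up : ∫⁻ τ in Icc τ₀ 1,
        volume {y : EuclideanSpace ℝ (Fin n) | y ∈ Y ∧ x₁ + τ • y ∈ S} ≤
      ENNReal.ofReal ((τ₀ ^ n)⁻¹) * volume (S ∩ ball x₁ r) := by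
    calc ∫⁻ τ in Icc τ₀ 1, volume {y : EuclideanSpace ℝ (Fin n) | y ∈ Y ∧ x₁ + τ • y ∈ S}
        ≤ ∫⁻ _ in Icc τ₀ 1, ENNReal.ofReal ((τ₀ ^ n)⁻¹) * volume (S ∩ ball x₁ r) := by
          apply setLIntegral_mono' measurableSet_Icc
          intro τ hτ
          have hτ0 : 0 < τ := lt_of_lt_of_le h0 hτ.1
          calc volume {y : EuclideanSpace ℝ (Fin n) | y ∈ Y ∧ x₁ + τ • y ∈ S}
              ≤ volume {y : EuclideanSpace ℝ (Fin n) | y ∈ ball 0 r ∧ x₁ + τ • y ∈ S} :=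
                measure_mono (fun y hy => ⟨hYr hy.1, hy.2⟩)
            _ = ENNReal.ofReal ((τ ^ n)⁻¹) * volume (S ∩ ball x₁ (τ * r)) := scale S x₁ r hτ0
            _ ≤ ENNReal.ofReal ((τ₀ ^ n)⁻¹) * volume (S ∩ ball x₁ r) := by
                apply mul_le_mul'
                · apply ENNReal.ofReal_le_ofReal
                  apply inv_anti₀ (by positivity)
                  exact pow_le_pow_left₀ h0.le hτ.1 n
                · apply measure_mono
                  apply Set.inter_subset_inter_right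
                  apply ball_subset_ball
                  nlinarith [hτ.2]
      _ = ENNReal.ofReal ((τ₀ ^ n)⁻¹) * volume (S ∩ ball x₁ r) * ENNReal.ofReal (1 - τ₀) := by
          rw [setLIntegral_const, Real.volume_Icc]
      _ ≤ ENNReal.ofReal ((τ₀ ^ n)⁻¹) * volume (S ∩ ball x₁ r) * 1 := by
          apply mul_le_mul' le_rfl
          rw [← ENNReal.ofReal_one]
          apply ENNReal.ofReal_le_ofReal
          linarith
      _ = ENNReal.ofReal ((τ₀ ^ n)⁻¹) * volume (S ∩ ball x₁ r) := mul_one _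
  rw [hf] at low
  have h2 := low.trans up
  calc ENNReal.ofReal (τ₀ ^ n) * κ * volume Y = ENNReal.ofReal (τ₀ ^ n) * (κ * volume Y) :=
        mul_assoc _ _ _
    _ ≤ ENNReal.ofReal (τ₀ ^ n) * (ENNReal.ofReal ((τ₀ ^ n)⁻¹) * volume (S ∩ ball x₁ r)) :=
        mul_le_mul' le_rfl h2
    _ = volume (S ∩ ball x₁ r) := by
        rw [← mul_assoc, ← ENNReal.ofReal_mul (by positivity), mul_inv_cancel₀ (by positivity),
          ENNReal.ofReal_one, one_mul]

end Pool.Agent.Helper688.Crit.SC
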