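import Mathlib

/-!
# Summation over dyadic shells
-/

set_option autoImplicit false

open MeasureTheory Metric Set Filter Topology
open scoped ContDiff ENNReal NNReal

namespace Pool.Agent.Helper688.Crit.SUM

theorem geo (x : ℝ) (hx : 0 < x) :
    ∑' j : ℕ, ENNReal.ofReal (Real.exp (-((j : ℝ) * x))) ≤ ENNReal.ofReal (1 / x + 1) := by
  have h1 : ∀ j : ℕ, Real.exp (-((j : ℝ) * x)) = (Real.exp (-x)) ^ j := by
    intro j
    rw [← Real.exp_nat_mul]
    congr 1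
    ring
  have h0 : 0 ≤ Real.exp (-x) := (Real.exp_pos _).le
  have h2 : Real.exp (-x) < 1 := by
    rw [Real.exp_lt_one_iff]
    linarith
  simp_rw [h1]
  rw [← ENNReal.ofReal_tsum_of_nonneg (fun n => pow_nonneg h0 n) (summable_geometric_of_lt_one h0 h2),
    tsum_geometric_of_lt_one h0 h2]
  apply ENNReal.ofReal_le_ofReal
  have h3 : Real.exp (-x) ≤ 1 / (1 + x) := by
    rw [Real.exp_neg, ← one_div]
    apply one_div_le_one_div_of_le (by linarith)
    linarith [Real.add_one_le_exp x]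
  have h4 : x / (1 + x) ≤ 1 - Real.exp (-x) := by
    have : x / (1 + x) = 1 - 1 / (1 + x) := by
      have : 1 + x ≠ 0 := by positivity
      field_simp
      ring
    rw [this]
    linarith
  calc (1 - Real.exp (-x))⁻¹ ≤ (x / (1 + x))⁻¹ := inv_anti₀ (by positivity) h4
    _ = 1 / x + 1 := by
      have : 1 + x ≠ 0 := by positivity
      field_simp

theorem powsum (k : ℕ) (a : ℝ) (ha : 1 ≤ a) :
    ∑' j : ℕ, ENNReal.ofReal (((j : ℝ) + 1) ^ k * Real.exp (-(j : ℝ) / a)) ≤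
      ENNReal.ofReal (6 * (k.factorial : ℝ) * 2 ^ k * a ^ (k + 1)) := by
  have ha0 : 0 < a := by linarith
  have hD : 0 ≤ (k.factorial : ℝ) * (2 * a) ^ k * 2 := by positivity
  have h1 : ∀ j : ℕ, ENNReal.ofReal (((j : ℝ) + 1) ^ k * Real.exp (-(j : ℝ) / a)) ≤
      ENNReal.ofReal ((k.factorial : ℝ) * (2 * a) ^ k * 2) *
        ENNReal.ofReal (Real.exp (-((j : ℝ) * (1 / (2 * a))))) := by
    intro j
    rw [← ENNReal.ofReal_mul hD]
    apply ENNReal.ofReal_le_ofReal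
    have h2 := Real.pow_div_factorial_le_exp (x := ((j : ℝ) + 1) / (2 * a)) (by positivity) k
    have h3 : ((j : ℝ) + 1) ^ k ≤ (k.factorial : ℝ) * (2 * a) ^ k *
        Real.exp (((j : ℝ) + 1) / (2 * a)) := by
      rw [div_pow, div_div, div_le_iff₀ (by positivity)] at h2
      linarith
    have h4 : Real.exp (1 / (2 * a)) ≤ 2 := by
      have h5 : 1 / (2 * a) ≤ 1 / 2 := by
        apply one_div_le_one_div_of_le (by norm_num)
        linarith
      have h6 : Real.exp (1 / (2 * a)) ≤ Real.exp (1 / 2) := Real.exp_le_exp.2 h5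
      have h7 : Real.exp (1 / 2) ^ 2 < 2 ^ 2 := by
        rw [← Real.exp_nat_mul]
        have := Real.exp_one_lt_d9
        norm_num
        linarith
      have h8 : Real.exp (1 / 2) < 2 := lt_of_pow_lt_pow_left₀ 2 (by norm_num) h7
      linarith
    calc ((j : ℝ) + 1) ^ k * Real.exp (-(j : ℝ) / a)
        ≤ ((k.factorial : ℝ) * (2 * a) ^ k * Real.exp (((j : ℝ) + 1) / (2 * a))) *
          Real.exp (-(j : ℝ) / a) := mul_le_mul_of_nonneg_right h3 (Real.exp_pos _).le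
      _ = (k.factorial : ℝ) * (2 * a) ^ k * Real.exp (1 / (2 * a)) *
          Real.exp (-((j : ℝ) * (1 / (2 * a)))) := by
        rw [mul_assoc, mul_assoc _ (Real.exp (1 / (2 * a))), ← Real.exp_add, ← Real.exp_add]
        congr 2
        field_simp
        ring
      _ ≤ (k.factorial : ℝ) * (2 * a) ^ k * 2 * Real.exp (-((j : ℝ) * (1 / (2 * a)))) := by
        apply mul_le_mul_of_nonneg_right _ (Real.exp_pos _).le
        exact mul_le_mul_of_nonneg_left h4 (by positivity)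
  refine (ENNReal.tsum_le_tsum h1).trans ?_
  rw [ENNReal.tsum_mul_left]
  have h2 := geo (1 / (2 * a)) (by positivity)
  calc ENNReal.ofReal ((k.factorial : ℝ) * (2 * a) ^ k * 2) *
        ∑' j : ℕ, ENNReal.ofReal (Real.exp (-((j : ℝ) * (1 / (2 * a)))))
      ≤ ENNReal.ofReal ((k.factorial : ℝ) * (2 * a) ^ k * 2) *
        ENNReal.ofReal (1 / (1 / (2 * a)) + 1) := by gcongr
    _ = ENNReal.ofReal ((k.factorial : ℝ) * (2 * a) ^ k * 2 * (1 / (1 / (2 * a)) + 1)) := by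
        rw [ENNReal.ofReal_mul hD]
    _ ≤ ENNReal.ofReal (6 * (k.factorial : ℝ) * 2 ^ k * a ^ (k + 1)) := by
        apply ENNReal.ofReal_le_ofReal
        have h3 : 1 / (1 / (2 * a)) + 1 ≤ 3 * a := by
          rw [one_div_one_div]
          linarith
        calc (k.factorial : ℝ) * (2 * a) ^ k * 2 * (1 / (1 / (2 * a)) + 1)
            ≤ (k.factorial : ℝ) * (2 * a) ^ k * 2 * (3 * a) := mul_le_mul_of_nonneg_left h3 hD
          _ = 6 * (k.factorial : ℝ) * 2 ^ k * a ^ (k + 1) := by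
            rw [mul_pow]
            ring

/-- comparison of a function with its power `3 / 2` -/
theorem young (r : ℝ≥0∞) (l : ℝ) (hl : 0 < l) :
    r ≤ ENNReal.ofReal l * r ^ (3 / 2 : ℝ) + ENNReal.ofReal ((l ^ 2)⁻¹) := by
  by_cases hr : r ≤ ENNReal.ofReal ((l ^ 2)⁻¹)
  · exact hr.trans le_add_self
  · rw [not_le] at hr
    refine le_trans ?_ le_self_add
    have h0 : r ≠ 0 := (zero_le.trans_lt hr).ne'
    rcases eq_or_ne r ⊤ with rfl | htop
    · rw [ENNReal.top_rpow_of_pos (by norm_num), ENNReal.mul_top]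
      · simpa using hl
    · have h1 : r ^ (3 / 2 : ℝ) = r * r ^ (1 / 2 : ℝ) := by
        conv_rhs => rw [← ENNReal.rpow_one r]
        rw [← ENNReal.rpow_mul, ← ENNReal.rpow_add _ _ h0 htop]
        norm_num
      have h2 : 1 ≤ ENNReal.ofReal l * r ^ (1 / 2 : ℝ) := by
        have h3 : ENNReal.ofReal (l⁻¹) ≤ r ^ (1 / 2 : ℝ) := by
          have h4 : ENNReal.ofReal (l⁻¹) = (ENNReal.ofReal ((l ^ 2)⁻¹)) ^ (1 / 2 : ℝ) := by
            rw [ENNReal.ofReal_rpow_of_pos (by positivity), ← Real.sqrt_eq_rpow, Real.sqrt_inv,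
              Real.sqrt_sq hl.le]
          rw [h4]
          exact ENNReal.rpow_le_rpow hr.le (by norm_num)
        calc (1 : ℝ≥0∞) = ENNReal.ofReal l * ENNReal.ofReal (l⁻¹) := by
              rw [← ENNReal.ofReal_mul hl.le, mul_inv_cancel₀ hl.ne', ENNReal.ofReal_one]
          _ ≤ _ := by gcongr
      calc r = r * 1 := (mul_one r).symm
        _ ≤ r * (ENNReal.ofReal l * r ^ (1 / 2 : ℝ)) := by gcongr
        _ = ENNReal.ofReal l * r ^ (3 / 2 : ℝ) := by rw [h1]; ring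

/-- covering by shells -/
theorem cover {X : Type} (Om : Set X) (m : X → ℝ) (h5 : ∀ x ∈ Om, 0 ≤ m x ∧ m x ≤ 1) (T : ℝ) :
    Om ⊆ ((Om ∩ {x | Real.exp (-T) ≤ m x}) ∪
      ⋃ j : ℕ, (Om ∩ {x | Real.exp (-(T + j) - 1) ≤ m x ∧ m x ≤ Real.exp (-(T + j))})) ∪
      (Om ∩ {x | m x = 0}) := by
  intro x hx
  by_cases h0 : m x = 0
  · exact Or.inr ⟨hx, h0⟩
  left
  by_cases h1 : Real.exp (-T) ≤ m x
  · exact Or.inl ⟨hx, h1⟩
  right
  rw [not_le] at h1
  have hpos : 0 < m x := lt_of_le_of_ne (h5 x hx).1 (Ne.symm h0)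
  have h2 : T < -Real.log (m x) := by
    have := (Real.log_lt_iff_lt_exp hpos).2 h1
    linarith
  rw [mem_iUnion]
  refine ⟨⌊-Real.log (m x) - T⌋₊, hx, ?_, ?_⟩
  · rw [← Real.le_log_iff_exp_le hpos]
    have := Nat.lt_floor_add_one (-Real.log (m x) - T)
    linarith
  · rw [← Real.log_le_iff_le_exp hpos]
    have := Nat.floor_le (a := -Real.log (m x) - T) (by linarith)
    linarith

theorem log2_ge (s : ℝ) (hs : 0 ≤ s) : 1 / 2 ≤ Real.log (s + 2) := by
  have h1 := Real.log_two_gt_d9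
  have h2 : Real.log 2 ≤ Real.log (s + 2) := Real.log_le_log (by norm_num) (by linarith)
  linarith

/-- TARGET 1 -/
theorem sum1 (C₁ C₂ C₃ : ℝ) : ∃ C : ℝ, ∀ (X : Type) [MeasurableSpace X] (μ : Measure X)
    (Om : Set X), MeasurableSet Om → ∀ (m : X → ℝ), Measurable m → ∀ (R : X → ℝ≥0∞),
    Measurable R → ∀ (s : ℝ), 0 ≤ s →
    (∀ T : ℝ, 0 ≤ T → ∫⁻ x in Om ∩ {x | Real.exp (-T) ≤ m x}, R x ∂μ ≤
      ENNReal.ofReal (C₁ * (T + 1) ^ 2)) →
    (∀ t : ℝ, 0 ≤ t → ∫⁻ x in Om ∩ {x | Real.exp (-t - 1) ≤ m x ∧ m x ≤ Real.exp (-t)},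
      (R x) ^ (3 / 2 : ℝ) ∂μ ≤ ENNReal.ofReal (C₂ * (t + 1) ^ 3)) →
    (∀ t : ℝ, 0 ≤ t → μ (Om ∩ {x | m x ≤ Real.exp (-t)}) ≤
      ENNReal.ofReal (C₃ * Real.exp (-t / (s + 2)))) →
    (∀ x ∈ Om, m x = 0 → R x = 0) → (∀ x ∈ Om, 0 ≤ m x ∧ m x ≤ 1) →
    ∫⁻ x in Om, R x ∂μ ≤ ENNReal.ofReal (C * (s + 1) ^ 2 * (Real.log (s + 2)) ^ 2) := by
  set D : ℝ := |C₂| + |C₃| with hD
  have hD0 : 0 ≤ D := by positivity
  refine ⟨|C₁| * 62 ^ 2 + 4 * (D * 31 ^ 3 * (288 * 81)), ?_⟩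
  intro X _ μ Om hOm m hm R hR s hs h1 h2 h3 h4 h5
  have hL := log2_ge s hs
  have hLle : Real.log (s + 2) ≤ s + 2 := by
    have := Real.log_le_sub_one_of_pos (x := s + 2) (by linarith)
    linarith
  set Lg := Real.log (s + 2) with hLg
  set T : ℝ := 30 * (s + 2) * Lg with hT
  have hT0 : 0 ≤ T := by positivity
  set a : ℝ := 3 * (s + 2) with ha
  have ha1 : 1 ≤ a := by rw [ha]; linarith
  have ha0 : 0 < a := by linarith
  -- a single shell
  have shell : ∀ j : ℕ, ∫⁻ x in Om ∩ {x | Real.exp (-(T + j) - 1) ≤ m x ∧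
      m x ≤ Real.exp (-(T + j))}, R x ∂μ ≤
      ENNReal.ofReal (D * (T + 1) ^ 3 * Real.exp (-T / a)) *
        ENNReal.ofReal (((j : ℝ) + 1) ^ 3 * Real.exp (-(j : ℝ) / a)) := by
    intro j
    set t : ℝ := T + j with ht
    have ht0 : 0 ≤ t := by positivity
    set l : ℝ := Real.exp (-t / a) with hl
    have hl0 : 0 < l := Real.exp_pos _
    have hstep : ∫⁻ x in Om ∩ {x | Real.exp (-t - 1) ≤ m x ∧ m x ≤ Real.exp (-t)}, R x ∂μ ≤
        ENNReal.ofReal l * ENNReal.ofReal (C₂ * (t + 1) ^ 3) +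
        ENNReal.ofReal ((l ^ 2)⁻¹) * ENNReal.ofReal (C₃ * Real.exp (-t / (s + 2))) := by
      calc ∫⁻ x in Om ∩ {x | Real.exp (-t - 1) ≤ m x ∧ m x ≤ Real.exp (-t)}, R x ∂μ
          ≤ ∫⁻ x in Om ∩ {x | Real.exp (-t - 1) ≤ m x ∧ m x ≤ Real.exp (-t)},
            (ENNReal.ofReal l * (R x) ^ (3 / 2 : ℝ) + ENNReal.ofReal ((l ^ 2)⁻¹)) ∂μ :=
            lintegral_mono fun x => young (R x) l hl0
        _ = ENNReal.ofReal l * ∫⁻ x in Om ∩ {x | Real.exp (-t - 1) ≤ m x ∧ m x ≤ Real.exp (-t)},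
            (R x) ^ (3 / 2 : ℝ) ∂μ + ENNReal.ofReal ((l ^ 2)⁻¹) *
            μ (Om ∩ {x | Real.exp (-t - 1) ≤ m x ∧ m x ≤ Real.exp (-t)}) := by
            rw [lintegral_add_right _ measurable_const, lintegral_const_mul _ (hR.pow_const _),
              setLIntegral_const]
        _ ≤ _ := by
            gcongr
            · exact h2 t ht0
            · refine (measure_mono ?_).trans (h3 t ht0)
              exact inter_subset_inter_right _ fun x hx => hx.2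
    refine hstep.trans ?_
    rw [← ENNReal.ofReal_mul hl0.le, ← ENNReal.ofReal_mul (by positivity),
      ← ENNReal.ofReal_mul (by positivity)]
    have hexp : (l ^ 2)⁻¹ * Real.exp (-t / (s + 2)) = l := by
      rw [hl, ← Real.exp_nat_mul, ← Real.exp_neg, ← Real.exp_add]
      congr 1
      rw [ha]
      have : s + 2 ≠ 0 := by positivity
      push_cast
      field_simp
      ring
    have hle : l * (C₂ * (t + 1) ^ 3) ≤ |C₂| * ((t + 1) ^ 3 * l) := by
      have : C₂ * ((t + 1) ^ 3 * l) ≤ |C₂| * ((t + 1) ^ 3 * l) :=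
        mul_le_mul_of_nonneg_right (le_abs_self _) (by positivity)
      linarith
    have hle2 : (l ^ 2)⁻¹ * (C₃ * Real.exp (-t / (s + 2))) ≤ |C₃| * ((t + 1) ^ 3 * l) := by
      have e1 : (l ^ 2)⁻¹ * (C₃ * Real.exp (-t / (s + 2))) = C₃ * l := by
        linear_combination C₃ * hexp
      rw [e1]
      have e2 : C₃ * l ≤ |C₃| * l := mul_le_mul_of_nonneg_right (le_abs_self _) hl0.le
      have e3 : l ≤ (t + 1) ^ 3 * l := by
        have : 1 ≤ (t + 1) ^ 3 := one_le_pow₀ (by linarith)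
        nlinarith
      have e4 : |C₃| * l ≤ |C₃| * ((t + 1) ^ 3 * l) := mul_le_mul_of_nonneg_left e3 (abs_nonneg _)
      linarith
    have hsplit : l = Real.exp (-T / a) * Real.exp (-(j : ℝ) / a) := by
      rw [hl, ← Real.exp_add, ht]
      congr 1
      ring
    have ht1 : (t + 1) ^ 3 ≤ ((T + 1) * ((j : ℝ) + 1)) ^ 3 := by
      apply pow_le_pow_left₀ (by linarith)
      rw [ht]
      have : 0 ≤ T * (j : ℝ) := by positivity
      nlinarith
    have hD3 : 0 ≤ D * (T + 1) ^ 3 * Real.exp (-T / a) := by positivity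
    calc ENNReal.ofReal (l * (C₂ * (t + 1) ^ 3)) +
          ENNReal.ofReal ((l ^ 2)⁻¹ * (C₃ * Real.exp (-t / (s + 2))))
        ≤ ENNReal.ofReal (|C₂| * ((t + 1) ^ 3 * l)) + ENNReal.ofReal (|C₃| * ((t + 1) ^ 3 * l)) :=
          add_le_add (ENNReal.ofReal_le_ofReal hle) (ENNReal.ofReal_le_ofReal hle2)
      _ = ENNReal.ofReal (D * ((t + 1) ^ 3 * l)) := by
          rw [← ENNReal.ofReal_add (by positivity) (by positivity), hD]
          congr 1
          ring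
      _ ≤ ENNReal.ofReal (D * (T + 1) ^ 3 * Real.exp (-T / a) *
            (((j : ℝ) + 1) ^ 3 * Real.exp (-(j : ℝ) / a))) := by
          apply ENNReal.ofReal_le_ofReal
          calc D * ((t + 1) ^ 3 * l) ≤ D * (((T + 1) * ((j : ℝ) + 1)) ^ 3 * l) := by gcongr
            _ = D * (T + 1) ^ 3 * Real.exp (-T / a) *
              (((j : ℝ) + 1) ^ 3 * Real.exp (-(j : ℝ) / a)) := by
              rw [hsplit, mul_pow]
              ring
  -- the sum over the shells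
  have hsum : ∑' j : ℕ, ∫⁻ x in Om ∩ {x | Real.exp (-(T + j) - 1) ≤ m x ∧
      m x ≤ Real.exp (-(T + j))}, R x ∂μ ≤ ENNReal.ofReal (D * 31 ^ 3 * (288 * 81)) := by
    refine (ENNReal.tsum_le_tsum shell).trans ?_
    rw [ENNReal.tsum_mul_left]
    have hps := powsum 3 a ha1
    have hD3 : 0 ≤ D * (T + 1) ^ 3 * Real.exp (-T / a) := by positivity
    calc ENNReal.ofReal (D * (T + 1) ^ 3 * Real.exp (-T / a)) *
          ∑' j : ℕ, ENNReal.ofReal (((j : ℝ) + 1) ^ 3 * Real.exp (-(j : ℝ) / a))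
        ≤ ENNReal.ofReal (D * (T + 1) ^ 3 * Real.exp (-T / a)) *
          ENNReal.ofReal (6 * (Nat.factorial 3 : ℝ) * 2 ^ 3 * a ^ (3 + 1)) := by gcongr
      _ = ENNReal.ofReal (D * (T + 1) ^ 3 * Real.exp (-T / a) *
          (6 * (Nat.factorial 3 : ℝ) * 2 ^ 3 * a ^ (3 + 1))) := (ENNReal.ofReal_mul hD3).symm
      _ ≤ _ := by
          apply ENNReal.ofReal_le_ofReal
          have hexpT : Real.exp (-T / a) = ((s + 2) ^ 10)⁻¹ := by
            have e1 : -T / a = -(10 * Lg) := by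
              rw [hT, ha]
              have : s + 2 ≠ 0 := by positivity
              field_simp
              ring
            rw [e1, Real.exp_neg, hLg]
            congr 1
            rw [mul_comm, Real.exp_mul, Real.exp_log (by linarith)]
            norm_cast
          have hT1 : T + 1 ≤ 31 * (s + 2) ^ 2 := by
            have e1 : (s + 2) * Lg ≤ (s + 2) * (s + 2) := by gcongr
            rw [hT]
            nlinarith
          have hT3 : (T + 1) ^ 3 ≤ 31 ^ 3 * (s + 2) ^ 6 := by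
            calc (T + 1) ^ 3 ≤ (31 * (s + 2) ^ 2) ^ 3 := pow_le_pow_left₀ (by linarith) hT1 3
              _ = 31 ^ 3 * (s + 2) ^ 6 := by ring
          have hfac : (Nat.factorial 3 : ℝ) = 6 := by norm_num [Nat.factorial]
          rw [hexpT, hfac, ha]
          have hs2 : (0 : ℝ) < s + 2 := by linarith
          calc D * (T + 1) ^ 3 * ((s + 2) ^ 10)⁻¹ * (6 * 6 * 2 ^ 3 * (3 * (s + 2)) ^ (3 + 1))
              ≤ D * (31 ^ 3 * (s + 2) ^ 6) * ((s + 2) ^ 10)⁻¹ *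
                (6 * 6 * 2 ^ 3 * (3 * (s + 2)) ^ (3 + 1)) := by gcongr
            _ = D * 31 ^ 3 * (288 * 81) := by
              field_simp
              ring
  -- the first part
  have hfirst : ∫⁻ x in Om ∩ {x | Real.exp (-T) ≤ m x}, R x ∂μ ≤
      ENNReal.ofReal (|C₁| * 62 ^ 2 * (s + 1) ^ 2 * Lg ^ 2) := by
    refine (h1 T hT0).trans (ENNReal.ofReal_le_ofReal ?_)
    have e0 : C₁ * (T + 1) ^ 2 ≤ |C₁| * (T + 1) ^ 2 :=
      mul_le_mul_of_nonneg_right (le_abs_self _) (by positivity)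
    have e1 : T + 1 ≤ 62 * (s + 1) * Lg := by
      rw [hT]
      have e2 : (1 : ℝ) ≤ 2 * (s + 1) * Lg := by nlinarith
      nlinarith
    have e3 : (T + 1) ^ 2 ≤ (62 * (s + 1) * Lg) ^ 2 := pow_le_pow_left₀ (by linarith) e1 2
    have e4 : |C₁| * (T + 1) ^ 2 ≤ |C₁| * (62 * (s + 1) * Lg) ^ 2 :=
      mul_le_mul_of_nonneg_left e3 (abs_nonneg _)
    calc C₁ * (T + 1) ^ 2 ≤ |C₁| * (62 * (s + 1) * Lg) ^ 2 := e0.trans e4
      _ = _ := by ring
  -- the zero set
  have hzero : ∫⁻ x in Om ∩ {x | m x = 0}, R x ∂μ = 0 := by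
    have hms : MeasurableSet (Om ∩ {x | m x = 0}) := hOm.inter (hm (measurableSet_singleton 0))
    rw [setLIntegral_congr_fun hms (g := fun _ => 0) fun x hx => h4 x hx.1 hx.2]
    simp
  calc ∫⁻ x in Om, R x ∂μ
      ≤ ∫⁻ x in ((Om ∩ {x | Real.exp (-T) ≤ m x}) ∪
        ⋃ j : ℕ, (Om ∩ {x | Real.exp (-(T + j) - 1) ≤ m x ∧ m x ≤ Real.exp (-(T + j))})) ∪
        (Om ∩ {x | m x = 0}), R x ∂μ := lintegral_mono_set (cover Om m h5 T)
    _ ≤ (∫⁻ x in (Om ∩ {x | Real.exp (-T) ≤ m x}) ∪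
        ⋃ j : ℕ, (Om ∩ {x | Real.exp (-(T + j) - 1) ≤ m x ∧ m x ≤ Real.exp (-(T + j))}), R x ∂μ) +
        ∫⁻ x in Om ∩ {x | m x = 0}, R x ∂μ := lintegral_union_le _ _ _
    _ ≤ ((∫⁻ x in Om ∩ {x | Real.exp (-T) ≤ m x}, R x ∂μ) +
        ∫⁻ x in ⋃ j : ℕ, (Om ∩ {x | Real.exp (-(T + j) - 1) ≤ m x ∧ m x ≤ Real.exp (-(T + j))}),
          R x ∂μ) + 0 := by
        rw [hzero]
        gcongr
        exact lintegral_union_le _ _ _
    _ ≤ ENNReal.ofReal (|C₁| * 62 ^ 2 * (s + 1) ^ 2 * Lg ^ 2) +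
        ENNReal.ofReal (D * 31 ^ 3 * (288 * 81)) := by
        rw [add_zero]
        gcongr
        exact (lintegral_iUnion_le _ _).trans hsum
    _ = ENNReal.ofReal (|C₁| * 62 ^ 2 * (s + 1) ^ 2 * Lg ^ 2 + D * 31 ^ 3 * (288 * 81)) :=
        (ENNReal.ofReal_add (by positivity) (by positivity)).symm
    _ ≤ _ := by
        apply ENNReal.ofReal_le_ofReal
        have e1 : (1 : ℝ) ≤ 2 * (s + 1) * Lg := by nlinarith
        have e2 : (1 : ℝ) ≤ (2 * (s + 1) * Lg) ^ 2 := one_le_pow₀ e1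
        have e3 : D * 31 ^ 3 * (288 * 81) ≤ D * 31 ^ 3 * (288 * 81) * (2 * (s + 1) * Lg) ^ 2 :=
          le_mul_of_one_le_right (by positivity) e2
        calc |C₁| * 62 ^ 2 * (s + 1) ^ 2 * Lg ^ 2 + D * 31 ^ 3 * (288 * 81)
            ≤ |C₁| * 62 ^ 2 * (s + 1) ^ 2 * Lg ^ 2 +
              D * 31 ^ 3 * (288 * 81) * (2 * (s + 1) * Lg) ^ 2 := by linarith
          _ = _ := by ring

/-- TARGET 2 -/
theorem sum2 (N₀ C₃ : ℝ) : ∃ C : ℝ, ∀ (X : Type) [MeasurableSpace X] (μ : Measure X)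
    (Om : Set X), MeasurableSet Om → ∀ (m g : X → ℝ), Measurable m → Measurable g →
    ∀ (s : ℝ), 0 ≤ s →
    (∀ t : ℝ, 0 ≤ t → μ (Om ∩ {x | m x ≤ Real.exp (-t)}) ≤
      ENNReal.ofReal (C₃ * Real.exp (-t / (s + 2)))) →
    (∀ x ∈ Om, 0 ≤ m x ∧ m x ≤ 1 ∧ (m x) ^ 2 ≤ g x ∧ g x ≤ N₀) →
    ∀ ε : ℝ, 0 < ε → ε < 1 →
    ∫⁻ x in Om, ENNReal.ofReal |Real.log (g x + ε ^ 2)| ∂μ ≤ ENNReal.ofReal (C * (s + 1) ^ 2) := by
  set D : ℝ := |Real.log (N₀ + 1)| + 2 with hD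
  have hD0 : 0 ≤ D := by positivity
  refine ⟨D * |C₃| * 48, ?_⟩
  intro X _ μ Om hOm m g hm hg s hs h3 h5 ε hε hε1
  set b : ℝ := s + 2 with hb
  have hb1 : 1 ≤ b := by rw [hb]; linarith
  have hb0 : 0 < b := by linarith
  have hε2 : ε ^ 2 ≤ 1 := by nlinarith
  have hε3 : 0 < ε ^ 2 := by positivity
  -- pointwise bound
  have hpt : ∀ x ∈ Om, ∀ j : ℕ, Real.exp (-(0 + j) - 1) ≤ m x →
      |Real.log (g x + ε ^ 2)| ≤ D * ((j : ℝ) + 1) := by
    intro x hx j hj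
    obtain ⟨hm0, hm1, hmg, hgN⟩ := h5 x hx
    have hmpos : 0 < m x := (Real.exp_pos _).trans_le hj
    have hj0 : (0 : ℝ) ≤ j := Nat.cast_nonneg j
    have hA0 : 0 ≤ |Real.log (N₀ + 1)| := abs_nonneg _
    rw [abs_le]
    constructor
    · have h1 : Real.log ((m x) ^ 2) ≤ Real.log (g x + ε ^ 2) :=
        Real.log_le_log (by positivity) (by linarith)
      rw [Real.log_pow] at h1
      have h2 : -(0 + (j : ℝ)) - 1 ≤ Real.log (m x) := (Real.le_log_iff_exp_le hmpos).2 hj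
      push_cast at h1
      rw [hD]
      nlinarith
    · have h1 : Real.log (g x + ε ^ 2) ≤ Real.log (N₀ + 1) :=
        Real.log_le_log (by nlinarith [sq_nonneg (m x)]) (by linarith)
      have h2 := le_abs_self (Real.log (N₀ + 1))
      rw [hD]
      nlinarith
  -- a single shell
  have shell : ∀ j : ℕ, ∫⁻ x in Om ∩ {x | Real.exp (-(0 + j : ℝ) - 1) ≤ m x ∧
      m x ≤ Real.exp (-(0 + j : ℝ))}, ENNReal.ofReal |Real.log (g x + ε ^ 2)| ∂μ ≤
      ENNReal.ofReal (D * |C₃|) *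
        ENNReal.ofReal (((j : ℝ) + 1) ^ 1 * Real.exp (-(j : ℝ) / b)) := by
    intro j
    have hms : MeasurableSet (Om ∩ {x | Real.exp (-(0 + j : ℝ) - 1) ≤ m x ∧
      m x ≤ Real.exp (-(0 + j : ℝ))}) :=
      hOm.inter ((measurableSet_le measurable_const hm).inter (measurableSet_le hm measurable_const))
    calc ∫⁻ x in Om ∩ {x | Real.exp (-(0 + j : ℝ) - 1) ≤ m x ∧
          m x ≤ Real.exp (-(0 + j : ℝ))}, ENNReal.ofReal |Real.log (g x + ε ^ 2)| ∂μ
        ≤ ∫⁻ x in Om ∩ {x | Real.exp (-(0 + j : ℝ) - 1) ≤ m x ∧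
          m x ≤ Real.exp (-(0 + j : ℝ))}, ENNReal.ofReal (D * ((j : ℝ) + 1)) ∂μ :=
          setLIntegral_mono' hms fun x hx => ENNReal.ofReal_le_ofReal (hpt x hx.1 j hx.2.1)
      _ = ENNReal.ofReal (D * ((j : ℝ) + 1)) * μ (Om ∩ {x | Real.exp (-(0 + j : ℝ) - 1) ≤ m x ∧
          m x ≤ Real.exp (-(0 + j : ℝ))}) := setLIntegral_const _ _
      _ ≤ ENNReal.ofReal (D * ((j : ℝ) + 1)) * ENNReal.ofReal (|C₃| * Real.exp (-(j : ℝ) / b)) := by
          gcongr
          refine (measure_mono (inter_subset_inter_right _ fun x hx => hx.2)).trans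
            ((h3 (0 + j) (by positivity)).trans (ENNReal.ofReal_le_ofReal ?_))
          rw [zero_add]
          exact mul_le_mul_of_nonneg_right (le_abs_self _) (Real.exp_pos _).le
      _ = _ := by
          rw [← ENNReal.ofReal_mul (by positivity), ← ENNReal.ofReal_mul (by positivity)]
          congr 1
          ring
  have hsum : ∑' j : ℕ, ∫⁻ x in Om ∩ {x | Real.exp (-(0 + j : ℝ) - 1) ≤ m x ∧
      m x ≤ Real.exp (-(0 + j : ℝ))}, ENNReal.ofReal |Real.log (g x + ε ^ 2)| ∂μ ≤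
      ENNReal.ofReal (D * |C₃| * 48 * (s + 1) ^ 2) := by
    refine (ENNReal.tsum_le_tsum shell).trans ?_
    rw [ENNReal.tsum_mul_left]
    have hps := powsum 1 b hb1
    calc ENNReal.ofReal (D * |C₃|) *
          ∑' j : ℕ, ENNReal.ofReal (((j : ℝ) + 1) ^ 1 * Real.exp (-(j : ℝ) / b))
        ≤ ENNReal.ofReal (D * |C₃|) *
          ENNReal.ofReal (6 * (Nat.factorial 1 : ℝ) * 2 ^ 1 * b ^ (1 + 1)) := by gcongr
      _ = ENNReal.ofReal (D * |C₃| * (6 * (Nat.factorial 1 : ℝ) * 2 ^ 1 * b ^ (1 + 1))) :=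
          (ENNReal.ofReal_mul (by positivity)).symm
      _ ≤ _ := by
          apply ENNReal.ofReal_le_ofReal
          have hfac : (Nat.factorial 1 : ℝ) = 1 := by norm_num [Nat.factorial]
          have e1 : b ^ 2 ≤ 4 * (s + 1) ^ 2 := by rw [hb]; nlinarith
          have e2 : 0 ≤ D * |C₃| := by positivity
          rw [hfac]
          calc D * |C₃| * (6 * 1 * 2 ^ 1 * b ^ (1 + 1)) = D * |C₃| * (12 * b ^ 2) := by ring
            _ ≤ D * |C₃| * (12 * (4 * (s + 1) ^ 2)) := by gcongr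
            _ = _ := by ring
  -- the zero set
  have hzero : ∫⁻ x in Om ∩ {x | m x = 0}, ENNReal.ofReal |Real.log (g x + ε ^ 2)| ∂μ = 0 := by
    have hnull : μ (Om ∩ {x | m x = 0}) = 0 := by
      refine le_antisymm (ge_of_tendsto' (f := fun n : ℕ =>
        ENNReal.ofReal (C₃ * Real.exp (-(n : ℝ) / b))) (x := atTop) ?_ ?_) zero_le
      · have h1 : Tendsto (fun n : ℕ => C₃ * Real.exp (-(n : ℝ) / b)) atTop (𝓝 (C₃ * 0)) := by
          apply Tendsto.const_mul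
          apply Real.tendsto_exp_atBot.comp
          apply Tendsto.atBot_div_const hb0
          exact tendsto_neg_atTop_atBot.comp tendsto_natCast_atTop_atTop
        rw [mul_zero] at h1
        have h2 := ENNReal.tendsto_ofReal h1
        rwa [ENNReal.ofReal_zero] at h2
      · intro n
        refine (measure_mono (inter_subset_inter_right _ fun x hx => ?_)).trans
          (h3 n (Nat.cast_nonneg n))
        have hx' : m x = 0 := hx
        change m x ≤ Real.exp (-(n : ℝ))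
        rw [hx']
        exact (Real.exp_pos _).le
    exact setLIntegral_measure_zero _ _ hnull
  calc ∫⁻ x in Om, ENNReal.ofReal |Real.log (g x + ε ^ 2)| ∂μ
      ≤ ∫⁻ x in ((Om ∩ {x | Real.exp (-0) ≤ m x}) ∪
        ⋃ j : ℕ, (Om ∩ {x | Real.exp (-(0 + j : ℝ) - 1) ≤ m x ∧ m x ≤ Real.exp (-(0 + j : ℝ))})) ∪
        (Om ∩ {x | m x = 0}), ENNReal.ofReal |Real.log (g x + ε ^ 2)| ∂μ :=
        lintegral_mono_set (cover Om m (fun x hx => ⟨(h5 x hx).1, (h5 x hx).2.1⟩) 0)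
    _ ≤ ∫⁻ x in (⋃ j : ℕ, (Om ∩ {x | Real.exp (-(0 + j : ℝ) - 1) ≤ m x ∧
          m x ≤ Real.exp (-(0 + j : ℝ))})) ∪
        (Om ∩ {x | m x = 0}), ENNReal.ofReal |Real.log (g x + ε ^ 2)| ∂μ := by
        apply lintegral_mono_set
        refine union_subset_union_left _ (union_subset ?_ (subset_refl _))
        rintro x ⟨hx, hx1⟩
        have hx2 : Real.exp (-0) ≤ m x := hx1
        rw [neg_zero, Real.exp_zero] at hx2
        refine mem_iUnion.2 ⟨0, hx, ?_, ?_⟩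
        · refine le_trans ?_ hx2
          rw [Real.exp_le_one_iff]
          norm_num
        · have := (h5 x hx).2.1
          norm_num
          exact this
    _ ≤ (∫⁻ x in (⋃ j : ℕ, (Om ∩ {x | Real.exp (-(0 + j : ℝ) - 1) ≤ m x ∧
          m x ≤ Real.exp (-(0 + j : ℝ))})), ENNReal.ofReal |Real.log (g x + ε ^ 2)| ∂μ) +
        ∫⁻ x in (Om ∩ {x | m x = 0}), ENNReal.ofReal |Real.log (g x + ε ^ 2)| ∂μ :=
        lintegral_union_le _ _ _
    _ ≤ ENNReal.ofReal (D * |C₃| * 48 * (s + 1) ^ 2) + 0 := by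
        rw [hzero]
        gcongr
        exact (lintegral_iUnion_le _ _).trans hsum
    _ = _ := by rw [add_zero]

end Pool.Agent.Helper688.Crit.SUM
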