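import Mathlib

set_option autoImplicit false

open MeasureTheory Metric Set Filter Topology
open scoped ContDiff ENNReal NNReal

namespace Pool.Agent.Helper688.Crit.VIT

/-- the condition in `vit` for a fixed `k` -/
def Hk (n : ℕ) (c : ℝ) (F : ℝ → EuclideanSpace ℝ (Fin n) → ℝ≥0∞)
    (Bd : Set (EuclideanSpace ℝ (Fin n))) (k : ℕ) (z : EuclideanSpace ℝ (Fin n)) : Prop :=
  ∀ ε : ℝ, 0 < ε → k * ε < 1 →
      ∃ ρ : ℝ, 0 < ρ ∧ ρ ≤ (k * ε) ^ (1 / (k : ℝ)) ∧ closedBall z ρ ⊆ Bd ∧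
        ENNReal.ofReal (c * ρ ^ (n - 2)) ≤ ∫⁻ x in ball z ρ, F ε x

theorem Hk_mono {n : ℕ} {c : ℝ} {F : ℝ → EuclideanSpace ℝ (Fin n) → ℝ≥0∞}
    {Bd : Set (EuclideanSpace ℝ (Fin n))} {k k' : ℕ} (hk : 0 < k) (h : k ≤ k')
    {z : EuclideanSpace ℝ (Fin n)} (hz : Hk n c F Bd k z) : Hk n c F Bd k' z := by
  intro ε hε hkε
  have hkR : (0 : ℝ) < k := by exact_mod_cast hk
  have hkk : (k : ℝ) ≤ k' := by exact_mod_cast h
  have h1 : (k : ℝ) * ε ≤ k' * ε := mul_le_mul_of_nonneg_right hkk hε.le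
  obtain ⟨ρ, h2, h3, h4, h5⟩ := hz ε hε (h1.trans_lt hkε)
  refine ⟨ρ, h2, h3.trans ?_, h4, h5⟩
  calc ((k : ℝ) * ε) ^ (1 / (k : ℝ)) ≤ (k' * ε) ^ (1 / (k : ℝ)) :=
        Real.rpow_le_rpow (by positivity) h1 (by positivity)
    _ ≤ (k' * ε) ^ (1 / (k' : ℝ)) :=
        Real.rpow_le_rpow_of_exponent_ge (lt_of_lt_of_le (by positivity) h1) hkε.le
          (one_div_le_one_div_of_le hkR hkk)

theorem bound_k {n : ℕ} (hn : 2 ≤ n) {c : ℝ} (hc : 0 < c) {K₀ : ℝ≥0∞}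
    {F : ℝ → EuclideanSpace ℝ (Fin n) → ℝ≥0∞} {Bd Z : Set (EuclideanSpace ℝ (Fin n))}
    (hI : ∀ ε : ℝ, 0 < ε → ε < 1 → ∫⁻ x in Bd, F ε x ≤ K₀) (k : ℕ) (hk : 0 < k)
    (hZ : ∀ z ∈ Z, Hk n c F Bd k z) :
    Measure.hausdorffMeasure ((n : ℝ) - 2) Z ≤ ENNReal.ofReal (10 ^ (n - 2) / c) * K₀ := by
  classical
  have hkR : (0 : ℝ) < k := by exact_mod_cast hk
  -- the sequence of the radii
  obtain ⟨ε, hε⟩ : ∃ ε : ℕ → ℝ, ε = fun j : ℕ => 1 / ((j : ℝ) + k + 1) := ⟨_, rfl⟩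
  have hε0 : ∀ j, 0 < ε j := fun j => by rw [hε]; positivity
  have hε1 : ∀ j, (k : ℝ) * ε j < 1 := fun j => by
    rw [hε]
    simp only
    rw [mul_one_div, div_lt_one (by positivity)]
    have : (0 : ℝ) ≤ j := by positivity
    linarith
  have hε2 : ∀ j, ε j < 1 := fun j => by
    rw [hε]
    simp only
    rw [div_lt_one (by positivity)]
    have : (0 : ℝ) ≤ j := by positivity
    linarith
  have hε3 : Tendsto ε atTop (𝓝 0) := by
    rw [hε]
    have h1 : Tendsto (fun j : ℕ => (j : ℝ) + k + 1) atTop atTop := by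
      have h2 : Tendsto (fun j : ℕ => (j : ℝ)) atTop atTop := tendsto_natCast_atTop_atTop
      exact tendsto_atTop_add_const_right _ _ (tendsto_atTop_add_const_right _ _ h2)
    simp only [one_div]
    exact h1.inv_tendsto_atTop
  have hex : ∀ (j : ℕ) (z : EuclideanSpace ℝ (Fin n)), ∃ ρ : ℝ, z ∈ Z →
      0 < ρ ∧ ρ ≤ (k * ε j) ^ (1 / (k : ℝ)) ∧ closedBall z ρ ⊆ Bd ∧
        ENNReal.ofReal (c * ρ ^ (n - 2)) ≤ ∫⁻ x in ball z ρ, F (ε j) x := by
    intro j z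
    by_cases hz : z ∈ Z
    · obtain ⟨ρ, h⟩ := hZ z hz (ε j) (hε0 j) (hε1 j)
      exact ⟨ρ, fun _ => h⟩
    · exact ⟨0, fun h => absurd h hz⟩
  choose ρ hρ using hex
  have hle1 : ∀ j, ((k : ℝ) * ε j) ^ (1 / (k : ℝ)) ≤ 1 := fun j =>
    Real.rpow_le_one (mul_pos hkR (hε0 j)).le (hε1 j).le (by positivity)
  -- Vitali
  have hvit : ∀ j, ∃ u ⊆ Z, (u.PairwiseDisjoint fun a => closedBall a (ρ j a)) ∧
      ∀ a ∈ Z, ∃ b ∈ u, closedBall a (ρ j a) ⊆ closedBall b (5 * ρ j b) := fun j =>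
    Vitali.exists_disjoint_subfamily_covering_enlargement_closedBall Z (fun a => a) (ρ j) 1
      (fun a ha => (hρ j a ha).2.1.trans (hle1 j)) 5 (by norm_num)
  choose u huZ hud hucov using hvit
  have hcount : ∀ j, Countable (u j) := fun j => by
    refine Set.PairwiseDisjoint.countable_of_nonempty_interior (hud j) fun a ha => ?_
    exact ⟨a, ball_subset_interior_closedBall (mem_ball_self (hρ j a (huZ j ha)).1)⟩
  -- the sums
  have hsum : ∀ j, ∑' b : u j, ENNReal.ofReal (c * ρ j b.1 ^ (n - 2)) ≤ K₀ := by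
    intro j
    have := hcount j
    calc ∑' b : u j, ENNReal.ofReal (c * ρ j b.1 ^ (n - 2))
        ≤ ∑' b : u j, ∫⁻ x in ball b.1 (ρ j b.1), F (ε j) x :=
          ENNReal.tsum_le_tsum fun b => (hρ j b.1 (huZ j b.2)).2.2.2
      _ = ∫⁻ x in ⋃ b : u j, ball b.1 (ρ j b.1), F (ε j) x := by
          rw [lintegral_iUnion (fun b => measurableSet_ball)]
          intro a b hab
          exact ((hud j) a.2 b.2 (fun h => hab (Subtype.ext h))).mono ball_subset_closedBall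
            ball_subset_closedBall
      _ ≤ ∫⁻ x in Bd, F (ε j) x := by
          refine lintegral_mono_set (iUnion_subset fun b => ?_)
          exact ball_subset_closedBall.trans (hρ j b.1 (huZ j b.2)).2.2.1
      _ ≤ K₀ := hI _ (hε0 j) (hε2 j)
  have hdiam : ∀ j (b : u j), ediam (closedBall b.1 (5 * ρ j b.1)) ≤
      ENNReal.ofReal (10 * ρ j b.1) := by
    intro j b
    have h0 := (hρ j b.1 (huZ j b.2)).1
    refine ediam_le_of_forall_dist_le fun x hx y hy => ?_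
    have h1 := dist_triangle_right x y b.1
    rw [mem_closedBall] at hx hy
    linarith
  refine (Measure.hausdorffMeasure_le_liminf_tsum (β := ℕ) (ι := fun j => u j) ((n : ℝ) - 2) Z
    (l := atTop) (fun j => ENNReal.ofReal (10 * ((k : ℝ) * ε j) ^ (1 / (k : ℝ)))) ?_
    (fun j b => closedBall b.1 (5 * ρ j b.1)) ?_ ?_).trans ?_
  · have h1 : Tendsto (fun j => 10 * ((k : ℝ) * ε j) ^ (1 / (k : ℝ))) atTop (𝓝 0) := by
      have h2 : Tendsto (fun j => (k : ℝ) * ε j) atTop (𝓝 0) := by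
        simpa using hε3.const_mul (k : ℝ)
      have h3 := h2.rpow_const (p := 1 / (k : ℝ)) (Or.inr (by positivity))
      rw [Real.zero_rpow (by positivity)] at h3
      simpa using h3.const_mul (10 : ℝ)
    simpa using ENNReal.tendsto_ofReal h1
  · refine Eventually.of_forall fun j b => (hdiam j b).trans (ENNReal.ofReal_le_ofReal ?_)
    exact mul_le_mul_of_nonneg_left (hρ j b.1 (huZ j b.2)).2.1 (by norm_num)
  · refine Eventually.of_forall fun j z hz => ?_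
    obtain ⟨b, hb, h⟩ := hucov j z hz
    exact mem_iUnion.2 ⟨⟨b, hb⟩, h (mem_closedBall_self (hρ j z hz).1.le)⟩
  · refine (liminf_le_liminf (v := fun _ => ENNReal.ofReal (10 ^ (n - 2) / c) * K₀)
      (Eventually.of_forall fun j => ?_)).trans (by simp)
    have hexp : ((n : ℝ) - 2) = ((n - 2 : ℕ) : ℝ) := by
      rw [Nat.cast_sub hn]
      norm_num
    calc ∑' b : u j, ediam (closedBall b.1 (5 * ρ j b.1)) ^ ((n : ℝ) - 2)
        ≤ ∑' b : u j, ENNReal.ofReal (10 ^ (n - 2) / c) *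
          ENNReal.ofReal (c * ρ j b.1 ^ (n - 2)) := by
          refine ENNReal.tsum_le_tsum fun b => ?_
          have h0 := (hρ j b.1 (huZ j b.2)).1
          rw [hexp, ENNReal.rpow_natCast]
          refine (pow_le_pow_left' (hdiam j b) (n - 2)).trans ?_
          rw [← ENNReal.ofReal_pow (by positivity), ← ENNReal.ofReal_mul (by positivity)]
          refine ENNReal.ofReal_le_ofReal (le_of_eq ?_)
          rw [mul_pow]
          field_simp
      _ = ENNReal.ofReal (10 ^ (n - 2) / c) * ∑' b : u j, ENNReal.ofReal (c * ρ j b.1 ^ (n - 2)) :=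
          ENNReal.tsum_mul_left
      _ ≤ ENNReal.ofReal (10 ^ (n - 2) / c) * K₀ := mul_le_mul_right (hsum j) _

/-- TARGET -/
theorem vit (n : ℕ) (hn : 2 ≤ n) (c : ℝ) (hc : 0 < c) (K₀ : ℝ≥0∞)
    (F : ℝ → EuclideanSpace ℝ (Fin n) → ℝ≥0∞) (Bd Z : Set (EuclideanSpace ℝ (Fin n)))
    (hI : ∀ ε : ℝ, 0 < ε → ε < 1 → ∫⁻ x in Bd, F ε x ≤ K₀)
    (hZ : ∀ z ∈ Z, ∃ k : ℕ, 0 < k ∧ ∀ ε : ℝ, 0 < ε → k * ε < 1 →
      ∃ ρ : ℝ, 0 < ρ ∧ ρ ≤ (k * ε) ^ (1 / (k : ℝ)) ∧ closedBall z ρ ⊆ Bd ∧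
        ENNReal.ofReal (c * ρ ^ (n - 2)) ≤ ∫⁻ x in ball z ρ, F ε x) :
    Measure.hausdorffMeasure ((n : ℝ) - 2) Z ≤ ENNReal.ofReal (10 ^ (n - 2) / c) * K₀ := by
  have hmono : Monotone fun k : ℕ => {z | z ∈ Z ∧ Hk n c F Bd (k + 1) z} := by
    intro k k' hkk z hz
    exact ⟨hz.1, Hk_mono (Nat.succ_pos k) (Nat.succ_le_succ hkk) hz.2⟩
  have hcov : Z = ⋃ k : ℕ, {z | z ∈ Z ∧ Hk n c F Bd (k + 1) z} := by
    ext z
    simp only [mem_iUnion, mem_ofPred_eq]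
    constructor
    · intro hz
      obtain ⟨k, hk, h⟩ := hZ z hz
      exact ⟨k - 1, hz, by rw [Nat.sub_add_cancel hk]; exact h⟩
    · rintro ⟨_, h, _⟩
      exact h
  rw [hcov, hmono.measure_iUnion]
  exact iSup_le fun k => bound_k hn hc hI (k + 1) (Nat.succ_pos k) fun z hz => hz.2

end Pool.Agent.Helper688.Crit.VIT
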