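import Mathlib

/-!
# The volume of a sublevel set of a function with bounds for all derivatives
-/

set_option autoImplicit false

open MeasureTheory Metric Set Filter Topology
open scoped ContDiff ENNReal NNReal

namespace Pool.Agent.Helper688.Crit.VOL

/-- proved in job LR -/
def StLR : Prop := ∀ (m : ℕ) (b μ η K : ℝ), 0 < b → 0 < μ → 0 ≤ K →
    ∀ (U : Set ℝ), IsOpen U → Icc 0 b ⊆ U → ∀ (h : ℝ → ℝ), ContDiffOn ℝ ∞ h U →
    (∀ x ∈ Icc 0 b, |iteratedDeriv (m + 1) h x| ≤ K) →
    ∀ (S : Set ℝ), S ⊆ Icc 0 b → ENNReal.ofReal μ ≤ volume S →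
    (∀ x ∈ S, |h x| ≤ η) →
    |h 0| ≤ (12 * b / μ) ^ (m + 1) * η + K * b ^ (m + 1) / ((m + 1).factorial : ℝ)

/-- proved in job SC -/
def StSC : Prop := ∀ (n : ℕ), 1 ≤ n → ∀ (S : Set (EuclideanSpace ℝ (Fin n))), MeasurableSet S →
    ∀ (x₁ : EuclideanSpace ℝ (Fin n)) (r : ℝ), 0 < r → ∀ (κ : ℝ≥0∞),
    (∀ y ∈ ball (0 : EuclideanSpace ℝ (Fin n)) r,
      volume {τ : ℝ | τ ∈ Icc (1 / 2 : ℝ) 1 ∧ x₁ + τ • y ∈ S} ≤ κ) →
    volume (S ∩ ball x₁ (r / 2)) ≤ 2 * κ * volume (ball (0 : EuclideanSpace ℝ (Fin n)) r)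

/-- the iterated derivative along a line -/
theorem iter_line {E : Type*} [NormedAddCommGroup E] [NormedSpace ℝ E] {f : E → ℝ}
    (hf : ContDiffOn ℝ ∞ f (ball 0 1)) (x₁ y : E) (k : ℕ) (τ : ℝ)
    (hτ : x₁ + τ • y ∈ ball (0 : E) 1) :
    |iteratedDeriv k (fun τ : ℝ => f (x₁ + τ • y)) τ| ≤
      ‖iteratedFDeriv ℝ k f (x₁ + τ • y)‖ * ‖y‖ ^ k := by
  set g : ℝ →L[ℝ] E := ContinuousLinearMap.toSpanSingleton ℝ y with hg
  have hgτ : ∀ τ : ℝ, g τ = τ • y := fun τ => by
    simp [hg, ContinuousLinearMap.toSpanSingleton_apply]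
  set s : Set E := (fun z : E => x₁ + z) ⁻¹' ball (0 : E) 1 with hs
  have hso : IsOpen s := isOpen_ball.preimage (continuous_const.add continuous_id)
  set f' : E → ℝ := fun z => f (x₁ + z) with hf'
  have hf's : ContDiffOn ℝ ∞ f' s := by
    refine hf.comp (g := f) (f := fun z : E => x₁ + z) ?_ fun z hz => hz
    exact (contDiff_const.add contDiff_id).contDiffOn
  have hgo : IsOpen (g ⁻¹' s) := hso.preimage g.continuous
  have hx : g τ ∈ s := by
    rw [hgτ]
    exact hτ
  have h1 := ContinuousLinearMap.iteratedFDerivWithin_comp_right g hf's hso.uniqueDiffOn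
    hgo.uniqueDiffOn hx (i := k) (by exact_mod_cast le_top)
  rw [iteratedFDerivWithin_of_isOpen k hgo hx, iteratedFDerivWithin_of_isOpen k hso hx] at h1
  have h2 : (f' ∘ ⇑g) = fun τ : ℝ => f (x₁ + τ • y) := by
    funext σ
    simp only [Function.comp_apply, hf', hgτ]
  rw [h2, hf', iteratedFDeriv_comp_add_left, hgτ] at h1
  rw [iteratedDeriv_eq_iteratedFDeriv, h1, ContinuousMultilinearMap.compContinuousLinearMap_apply,
    ← Real.norm_eq_abs]
  refine (ContinuousMultilinearMap.le_opNorm _ _).trans ?_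
  refine mul_le_mul_of_nonneg_left ?_ (norm_nonneg _)
  simp only [Finset.prod_const, Finset.card_univ, Fintype.card_fin, hgτ, one_smul, le_refl]

/-- TARGET -/
theorem vol_bound (hLR : StLR) (hSC : StSC) (n : ℕ) (hn : 1 ≤ n) (A β : ℝ) (hA : 1 ≤ A)
    (hβ : 0 < β) (hβA : 24 * β * A ≤ 1) (f : EuclideanSpace ℝ (Fin n) → ℝ)
    (hf : ContDiffOn ℝ ∞ f (ball 0 1))
    (hb : ∀ k : ℕ, ∀ x ∈ ball (0 : EuclideanSpace ℝ (Fin n)) 1,
      ‖iteratedFDeriv ℝ k f x‖ ≤ A ^ k * k.factorial)
    (x₁ : EuclideanSpace ℝ (Fin n)) (hx₁ : x₁ ∈ ball (0 : EuclideanSpace ℝ (Fin n)) β)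
    (s : ℝ) (hs : 0 ≤ s) (hfx : Real.exp (-s) ≤ |f x₁|) (t : ℝ) (ht : 0 ≤ t) :
    volume {x | x ∈ ball (0 : EuclideanSpace ℝ (Fin n)) (2 * β) ∧ |f x| ≤ Real.exp (-t)} ≤
      ENNReal.ofReal (66 * Real.exp (-t / (s + 2))) *
        volume (ball (0 : EuclideanSpace ℝ (Fin n)) (6 * β)) := by
  have hβ24 : β ≤ 1 / 24 := by nlinarith
  set S : Set (EuclideanSpace ℝ (Fin n)) := {x | x ∈ ball 0 1 ∧ |f x| ≤ Real.exp (-t)} with hS
  have hSm : MeasurableSet S := by
    have h1 : IsOpen (ball (0 : EuclideanSpace ℝ (Fin n)) 1 ∩ f ⁻¹' {u | Real.exp (-t) < |u|}) :=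
      hf.continuousOn.isOpen_inter_preimage isOpen_ball
        (isOpen_lt continuous_const continuous_abs)
    have h2 : S = ball (0 : EuclideanSpace ℝ (Fin n)) 1 \
        (ball (0 : EuclideanSpace ℝ (Fin n)) 1 ∩ f ⁻¹' {u | Real.exp (-t) < |u|}) := by
      ext x
      simp only [hS, Set.mem_ofPred_eq, Set.mem_sdiff, mem_inter_iff, mem_preimage, not_and, not_lt]
      tauto
    rw [h2]
    exact measurableSet_ball.diff h1.measurableSet
  have hs2 : 0 < s + 2 := by linarith
  set κ : ℝ≥0∞ := ENNReal.ofReal (33 * Real.exp (-t / (s + 2))) with hκ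
  have hexp1 : Real.exp 1 < 2.72 := by
    have := Real.exp_one_lt_d9
    linarith
  have key : ∀ y ∈ ball (0 : EuclideanSpace ℝ (Fin n)) (6 * β),
      volume {τ : ℝ | τ ∈ Icc (1 / 2 : ℝ) 1 ∧ x₁ + τ • y ∈ S} ≤ κ := by
    intro y hy
    set E : Set ℝ := {τ : ℝ | τ ∈ Icc (1 / 2 : ℝ) 1 ∧ x₁ + τ • y ∈ S} with hE
    have hE1 : volume E ≤ 1 := by
      have h1 : E ⊆ Icc (0 : ℝ) 1 := fun τ hτ => ⟨by linarith [hτ.1.1], hτ.1.2⟩
      have h2 := measure_mono (μ := volume) h1
      rw [Real.volume_Icc] at h2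
      simpa using h2
    rcases lt_or_ge t (s + 1) with hts | hts
    · refine hE1.trans ?_
      rw [hκ, ← ENNReal.ofReal_one]
      refine ENNReal.ofReal_le_ofReal ?_
      have h1 : Real.exp (-1) ≤ Real.exp (-t / (s + 2)) := by
        rw [Real.exp_le_exp, neg_div, neg_le_neg_iff, div_le_one hs2]
        linarith
      have h2 : Real.exp (-1) * Real.exp 1 = 1 := by
        rw [← Real.exp_add]
        simp
      have h3 : 0 < Real.exp (-1) := Real.exp_pos _
      nlinarith
    · by_cases hE0 : volume E = 0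
      · rw [hE0]
        exact zero_le
      · have hEfin : volume E ≠ ⊤ := ne_top_of_le_ne_top ENNReal.one_ne_top hE1
        have hμ : 0 < (volume E).toReal := ENNReal.toReal_pos hE0 hEfin
        set μ := (volume E).toReal with hμdef
        have hμE : ENNReal.ofReal μ = volume E := ENNReal.ofReal_toReal hEfin
        rw [← hμE, hκ]
        refine ENNReal.ofReal_le_ofReal ?_
        -- the line
        set U : Set ℝ := {τ : ℝ | x₁ + τ • y ∈ ball (0 : EuclideanSpace ℝ (Fin n)) 1} with hU
        have hline : Continuous fun τ : ℝ => x₁ + τ • y := by fun_prop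
        have hUo : IsOpen U := isOpen_ball.preimage hline
        have hIU : Icc (0 : ℝ) 1 ⊆ U := by
          intro τ hτ
          rw [hU, Set.mem_ofPred_eq, mem_ball_zero_iff]
          rw [mem_ball_zero_iff] at hx₁ hy
          have h1 : ‖τ • y‖ ≤ ‖y‖ := by
            rw [norm_smul, Real.norm_eq_abs, abs_of_nonneg hτ.1]
            nlinarith [norm_nonneg y, hτ.2]
          have h2 := norm_add_le x₁ (τ • y)
          linarith
        set h : ℝ → ℝ := fun τ => f (x₁ + τ • y) with hh
        have hhs : ContDiffOn ℝ ∞ h U := by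
          refine hf.comp (g := f) (f := fun τ : ℝ => x₁ + τ • y) ?_ fun τ hτ => hτ
          exact (contDiff_const.add (contDiff_id.smul contDiff_const)).contDiffOn
        set m : ℕ := ⌈s⌉₊ with hm
        have hms : s ≤ m := Nat.le_ceil s
        have hms' : (m : ℝ) < s + 1 := Nat.ceil_lt_add_one hs
        have hfac : (0 : ℝ) < ((m + 1).factorial : ℝ) := by positivity
        have hK : ∀ x ∈ Icc (0 : ℝ) 1, |iteratedDeriv (m + 1) h x| ≤
            Real.exp (-(m + 1 : ℝ)) * ((m + 1).factorial : ℝ) := by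
          intro x hx
          refine (iter_line hf x₁ y (m + 1) x (hIU hx)).trans ?_
          have h1 := hb (m + 1) _ (hIU hx)
          rw [mem_ball_zero_iff] at hy
          have h2 : ‖y‖ ^ (m + 1) ≤ (6 * β) ^ (m + 1) := pow_le_pow_left₀ (norm_nonneg y) hy.le _
          have h3 : (A * (6 * β)) ^ (m + 1) ≤ (Real.exp (-1)) ^ (m + 1) := by
            refine pow_le_pow_left₀ (by positivity) ?_ _
            have h5 : Real.exp (-1) * Real.exp 1 = 1 := by
              rw [← Real.exp_add]
              simp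
            have h6 : 0 < Real.exp (-1) := Real.exp_pos _
            have h7 : A * (6 * β) ≤ 1 / 4 := by nlinarith
            nlinarith
          have h4 : (Real.exp (-1)) ^ (m + 1) = Real.exp (-(m + 1 : ℝ)) := by
            rw [← Real.exp_nat_mul]
            congr 1
            push_cast
            ring
          calc ‖iteratedFDeriv ℝ (m + 1) f (x₁ + x • y)‖ * ‖y‖ ^ (m + 1)
              ≤ (A ^ (m + 1) * ((m + 1).factorial : ℝ)) * (6 * β) ^ (m + 1) :=
                mul_le_mul h1 h2 (by positivity) (by positivity)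
            _ = (A * (6 * β)) ^ (m + 1) * ((m + 1).factorial : ℝ) := by rw [mul_pow]; ring
            _ ≤ (Real.exp (-1)) ^ (m + 1) * ((m + 1).factorial : ℝ) :=
                mul_le_mul_of_nonneg_right h3 hfac.le
            _ = _ := by rw [h4]
        have hES : ∀ x ∈ E, |h x| ≤ Real.exp (-t) := fun x hx => hx.2.2
        have hEI : E ⊆ Icc (0 : ℝ) 1 := fun τ hτ => ⟨by linarith [hτ.1.1], hτ.1.2⟩
        have hmain := hLR m 1 μ (Real.exp (-t)) (Real.exp (-(m + 1 : ℝ)) *
          ((m + 1).factorial : ℝ)) one_pos hμ (by positivity) U hUo hIU h hhs hK E hEI hμE.le hES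
        have hh0 : h 0 = f x₁ := by simp [hh]
        rw [hh0, one_pow, mul_one, mul_one, mul_div_assoc, div_self hfac.ne', mul_one] at hmain
        -- the estimate
        have h1 : Real.exp (-(m + 1 : ℝ)) ≤ Real.exp (-s) * Real.exp (-1) := by
          rw [← Real.exp_add, Real.exp_le_exp]
          linarith
        have h2 : Real.exp (-1) ≤ 1 / 2 := by
          have h5 : Real.exp (-1) * Real.exp 1 = 1 := by
            rw [← Real.exp_add]
            simp
          have h6 : 0 < Real.exp (-1) := Real.exp_pos _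
          have h7 : 2 < Real.exp 1 := by
            have := Real.exp_one_gt_d9
            linarith
          nlinarith
        have h3 : Real.exp (-s) * Real.exp (-1) ≤ (12 / μ) ^ (m + 1) * Real.exp (-t) := by
          have h8 : 0 < Real.exp (-s) := Real.exp_pos _
          nlinarith
        have h4 : (μ / 12) ^ (m + 1) ≤ Real.exp (-(t - s - 1)) := by
          have h9 : (μ / 12) ^ (m + 1) * (12 / μ) ^ (m + 1) = 1 := by
            rw [← mul_pow]
            have : μ / 12 * (12 / μ) = 1 := by field_simp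
            rw [this, one_pow]
          have h10 : Real.exp (-(t - s - 1)) * (Real.exp (-s) * Real.exp (-1)) =
              Real.exp (-t) := by
            rw [← Real.exp_add, ← Real.exp_add]
            congr 1
            ring
          have h11 : 0 < (μ / 12) ^ (m + 1) := by positivity
          have h12 : 0 < Real.exp (-s) * Real.exp (-1) := by positivity
          have h13 : (μ / 12) ^ (m + 1) * (Real.exp (-s) * Real.exp (-1)) ≤ Real.exp (-t) := by
            calc (μ / 12) ^ (m + 1) * (Real.exp (-s) * Real.exp (-1))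
                ≤ (μ / 12) ^ (m + 1) * ((12 / μ) ^ (m + 1) * Real.exp (-t)) :=
                  mul_le_mul_of_nonneg_left h3 h11.le
              _ = Real.exp (-t) := by rw [← mul_assoc, h9, one_mul]
          rw [← h10] at h13
          exact le_of_mul_le_mul_right h13 h12
        have h5 : μ / 12 ≤ Real.exp (-(t - s - 1) / (m + 1)) := by
          have h14 : Real.exp (-(t - s - 1)) = (Real.exp (-(t - s - 1) / (m + 1))) ^ (m + 1) := by
            rw [← Real.exp_nat_mul]
            congr 1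
            push_cast
            field_simp
          rw [h14] at h4
          exact le_of_pow_le_pow_left₀ (Nat.succ_ne_zero m) (Real.exp_pos _).le h4
        have h6 : Real.exp (-(t - s - 1) / (m + 1)) ≤ Real.exp 1 * Real.exp (-t / (s + 2)) := by
          rw [← Real.exp_add, Real.exp_le_exp]
          have h15 : (t - s - 1) / (s + 2) ≤ (t - s - 1) / (m + 1) :=
            div_le_div_of_nonneg_left (by linarith) (by positivity) (by linarith)
          have h16 : (t - s - 1) / (s + 2) = t / (s + 2) - (s + 1) / (s + 2) := by ring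
          have h17 : (s + 1) / (s + 2) ≤ 1 := by
            rw [div_le_one hs2]
            linarith
          rw [neg_div, neg_div]
          linarith
        have h7 : 0 < Real.exp (-t / (s + 2)) := Real.exp_pos _
        nlinarith
  have h1 : {x | x ∈ ball (0 : EuclideanSpace ℝ (Fin n)) (2 * β) ∧ |f x| ≤ Real.exp (-t)} ⊆
      S ∩ ball x₁ (6 * β / 2) := by
    rintro x ⟨hx, hfx⟩
    rw [mem_ball_zero_iff] at hx hx₁
    refine ⟨⟨?_, hfx⟩, ?_⟩
    · rw [mem_ball_zero_iff]
      linarith
    · rw [mem_ball, dist_eq_norm]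
      have := norm_sub_le x x₁
      linarith
  refine (measure_mono h1).trans ((hSC n hn S hSm x₁ (6 * β) (by positivity) κ key).trans ?_)
  refine mul_le_mul_left ?_ _
  rw [hκ]
  have h2 : (2 : ℝ≥0∞) = ENNReal.ofReal 2 := by simp
  rw [h2, ← ENNReal.ofReal_mul (by norm_num)]
  refine ENNReal.ofReal_le_ofReal ?_
  linarith

end Pool.Agent.Helper688.Crit.VOL
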