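import Pool.Agent.Helper688_Crit.TRA
import Pool.Agent.Helper688_Crit.LR
import Pool.Agent.Helper688_Crit.SC
import Pool.Agent.Helper688_Crit.VOL
import Pool.Agent.Helper688_Crit.ALG1
import Pool.Agent.Helper688_Crit.ALG2
import Pool.Agent.Helper688_Crit.IBP
import Pool.Agent.Helper688_Crit.SUM
import Pool.Agent.Helper688_Crit.LOW
import Pool.Agent.Helper688_Crit.VIT

/-!
# The local theorem
-/

set_option autoImplicit false

open MeasureTheory Metric Set Filter Topology
open scoped ContDiff ENNReal NNReal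

namespace Pool.Agent.Helper688.Crit.LOC

open Pool.Agent.Helper688.Crit

/-- the largest `|P i x|` -/
noncomputable def mx {n : ℕ} (P : Fin n → E n → ℝ) (x : E n) : ℝ := ‖(fun i => P i x)‖

theorem mx_le {n : ℕ} (P : Fin n → E n → ℝ) (x : E n) (a : ℝ) (ha : 0 ≤ a) :
    mx P x ≤ a ↔ ∀ i, |P i x| ≤ a := by
  unfold mx
  rw [pi_norm_le_iff_of_nonneg ha]
  simp only [Real.norm_eq_abs]

theorem le_mx {n : ℕ} (P : Fin n → E n → ℝ) (x : E n) (i : Fin n) : |P i x| ≤ mx P x := by
  have := norm_le_pi_norm (fun i => P i x) i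
  rwa [Real.norm_eq_abs] at this

theorem mx_nonneg {n : ℕ} (P : Fin n → E n → ℝ) (x : E n) : 0 ≤ mx P x := norm_nonneg _

theorem exists_mx {n : ℕ} [Nonempty (Fin n)] (P : Fin n → E n → ℝ) (x : E n) :
    ∃ c, |P c x| = mx P x := by
  obtain ⟨c, -, hc⟩ := Finset.exists_max_image Finset.univ (fun i => |P i x|)
    Finset.univ_nonempty
  refine ⟨c, le_antisymm (le_mx P x c) ?_⟩
  rw [mx_le _ _ _ (abs_nonneg _)]
  intro i
  exact hc i (Finset.mem_univ _)

theorem mx_sq_le {n : ℕ} (P : Fin n → E n → ℝ) (x : E n) : (mx P x) ^ 2 ≤ gg P x := by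
  rcases isEmpty_or_nonempty (Fin n) with h | h
  · have h1 : mx P x = 0 := by
      have h2 : (fun i => P i x) = 0 := by
        ext i; exact (h.false i).elim
      rw [mx, h2, norm_zero]
    rw [h1]
    simp [gg]
  · obtain ⟨c, hc⟩ := exists_mx P x
    rw [← hc, sq_abs]
    exact Finset.single_le_sum (f := fun i => (P i x) ^ 2) (fun i _ => sq_nonneg _)
      (Finset.mem_univ c)

theorem gg_le {n : ℕ} (P : Fin n → E n → ℝ) (x : E n) (h : mx P x ≤ 1) : gg P x ≤ n := by
  have h1 : ∀ i, (P i x) ^ 2 ≤ 1 := by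
    intro i
    have := (le_mx P x i).trans h
    rw [← sq_abs]
    exact pow_le_one₀ (abs_nonneg _) this
  calc gg P x ≤ ∑ i : Fin n, (1 : ℝ) := Finset.sum_le_sum fun i _ => h1 i
    _ = n := by simp

theorem mx_zero {n : ℕ} (P : Fin n → E n → ℝ) (x : E n) (h : mx P x = 0) (i : Fin n) :
    P i x = 0 := by
  have := le_mx P x i
  rw [h] at this
  exact abs_eq_zero.1 (le_antisymm this (abs_nonneg _))

theorem RR_le1 {n : ℕ} {A : ℝ} (P : Fin n → E n → ℝ) (hP : Fam n A P) (x : E n)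
    (hx : x ∈ ball (0 : E n) 1) (c : Fin n) (hc : P c x ≠ 0) :
    RR P x ≤ ∑ a, ∑ b, ∑ i, ∑ j,
      |WW P c a i x * WW P c b j x - WW P c a j x * WW P c b i x| := by
  have hg : 0 < gg P x := by
    have : (P c x) ^ 2 ≤ gg P x :=
      Finset.single_le_sum (f := fun i => (P i x) ^ 2) (fun i _ => sq_nonneg _)
        (Finset.mem_univ c)
    have h2 : 0 < (P c x) ^ 2 := by positivity
    linarith
  have h := ALG1.alg1 n (fun i j => pd j (P i) x) (fun i j => hP.symm i j x hx) (hP.div x hx)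
    (fun i => P i x) c hc
  rw [RR, div_le_iff₀ (by positivity)]
  refine (le_abs_self _).trans (h.trans (le_of_eq ?_))
  rw [mul_comm]
  rfl

theorem RR_le2 {n : ℕ} {A : ℝ} (P : Fin n → E n → ℝ) (hP : Fam n A P) (x : E n)
    (hx : x ∈ ball (0 : E n) 1) (t : ℝ) (ht : Real.exp (-t - 1) ≤ mx P x) :
    (ENNReal.ofReal (RR P x)) ^ (3 / 2 : ℝ) ≤
      ENNReal.ofReal (Real.exp (3 * (t + 1)) * ∑ p, ∑ q, ∑ i, ∑ j, |JJ P p q i j x|) := by
  obtain ⟨J, hJ⟩ : ∃ J : ℝ, ∑ p, ∑ q, ∑ i, ∑ j, |JJ P p q i j x| = J := ⟨_, rfl⟩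
  have hJ0 : 0 ≤ J := by
    rw [← hJ]
    exact Finset.sum_nonneg fun p _ => Finset.sum_nonneg fun q _ => Finset.sum_nonneg fun i _ =>
      Finset.sum_nonneg fun j _ => abs_nonneg _
  rw [hJ]
  rcases le_or_gt (RR P x) 0 with h0 | h0
  · rw [ENNReal.ofReal_of_nonpos h0, ENNReal.zero_rpow_of_pos (by norm_num)]
    exact zero_le
  have hm0 : 0 < mx P x := (Real.exp_pos _).trans_le ht
  have hg : 0 < gg P x := (by positivity : (0 : ℝ) < (mx P x) ^ 2).trans_le (mx_sq_le P x)
  have hge : Real.exp (-(t + 1)) ^ 2 ≤ gg P x := by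
    refine le_trans ?_ (mx_sq_le P x)
    apply pow_le_pow_left₀ (Real.exp_pos _).le
    rwa [neg_add, ← sub_eq_add_neg]
  have hD : 0 ≤ 2 * mp P x - gg P x * mm P x := by
    rw [RR] at h0
    have := (div_pos_iff_of_pos_right (pow_pos hg 2)).1 h0
    exact this.le
  have h := ALG2.alg2 n (fun i j => pd j (P i) x) (fun i j => hP.symm i j x hx) (hP.div x hx)
    (fun i => P i x) hD
  have h' : (2 * mp P x - gg P x * mm P x) ^ 3 ≤ (gg P x) ^ 3 * J ^ 2 := by
    rw [← hJ]
    exact h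
  have h3 : (RR P x) ^ 3 ≤ (Real.exp (3 * (t + 1)) * J) ^ 2 := by
    rw [RR, div_pow, div_le_iff₀ (by positivity)]
    refine h'.trans ?_
    have e1 : (Real.exp (3 * (t + 1)) * J) ^ 2 * (gg P x ^ 2) ^ 3 =
        (Real.exp (3 * (t + 1)) ^ 2 * (gg P x) ^ 3) * ((gg P x) ^ 3 * J ^ 2) := by ring
    rw [e1]
    have e2 : 1 ≤ Real.exp (3 * (t + 1)) ^ 2 * (gg P x) ^ 3 := by
      have e3 : (Real.exp (-(t + 1)) ^ 2) ^ 3 ≤ (gg P x) ^ 3 :=
        pow_le_pow_left₀ (by positivity) hge 3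
      have e4 : Real.exp (3 * (t + 1)) ^ 2 * (Real.exp (-(t + 1)) ^ 2) ^ 3 = 1 := by
        rw [← pow_mul, ← Real.exp_nat_mul, ← Real.exp_nat_mul, ← Real.exp_add]
        have : ((2 : ℕ) : ℝ) * (3 * (t + 1)) + ((2 * 3 : ℕ) : ℝ) * (-(t + 1)) = 0 := by
          push_cast; ring
        rw [this, Real.exp_zero]
      calc (1 : ℝ) = Real.exp (3 * (t + 1)) ^ 2 * (Real.exp (-(t + 1)) ^ 2) ^ 3 := e4.symm
        _ ≤ _ := mul_le_mul_of_nonneg_left e3 (by positivity)
    exact le_mul_of_one_le_left (by positivity) e2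
  rw [ENNReal.ofReal_rpow_of_pos h0]
  apply ENNReal.ofReal_le_ofReal
  have h4 : (RR P x) ^ (3 / 2 : ℝ) = Real.sqrt ((RR P x) ^ 3) := by
    rw [Real.sqrt_eq_rpow, ← Real.rpow_natCast, ← Real.rpow_mul h0.le]
    norm_num
  rw [h4]
  exact Real.sqrt_le_iff.2 ⟨by positivity, h3⟩

theorem stLR : VOL.StLR := fun m b μ η K hb hμ hK U hU hIU h hh hd S hS hvol hη =>
  LR.lagrange_remez m b μ η K hb hμ hK U hU hIU h hh hd S hS hvol hη

theorem stSC : VOL.StSC := fun n hn S hS x₁ r hr κ h => SC.scale_low n hn S hS x₁ r hr κ h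

/-- the field set to zero outside the unit ball -/
theorem fam_ind {n : ℕ} {A : ℝ} (P : Fin n → E n → ℝ) (hP : Fam n A P) :
    Fam n A (fun i => indicator (ball (0 : E n) 1) (P i)) ∧
    ∀ i, Measurable (indicator (ball (0 : E n) 1) (P i)) := by
  have hev : ∀ i, ∀ x ∈ ball (0 : E n) 1, indicator (ball (0 : E n) 1) (P i) =ᶠ[𝓝 x] P i := by
    intro i x hx
    filter_upwards [isOpen_ball.mem_nhds hx] with y hy
    exact indicator_of_mem hy _
  have hpd : ∀ i j, ∀ x ∈ ball (0 : E n) 1,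
      pd j (indicator (ball (0 : E n) 1) (P i)) x = pd j (P i) x := by
    intro i j x hx
    unfold pd
    rw [(hev i x hx).fderiv_eq]
  refine ⟨⟨?_, ?_, ?_, ?_, ?_⟩, ?_⟩
  · intro i
    exact (hP.smooth i).congr fun x hx => indicator_of_mem hx _
  · intro i k x hx
    rw [((hev i x hx).iteratedFDeriv ℝ k).self_of_nhds]
    exact hP.bd i k x hx
  · intro i j x hx
    rw [hpd i j x hx, hpd j i x hx]
    exact hP.symm i j x hx
  · intro x hx
    simp_rw [hpd _ _ x hx]
    exact hP.div x hx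
  · intro i x hx
    have h2 : ∀ j, pd j (pd j (indicator (ball (0 : E n) 1) (P i))) x = pd j (pd j (P i)) x := by
      intro j
      have h3 : pd j (indicator (ball (0 : E n) 1) (P i)) =ᶠ[𝓝 x] pd j (P i) := by
        filter_upwards [isOpen_ball.mem_nhds hx] with y hy
        exact hpd i j y hy
      rw [pd, h3.fderiv_eq]
      rfl
    simp_rw [h2]
    exact hP.harm i x hx
  · intro i
    classical
    have := (hP.smooth i).continuousOn.measurable_piecewise
      (continuousOn_const (c := (0 : ℝ))) measurableSet_ball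
    rwa [show (fun _ : E n => (0 : ℝ)) = 0 from rfl, piecewise_eq_indicator] at this

theorem meas_pd {n : ℕ} (f : E n → ℝ) (j : Fin n) : Measurable (pd j f) :=
  measurable_fderiv_apply_const ℝ f _

theorem meas_mx {n : ℕ} (P : Fin n → E n → ℝ) (h : ∀ i, Measurable (P i)) : Measurable (mx P) :=
  (measurable_pi_lambda _ h).norm

theorem meas_gg {n : ℕ} (P : Fin n → E n → ℝ) (h : ∀ i, Measurable (P i)) : Measurable (gg P) :=
  Finset.measurable_fun_sum _ fun i _ => (h i).pow_const 2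

theorem meas_RR {n : ℕ} (P : Fin n → E n → ℝ) (h : ∀ i, Measurable (P i)) : Measurable (RR P) := by
  unfold RR mp mm
  refine Measurable.div (Measurable.sub (Measurable.const_mul ?_ 2) (Measurable.mul (meas_gg P h) ?_))
    ((meas_gg P h).pow_const 2)
  · refine Finset.measurable_fun_sum _ fun j _ => Measurable.pow_const ?_ 2
    exact Finset.measurable_fun_sum _ fun i _ => (h i).mul (meas_pd _ _)
  · refine Finset.measurable_fun_sum _ fun i _ => Finset.measurable_fun_sum _ fun j _ => ?_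
    exact (meas_pd _ _).pow_const 2

theorem meas_WW {n : ℕ} (P : Fin n → E n → ℝ) (h : ∀ i, Measurable (P i)) (c a i : Fin n) :
    Measurable (WW P c a i) := by
  unfold WW
  exact (((h c).mul (meas_pd _ _)).sub ((h a).mul (meas_pd _ _))).div ((h c).pow_const 2)

theorem meas_JJ {n : ℕ} (P : Fin n → E n → ℝ) (p q i j : Fin n) :
    Measurable (JJ P p q i j) := by
  unfold JJ det3
  have h : ∀ a b, Measurable (pd a (P b)) := fun a b => meas_pd _ _
  exact (((h _ _).mul (((h _ _).mul (h _ _)).sub ((h _ _).mul (h _ _)))).sub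
    ((h _ _).mul (((h _ _).mul (h _ _)).sub ((h _ _).mul (h _ _))))).add
    ((h _ _).mul (((h _ _).mul (h _ _)).sub ((h _ _).mul (h _ _))))

theorem h1 (hR : EE.StRAT2) (n : ℕ) (hn : 1 ≤ n) (A : ℝ) (hA : 1 ≤ A) : ∃ C : ℝ,
    ∀ P : Fin n → E n → ℝ, Fam n A P → (∀ i, Measurable (P i)) → ∀ T : ℝ, 0 ≤ T →
    ∫⁻ x in ball (0 : E n) (1 / (12 * A)) ∩ {x | Real.exp (-T) ≤ mx P x},
      ENNReal.ofReal (RR P x) ≤ ENNReal.ofReal (C * (T + 1) ^ 2) := by
  have : Nonempty (Fin n) := ⟨⟨0, hn⟩⟩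
  obtain ⟨C, hC0, hC⟩ := TRA.E1 hR n A hA
  refine ⟨(n : ℝ) * (n * (n * (n * (n * C)))), ?_⟩
  intro P hP hm T hT
  have hA0 : 0 < A := by linarith
  have hball1 : ball (0 : E n) (1 / (12 * A)) ⊆ closedBall 0 (1 / (8 * A)) := by
    refine ball_subset_closedBall.trans (closedBall_subset_closedBall ?_)
    apply one_div_le_one_div_of_le (by positivity)
    linarith
  have hball2 : ball (0 : E n) (1 / (12 * A)) ⊆ ball 0 1 := by
    apply ball_subset_ball
    rw [div_le_one (by positivity)]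
    linarith
  set S : Fin n → Set (E n) := fun c => ball (0 : E n) (1 / (12 * A)) ∩
    {x | Real.exp (-T) ≤ |P c x| ∧ ∀ a, |P a x| ≤ |P c x|} with hS
  have hSm : ∀ c, MeasurableSet (S c) := by
    intro c
    refine measurableSet_ball.inter ?_
    refine (measurableSet_le measurable_const (hm c).abs).inter ?_
    have : {x : E n | ∀ a, |P a x| ≤ |P c x|} = ⋂ a, {x | |P a x| ≤ |P c x|} := by
      ext x; simp
    change MeasurableSet {x : E n | ∀ a, |P a x| ≤ |P c x|}
    rw [this]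
    exact MeasurableSet.iInter fun a => measurableSet_le (hm a).abs (hm c).abs
  have hsub : ball (0 : E n) (1 / (12 * A)) ∩ {x | Real.exp (-T) ≤ mx P x} ⊆ ⋃ c, S c := by
    rintro x ⟨hx1, hx2⟩
    obtain ⟨c, hc⟩ := exists_mx P x
    rw [mem_iUnion]
    refine ⟨c, hx1, ?_, ?_⟩
    · rw [hc]; exact hx2
    · intro a
      rw [hc]; exact le_mx P x a
  have hone : ∀ c, ∫⁻ x in S c, ENNReal.ofReal (RR P x) ≤
      ENNReal.ofReal ((n * (n * (n * (n * C)))) * (T + 1) ^ 2) := by
    intro c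
    have hb1 : ∫⁻ x in S c, ENNReal.ofReal (RR P x) ≤ ∫⁻ x in S c, ∑ a, ∑ b, ∑ i, ∑ j,
        ENNReal.ofReal |WW P c a i x * WW P c b j x - WW P c a j x * WW P c b i x| := by
      refine setLIntegral_mono' (hSm c) fun x hx => ?_
      have hc0 : P c x ≠ 0 := by
        intro h0
        have := hx.2.1
        rw [h0, abs_zero] at this
        exact absurd this (not_le.2 (Real.exp_pos _))
      refine (ENNReal.ofReal_le_ofReal (RR_le1 P hP x (hball2 hx.1) c hc0)).trans (le_of_eq ?_)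
      rw [ENNReal.ofReal_sum_of_nonneg fun a _ => Finset.sum_nonneg fun b _ =>
        Finset.sum_nonneg fun i _ => Finset.sum_nonneg fun j _ => abs_nonneg _]
      refine Finset.sum_congr rfl fun a _ => ?_
      rw [ENNReal.ofReal_sum_of_nonneg fun b _ =>
        Finset.sum_nonneg fun i _ => Finset.sum_nonneg fun j _ => abs_nonneg _]
      refine Finset.sum_congr rfl fun b _ => ?_
      rw [ENNReal.ofReal_sum_of_nonneg fun i _ => Finset.sum_nonneg fun j _ => abs_nonneg _]
      refine Finset.sum_congr rfl fun i _ => ?_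
      rw [ENNReal.ofReal_sum_of_nonneg fun j _ => abs_nonneg _]
    have hmeas : ∀ a b i j, Measurable fun x => ENNReal.ofReal
        |WW P c a i x * WW P c b j x - WW P c a j x * WW P c b i x| := by
      intro a b i j
      exact (((meas_WW P hm c a i).mul (meas_WW P hm c b j)).sub
        ((meas_WW P hm c a j).mul (meas_WW P hm c b i))).abs.ennreal_ofReal
    refine hb1.trans ?_
    rw [lintegral_finsetSum _ fun a _ => Finset.measurable_fun_sum _ fun b _ =>
      Finset.measurable_fun_sum _ fun i _ => Finset.measurable_fun_sum _ fun j _ => hmeas a b i j]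
    have hterm : ∀ a b i j, ∫⁻ x in S c, ENNReal.ofReal
        |WW P c a i x * WW P c b j x - WW P c a j x * WW P c b i x| ≤
        ENNReal.ofReal (C * (T + 1) ^ 2) := by
      intro a b i j
      exact hC P hP T hT a b c i j (S c) (hSm c) (inter_subset_left.trans hball1)
        fun x hx => ⟨hx.2.1, hx.2.2 a, hx.2.2 b⟩
    have key : ∀ (g : Fin n → ℝ≥0∞) (D : ℝ), (∀ a, g a ≤ ENNReal.ofReal (D * (T + 1) ^ 2)) →
        ∑ a, g a ≤ ENNReal.ofReal ((n * D) * (T + 1) ^ 2) := by
      intro g D hg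
      calc ∑ a, g a ≤ ∑ a : Fin n, ENNReal.ofReal (D * (T + 1) ^ 2) :=
            Finset.sum_le_sum fun a _ => hg a
        _ = ENNReal.ofReal ((n * D) * (T + 1) ^ 2) := by
            rw [Finset.sum_const, Finset.card_univ, Fintype.card_fin, nsmul_eq_mul, mul_assoc,
              ENNReal.ofReal_mul (p := (n : ℝ)) (Nat.cast_nonneg n), ENNReal.ofReal_natCast]
    refine key _ _ fun a => ?_
    rw [lintegral_finsetSum _ fun b _ =>
      Finset.measurable_fun_sum _ fun i _ => Finset.measurable_fun_sum _ fun j _ => hmeas a b i j]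
    refine key _ _ fun b => ?_
    rw [lintegral_finsetSum _ fun i _ => Finset.measurable_fun_sum _ fun j _ => hmeas a b i j]
    refine key _ _ fun i => ?_
    rw [lintegral_finsetSum _ fun j _ => hmeas a b i j]
    exact key _ _ fun j => hterm a b i j
  calc _ ≤ ∫⁻ x in ⋃ c, S c, ENNReal.ofReal (RR P x) := lintegral_mono_set hsub
    _ ≤ ∑' c, ∫⁻ x in S c, ENNReal.ofReal (RR P x) := lintegral_iUnion_le _ _
    _ = ∑ c, ∫⁻ x in S c, ENNReal.ofReal (RR P x) := tsum_fintype _
    _ ≤ ∑ c : Fin n, ENNReal.ofReal ((n * (n * (n * (n * C)))) * (T + 1) ^ 2) :=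
        Finset.sum_le_sum fun c _ => hone c
    _ = _ := by
        rw [Finset.sum_const, Finset.card_univ, Fintype.card_fin, nsmul_eq_mul,
          ← ENNReal.ofReal_natCast, ← ENNReal.ofReal_mul (Nat.cast_nonneg n)]
        congr 1
        ring

theorem h2 (hR : EE.StPOL3) (n : ℕ) (A : ℝ) (hA : 1 ≤ A) : ∃ C : ℝ,
    ∀ P : Fin n → E n → ℝ, Fam n A P → (∀ i, Measurable (P i)) → ∀ t : ℝ, 0 ≤ t →
    ∫⁻ x in ball (0 : E n) (1 / (12 * A)) ∩
        {x | Real.exp (-t - 1) ≤ mx P x ∧ mx P x ≤ Real.exp (-t)},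
      (ENNReal.ofReal (RR P x)) ^ (3 / 2 : ℝ) ≤ ENNReal.ofReal (C * (t + 1) ^ 3) := by
  obtain ⟨C, hC0, hC⟩ := TRA.E2 hR n A hA
  refine ⟨Real.exp 3 * (n * (n * (n * (n * C)))), ?_⟩
  intro P hP hm t ht
  have hA0 : 0 < A := by linarith
  have hball1 : ball (0 : E n) (1 / (12 * A)) ⊆ closedBall 0 (1 / (8 * A)) := by
    refine ball_subset_closedBall.trans (closedBall_subset_closedBall ?_)
    apply one_div_le_one_div_of_le (by positivity)
    linarith
  have hball2 : ball (0 : E n) (1 / (12 * A)) ⊆ ball 0 1 := by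
    apply ball_subset_ball
    rw [div_le_one (by positivity)]
    linarith
  set S : Set (E n) := ball (0 : E n) (1 / (12 * A)) ∩
        {x | Real.exp (-t - 1) ≤ mx P x ∧ mx P x ≤ Real.exp (-t)} with hS
  have hSm : MeasurableSet S := by
    refine measurableSet_ball.inter ?_
    exact (measurableSet_le measurable_const (meas_mx P hm)).inter
      (measurableSet_le (meas_mx P hm) measurable_const)
  have hb1 : ∫⁻ x in S, (ENNReal.ofReal (RR P x)) ^ (3 / 2 : ℝ) ≤
      ∫⁻ x in S, ENNReal.ofReal (Real.exp (3 * (t + 1))) *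
        ∑ p, ∑ q, ∑ i, ∑ j, ENNReal.ofReal |JJ P p q i j x| := by
    refine setLIntegral_mono' hSm fun x hx => ?_
    refine (RR_le2 P hP x (hball2 hx.1) t hx.2.1).trans (le_of_eq ?_)
    rw [ENNReal.ofReal_mul (Real.exp_pos _).le]
    congr 1
    rw [ENNReal.ofReal_sum_of_nonneg fun a _ => Finset.sum_nonneg fun b _ =>
      Finset.sum_nonneg fun i _ => Finset.sum_nonneg fun j _ => abs_nonneg _]
    refine Finset.sum_congr rfl fun a _ => ?_
    rw [ENNReal.ofReal_sum_of_nonneg fun b _ =>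
      Finset.sum_nonneg fun i _ => Finset.sum_nonneg fun j _ => abs_nonneg _]
    refine Finset.sum_congr rfl fun b _ => ?_
    rw [ENNReal.ofReal_sum_of_nonneg fun i _ => Finset.sum_nonneg fun j _ => abs_nonneg _]
    refine Finset.sum_congr rfl fun i _ => ?_
    rw [ENNReal.ofReal_sum_of_nonneg fun j _ => abs_nonneg _]
  have hmeas : ∀ a b i j, Measurable fun x => ENNReal.ofReal |JJ P a b i j x| := by
    intro a b i j
    exact (meas_JJ P a b i j).abs.ennreal_ofReal
  refine hb1.trans ?_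
  rw [lintegral_const_mul _ (Finset.measurable_fun_sum _ fun a _ =>
    Finset.measurable_fun_sum _ fun b _ =>
      Finset.measurable_fun_sum _ fun i _ => Finset.measurable_fun_sum _ fun j _ => hmeas a b i j)]
  rw [lintegral_finsetSum _ fun a _ => Finset.measurable_fun_sum _ fun b _ =>
      Finset.measurable_fun_sum _ fun i _ => Finset.measurable_fun_sum _ fun j _ => hmeas a b i j]
  have hterm : ∀ a b i j, ∫⁻ x in S, ENNReal.ofReal |JJ P a b i j x| ≤
      ENNReal.ofReal (C * ((t + 1) ^ 3 * Real.exp (-3 * t))) := by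
    intro a b i j
    rw [← mul_assoc]
    exact hC P hP t ht a b i j S hSm (inter_subset_left.trans hball1)
      fun x hx c => (le_mx P x c).trans hx.2.2
  have key : ∀ (g : Fin n → ℝ≥0∞) (D : ℝ),
      (∀ a, g a ≤ ENNReal.ofReal (D * ((t + 1) ^ 3 * Real.exp (-3 * t)))) →
      ∑ a, g a ≤ ENNReal.ofReal ((n * D) * ((t + 1) ^ 3 * Real.exp (-3 * t))) := by
    intro g D hg
    calc ∑ a, g a ≤ ∑ a : Fin n, ENNReal.ofReal (D * ((t + 1) ^ 3 * Real.exp (-3 * t))) :=
          Finset.sum_le_sum fun a _ => hg a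
      _ = ENNReal.ofReal ((n * D) * ((t + 1) ^ 3 * Real.exp (-3 * t))) := by
          rw [Finset.sum_const, Finset.card_univ, Fintype.card_fin, nsmul_eq_mul, mul_assoc (n : ℝ),
            ENNReal.ofReal_mul (p := (n : ℝ)) (Nat.cast_nonneg n), ENNReal.ofReal_natCast]
  have hfin : ∑ a, ∫⁻ x in S, ∑ b, ∑ i, ∑ j, ENNReal.ofReal |JJ P a b i j x| ≤
      ENNReal.ofReal ((n * (n * (n * (n * C)))) * ((t + 1) ^ 3 * Real.exp (-3 * t))) := by
    refine key _ _ fun a => ?_
    rw [lintegral_finsetSum _ fun b _ =>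
      Finset.measurable_fun_sum _ fun i _ => Finset.measurable_fun_sum _ fun j _ => hmeas a b i j]
    refine key _ _ fun b => ?_
    rw [lintegral_finsetSum _ fun i _ => Finset.measurable_fun_sum _ fun j _ => hmeas a b i j]
    refine key _ _ fun i => ?_
    rw [lintegral_finsetSum _ fun j _ => hmeas a b i j]
    exact key _ _ fun j => hterm a b i j
  refine (mul_le_mul_right hfin _).trans (le_of_eq ?_)
  rw [← ENNReal.ofReal_mul (Real.exp_pos _).le]
  congr 1
  have e1 : Real.exp (3 * (t + 1)) * Real.exp (-3 * t) = Real.exp 3 := by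
    rw [← Real.exp_add]; congr 1; ring
  calc Real.exp (3 * (t + 1)) *
        ((n * (n * (n * (n * C)))) * ((t + 1) ^ 3 * Real.exp (-3 * t)))
      = (Real.exp (3 * (t + 1)) * Real.exp (-3 * t)) *
        (n * (n * (n * (n * C)))) * (t + 1) ^ 3 := by ring
    _ = _ := by rw [e1]

end Pool.Agent.Helper688.Crit.LOC
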