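import Pool.Agent.Helper688_Crit.LOC

/-!
# The local theorem
-/

set_option autoImplicit false

open MeasureTheory Metric Set Filter Topology
open scoped ContDiff ENNReal NNReal

namespace Pool.Agent.Helper688.Crit.LOC

open Pool.Agent.Helper688.Crit

theorem local_meas (hR2 : EE.StRAT2) (hR3 : EE.StPOL3) (hPOW : LOW.StPOW) (hSCU : LOW.StSCU)
    (n : ℕ) (hn : 2 ≤ n) (A : ℝ) (hA : 1 ≤ A) :
    ∃ C : ℝ, ∀ P : Fin n → E n → ℝ, Fam n A P → (∀ i, Measurable (P i)) → ∀ s : ℝ, 0 ≤ s →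
      (∃ x₁ ∈ ball (0 : E n) (1 / (24 * A)), ∃ i, Real.exp (-s) ≤ |P i x₁|) →
      Measure.hausdorffMeasure ((n : ℝ) - 2)
        ({x : E n | ∀ i, P i x = 0} ∩ ball 0 (1 / (24 * A))) ≤
        ENNReal.ofReal (C * ((s + 1) ^ 2 * (Real.log (s + 2)) ^ 2)) := by
  have hA0 : 0 < A := by linarith
  set β : ℝ := 1 / (24 * A) with hβ
  have hβ0 : 0 < β := by positivity
  have hβA : 24 * β * A ≤ 1 := by rw [hβ]; apply le_of_eq; field_simp
  have h2β : 2 * β = 1 / (12 * A) := by rw [hβ]; field_simp; norm_num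
  have h2β1 : 2 * β < 1 := by
    rw [h2β, div_lt_one (by positivity)]; linarith
  obtain ⟨C₁, hC₁⟩ := h1 hR2 n (by omega) A hA
  obtain ⟨C₂, hC₂⟩ := h2 hR3 n A hA
  set V : ℝ := (volume (ball (0 : E n) (6 * β))).toReal with hV
  obtain ⟨C₄, hC₄⟩ := SUM.sum1 C₁ C₂ (66 * V)
  obtain ⟨C₅, hC₅⟩ := SUM.sum2 n (66 * V)
  obtain ⟨C₆, hC₆0, hC₆⟩ := IBP.ibp n (by omega) A β hβ0 h2β1
  obtain ⟨c, hc0, hc⟩ := LOW.low hPOW stLR hSCU n hn A β hA hβ0 hβA
  set L : ℝ := Real.log 2 ^ 2 with hL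
  have hL0 : 0 < L := by
    have := Real.log_pos one_lt_two
    positivity
  refine ⟨10 ^ (n - 2) / c * (C₆ * max C₅ 0 / L + max C₄ 0), ?_⟩
  intro P hP hm s hs ⟨x₁, hx₁, i₁, hi₁⟩
  set Om : Set (E n) := ball (0 : E n) (2 * β) with hOm
  have hOm1 : Om ⊆ ball 0 1 := ball_subset_ball h2β1.le
  -- volume of the small sets
  have h3 : ∀ t : ℝ, 0 ≤ t → volume (Om ∩ {x | mx P x ≤ Real.exp (-t)}) ≤
      ENNReal.ofReal ((66 * V) * Real.exp (-t / (s + 2))) := by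
    intro t ht
    have h := VOL.vol_bound stLR stSC n (by omega) A β hA hβ0 hβA (P i₁) (hP.smooth i₁)
      (hP.bd i₁) x₁ hx₁ s hs hi₁ t ht
    have e1 : ENNReal.ofReal ((66 * V) * Real.exp (-t / (s + 2))) =
        ENNReal.ofReal (66 * Real.exp (-t / (s + 2))) * volume (ball (0 : E n) (6 * β)) := by
      rw [← ENNReal.ofReal_toReal (measure_ball_lt_top (μ := volume)).ne,
        ← ENNReal.ofReal_mul (by positivity)]
      congr 1
      ring
    rw [e1]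
    refine (measure_mono ?_).trans h
    rintro x ⟨hx1, hx2⟩
    exact ⟨hx1, (le_mx P x i₁).trans hx2⟩
  have hmx1 : ∀ x ∈ Om, 0 ≤ mx P x ∧ mx P x ≤ 1 := by
    intro x hx
    refine ⟨mx_nonneg P x, (mx_le P x 1 zero_le_one).2 fun i => ?_⟩
    have := hP.bd i 0 x (hOm1 hx)
    rw [norm_iteratedFDeriv_zero] at this
    simpa using this
  have hsum1 := hC₄ (E n) volume Om measurableSet_ball (mx P) (meas_mx P hm)
    (fun x => ENNReal.ofReal (RR P x)) (meas_RR P hm).ennreal_ofReal s hs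
    (by intro T hT; rw [hOm, h2β]; exact hC₁ P hP hm T hT)
    (by intro t ht; rw [hOm, h2β]; exact hC₂ P hP hm t ht)
    h3
    (by
      intro x _ hx0
      have : RR P x = 0 := by
        have hz : ∀ i, P i x = 0 := mx_zero P x hx0
        have hg : gg P x = 0 := by simp [gg, hz]
        rw [RR, hg]; simp
      rw [this, ENNReal.ofReal_zero])
    hmx1
  have hI : ∀ ε : ℝ, 0 < ε → ε < 1 → ∫⁻ x in ball (0 : E n) β, ENNReal.ofReal (FF P ε x) ≤
      ENNReal.ofReal ((C₆ * max C₅ 0 / L + max C₄ 0) * ((s + 1) ^ 2 * (Real.log (s + 2)) ^ 2)) := by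
    intro ε hε hε1
    have hsum2 := hC₅ (E n) volume Om measurableSet_ball (mx P) (gg P) (meas_mx P hm)
      (meas_gg P hm) s hs h3
      (fun x hx => ⟨(hmx1 x hx).1, (hmx1 x hx).2, mx_sq_le P x, gg_le P x (hmx1 x hx).2⟩)
      ε hε hε1
    refine (hC₆ P hP ε hε).trans ?_
    have hlog : L ≤ (Real.log (s + 2)) ^ 2 := by
      have h5 : Real.log 2 ≤ Real.log (s + 2) := Real.log_le_log (by norm_num) (by linarith)
      exact pow_le_pow_left₀ (Real.log_pos one_lt_two).le h5 2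
    have e2 : ∫⁻ x in Om, ENNReal.ofReal (C₆ * |Real.log (gg P x + ε ^ 2)|) ≤
        ENNReal.ofReal (C₆ * max C₅ 0 / L * ((s + 1) ^ 2 * (Real.log (s + 2)) ^ 2)) := by
      have e3 : ∀ x, ENNReal.ofReal (C₆ * |Real.log (gg P x + ε ^ 2)|) =
          ENNReal.ofReal C₆ * ENNReal.ofReal |Real.log (gg P x + ε ^ 2)| := fun x =>
        ENNReal.ofReal_mul hC₆0
      simp_rw [e3]
      have hml : Measurable fun x : E n => ENNReal.ofReal |Real.log (gg P x + ε ^ 2)| := by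
        refine Measurable.ennreal_ofReal ?_
        exact (Real.measurable_log.comp ((meas_gg P hm).add_const (ε ^ 2))).abs
      rw [lintegral_const_mul _ hml]
      refine (mul_le_mul_right hsum2 _).trans ?_
      rw [← ENNReal.ofReal_mul hC₆0]
      apply ENNReal.ofReal_le_ofReal
      have e4 : C₆ * (C₅ * (s + 1) ^ 2) ≤ C₆ * (max C₅ 0 * (s + 1) ^ 2) :=
        mul_le_mul_of_nonneg_left (mul_le_mul_of_nonneg_right (le_max_left _ _) (by positivity))
          hC₆0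
      refine e4.trans ?_
      have e5 : C₆ * max C₅ 0 / L * ((s + 1) ^ 2 * (Real.log (s + 2)) ^ 2) =
          (C₆ * (max C₅ 0 * (s + 1) ^ 2)) * ((Real.log (s + 2)) ^ 2 / L) := by
        field_simp
      rw [e5]
      apply le_mul_of_one_le_right
      · have : 0 ≤ max C₅ 0 := le_max_right _ _
        positivity
      · rwa [one_le_div hL0]
    refine (add_le_add e2 hsum1).trans ?_
    have e6 : ENNReal.ofReal (C₄ * (s + 1) ^ 2 * (Real.log (s + 2)) ^ 2) ≤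
        ENNReal.ofReal (max C₄ 0 * ((s + 1) ^ 2 * (Real.log (s + 2)) ^ 2)) := by
      apply ENNReal.ofReal_le_ofReal
      rw [mul_assoc]
      exact mul_le_mul_of_nonneg_right (le_max_left _ _) (by positivity)
    refine (add_le_add_right e6 _).trans ?_
    have h50 : 0 ≤ max C₅ 0 := le_max_right _ _
    have h40 : 0 ≤ max C₄ 0 := le_max_right _ _
    rw [← ENNReal.ofReal_add (by positivity) (by positivity)]
    apply le_of_eq
    congr 1
    ring
  have hv := VIT.vit n hn c hc0 _ (fun ε x => ENNReal.ofReal (FF P ε x)) (ball (0 : E n) β)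
    ({x : E n | ∀ i, P i x = 0} ∩ ball 0 β) hI ?_
  · refine hv.trans (le_of_eq ?_)
    rw [← ENNReal.ofReal_mul (by positivity)]
    congr 1
    ring
  · rintro z ⟨hz1, hz2⟩
    refine hc P hP ⟨x₁, hx₁, i₁, ?_⟩ z hz2 hz1
    intro h0
    rw [h0, abs_zero] at hi₁
    exact absurd hi₁ (not_le.2 (Real.exp_pos _))

theorem local_main (hR2 : EE.StRAT2) (hR3 : EE.StPOL3) (hPOW : LOW.StPOW) (hSCU : LOW.StSCU)
    (n : ℕ) (hn : 2 ≤ n) (A : ℝ) (hA : 1 ≤ A) :
    ∃ C : ℝ, ∀ P : Fin n → E n → ℝ, Fam n A P → ∀ s : ℝ, 0 ≤ s →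
      (∃ x₁ ∈ ball (0 : E n) (1 / (24 * A)), ∃ i, Real.exp (-s) ≤ |P i x₁|) →
      Measure.hausdorffMeasure ((n : ℝ) - 2)
        ({x : E n | ∀ i, P i x = 0} ∩ ball 0 (1 / (24 * A))) ≤
        ENNReal.ofReal (C * ((s + 1) ^ 2 * (Real.log (s + 2)) ^ 2)) := by
  obtain ⟨C, hC⟩ := local_meas hR2 hR3 hPOW hSCU n hn A hA
  refine ⟨C, ?_⟩
  intro P hP s hs ⟨x₁, hx₁, i₁, hi₁⟩
  obtain ⟨h1, h2⟩ := fam_ind P hP
  have hsub : ball (0 : E n) (1 / (24 * A)) ⊆ ball 0 1 := by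
    apply ball_subset_ball
    rw [div_le_one (by linarith)]
    linarith
  have h3 := hC _ h1 h2 s hs ⟨x₁, hx₁, i₁, by rwa [indicator_of_mem (hsub hx₁)]⟩
  refine le_trans (measure_mono ?_) h3
  rintro x ⟨hx1, hx2⟩
  refine ⟨fun i => ?_, hx2⟩
  rw [indicator_of_mem (hsub hx2)]
  exact hx1 i

end Pool.Agent.Helper688.Crit.LOC
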