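import Pool.Agent.Helper688_Crit.Defs

/-!
# The geometric step of job LOW
-/

set_option autoImplicit false

open MeasureTheory Metric Set Filter Topology
open scoped ContDiff ENNReal NNReal

namespace Pool.Agent.Helper688.Crit.LOW

open Pool.Agent.Helper688.Crit

/-- proved in job POW -/
def StPOW : Prop := ∀ (n : ℕ) (f : EuclideanSpace ℝ (Fin n) → ℝ) (z : EuclideanSpace ℝ (Fin n))
    (A r : ℝ), 1 ≤ A → 0 < r → ContDiffOn ℝ ∞ f (ball z r) →
    (∀ k : ℕ, ∀ x ∈ ball z r, ‖iteratedFDeriv ℝ k f x‖ ≤ A ^ k * k.factorial) →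
    ∃ q : ℕ → MvPolynomial (Fin n) ℝ,
      (∀ k, (q k).IsHomogeneous k) ∧
      (∀ (k : ℕ) (y : EuclideanSpace ℝ (Fin n)),
        |MvPolynomial.eval (fun i => y i) (q k)| ≤ (A * ‖y‖) ^ k) ∧
      (∀ (k : ℕ) (l : Fin n) (y : EuclideanSpace ℝ (Fin n)),
        |MvPolynomial.eval (fun i => y i) (MvPolynomial.pderiv l (q k))|
          ≤ k * A ^ k * ‖y‖ ^ (k - 1)) ∧
      ∀ y : EuclideanSpace ℝ (Fin n), ‖y‖ < r → A * ‖y‖ < 1 →
        HasSum (fun k => MvPolynomial.eval (fun i => y i) (q k)) (f (z + y)) ∧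
        ∀ l : Fin n, HasSum
          (fun k => MvPolynomial.eval (fun i => y i) (MvPolynomial.pderiv l (q k)))
          (fderiv ℝ f (z + y) (EuclideanSpace.single l 1))

/-- proved in job LR -/
def StLR : Prop := ∀ (m : ℕ) (b μ η K : ℝ), 0 < b → 0 < μ → 0 ≤ K →
    ∀ (U : Set ℝ), IsOpen U → Icc 0 b ⊆ U → ∀ (h : ℝ → ℝ), ContDiffOn ℝ ∞ h U →
    (∀ x ∈ Icc 0 b, |iteratedDeriv (m + 1) h x| ≤ K) →
    ∀ (S : Set ℝ), S ⊆ Icc 0 b → ENNReal.ofReal μ ≤ volume S →
    (∀ x ∈ S, |h x| ≤ η) →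
    |h 0| ≤ (12 * b / μ) ^ (m + 1) * η + K * b ^ (m + 1) / ((m + 1).factorial : ℝ)

/-- proved in job SC -/
def StSCU : Prop := ∀ (n : ℕ), 1 ≤ n → ∀ (S : Set (EuclideanSpace ℝ (Fin n))), MeasurableSet S →
    ∀ (x₁ : EuclideanSpace ℝ (Fin n)) (r τ₀ : ℝ), 0 < r → 0 < τ₀ → τ₀ ≤ 1 →
    ∀ (Y : Set (EuclideanSpace ℝ (Fin n))), MeasurableSet Y → Y ⊆ ball 0 r → ∀ (κ : ℝ≥0∞),
    (∀ y ∈ Y, κ ≤ volume {τ : ℝ | τ ∈ Icc τ₀ 1 ∧ x₁ + τ • y ∈ S}) →
    ENNReal.ofReal (τ₀ ^ n) * κ * volume Y ≤ volume (S ∩ ball x₁ r)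

variable {n : ℕ}

lemma ev_cont (q : MvPolynomial (Fin n) ℝ) : Continuous (ev q : E n → ℝ) := by
  unfold ev
  have h := MvPolynomial.continuous_eval q
  refine h.comp ?_
  fun_prop

lemma ev_smul {q : MvPolynomial (Fin n) ℝ} {d : ℕ} (hq : q.IsHomogeneous d) (τ : ℝ) (y : E n) :
    ev q (τ • y) = τ ^ d * ev q y := by
  unfold ev
  rw [MvPolynomial.eval_eq', MvPolynomial.eval_eq', Finset.mul_sum]
  refine Finset.sum_congr rfl fun m hm => ?_
  have h1 : ∑ i, m i = d := by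
    have h2 := hq (MvPolynomial.mem_support_iff.1 hm)
    rw [Finsupp.weight_apply, Finsupp.sum_fintype] at h2
    · simpa using h2
    · intro i; simp
  have h3 : ∏ i, (τ • y) i ^ m i = τ ^ d * ∏ i, y i ^ m i := by
    rw [← h1, ← Finset.prod_pow_eq_pow_sum, ← Finset.prod_mul_distrib]
    refine Finset.prod_congr rfl fun i _ => ?_
    simp [mul_pow]
  rw [h3]; ring

/-- restriction of a polynomial to a line -/
noncomputable def lin (q : MvPolynomial (Fin n) ℝ) (y v : E n) : Polynomial ℝ :=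
  MvPolynomial.aeval (fun i => Polynomial.C (y i) + Polynomial.C (v i) * Polynomial.X) q

lemma lin_eval (q : MvPolynomial (Fin n) ℝ) (y v : E n) (τ : ℝ) :
    (lin q y v).eval τ = ev q (y + τ • v) := by
  unfold lin ev
  rw [MvPolynomial.aeval_def, MvPolynomial.eval, ← Polynomial.coe_evalRingHom,
    MvPolynomial.hom_eval₂]
  congr 1
  · ext x; simp
  · ext i; simp; ring

lemma lin_natDegree {q : MvPolynomial (Fin n) ℝ} {d : ℕ} (hq : q.IsHomogeneous d) (y v : E n) :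
    (lin q y v).natDegree ≤ d := by
  have h := MvPolynomial.aeval_natDegree_le (m := d) (n := 1) q hq.totalDegree_le
    (fun i => Polynomial.C (y i) + Polynomial.C (v i) * Polynomial.X) (fun i => by
      refine (Polynomial.natDegree_add_le _ _).trans ?_
      rw [Polynomial.natDegree_C]
      refine max_le (Nat.zero_le _) ?_
      exact (Polynomial.natDegree_C_mul_le _ _).trans Polynomial.natDegree_X_le)
  rw [mul_one] at h
  exact h

lemma iterD (p : Polynomial ℝ) (k : ℕ) :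
    iteratedDeriv k (fun x => p.eval x) = fun x => (Polynomial.derivative^[k] p).eval x := by
  induction k with
  | zero => simp
  | succ k ih =>
    rw [iteratedDeriv_succ, ih, Function.iterate_succ_apply']
    funext x
    exact Polynomial.deriv _

lemma polyCD (p : Polynomial ℝ) : ContDiff ℝ ∞ (fun x : ℝ => p.eval x) := by
  have h := p.contDiff_aeval (𝕜 := ℝ) (R := ℝ) (n := ∞)
  simpa using h

/-- the constant -/
def KK : ℝ := 4608

lemma KK_pos : 0 < KK := by unfold KK; norm_num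

lemma KK_ge {d : ℕ} (hd : 1 ≤ d) : 2 * 48 ^ (d + 1) ≤ KK ^ d := by
  obtain ⟨e, rfl⟩ := Nat.exists_eq_add_of_le hd
  induction e with
  | zero => unfold KK; norm_num
  | succ e ih =>
    have h1 : KK ^ (1 + (e + 1)) = KK ^ (1 + e) * KK := by ring
    have h2 : (2 : ℝ) * 48 ^ (1 + (e + 1) + 1) = (2 * 48 ^ (1 + e + 1)) * 48 := by ring
    rw [h1, h2]
    have h3 := ih (by omega)
    have h4 : (48 : ℝ) ≤ KK := by unfold KK; norm_num
    exact mul_le_mul h3 h4 (by norm_num) (by have := KK_pos; positivity)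

/-- maximum of finitely many polynomials on the closed unit ball -/
lemma exists_max (hn : 1 ≤ n) {d : ℕ} (Q : Fin n → MvPolynomial (Fin n) ℝ)
    (hQ : ∀ i, (Q i).IsHomogeneous d) (hQ0 : ∃ i, Q i ≠ 0) :
    ∃ (i₀ : Fin n) (y₀ : E n), ‖y₀‖ ≤ 1 ∧ 0 < |ev (Q i₀) y₀| ∧
      ∀ i y, ‖y‖ ≤ 1 → |ev (Q i) y| ≤ |ev (Q i₀) y₀| := by
  have h1 : ∀ i, ∃ y ∈ closedBall (0 : E n) 1, IsMaxOn (fun y => |ev (Q i) y|) (closedBall 0 1) y :=
    fun i => (isCompact_closedBall 0 1).exists_isMaxOn ⟨0, by simp⟩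
      (ev_cont (Q i)).abs.continuousOn
  choose yy hyy hmax using h1
  have : Nonempty (Fin n) := ⟨⟨0, by omega⟩⟩
  obtain ⟨i₀, hi₀⟩ := Finite.exists_max (fun i => |ev (Q i) (yy i)|)
  have hall : ∀ i y, ‖y‖ ≤ 1 → |ev (Q i) y| ≤ |ev (Q i₀) (yy i₀)| := fun i y hy =>
    (hmax i (by simpa using hy)).trans (hi₀ i)
  refine ⟨i₀, yy i₀, by simpa using hyy i₀, ?_, hall⟩
  by_contra hcon
  obtain ⟨i, hi⟩ := hQ0
  apply hi
  have hz : ∀ y : E n, ‖y‖ ≤ 1 → ev (Q i) y = 0 := fun y hy => by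
    have := hall i y hy
    have h2 : |ev (Q i) y| ≤ 0 := by linarith
    exact abs_nonpos_iff.1 h2
  have hz2 : ∀ y : E n, ev (Q i) y = 0 := fun y => by
    have h3 := hz ((‖y‖ + 1)⁻¹ • y) (by
      rw [norm_smul, norm_inv, Real.norm_of_nonneg (by positivity), inv_mul_le_iff₀ (by positivity)]
      linarith)
    rw [ev_smul (hQ i)] at h3
    rcases mul_eq_zero.1 h3 with h4 | h4
    · exfalso
      have : 0 < (‖y‖ + 1)⁻¹ ^ d := by positivity
      linarith
    · exact h4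
  apply MvPolynomial.funext
  intro x
  have := hz2 (WithLp.toLp 2 x)
  unfold ev at this
  simpa using this

/-- scaled values -/
noncomputable def VV (Q : Fin n → MvPolynomial (Fin n) ℝ) (d : ℕ) (H : ℝ) (i : Fin n) (y : E n) : ℝ :=
  KK ^ d * ev (Q i) y / H

lemma VV_cont (Q : Fin n → MvPolynomial (Fin n) ℝ) (d : ℕ) (H : ℝ) (i : Fin n) :
    Continuous (VV Q d H i) := by
  unfold VV
  exact (continuous_const.mul (ev_cont _)).div_const _

/-- the good set -/
def AA (Q : Fin n → MvPolynomial (Fin n) ℝ) (d : ℕ) (H : ℝ) : Set (E n) :=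
  {y | y ∈ ball 0 1 ∧ (∀ i, |VV Q d H i y| ≤ 1) ∧ ∃ i, 1 / 2 ≤ |VV Q d H i y|}

lemma AA_meas (Q : Fin n → MvPolynomial (Fin n) ℝ) (d : ℕ) (H : ℝ) : MeasurableSet (AA Q d H) := by
  have e : AA Q d H = ball 0 1 ∩ ((⋂ i, {y | |VV Q d H i y| ≤ 1}) ∩
      ⋃ i, {y | 1 / 2 ≤ |VV Q d H i y|}) := by
    ext y; simp [AA]
  rw [e]
  refine measurableSet_ball.inter (MeasurableSet.inter (MeasurableSet.iInter fun i => ?_)
    (MeasurableSet.iUnion fun i => ?_))
  · exact (isClosed_le (VV_cont Q d H i).abs continuous_const).measurableSet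
  · exact (isClosed_le continuous_const (VV_cont Q d H i).abs).measurableSet

/-- the set where the largest polynomial is not small -/
lemma vol_S (hLR : StLR) (hSC : StSCU) (hn : 1 ≤ n) {d : ℕ} (hd : 1 ≤ d)
    {q : MvPolynomial (Fin n) ℝ} (hq : q.IsHomogeneous d) {y₀ : E n} (hy₀ : ‖y₀‖ ≤ 1)
    (hpos : 0 < |ev q y₀|) :
    ENNReal.ofReal ((1 / 2) ^ n) * ENNReal.ofReal (1 / 4) * volume (ball (0 : E n) 1) ≤
      volume {y : E n | y ∈ ball 0 1 ∧ 1 < |KK ^ d * ev q y / (|ev q y₀|)|} := by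
  set H := |ev q y₀| with hH
  set S : Set (E n) := {y : E n | y ∈ ball 0 1 ∧ 1 < |KK ^ d * ev q y / H|} with hS
  have hSm : MeasurableSet S := by
    have : IsOpen S := by
      have h1 : Continuous fun y : E n => |KK ^ d * ev q y / H| :=
        ((continuous_const.mul (ev_cont q)).div_const _).abs
      exact isOpen_ball.inter (isOpen_lt continuous_const h1)
    exact this.measurableSet
  have hY : ∀ v ∈ ball (-y₀) (1 : ℝ), ENNReal.ofReal (1 / 4) ≤
      volume {τ : ℝ | τ ∈ Icc (1 / 2 : ℝ) 1 ∧ y₀ + τ • v ∈ S} := by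
    intro v hv
    have hv' : ‖v + y₀‖ < 1 := by
      rw [mem_ball, dist_eq_norm, sub_neg_eq_add] at hv; exact hv
    set p := lin q y₀ v with hp
    have hdeg : p.natDegree ≤ d := lin_natDegree hq _ _
    set η : ℝ := H / (2 * 48 ^ (d + 1)) with hη
    have hcont : Continuous fun τ : ℝ => |p.eval τ| := p.continuous.abs
    -- the bad set is small
    have hbad : volume {τ : ℝ | τ ∈ Icc (1 / 2 : ℝ) 1 ∧ |p.eval τ| ≤ η} < ENNReal.ofReal (1 / 4) := by
      by_contra hcon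
      push Not at hcon
      have h1 := hLR d 1 (1 / 4) η 0 one_pos (by norm_num) le_rfl univ isOpen_univ
        (subset_univ _) (fun x => p.eval x) (polyCD p).contDiffOn (fun x _ => by
          rw [iterD, Polynomial.iterate_derivative_eq_zero (by omega)]
          simp) {τ : ℝ | τ ∈ Icc (1 / 2 : ℝ) 1 ∧ |p.eval τ| ≤ η} (fun τ hτ => ⟨by linarith [hτ.1.1],
            hτ.1.2⟩) hcon (fun x hx => hx.2)
      have h2 : p.eval 0 = ev q y₀ := by rw [hp, lin_eval]; simp
      simp only [h2] at h1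
      have h3 : (12 * (1 : ℝ) / (1 / 4)) ^ (d + 1) * η = H / 2 := by
        rw [hη]
        have : (12 * (1 : ℝ) / (1 / 4)) = 48 := by norm_num
        rw [this]
        field_simp
      rw [h3] at h1
      simp only [zero_mul, zero_div, add_zero] at h1
      linarith
    have htot : ENNReal.ofReal (1 / 2) ≤
        volume {τ : ℝ | τ ∈ Icc (1 / 2 : ℝ) 1 ∧ |p.eval τ| ≤ η} +
        volume {τ : ℝ | τ ∈ Icc (1 / 2 : ℝ) 1 ∧ η < |p.eval τ|} := by
      have h1 : volume (Icc (1 / 2 : ℝ) 1) = ENNReal.ofReal (1 / 2) := by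
        rw [Real.volume_Icc]; norm_num
      rw [← h1]
      refine (measure_mono ?_).trans (measure_union_le _ _)
      intro τ hτ
      rcases le_or_gt (|p.eval τ|) η with h | h
      · exact Or.inl ⟨hτ, h⟩
      · exact Or.inr ⟨hτ, h⟩
    have hsub : {τ : ℝ | τ ∈ Icc (1 / 2 : ℝ) 1 ∧ η < |p.eval τ|} ⊆
        {τ : ℝ | τ ∈ Icc (1 / 2 : ℝ) 1 ∧ y₀ + τ • v ∈ S} := by
      rintro τ ⟨hτ, h⟩
      refine ⟨hτ, ?_, ?_⟩
      · rw [mem_ball_zero_iff]
        have e1 : y₀ + τ • v = (1 - τ) • y₀ + τ • (v + y₀) := by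
          rw [smul_add, sub_smul, one_smul]; abel
        rw [e1]
        calc ‖(1 - τ) • y₀ + τ • (v + y₀)‖ ≤ ‖(1 - τ) • y₀‖ + ‖τ • (v + y₀)‖ := norm_add_le _ _
          _ = (1 - τ) * ‖y₀‖ + τ * ‖v + y₀‖ := by
            rw [norm_smul, norm_smul, Real.norm_of_nonneg (by linarith [hτ.2]),
              Real.norm_of_nonneg (by linarith [hτ.1])]
          _ < 1 := by nlinarith [hτ.1, hτ.2, norm_nonneg y₀, norm_nonneg (v + y₀)]
      · rw [← lin_eval, ← hp, abs_div, abs_mul, abs_of_pos (pow_pos KK_pos d), abs_of_pos hpos,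
          lt_div_iff₀ hpos, one_mul]
        have h4 : H ≤ KK ^ d * η := by
          rw [hη, mul_div_assoc', le_div_iff₀ (by positivity)]
          rw [mul_comm]
          exact mul_le_mul_of_nonneg_right (KK_ge hd) hpos.le
        calc H ≤ KK ^ d * η := h4
          _ < _ := mul_lt_mul_of_pos_left h (pow_pos KK_pos d)
    have hfin : ENNReal.ofReal (1 / 4) ≤
        volume {τ : ℝ | τ ∈ Icc (1 / 2 : ℝ) 1 ∧ η < |p.eval τ|} := by
      by_contra hcon
      push Not at hcon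
      have h5 := ENNReal.add_lt_add hbad hcon
      rw [← ENNReal.ofReal_add (by norm_num) (by norm_num)] at h5
      have h6 : (1 / 4 + 1 / 4 : ℝ) = 1 / 2 := by norm_num
      rw [h6] at h5
      exact absurd (htot.trans_lt h5) (lt_irrefl _)
    exact hfin.trans (measure_mono hsub)
  have key := hSC n hn S hSm y₀ 2 (1 / 2) (by norm_num) (by norm_num) (by norm_num)
    (ball (-y₀) 1) measurableSet_ball (fun v hv => by
      rw [mem_ball, dist_eq_norm, sub_neg_eq_add] at hv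
      rw [mem_ball_zero_iff]
      have : v = (v + y₀) - y₀ := by abel
      calc ‖v‖ = ‖(v + y₀) - y₀‖ := by rw [← this]
        _ ≤ ‖v + y₀‖ + ‖y₀‖ := norm_sub_le _ _
        _ < 2 := by linarith) (ENNReal.ofReal (1 / 4)) hY
  rw [Measure.addHaar_ball_center] at key
  exact key.trans (measure_mono inter_subset_left)

/-- step (4) -/
theorem geom (hLR : StLR) (hSC : StSCU) (hn : 1 ≤ n) :
    ∃ c₁ : ℝ, 0 < c₁ ∧ ∀ (d : ℕ), 1 ≤ d → ∀ (Q : Fin n → MvPolynomial (Fin n) ℝ),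
      (∀ i, (Q i).IsHomogeneous d) → (∃ i, Q i ≠ 0) → ∃ H : ℝ, 0 < H ∧
        ENNReal.ofReal (c₁ / d) ≤ volume (AA Q d H) := by
  set wn := (volume (ball (0 : E n) 1)).toReal with hw
  have hwfin : volume (ball (0 : E n) 1) ≠ ⊤ := measure_ball_lt_top.ne
  have hwpos : 0 < wn := ENNReal.toReal_pos (measure_ball_pos _ _ one_pos).ne' hwfin
  have hKK := KK_pos
  refine ⟨(1 / (2 * KK)) ^ n * (1 / (2 * KK)) * ((1 / 2) ^ n * (1 / 4) * wn), by positivity, ?_⟩
  intro d hd Q hQ hQ0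
  obtain ⟨i₀, y₀, hy₀, hpos, hmax⟩ := exists_max hn Q hQ hQ0
  refine ⟨|ev (Q i₀) y₀|, hpos, ?_⟩
  set H := |ev (Q i₀) y₀| with hH
  have hS := vol_S hLR hSC hn hd (hQ i₀) hy₀ hpos
  rw [← hH] at hS
  set S : Set (E n) := {y : E n | y ∈ ball 0 1 ∧ 1 < |KK ^ d * ev (Q i₀) y / H|} with hSdef
  have hSm : MeasurableSet S := by
    have : IsOpen S := by
      have h1 : Continuous fun y : E n => |KK ^ d * ev (Q i₀) y / H| :=
        ((continuous_const.mul (ev_cont _)).div_const _).abs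
      exact isOpen_ball.inter (isOpen_lt continuous_const h1)
    exact this.measurableSet
  have hd0 : (0 : ℝ) < d := by exact_mod_cast hd
  have hd1 : (1 : ℝ) ≤ d := by exact_mod_cast hd
  have hY : ∀ y ∈ S, ENNReal.ofReal (1 / (2 * KK * d)) ≤
      volume {τ : ℝ | τ ∈ Icc (1 / (2 * KK) : ℝ) 1 ∧ (0 : E n) + τ • y ∈ AA Q d H} := by
    intro y hy
    -- the maximum
    have : Nonempty (Fin n) := ⟨i₀⟩
    obtain ⟨i₁, hi₁⟩ := Finite.exists_max (fun i => |VV Q d H i y|)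
    set M := |VV Q d H i₁ y| with hM
    have hM1 : 1 < M := lt_of_lt_of_le hy.2 (hi₁ i₀)
    have hyn : ‖y‖ < 1 := by simpa using hy.1
    have hMK : M ≤ KK ^ d := by
      rw [hM, VV, abs_div, abs_mul, abs_of_pos (pow_pos hKK d), abs_of_pos hpos,
        div_le_iff₀ hpos]
      exact mul_le_mul_of_nonneg_left (hmax _ _ hyn.le) (pow_pos hKK d).le
    set b : ℝ := (M⁻¹) ^ ((d : ℝ)⁻¹) with hb
    have hbd : b ^ d = M⁻¹ := Real.rpow_inv_natCast_pow (by positivity) (by omega)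
    have hb0 : 0 < b := Real.rpow_pos_of_pos (by positivity) _
    have hb1 : b ≤ 1 := by
      by_contra hcon
      push Not at hcon
      have h1 : 1 < b ^ d := one_lt_pow₀ hcon (by omega)
      rw [hbd] at h1
      have h2 : M⁻¹ < 1 := inv_lt_one_of_one_lt₀ hM1
      linarith
    have hbK : 1 / KK ≤ b := by
      by_contra hcon
      push Not at hcon
      have h1 : b ^ d < (1 / KK) ^ d := pow_lt_pow_left₀ hcon hb0.le (by omega)
      rw [hbd, one_div, inv_pow] at h1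
      have h2 : (KK ^ d)⁻¹ ≤ M⁻¹ := inv_anti₀ (by linarith) hMK
      linarith
    have hθ : (1 / 2 : ℝ) ≤ 1 - 1 / (2 * d) := by
      have : 1 / (2 * (d : ℝ)) ≤ 1 / 2 := by
        apply one_div_le_one_div_of_le (by norm_num); linarith
      linarith
    have hθd : (1 / 2 : ℝ) ≤ (1 - 1 / (2 * d)) ^ d := by
      have h1 := one_add_mul_le_pow (a := -(1 / (2 * (d : ℝ)))) (by linarith) d
      have h2 : 1 + (d : ℝ) * -(1 / (2 * d)) = 1 / 2 := by field_simp; norm_num
      rw [h2] at h1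
      simpa [sub_eq_add_neg] using h1
    have hsub : Icc (b * (1 - 1 / (2 * d))) b ⊆
        {τ : ℝ | τ ∈ Icc (1 / (2 * KK) : ℝ) 1 ∧ (0 : E n) + τ • y ∈ AA Q d H} := by
      intro τ hτ
      have h1 : 1 / (2 * KK) ≤ τ := by
        calc 1 / (2 * KK) = (1 / KK) * (1 / 2) := by field_simp
          _ ≤ b * (1 - 1 / (2 * d)) := mul_le_mul hbK hθ (by norm_num) hb0.le
          _ ≤ τ := hτ.1
      have hτ0 : 0 < τ := lt_of_lt_of_le (by positivity) h1
      have hτ1 : τ ≤ 1 := hτ.2.trans hb1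
      have hVV : ∀ i, |VV Q d H i (τ • y)| = τ ^ d * |VV Q d H i y| := by
        intro i
        have : VV Q d H i (τ • y) = τ ^ d * VV Q d H i y := by
          unfold VV; rw [ev_smul (hQ i)]; ring
        rw [this, abs_mul, abs_of_pos (pow_pos hτ0 d)]
      have hM0 : 0 < M := by linarith
      refine ⟨⟨h1, hτ1⟩, ?_⟩
      rw [zero_add]
      refine ⟨?_, ?_, i₁, ?_⟩
      · rw [mem_ball_zero_iff, norm_smul, Real.norm_of_nonneg hτ0.le]
        calc τ * ‖y‖ ≤ 1 * ‖y‖ := mul_le_mul_of_nonneg_right hτ1 (norm_nonneg _)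
          _ < 1 := by linarith
      · intro i
        rw [hVV]
        calc τ ^ d * |VV Q d H i y| ≤ b ^ d * M :=
              mul_le_mul (pow_le_pow_left₀ hτ0.le hτ.2 d) (hi₁ i) (abs_nonneg _) (by positivity)
          _ = 1 := by rw [hbd]; field_simp
      · rw [hVV, ← hM]
        have h2 : (b * (1 - 1 / (2 * d))) ^ d ≤ τ ^ d :=
          pow_le_pow_left₀ (mul_nonneg hb0.le (by linarith)) hτ.1 d
        calc (1 / 2 : ℝ) ≤ (1 - 1 / (2 * d)) ^ d := hθd
          _ = (b * (1 - 1 / (2 * d))) ^ d * M := by rw [mul_pow, hbd]; field_simp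
          _ ≤ τ ^ d * M := mul_le_mul_of_nonneg_right h2 hM0.le
    refine le_trans ?_ (measure_mono hsub)
    rw [Real.volume_Icc]
    apply ENNReal.ofReal_le_ofReal
    have h3 : b - b * (1 - 1 / (2 * d)) = b * (1 / (2 * d)) := by ring
    rw [h3]
    calc 1 / (2 * KK * d) = (1 / KK) * (1 / (2 * d)) := by field_simp
      _ ≤ b * (1 / (2 * d)) := mul_le_mul_of_nonneg_right hbK (by positivity)
  have key := hSC n hn (AA Q d H) (AA_meas Q d H) 0 1 (1 / (2 * KK)) one_pos (by positivity)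
    (by rw [div_le_one (by positivity)]; unfold KK; norm_num) S hSm (fun y hy => hy.1)
    (ENNReal.ofReal (1 / (2 * KK * d))) hY
  have key2 : ENNReal.ofReal ((1 / (2 * KK)) ^ n) * ENNReal.ofReal (1 / (2 * KK * d)) *
      (ENNReal.ofReal ((1 / 2) ^ n) * ENNReal.ofReal (1 / 4) * volume (ball (0 : E n) 1)) ≤
      volume (AA Q d H) :=
    (mul_le_mul_right hS _).trans (key.trans (measure_mono inter_subset_left))
  refine le_trans (le_of_eq ?_) key2
  rw [← ENNReal.ofReal_toReal hwfin, ← hw, ← ENNReal.ofReal_mul (by positivity),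
    ← ENNReal.ofReal_mul (by positivity), ← ENNReal.ofReal_mul (by positivity),
    ← ENNReal.ofReal_mul (by positivity)]
  congr 1
  field_simp

end Pool.Agent.Helper688.Crit.LOW
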