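import Pool.Agent.Helper688_Crit.Defs

/-!
Integrals of minors of rational and polynomial maps.
-/

set_option autoImplicit false

open MeasureTheory Metric Set Filter Topology
open scoped ContDiff ENNReal NNReal

namespace Pool.Agent.Helper688.Crit.RAT

open Pool.Agent.Helper688.Crit

/-- proved in job BEZ -/
def StBEZ : Prop := ∀ (n k : ℕ) (S : Finset (Fin n)) (p : Fin n → MvPolynomial (Fin n) ℝ)
    (q : MvPolynomial (Fin n) ℝ), (∀ l ∈ S, (p l).totalDegree ≤ k) → q.totalDegree ≤ k →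
    ∀ (b : Fin n → ℝ) (F : Finset (Fin n → ℝ)),
    (∀ x ∈ F, MvPolynomial.eval x q ≠ 0 ∧
      gmap S (fun l y => MvPolynomial.eval y (p l) / MvPolynomial.eval y q) x = b ∧
      (fderiv ℝ (gmap S (fun l y => MvPolynomial.eval y (p l) / MvPolynomial.eval y q)) x).det
        ≠ 0) →
    F.card ≤ (S.card * k + 1) ^ S.card

/-- proved in job AREA -/
def StAREA : Prop := ∀ (n m : ℕ) (G : (Fin n → ℝ) → (Fin n → ℝ)) (U : Set (Fin n → ℝ)), IsOpen U →
    ContDiffOn ℝ 1 G U →
    (∀ (b : Fin n → ℝ) (F : Finset (Fin n → ℝ)),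
      (∀ x ∈ F, x ∈ U ∧ G x = b ∧ (fderiv ℝ G x).det ≠ 0) → F.card ≤ m) →
    ∀ (Om : Set (Fin n → ℝ)), MeasurableSet Om → Om ⊆ U →
    ∀ (Bx : Set (Fin n → ℝ)), MeasurableSet Bx → (∀ x ∈ Om, G x ∈ Bx) →
    ∫⁻ x in Om, ENNReal.ofReal |(fderiv ℝ G x).det| ≤ m * volume Bx

/-- proved in job DET -/
def StDET2 : Prop := ∀ (n : ℕ) (i j : Fin n), i ≠ j → ∀ (f : Fin n → (Fin n → ℝ) → ℝ)
    (x : Fin n → ℝ), DifferentiableAt ℝ (f i) x → DifferentiableAt ℝ (f j) x →
    (fderiv ℝ (gmap {i, j} f) x).det =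
      pp i (f i) x * pp j (f j) x - pp j (f i) x * pp i (f j) x

/-- proved in job DET -/
def StDET3 : Prop := ∀ (n : ℕ) (q i j : Fin n), q ≠ i → q ≠ j → i ≠ j →
    ∀ (f : Fin n → (Fin n → ℝ) → ℝ) (x : Fin n → ℝ), DifferentiableAt ℝ (f q) x →
    DifferentiableAt ℝ (f i) x → DifferentiableAt ℝ (f j) x →
    (fderiv ℝ (gmap {q, i, j} f) x).det =
      det3 (pp q (f q) x) (pp i (f q) x) (pp j (f q) x)
        (pp q (f i) x) (pp i (f i) x) (pp j (f i) x)
        (pp q (f j) x) (pp i (f j) x) (pp j (f j) x)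

theorem ev_cd {n : ℕ} (p : MvPolynomial (Fin n) ℝ) :
    ContDiff ℝ 1 (fun x : Fin n → ℝ => MvPolynomial.eval x p) := by
  have h := (AnalyticOnNhd.eval_mvPolynomial (𝕜 := ℝ) p).contDiffOn (n := 1) uniqueDiffOn_univ
  exact contDiffOn_univ.mp h

theorem ev_diff {n : ℕ} (p : MvPolynomial (Fin n) ℝ) :
    Differentiable ℝ (fun x : Fin n → ℝ => MvPolynomial.eval x p) :=
  (ev_cd p).differentiable one_ne_zero

theorem div_diff {n : ℕ} (r c : MvPolynomial (Fin n) ℝ) {x : Fin n → ℝ}
    (hx : MvPolynomial.eval x c ≠ 0) :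
    DifferentiableAt ℝ (fun y : Fin n → ℝ => MvPolynomial.eval y r / MvPolynomial.eval y c) x := by
  have h1 : ContDiffOn ℝ 1 (fun y : Fin n → ℝ => MvPolynomial.eval y r / MvPolynomial.eval y c)
      {x | MvPolynomial.eval x c ≠ 0} :=
    (ev_cd r).contDiffOn.div (ev_cd c).contDiffOn fun x hx => hx
  have hU : IsOpen {x : Fin n → ℝ | MvPolynomial.eval x c ≠ 0} :=
    isOpen_ne_fun (ev_cd c).continuous continuous_const
  exact (h1.differentiableOn one_ne_zero).differentiableAt (hU.mem_nhds hx)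

theorem gmap_cd {n : ℕ} (S : Finset (Fin n)) (p : Fin n → MvPolynomial (Fin n) ℝ)
    (q : MvPolynomial (Fin n) ℝ) :
    ContDiffOn ℝ 1 (gmap S (fun l y => MvPolynomial.eval y (p l) / MvPolynomial.eval y q))
      {x | MvPolynomial.eval x q ≠ 0} := by
  rw [contDiffOn_pi]
  intro l
  unfold gmap
  by_cases hl : l ∈ S
  · simp only [if_pos hl]
    exact (ev_cd (p l)).contDiffOn.div (ev_cd q).contDiffOn fun x hx => hx
  · simp only [if_neg hl]
    exact (contDiff_apply ℝ ℝ l).contDiffOn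

/-- the common part of both estimates -/
theorem main {n : ℕ} (hB : StBEZ) (hA : StAREA) (k : ℕ) (S : Finset (Fin n))
    (p : Fin n → MvPolynomial (Fin n) ℝ) (q : MvPolynomial (Fin n) ℝ)
    (hp : ∀ l ∈ S, (p l).totalDegree ≤ k) (hq : q.totalDegree ≤ k)
    (Om : Set (Fin n → ℝ)) (hOm : MeasurableSet Om) (hO : ∀ x ∈ Om, MvPolynomial.eval x q ≠ 0)
    (Bx : Set (Fin n → ℝ)) (hBx : MeasurableSet Bx)
    (hG : ∀ x ∈ Om, gmap S (fun l y => MvPolynomial.eval y (p l) / MvPolynomial.eval y q) x ∈ Bx) :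
    ∫⁻ x in Om, ENNReal.ofReal |(fderiv ℝ (gmap S
      (fun l y => MvPolynomial.eval y (p l) / MvPolynomial.eval y q)) x).det| ≤
      (((S.card * k + 1) ^ S.card : ℕ) : ℝ≥0∞) * volume Bx := by
  have hU : IsOpen {x : Fin n → ℝ | MvPolynomial.eval x q ≠ 0} :=
    isOpen_ne_fun (ev_cd q).continuous continuous_const
  exact hA n _ _ _ hU (gmap_cd S p q) (fun b F hF => hB n k S p q hp hq b F hF) Om hOm hO Bx hBx hG

/-- TARGET 1 -/
theorem rat2 (hB : StBEZ) (hA : StAREA) (hD : StDET2) (n k : ℕ) (i j : Fin n) (hij : i ≠ j)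
    (pa pb pc : MvPolynomial (Fin n) ℝ) (ha : pa.totalDegree ≤ k) (hb : pb.totalDegree ≤ k)
    (hc : pc.totalDegree ≤ k) (Om : Set (Fin n → ℝ)) (hOm : MeasurableSet Om)
    (hO : ∀ x ∈ Om, MvPolynomial.eval x pc ≠ 0 ∧
      |MvPolynomial.eval x pa / MvPolynomial.eval x pc| ≤ 2 ∧
      |MvPolynomial.eval x pb / MvPolynomial.eval x pc| ≤ 2 ∧ ∀ l, |x l| ≤ 1) :
    ∫⁻ x in Om, ENNReal.ofReal
      |pp i (fun y => MvPolynomial.eval y pa / MvPolynomial.eval y pc) x *
        pp j (fun y => MvPolynomial.eval y pb / MvPolynomial.eval y pc) x -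
       pp j (fun y => MvPolynomial.eval y pa / MvPolynomial.eval y pc) x *
        pp i (fun y => MvPolynomial.eval y pb / MvPolynomial.eval y pc) x| ≤
      ENNReal.ofReal ((2 * k + 1) ^ 2 * 4 ^ n) := by
  classical
  set p : Fin n → MvPolynomial (Fin n) ℝ := fun l => if l = i then pa else pb with hp
  have hpi : p i = pa := if_pos rfl
  have hpj : p j = pb := if_neg hij.symm
  have hcard : ({i, j} : Finset (Fin n)).card = 2 := Finset.card_pair hij
  set Bx : Set (Fin n → ℝ) := Set.pi univ (fun _ => Icc (-2 : ℝ) 2) with hBx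
  have hBm : MeasurableSet Bx := MeasurableSet.univ_pi fun _ => measurableSet_Icc
  have hvol : volume Bx = ENNReal.ofReal (4 ^ n) := by
    rw [hBx, volume_pi_pi]
    simp only [Real.volume_Icc]
    rw [Finset.prod_const, Finset.card_univ, Fintype.card_fin, ← ENNReal.ofReal_pow (by norm_num)]
    norm_num
  have key := main hB hA k {i, j} p pc (by
    intro l _
    simp only [hp]
    split_ifs
    · exact ha
    · exact hb) hc Om hOm (fun x hx => (hO x hx).1) Bx hBm (by
    intro x hx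
    obtain ⟨-, h2, h3, h4⟩ := hO x hx
    intro l _
    show gmap _ _ x l ∈ Icc (-2 : ℝ) 2
    unfold gmap
    rw [mem_Icc, ← abs_le]
    by_cases hl : l ∈ ({i, j} : Finset (Fin n))
    · rw [if_pos hl]
      rw [Finset.mem_insert, Finset.mem_singleton] at hl
      show |MvPolynomial.eval x (p l) / MvPolynomial.eval x pc| ≤ 2
      rcases hl with rfl | rfl
      · rw [hpi]; exact h2
      · rw [hpj]; exact h3
    · rw [if_neg hl]
      exact (h4 l).trans (by norm_num))
  rw [hcard, hvol] at key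
  have e : ∫⁻ x in Om, ENNReal.ofReal
      |pp i (fun y => MvPolynomial.eval y pa / MvPolynomial.eval y pc) x *
        pp j (fun y => MvPolynomial.eval y pb / MvPolynomial.eval y pc) x -
       pp j (fun y => MvPolynomial.eval y pa / MvPolynomial.eval y pc) x *
        pp i (fun y => MvPolynomial.eval y pb / MvPolynomial.eval y pc) x| =
      ∫⁻ x in Om, ENNReal.ofReal |(fderiv ℝ (gmap {i, j}
        (fun l y => MvPolynomial.eval y (p l) / MvPolynomial.eval y pc)) x).det| := by
    apply setLIntegral_congr_fun hOm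
    intro x hx
    have hx0 := (hO x hx).1
    have hd : ∀ r : MvPolynomial (Fin n) ℝ,
        DifferentiableAt ℝ (fun y => MvPolynomial.eval y r / MvPolynomial.eval y pc) x :=
      fun r => div_diff r pc hx0
    have := hD n i j hij (fun l y => MvPolynomial.eval y (p l) / MvPolynomial.eval y pc) x
      (hd _) (hd _)
    simp only
    rw [this, hpi, hpj]
  rw [e]
  refine key.trans (le_of_eq ?_)
  rw [ENNReal.ofReal_mul (by positivity)]
  congr 1
  rw [← ENNReal.ofReal_natCast]
  congr 1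
  push_cast
  ring

/-- TARGET 2 -/
theorem pol3 (hB : StBEZ) (hA : StAREA) (hD : StDET3) (n k : ℕ) (q i j : Fin n) (hqi : q ≠ i)
    (hqj : q ≠ j) (hij : i ≠ j)
    (p1 p2 p3 : MvPolynomial (Fin n) ℝ) (h1 : p1.totalDegree ≤ k) (h2 : p2.totalDegree ≤ k)
    (h3 : p3.totalDegree ≤ k) (Om : Set (Fin n → ℝ)) (hOm : MeasurableSet Om) (ρ : ℝ) (hρ : 0 ≤ ρ)
    (hO : ∀ x ∈ Om, |MvPolynomial.eval x p1| ≤ ρ ∧ |MvPolynomial.eval x p2| ≤ ρ ∧
      |MvPolynomial.eval x p3| ≤ ρ ∧ ∀ l, |x l| ≤ 1) :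
    ∫⁻ x in Om, ENNReal.ofReal
      |det3 (pp q (fun y => MvPolynomial.eval y p1) x) (pp i (fun y => MvPolynomial.eval y p1) x)
          (pp j (fun y => MvPolynomial.eval y p1) x)
        (pp q (fun y => MvPolynomial.eval y p2) x) (pp i (fun y => MvPolynomial.eval y p2) x)
          (pp j (fun y => MvPolynomial.eval y p2) x)
        (pp q (fun y => MvPolynomial.eval y p3) x) (pp i (fun y => MvPolynomial.eval y p3) x)
          (pp j (fun y => MvPolynomial.eval y p3) x)| ≤
      ENNReal.ofReal ((3 * k + 1) ^ 3 * (2 * ρ) ^ 3 * 2 ^ n) := by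
  classical
  set p : Fin n → MvPolynomial (Fin n) ℝ := fun l => if l = q then p1 else if l = i then p2 else p3
    with hp
  have hpq : p q = p1 := if_pos rfl
  have hpi : p i = p2 := by
    show (if i = q then p1 else if i = i then p2 else p3) = p2
    rw [if_neg hqi.symm, if_pos rfl]
  have hpj : p j = p3 := by
    show (if j = q then p1 else if j = i then p2 else p3) = p3
    rw [if_neg hqj.symm, if_neg hij.symm]
  have hcard : ({q, i, j} : Finset (Fin n)).card = 3 := by
    rw [Finset.card_eq_three]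
    exact ⟨q, i, j, hqi, hqj, hij, rfl⟩
  set S : Finset (Fin n) := {q, i, j} with hS
  set Bx : Set (Fin n → ℝ) := Set.pi univ (fun l => if l ∈ S then Icc (-ρ) ρ else Icc (-1 : ℝ) 1)
    with hBx
  have hBm : MeasurableSet Bx := MeasurableSet.univ_pi fun l => by
    split_ifs
    · exact measurableSet_Icc
    · exact measurableSet_Icc
  have hvol : volume Bx ≤ ENNReal.ofReal ((2 * ρ) ^ 3 * 2 ^ n) := by
    rw [hBx, volume_pi_pi]
    have e1 : ∀ l : Fin n, volume (if l ∈ S then Icc (-ρ) ρ else Icc (-1 : ℝ) 1) =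
        if l ∈ S then ENNReal.ofReal (2 * ρ) else ENNReal.ofReal 2 := by
      intro l
      split_ifs
      · rw [Real.volume_Icc]; congr 1; ring
      · rw [Real.volume_Icc]; norm_num
    simp only [e1]
    have e2 : ENNReal.ofReal ((2 * ρ) ^ 3 * 2 ^ n) =
        ENNReal.ofReal (2 * ρ) ^ 3 * ENNReal.ofReal 2 ^ n := by
      rw [ENNReal.ofReal_mul (by positivity), ENNReal.ofReal_pow (by positivity),
        ENNReal.ofReal_pow (by norm_num)]
    rw [e2, Finset.prod_ite, Finset.prod_const, Finset.prod_const, Finset.filter_mem_eq_inter,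
      Finset.univ_inter, hcard]
    gcongr
    · norm_num
    · exact (Finset.card_filter_le _ _).trans (by simp)
  have h1e : ∀ x : Fin n → ℝ, MvPolynomial.eval x (1 : MvPolynomial (Fin n) ℝ) = 1 := fun x =>
    map_one _
  have key := main hB hA k S p 1 (by
    intro l _
    simp only [hp]
    split_ifs
    · exact h1
    · exact h2
    · exact h3) (by rw [MvPolynomial.totalDegree_one]; exact Nat.zero_le _) Om hOm
    (fun x _ => by rw [h1e]; exact one_ne_zero) Bx hBm (by
    intro x hx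
    obtain ⟨g1, g2, g3, g4⟩ := hO x hx
    intro l _
    show gmap _ _ x l ∈ (if l ∈ S then Icc (-ρ) ρ else Icc (-1 : ℝ) 1)
    unfold gmap
    by_cases hl : l ∈ S
    · rw [if_pos hl, if_pos hl, mem_Icc, ← abs_le]
      show |MvPolynomial.eval x (p l) / MvPolynomial.eval x (1 : MvPolynomial (Fin n) ℝ)| ≤ ρ
      rw [h1e, div_one]
      rw [hS, Finset.mem_insert, Finset.mem_insert, Finset.mem_singleton] at hl
      rcases hl with rfl | rfl | rfl
      · rw [hpq]; exact g1
      · rw [hpi]; exact g2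
      · rw [hpj]; exact g3
    · rw [if_neg hl, if_neg hl, mem_Icc, ← abs_le]
      exact g4 l)
  rw [hcard] at key
  have e : ∫⁻ x in Om, ENNReal.ofReal
      |det3 (pp q (fun y => MvPolynomial.eval y p1) x) (pp i (fun y => MvPolynomial.eval y p1) x)
          (pp j (fun y => MvPolynomial.eval y p1) x)
        (pp q (fun y => MvPolynomial.eval y p2) x) (pp i (fun y => MvPolynomial.eval y p2) x)
          (pp j (fun y => MvPolynomial.eval y p2) x)
        (pp q (fun y => MvPolynomial.eval y p3) x) (pp i (fun y => MvPolynomial.eval y p3) x)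
          (pp j (fun y => MvPolynomial.eval y p3) x)| =
      ∫⁻ x in Om, ENNReal.ofReal |(fderiv ℝ (gmap S
        (fun l y => MvPolynomial.eval y (p l) / MvPolynomial.eval y 1)) x).det| := by
    apply setLIntegral_congr_fun hOm
    intro x hx
    have hd : ∀ r : MvPolynomial (Fin n) ℝ, DifferentiableAt ℝ (fun y => MvPolynomial.eval y r /
        MvPolynomial.eval y (1 : MvPolynomial (Fin n) ℝ)) x := by
      intro r
      simp only [h1e, div_one]
      exact ev_diff r x
    have := hD n q i j hqi hqj hij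
      (fun l y => MvPolynomial.eval y (p l) / MvPolynomial.eval y 1) x (hd _) (hd _) (hd _)
    simp only
    rw [this]
    simp only [h1e, div_one, hpq, hpi, hpj]
  rw [e]
  refine (key.trans (mul_le_mul_right hvol _)).trans (le_of_eq ?_)
  rw [← ENNReal.ofReal_natCast, ← ENNReal.ofReal_mul (by positivity)]
  congr 1
  push_cast
  ring

end Pool.Agent.Helper688.Crit.RAT

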