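import Mathlib

/-!
JOB REG (MP_8465a2_an, owner helper688): regularity of functions with a smooth mean value formula.
-/

set_option autoImplicit false

open MeasureTheory Metric Set Filter Topology
open scoped ContDiff ENNReal NNReal Convolution

namespace Pool.Agent.Helper688.Crit.REG

/-- Euclidean space. -/
abbrev EE (n : ℕ) := EuclideanSpace ℝ (Fin n)

/-- There is some room between a closed ball and an open ball that contains it. -/
lemma slack {n : ℕ} {x x₀ : EE n} {r R : ℝ} (hr : 0 < r) (h : closedBall x r ⊆ ball x₀ R) :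
    ∃ δ, 0 < δ ∧ closedBall x (r + δ) ⊆ ball x₀ R := by
  obtain ⟨δ, hδ, h1⟩ := (isCompact_closedBall x r).exists_cthickening_subset_open isOpen_ball h
  rw [cthickening_closedBall hδ.le hr.le, add_comm] at h1
  exact ⟨δ, hδ, h1⟩

/-- The scaled kernel. -/
noncomputable def kap (n : ℕ) (η : EE n → ℝ) (r : ℝ) (w : EE n) : ℝ :=
  (r ^ n)⁻¹ * η ((-r⁻¹) • w)

lemma kap_zero {n : ℕ} {η : EE n → ℝ} (h1 : ∀ z, 1 ≤ ‖z‖ → η z = 0) {r : ℝ} (hr : 0 < r) {w : EE n}
    (hw : r ≤ ‖w‖) : kap n η r w = 0 := by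
  unfold kap
  rw [h1, mul_zero]
  rw [norm_smul, norm_neg, norm_inv, Real.norm_eq_abs, abs_of_pos hr, inv_mul_eq_div, le_div_iff₀ hr,
    one_mul]
  exact hw

lemma kap_smooth {n : ℕ} {η : EE n → ℝ} (hη : ContDiff ℝ ∞ η) (r : ℝ) : ContDiff ℝ ∞ (kap n η r) := by
  unfold kap
  exact contDiff_const.mul (hη.comp (contDiff_const_smul _))

lemma kap_cs {n : ℕ} {η : EE n → ℝ} (h1 : ∀ z, 1 ≤ ‖z‖ → η z = 0) {r : ℝ} (hr : 0 < r) :
    HasCompactSupport (kap n η r) := by
  refine HasCompactSupport.intro (isCompact_closedBall 0 r) fun w hw => kap_zero h1 hr ?_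
  rw [mem_closedBall_zero_iff, not_le] at hw
  exact hw.le

/-- The bilinear map of the convolution. -/
noncomputable def LL (F : Type) [NormedAddCommGroup F] [NormedSpace ℝ F] : F →L[ℝ] ℝ →L[ℝ] F :=
  (ContinuousLinearMap.lsmul ℝ ℝ).flip

lemma LL_apply {F : Type} [NormedAddCommGroup F] [NormedSpace ℝ F] (v : F) (t : ℝ) :
    LL F v t = t • v := rfl

variable {F : Type} [NormedAddCommGroup F] [NormedSpace ℝ F]

lemma conv_eq {n : ℕ} (η : EE n → ℝ) {r : ℝ} (hr : 0 < r) (g : EE n → F) (x : EE n) :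
    (g ⋆[LL F, volume] kap n η r) x = ∫ z, η z • g (x + r • z) := by
  rw [convolution_def]
  simp only [LL_apply]
  rw [← integral_add_left_eq_self (fun t => kap n η r (x - t) • g t) x]
  have h := Measure.integral_comp_smul (volume : Measure (EE n))
    (fun t => kap n η r (x - (x + t)) • g (x + t)) r
  rw [finrank_euclideanSpace_fin, abs_of_pos (by positivity)] at h
  have h2 : ∀ z : EE n, kap n η r (x - (x + r • z)) • g (x + r • z)
      = (r ^ n)⁻¹ • (η z • g (x + r • z)) := by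
    intro z
    unfold kap
    rw [sub_add_cancel_left, smul_neg, neg_smul, neg_neg, smul_smul, inv_mul_cancel₀ hr.ne', one_smul,
      smul_smul]
  simp only [h2] at h
  rw [integral_smul] at h
  have hrn : ((r ^ n)⁻¹ : ℝ) ≠ 0 := by positivity
  exact ((smul_right_injective F hrn) h).symm

lemma kap_fderiv {n : ℕ} {η : EE n → ℝ} (hη : ContDiff ℝ ∞ η) (r : ℝ) (w : EE n) :
    fderiv ℝ (kap n η r) w = ((r ^ n)⁻¹ * (-r⁻¹)) • fderiv ℝ η ((-r⁻¹) • w) := by
  have hd : DifferentiableAt ℝ η ((-r⁻¹) • w) := (hη.differentiable (by simp)) _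
  have h2 : HasFDerivAt (fun w : EE n => η ((-r⁻¹) • w))
      ((fderiv ℝ η ((-r⁻¹) • w)).comp ((-r⁻¹) • ContinuousLinearMap.id ℝ (EE n))) w :=
    hd.hasFDerivAt.comp w ((hasFDerivAt_id w).const_smul (-r⁻¹))
  have h3 := (h2.const_mul ((r ^ n)⁻¹)).fderiv
  unfold kap
  rw [h3]
  ext v
  simp
  ring

lemma kap_int {n : ℕ} {η : EE n → ℝ} (hη : ContDiff ℝ ∞ η) {r : ℝ} (hr : 0 < r) :
    ∫ w, ‖fderiv ℝ (kap n η r) w‖ = r⁻¹ * ∫ w, ‖fderiv ℝ η w‖ := by
  simp only [kap_fderiv hη, norm_smul]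
  rw [integral_const_mul]
  rw [Measure.integral_comp_smul (volume : Measure (EE n)) (fun w => ‖fderiv ℝ η w‖) (-r⁻¹)]
  rw [finrank_euclideanSpace_fin, smul_eq_mul, ← mul_assoc]
  congr 1
  rw [norm_mul, norm_neg, norm_inv, norm_inv, norm_pow, abs_inv, abs_pow, abs_neg, abs_inv,
    Real.norm_eq_abs, abs_of_pos hr]
  have : r ^ n ≠ 0 := by positivity
  field_simp
  rw [div_pow, one_pow]
  field_simp

/-- The mean value property. -/
def MV {n : ℕ} (η : EE n → ℝ) (f : EE n → F) (x₀ : EE n) (R : ℝ) : Prop :=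
  ContinuousOn f (ball x₀ R) ∧ ∀ (x : EE n) (r : ℝ), 0 < r → closedBall x r ⊆ ball x₀ R →
    f x = ∫ z, η z • f (x + r • z)

lemma repr_near {n : ℕ} {η : EE n → ℝ} (h1 : ∀ z, 1 ≤ ‖z‖ → η z = 0) {f : EE n → F} {x₀ : EE n}
    {R : ℝ} (hf : MV η f x₀ R) {x : EE n} {r δ : ℝ} (hr : 0 < r)
    (h : closedBall x (r + δ) ⊆ ball x₀ R) {x' : EE n} (hx' : x' ∈ ball x δ) :
    f x' = (((closedBall x (r + δ)).indicator f) ⋆[LL F, volume] kap n η r) x' := by
  have hd : dist x' x < δ := hx'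
  rw [conv_eq η hr, hf.2 x' r hr ?_]
  · refine integral_congr_ae (Eventually.of_forall fun z => ?_)
    by_cases hz : 1 ≤ ‖z‖
    · simp [h1 z hz]
    · have hmem : x' + r • z ∈ closedBall x (r + δ) := by
        rw [mem_closedBall, dist_eq_norm]
        have : x' + r • z - x = (x' - x) + r • z := by abel
        rw [this]
        refine (norm_add_le _ _).trans ?_
        rw [norm_smul, Real.norm_eq_abs, abs_of_pos hr, ← dist_eq_norm]
        have : r * ‖z‖ ≤ r := by nlinarith [not_le.1 hz]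
        linarith
      simp only [indicator_of_mem hmem]
  · refine subset_trans (closedBall_subset_closedBall' ?_) h
    linarith

omit [NormedSpace ℝ F] in
lemma ind_int {n : ℕ} {f : EE n → F} {x₀ : EE n} {R : ℝ} (hf : ContinuousOn f (ball x₀ R)) {x : EE n}
    {ρ : ℝ} (h : closedBall x ρ ⊆ ball x₀ R) :
    Integrable ((closedBall x ρ).indicator f) volume := by
  rw [integrable_indicator_iff measurableSet_closedBall]
  exact (hf.mono h).integrableOn_compact (isCompact_closedBall x ρ)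

lemma key {n : ℕ} {η : EE n → ℝ} (hη : ContDiff ℝ ∞ η) (h1 : ∀ z, 1 ≤ ‖z‖ → η z = 0) {f : EE n → F}
    {x₀ : EE n} {R : ℝ} (hf : MV η f x₀ R) {x : EE n} {r : ℝ} (hr : 0 < r)
    (h : closedBall x r ⊆ ball x₀ R) :
    ContDiffAt ℝ ∞ f x ∧ ∀ M : ℝ, (∀ y ∈ closedBall x r, ‖f y‖ ≤ M) →
      ‖fderiv ℝ f x‖ ≤ M * (r⁻¹ * ∫ w, ‖fderiv ℝ η w‖) := by
  obtain ⟨δ, hδ, hs⟩ := slack hr h
  set g : EE n → F := (closedBall x (r + δ)).indicator f with hg
  have hgi : Integrable g volume := ind_int hf.1 hs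
  have hev : f =ᶠ[𝓝 x] (g ⋆[LL F, volume] kap n η r) := by
    filter_upwards [ball_mem_nhds x hδ] with x' hx'
    exact repr_near h1 hf hr hs hx'
  have hcs := kap_cs h1 hr
  have hks := kap_smooth hη r
  have hsm : ContDiff ℝ ∞ (g ⋆[LL F, volume] kap n η r) :=
    hcs.contDiff_convolution_right (LL F) hgi.locallyIntegrable hks
  refine ⟨hsm.contDiffAt.congr_of_eventuallyEq hev, fun M hM => ?_⟩
  have hk1 : ContDiff ℝ 1 (kap n η r) := hks.of_le (by simp)
  have hd := hcs.hasFDerivAt_convolution_right (LL F) hgi.locallyIntegrable hk1 x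
  rw [hev.fderiv_eq, hd.fderiv, convolution_def]
  have hcsd : HasCompactSupport (fderiv ℝ (kap n η r)) := hcs.fderiv ℝ
  have hcd : Continuous (fderiv ℝ (kap n η r)) := hk1.continuous_fderiv one_ne_zero
  have hbi : Integrable (fun t => M * ‖fderiv ℝ (kap n η r) (x - t)‖) volume := by
    have h2 : Integrable (fderiv ℝ (kap n η r)) volume := hcd.integrable_of_hasCompactSupport hcsd
    exact ((h2.comp_sub_left x).norm).const_mul M
  refine (norm_integral_le_of_norm_le hbi (Eventually.of_forall fun t => ?_)).trans ?_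
  · by_cases ht : t ∈ closedBall x r
    · have hgt : ‖g t‖ ≤ M := by
        have : t ∈ closedBall x (r + δ) := closedBall_subset_closedBall (by linarith) ht
        rw [hg, indicator_of_mem this]
        exact hM t ht
      have h4 : 0 ≤ M := (norm_nonneg _).trans hgt
      refine ContinuousLinearMap.opNorm_le_bound _ (by positivity) fun v => ?_
      change ‖LL F (g t) ((fderiv ℝ (kap n η r) (x - t)) v)‖ ≤ _
      rw [LL_apply, norm_smul]
      have h3 := (fderiv ℝ (kap n η r) (x - t)).le_opNorm v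
      calc ‖(fderiv ℝ (kap n η r) (x - t)) v‖ * ‖g t‖
          ≤ (‖fderiv ℝ (kap n η r) (x - t)‖ * ‖v‖) * M := by gcongr
        _ = M * ‖fderiv ℝ (kap n η r) (x - t)‖ * ‖v‖ := by ring
    · have hz : fderiv ℝ (kap n η r) (x - t) = 0 := by
        have h5 : kap n η r =ᶠ[𝓝 (x - t)] fun _ => 0 := by
          have h6 : r < ‖x - t‖ := by
            rw [mem_closedBall, dist_comm, dist_eq_norm, not_le] at ht
            exact ht
          have h7 : ∀ᶠ w in 𝓝 (x - t), r < ‖w‖ :=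
            continuous_norm.continuousAt.eventually_const_lt h6
          filter_upwards [h7] with w hw
          exact kap_zero h1 hr hw.le
        rw [h5.fderiv_eq]
        simp
      rw [hz]
      simp
  · rw [integral_const_mul, integral_sub_left_eq_self (fun w => ‖fderiv ℝ (kap n η r) w‖) volume x,
      kap_int hη hr]

lemma smooth_on {n : ℕ} {η : EE n → ℝ} (hη : ContDiff ℝ ∞ η) (h1 : ∀ z, 1 ≤ ‖z‖ → η z = 0)
    {f : EE n → F} {x₀ : EE n} {R : ℝ} (hf : MV η f x₀ R) : ContDiffOn ℝ ∞ f (ball x₀ R) := by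
  intro x hx
  obtain ⟨r, hr, h⟩ := nhds_basis_closedBall.mem_iff.1 (isOpen_ball.mem_nhds hx)
  exact (key hη h1 hf hr h).1.contDiffWithinAt

lemma cont_smul {n : ℕ} {η : EE n → ℝ} (hη : ContDiff ℝ ∞ η) (h1 : ∀ z, 1 ≤ ‖z‖ → η z = 0)
    {h : EE n → F} {x₀ : EE n} {R : ℝ} (hh : ContinuousOn h (ball x₀ R)) {x : EE n} {r : ℝ}
    (hr : 0 < r) (hx : closedBall x r ⊆ ball x₀ R) : Continuous fun z => η z • h (x + r • z) := by
  rw [continuous_iff_continuousAt]
  intro z
  by_cases hz : ‖z‖ ≤ 1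
  · have hmem : x + r • z ∈ ball x₀ R := by
      apply hx
      rw [mem_closedBall, dist_eq_norm, add_sub_cancel_left, norm_smul, Real.norm_eq_abs,
        abs_of_pos hr]
      nlinarith
    have h2 : ContinuousAt h (x + r • z) := hh.continuousAt (isOpen_ball.mem_nhds hmem)
    have h3 : ContinuousAt (fun z : EE n => x + r • z) z := by fun_prop
    exact hη.continuous.continuousAt.smul (ContinuousAt.comp (f := fun z : EE n => x + r • z) h2 h3)
  · have h7 : ∀ᶠ w in 𝓝 z, 1 < ‖w‖ :=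
      continuous_norm.continuousAt.eventually_const_lt (not_le.1 hz)
    refine (continuousAt_const (y := (0 : F))).congr ?_
    filter_upwards [h7] with w hw
    rw [h1 w hw.le, zero_smul]

lemma int_smul {n : ℕ} {η : EE n → ℝ} (hη : ContDiff ℝ ∞ η) (h1 : ∀ z, 1 ≤ ‖z‖ → η z = 0)
    {h : EE n → F} {x₀ : EE n} {R : ℝ} (hh : ContinuousOn h (ball x₀ R)) {x : EE n} {r : ℝ}
    (hr : 0 < r) (hx : closedBall x r ⊆ ball x₀ R) :
    Integrable (fun z => η z • h (x + r • z)) volume := by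
  refine (cont_smul hη h1 hh hr hx).integrable_of_hasCompactSupport ?_
  refine HasCompactSupport.intro (isCompact_closedBall 0 1) fun w hw => ?_
  rw [mem_closedBall_zero_iff, not_le] at hw
  simp only [h1 w hw.le, zero_smul]

lemma room {n : ℕ} {x x' z : EE n} {r δ : ℝ} (hr : 0 < r) (hx' : x' ∈ ball x δ) (hz : ‖z‖ < 1) :
    x' + r • z ∈ closedBall x (r + δ) := by
  have hd : dist x' x < δ := hx'
  rw [mem_closedBall, dist_eq_norm]
  have : x' + r • z - x = (x' - x) + r • z := by abel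
  rw [this]
  refine (norm_add_le _ _).trans ?_
  rw [norm_smul, Real.norm_eq_abs, abs_of_pos hr, ← dist_eq_norm]
  have : r * ‖z‖ ≤ r := by nlinarith
  linarith

lemma mvd {n : ℕ} {η : EE n → ℝ} (hη : ContDiff ℝ ∞ η) (h1 : ∀ z, 1 ≤ ‖z‖ → η z = 0)
    {f : EE n → F} {x₀ : EE n} {R : ℝ} (hf : MV η f x₀ R) : MV η (fderiv ℝ f) x₀ R := by
  have hsm := smooth_on hη h1 hf
  have hcd : ContinuousOn (fderiv ℝ f) (ball x₀ R) :=
    hsm.continuousOn_fderiv_of_isOpen isOpen_ball (by simp)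
  refine ⟨hcd, fun x r hr h => ?_⟩
  obtain ⟨δ, hδ, hs⟩ := slack hr h
  obtain ⟨B, hB⟩ := (isCompact_closedBall x (r + δ)).exists_bound_of_continuousOn (hcd.mono hs)
  have hsub : ∀ x' ∈ ball x δ, closedBall x' r ⊆ ball x₀ R := by
    intro x' hx'
    refine subset_trans (closedBall_subset_closedBall' ?_) hs
    have : dist x' x < δ := hx'
    linarith
  have hη0 : Integrable η volume := by
    refine hη.continuous.integrable_of_hasCompactSupport ?_
    refine HasCompactSupport.intro (isCompact_closedBall 0 1) fun w hw => ?_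
    rw [mem_closedBall_zero_iff, not_le] at hw
    exact h1 w hw.le
  have key2 : HasFDerivAt (fun x' => ∫ z, η z • f (x' + r • z)) (∫ z, η z • fderiv ℝ f (x + r • z)) x := by
    refine hasFDerivAt_integral_of_dominated_of_fderiv_le (μ := volume)
      (F := fun x' z => η z • f (x' + r • z)) (F' := fun x' z => η z • fderiv ℝ f (x' + r • z))
      (bound := fun z => ‖η z‖ * B) (ball_mem_nhds x hδ) ?_ ?_ ?_ ?_ ?_ ?_
    · filter_upwards [ball_mem_nhds x hδ] with x' hx'
      exact (cont_smul hη h1 hf.1 hr (hsub x' hx')).aestronglyMeasurable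
    · exact int_smul hη h1 hf.1 hr h
    · exact (cont_smul hη h1 hcd hr h).aestronglyMeasurable
    · refine Eventually.of_forall fun z x' hx' => ?_
      by_cases hz : 1 ≤ ‖z‖
      · simp [h1 z hz]
      · rw [norm_smul]
        exact mul_le_mul_of_nonneg_left (hB _ (room hr hx' (not_le.1 hz))) (norm_nonneg _)
    · exact hη0.norm.mul_const B
    · refine Eventually.of_forall fun z x' hx' => ?_
      by_cases hz : 1 ≤ ‖z‖
      · simp only [h1 z hz, zero_smul]
        exact hasFDerivAt_const _ _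
      · have hmem := hs (room hr hx' (not_le.1 hz))
        have h2 : DifferentiableAt ℝ f (x' + r • z) :=
          (hsm.differentiableOn (by simp)).differentiableAt (isOpen_ball.mem_nhds hmem)
        have h3 : HasFDerivAt (fun y : EE n => f (y + r • z)) (fderiv ℝ f (x' + r • z)) x' := by
          have h4 := HasFDerivAt.comp x' (f := fun y : EE n => y + r • z) h2.hasFDerivAt
            ((hasFDerivAt_id x').add_const (r • z))
          rwa [ContinuousLinearMap.comp_id] at h4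
        exact h3.const_smul (η z)
  have hev : f =ᶠ[𝓝 x] fun x' => ∫ z, η z • f (x' + r • z) := by
    filter_upwards [ball_mem_nhds x hδ] with x' hx'
    exact hf.2 x' r hr (hsub x' hx')
  rw [hev.fderiv_eq, key2.fderiv]

lemma bound {n : ℕ} {η : EE n → ℝ} (hη : ContDiff ℝ ∞ η) (h1 : ∀ z, 1 ≤ ‖z‖ → η z = 0) {C : ℝ}
    (hC : ∫ w, ‖fderiv ℝ η w‖ ≤ C) : ∀ (k : ℕ) (F : Type) [NormedAddCommGroup F] [NormedSpace ℝ F]
    (f : EE n → F) (x₀ : EE n) (R : ℝ), MV η f x₀ R → ∀ (M : ℝ) (x : EE n) (ρ : ℝ), 0 < ρ →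
      closedBall x ρ ⊆ ball x₀ R → (∀ y ∈ closedBall x ρ, ‖f y‖ ≤ M) →
      ‖iteratedFDeriv ℝ k f x‖ ≤ M * (C * k / ρ) ^ k
  | 0, F, _, _, f, x₀, R, hf, M, x, ρ, hρ, h, hM => by
    rw [norm_iteratedFDeriv_zero]
    simpa using hM x (mem_closedBall_self hρ.le)
  | k + 1, F, _, _, f, x₀, R, hf, M, x, ρ, hρ, h, hM => by
    have hM0 : 0 ≤ M := (norm_nonneg _).trans (hM x (mem_closedBall_self hρ.le))
    have hk1 : (0 : ℝ) < (k : ℝ) + 1 := by positivity
    -- derivative bound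
    have hder : ∀ y, closedBall y (ρ / (k + 1)) ⊆ closedBall x ρ →
        ‖fderiv ℝ f y‖ ≤ M * (C * (k + 1) / ρ) := by
      intro y hy
      have hr : 0 < ρ / (k + 1) := by positivity
      have h2 := (key hη h1 hf hr (hy.trans h)).2 M (fun z hz => hM z (hy hz))
      refine h2.trans ?_
      refine mul_le_mul_of_nonneg_left ?_ hM0
      rw [inv_div]
      calc (↑k + 1) / ρ * ∫ w, ‖fderiv ℝ η w‖ ≤ (↑k + 1) / ρ * C := by gcongr
        _ = C * (k + 1) / ρ := by ring
    rw [← norm_iteratedFDeriv_fderiv]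
    by_cases hk : k = 0
    · subst hk
      rw [norm_iteratedFDeriv_zero]
      have h3 := hder x (by simp)
      simpa using h3
    · have hkpos : (0 : ℝ) < k := by exact_mod_cast Nat.pos_of_ne_zero hk
      have hρ' : 0 < ρ * k / (k + 1) := by positivity
      have hle : ρ * k / (k + 1) + ρ / (k + 1) = ρ := by field_simp
      have h4 := bound hη h1 hC k (EE n →L[ℝ] F) (fderiv ℝ f) x₀ R (mvd hη h1 hf)
        (M * (C * (k + 1) / ρ)) x (ρ * k / (k + 1)) hρ'
        (subset_trans (closedBall_subset_closedBall (by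
          have : 0 ≤ ρ / (k + 1) := by positivity
          linarith)) h)
        (fun y hy => hder y (closedBall_subset_closedBall' (by
          have : dist y x ≤ ρ * k / (k + 1) := hy
          linarith)))
      refine h4.trans (le_of_eq ?_)
      have e : C * k / (ρ * k / (k + 1)) = C * (k + 1) / ρ := by field_simp
      rw [e]
      push_cast
      ring

/-- TARGET -/
theorem reg (n : ℕ) (hn : 1 ≤ n) (η : EuclideanSpace ℝ (Fin n) → ℝ) (hη : ContDiff ℝ ∞ η)
    (h0 : ∀ z, 0 ≤ η z) (h1 : ∀ z, 1 ≤ ‖z‖ → η z = 0) (hint : ∫ z, η z = 1) :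
    ∃ C : ℝ, 1 ≤ C ∧ ∀ (F : Type) [NormedAddCommGroup F] [NormedSpace ℝ F] [CompleteSpace F]
      (f : EuclideanSpace ℝ (Fin n) → F) (x₀ : EuclideanSpace ℝ (Fin n)) (R : ℝ), 0 < R →
      ContinuousOn f (ball x₀ R) →
      (∀ (x : EuclideanSpace ℝ (Fin n)) (r : ℝ), 0 < r → closedBall x r ⊆ ball x₀ R →
        f x = ∫ z, η z • f (x + r • z)) →
      ContDiffOn ℝ ∞ f (ball x₀ R) ∧
      (∀ (x : EuclideanSpace ℝ (Fin n)) (r : ℝ), 0 < r → closedBall x r ⊆ ball x₀ R →
        fderiv ℝ f x = ∫ z, η z • fderiv ℝ f (x + r • z)) ∧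
      ∀ (M : ℝ) (k : ℕ) (x : EuclideanSpace ℝ (Fin n)) (ρ : ℝ), 0 < ρ →
        closedBall x ρ ⊆ ball x₀ R → (∀ y ∈ closedBall x ρ, ‖f y‖ ≤ M) →
        ‖iteratedFDeriv ℝ k f x‖ ≤ M * (C * k / ρ) ^ k := by
  refine ⟨max 1 (∫ w, ‖fderiv ℝ η w‖), le_max_left _ _, ?_⟩
  intro F _ _ _ f x₀ R _ hfc hfm
  have hf : MV η f x₀ R := ⟨hfc, hfm⟩
  refine ⟨smooth_on hη h1 hf, (mvd hη h1 hf).2, ?_⟩
  intro M k x ρ hρ h hM
  exact bound hη h1 (le_max_right _ _) k F f x₀ R hf M x ρ hρ h hM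

end Pool.Agent.Helper688.Crit.REG
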