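import Pool.Agent.Helper688_Crit.Defs
import Pool.Agent.Helper688_Crit.APX
import Pool.Agent.Helper688_Crit.EE

/-!
# Transfer to Euclidean space
-/

set_option autoImplicit false

open MeasureTheory Metric Set Filter Topology
open scoped ContDiff ENNReal NNReal

namespace Pool.Agent.Helper688.Crit.TRA

open Pool.Agent.Helper688.Crit

variable {n : ℕ}

/-- the pull back to `Fin n → ℝ` -/
noncomputable def pb (f : E n → ℝ) : (Fin n → ℝ) → ℝ := fun x => f (WithLp.toLp 2 x)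

theorem pp_pb (l : Fin n) (f : E n → ℝ) (x : Fin n → ℝ) :
    pp l (pb f) x = pd l f (WithLp.toLp 2 x) := by
  have h : pb f = f ∘ ((EuclideanSpace.equiv (Fin n) ℝ).symm) := rfl
  rw [pp, h, ContinuousLinearEquiv.comp_right_fderiv]
  rfl

theorem lint (f : E n → ℝ≥0∞) (Om : Set (E n)) :
    ∫⁻ x in Om, f x = ∫⁻ x in (WithLp.toLp 2) ⁻¹' Om, f (WithLp.toLp 2 x : E n) := by
  have h := PiLp.volume_preserving_toLp (Fin n)
  rw [← h.setLIntegral_comp_preimage_emb (MeasurableEquiv.toLp 2 (Fin n → ℝ)).measurableEmbedding]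

theorem pb_diff (f : E n → ℝ) (x : Fin n → ℝ) (hf : DifferentiableAt ℝ f (WithLp.toLp 2 x)) :
    DifferentiableAt ℝ (pb f) x := by
  have h : pb f = f ∘ ((EuclideanSpace.equiv (Fin n) ℝ).symm) := rfl
  rw [h]
  refine DifferentiableAt.comp x ?_ (ContinuousLinearEquiv.differentiableAt _)
  exact hf

theorem fam_apx (A : ℝ) (hA : 1 ≤ A) (P : Fin n → E n → ℝ) (hP : Fam n A P) :
    ∃ Tp : Fin n → ℕ → MvPolynomial (Fin n) ℝ,
      Apx n (4 * A) ((WithLp.toLp 2) ⁻¹' (closedBall (0 : E n) (1 / (8 * A))))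
        (fun a => pb (P a)) Tp := by
  choose Tp h1 h2 using fun a => APX.apx n (P a) A hA (hP.smooth a) (hP.bd a)
  have hA0 : 0 < A := by linarith
  have h8 : 1 / (8 * A) ≤ 1 / 8 := by
    apply one_div_le_one_div_of_le (by norm_num)
    linarith
  have hin : ∀ x ∈ (WithLp.toLp 2) ⁻¹' (closedBall (0 : E n) (1 / (8 * A))),
      (WithLp.toLp 2 x : E n) ∈ ball (0 : E n) 1 := by
    intro x hx
    rw [mem_preimage, mem_closedBall_zero_iff] at hx
    rw [mem_ball_zero_iff]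
    linarith
  refine ⟨Tp, ⟨?_, ?_, ?_, ?_, h1, ?_, ?_⟩⟩
  · intro a x hx
    apply pb_diff
    exact ((hP.smooth a).differentiableOn (by simp)).differentiableAt
      (isOpen_ball.mem_nhds (hin x hx))
  · intro x hx l
    rw [mem_preimage, mem_closedBall_zero_iff] at hx
    have := PiLp.norm_apply_le (WithLp.toLp 2 x : E n) l
    rw [Real.norm_eq_abs] at this
    have h3 : |x l| ≤ ‖(WithLp.toLp 2 x : E n)‖ := this
    linarith
  · intro a x hx
    have := hP.bd a 0 _ (hin x hx)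
    rw [norm_iteratedFDeriv_zero] at this
    simpa [pb] using this
  · intro a l x hx
    rw [pp_pb]
    have h3 := hP.bd a 1 _ (hin x hx)
    rw [norm_iteratedFDeriv_one] at h3
    have h4 := (fderiv ℝ (P a) (WithLp.toLp 2 x)).le_opNorm (EuclideanSpace.single l 1)
    rw [EuclideanSpace.norm_single] at h4
    simp only [norm_one, mul_one, pow_one, Nat.factorial_one, Nat.cast_one] at h3 h4
    rw [Real.norm_eq_abs] at h4
    unfold pd
    linarith
  · intro a k x hx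
    rw [mem_preimage, mem_closedBall_zero_iff] at hx
    exact (h2 a k _ hx).1
  · intro a k l x hx
    rw [mem_preimage, mem_closedBall_zero_iff] at hx
    rw [pp_pb]
    exact (h2 a k _ hx).2 l

theorem E1 (hR : EE.StRAT2) (n : ℕ) (A : ℝ) (hA : 1 ≤ A) : ∃ C : ℝ, 0 ≤ C ∧
    ∀ (P : Fin n → E n → ℝ), Fam n A P →
    ∀ (T : ℝ), 0 ≤ T → ∀ (a b c i j : Fin n) (Om : Set (E n)), MeasurableSet Om →
    Om ⊆ closedBall (0 : E n) (1 / (8 * A)) →
    (∀ x ∈ Om, Real.exp (-T) ≤ |P c x| ∧ |P a x| ≤ |P c x| ∧ |P b x| ≤ |P c x|) →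
    ∫⁻ x in Om, ENNReal.ofReal |WW P c a i x * WW P c b j x - WW P c a j x * WW P c b i x| ≤
      ENNReal.ofReal (C * (T + 1) ^ 2) := by
  obtain ⟨C, hC⟩ := EE.E1 hR n (4 * A) (by linarith)
  refine ⟨max C 0, le_max_right _ _, ?_⟩
  intro P hP T hT a b c i j Om hOm hOm2 hx
  obtain ⟨Tp, hTp⟩ := fam_apx A hA P hP
  have h := hC _ _ _ hTp T hT a b c i j ((WithLp.toLp 2) ⁻¹' Om)
    ((PiLp.volume_preserving_toLp (Fin n)).measurable hOm) (preimage_mono hOm2)
    (fun x hx' => hx _ hx')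
  rw [lint]
  refine le_trans (le_of_eq ?_) (h.trans ?_)
  · simp only [pp_pb]
    rfl
  · apply ENNReal.ofReal_le_ofReal
    exact mul_le_mul_of_nonneg_right (le_max_left _ _) (by positivity)

theorem E2 (hR : EE.StPOL3) (n : ℕ) (A : ℝ) (hA : 1 ≤ A) : ∃ C : ℝ, 0 ≤ C ∧
    ∀ (P : Fin n → E n → ℝ), Fam n A P →
    ∀ (t : ℝ), 0 ≤ t → ∀ (p q i j : Fin n) (Om : Set (E n)), MeasurableSet Om →
    Om ⊆ closedBall (0 : E n) (1 / (8 * A)) →
    (∀ x ∈ Om, ∀ a, |P a x| ≤ Real.exp (-t)) →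
    ∫⁻ x in Om, ENNReal.ofReal |JJ P p q i j x| ≤
      ENNReal.ofReal (C * (t + 1) ^ 3 * Real.exp (-3 * t)) := by
  obtain ⟨C, hC⟩ := EE.E2 hR n (4 * A) (by linarith)
  refine ⟨max C 0, le_max_right _ _, ?_⟩
  intro P hP t ht p q i j Om hOm hOm2 hx
  obtain ⟨Tp, hTp⟩ := fam_apx A hA P hP
  have h := hC _ _ _ hTp t ht p q i j ((WithLp.toLp 2) ⁻¹' Om)
    ((PiLp.volume_preserving_toLp (Fin n)).measurable hOm) (preimage_mono hOm2)
    (fun x hx' => hx _ hx')
  rw [lint]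
  refine le_trans (le_of_eq ?_) (h.trans ?_)
  · simp only [pp_pb]
    rfl
  · apply ENNReal.ofReal_le_ofReal
    refine mul_le_mul_of_nonneg_right (mul_le_mul_of_nonneg_right (le_max_left _ _) (by positivity))
      (by positivity)

end Pool.Agent.Helper688.Crit.TRA
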